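import Pool.Agent.H57.SL.Dic
import Pool.Agent.H67.SX.Defs
import Pool.Agent.H63.MA.GFrob
import Pool.Agent.H57.LC.Asm
import Pool.Agent.H1.LS4.Gal

/-!
# H57 SL DEF: definitions for the chapter LS of SX (MP_b39724_nt)

General dictionary (`K` number field, `Ω` algebraic closure, `Q.P l` a prime of `𝓞 Ω` over `l`):
* `fr Q l`: a Frobenius element at `Q.P l`. `pe E Q l ι`: the prime of `E` below `Q.P l` via `ι` (file `Dic`).
* `fx E σ`: the embeddings `ι` of `E` with `σ ∘ ι = ι`. `d1 K f l`: sum of `f` over the primes `w` of `E` over `l` with `nm w = nm l`.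
* `IT Ω E l`: the inertia groups over `l` act trivially on the embeddings of `E` (equivalent to `Unr K E l`).
* `Pb ι ι'`: the orbit of a pair of embeddings.

Characters of order 3: `Th E θ B`: `θ` is a homomorphism of finite level on `Gal(QBar/E)` with values in `ZMod 3`, unramified outside `B` and
3. `mB B = 27 ∏_{v ∈ B} v`. `Rs c E θ`: `E` is the quadratic resolvent of the cubic field `c.F` and `θ` gives the cubic extension of `E`.

Sums: `off T μ`: `μ` outside `T`, `0` on `T`. `XP p S Z`: pairs `x` of disjoint finite sets, disjoint from `S`, `nx p x = N x.1 (N x.2)^2 ≤ Z`,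
`bb μ x = ∏_{x.1} μ ∏_{x.2} (- 1 - μ)`. `WS S M`: number of the ideals prime to `S` of norm `≤ M`. `Bs`, `AV`, `FF`: see below; `FF μ = mq`.
-/

set_option autoImplicit false

open scoped NumberField Pointwise Classical
open IsDedekindDomain H63.MA NumberField H36.QA H57.LI H57.LC H1.LS4 H67.SX H38.ML

noncomputable section

namespace H57.SL

section dictionary

variable {K : Type} [Field K] [NumberField K] {Ω : Type} [Field Ω] [Algebra K Ω]

/-- a Frobenius element at `Q.P v` -/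
def fr [IsAlgClosure K Ω] (Q : DP K Ω) (v : Pl K) : Gal(Ω/K) :=
  (gfrob_ex (Q.P v) (Q.prime v) (Q.under v)).choose

theorem fr_spec [IsAlgClosure K Ω] (Q : DP K Ω) (v : Pl K) (x : 𝓞 Ω) :
    fr Q v • x - x ^ nm v ∈ Q.P v :=
  (gfrob_ex (Q.P v) (Q.prime v) (Q.under v)).choose_spec x

/-- the embeddings fixed by `σ` -/
def fx (F : Type) [Field F] [Algebra K F] (σ : Gal(Ω/K)) : Set (F →ₐ[K] Ω) := {ι | ac σ ι = ι}

variable (K) in
/-- the sum over the primes of degree one over `l` -/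
def d1 {E : Type} [Field E] [NumberField E] [Algebra K E] (f : Ideal (𝓞 E) →*₀ ℂ) (l : Pl K) :
    ℂ := ∑ᶠ w ∈ {w : Pl E | Over w l ∧ nm w = nm l}, f w.asIdeal

variable (Ω) in
/-- the inertia groups over `l` act trivially on the embeddings of `E` -/
def IT (E : Type) [Field E] [Algebra K E] (l : Pl K) : Prop :=
  ∀ P : Ideal (𝓞 Ω), P.IsPrime → P.under (𝓞 K) = l.asIdeal → ∀ τ ∈ P.inertia Gal(Ω/K),
    ∀ ι : E →ₐ[K] Ω, ac τ ι = ι

/-- the orbit of a pair of embeddings -/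
def Pb {F F' : Type} [Field F] [Algebra K F] [Field F'] [Algebra K F'] (ι : F →ₐ[K] Ω)
    (ι' : F' →ₐ[K] Ω) : Set ((F →ₐ[K] Ω) × (F' →ₐ[K] Ω)) :=
  {x | ∃ σ : Gal(Ω/K), x = (ac σ ι, ac σ ι')}

end dictionary

section three

variable {K : IntermediateField ℚ QBar} [NumberField K]

/-- the modulus -/
def mB (B : Finset (Pl K)) : Ideal (𝓞 K) := Ideal.span {27} * ∏ v ∈ B, v.asIdeal

/-- `θ` is a character of order three of `Gal(QBar/E)`, unramified outside `B` and `3` -/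
structure Th (E : IntermediateField K QBar) (θ : Gal(QBar/K) → ZMod 3) (B : Finset (Pl K)) :
    Prop where
  mul : ∀ σ ∈ E.fixingSubgroup, ∀ τ ∈ E.fixingSubgroup, θ (σ * τ) = θ σ + θ τ
  ft : ∃ M : IntermediateField K QBar, FiniteDimensional K M ∧
    ∀ σ ∈ M.fixingSubgroup, σ ∈ E.fixingSubgroup ∧ θ σ = 0
  unr : ∀ l : Pl K, ¬ Above 3 l → l ∉ B → ∀ P : Ideal (𝓞 QBar), P.IsPrime →
    P.under (𝓞 K) = l.asIdeal → ∀ τ ∈ P.inertia Gal(QBar/K), τ ∈ E.fixingSubgroup ∧ θ τ = 0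

/-- `E` is the quadratic resolvent of `c.F` and `θ` gives the cubic extension of `E` -/
structure Rs (c : Cu K) (E : IntermediateField K QBar) (θ : Gal(QBar/K) → ZMod 3) : Prop where
  deg : Module.finrank K E = 2
  ker : ∀ σ : Gal(QBar/K), (∀ ι : c.F →ₐ[K] QBar, ac σ ι = ι) ↔
    σ ∈ E.fixingSubgroup ∧ θ σ = 0
  mul : ∀ σ ∈ E.fixingSubgroup, ∀ τ ∈ E.fixingSubgroup, θ (σ * τ) = θ σ + θ τ
  inv : ∀ σ ∈ E.fixingSubgroup, ∀ τ, τ ∉ E.fixingSubgroup → θ (τ⁻¹ * σ * τ) = - θ σ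
  non : ∃ σ ∈ E.fixingSubgroup, θ σ ≠ 0
  fix0 : ∀ σ, σ ∉ E.fixingSubgroup → (fx c.F σ).ncard = 1
  fix1 : ∀ σ ∈ E.fixingSubgroup, θ σ ≠ 0 → (fx c.F σ).ncard = 0

/-- the number of the fixed embeddings minus one -/
def mm (c : Cu K) (σ : Gal(QBar/K)) : ℝ := ((fx c.F σ).ncard : ℝ) - 1

/-- two pairs are conjugate -/
def Cj {S : Finset (Pl K)} (x y : AQ K S) : Prop :=
  ∃ e : x.c.F ≃ₐ[K] y.c.F, ∀ I : Ideal (𝓞 x.c.F), y.χ.χ (gm e I) = x.χ.χ I

end three

section sums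

variable {ι : Type}

/-- `μ` outside `T` -/
def off (T : Finset ι) (μ : ι → ℝ) (i : ι) : ℝ := if i ∈ T then 0 else μ i

/-- the norm of a pair -/
def nx (p : Pr ι) (x : Finset ι × Finset ι) : ℝ := p.nn x.1 * p.nn x.2 ^ 2

/-- the pairs of norm at most `Z` -/
def XP (p : Pr ι) (S : Finset ι) (Z : ℝ) : Finset (Finset ι × Finset ι) :=
  (p.SF Z ×ˢ p.SF Z).filter fun x =>
    Disjoint x.1 x.2 ∧ Disjoint x.1 S ∧ Disjoint x.2 S ∧ nx p x ≤ Z

/-- the coefficient of a pair -/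
def bb (μ : ι → ℝ) (x : Finset ι × Finset ι) : ℝ := pd μ x.1 * pd (fun i => -(1 + μ i)) x.2

/-- the sum of the coefficients -/
def Bs (p : Pr ι) (S : Finset ι) (μ : ι → ℝ) (Z : ℝ) : ℝ := ∑ x ∈ XP p S Z, bb μ x

/-- the mean value up to `V` -/
def AV (p : Pr ι) (S : Finset ι) (μ : ι → ℝ) (V : ℝ) : ℝ := ∑ x ∈ XP p S V, bb μ x / nx p x

variable {K : Type} [Field K] [NumberField K]

/-- the number of the ideals prime to `S` -/
def WS (S : Finset (Pl K)) (M : ℝ) : ℝ :=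
  (((IN K M).filter fun I => ∀ v ∈ S, ¬ v.asIdeal ∣ I).card : ℝ)

/-- the convolution -/
def FF (S : Finset (Pl K)) (μ : Pl K → ℝ) (Y : ℝ) : ℝ :=
  ∑ x ∈ XP (prK K) S Y, bb μ x * WS S (Y / nx (prK K) x)

end sums

end H57.SL
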