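import Pool.Agent.H57.SL.Int
import Pool.Agent.H63.MA.Pv

/-!
# [H57 SL WSM] the ideals prime to `S` (60-90 lines)

Induction on `S` (`Finset.induction_on`) of `∃ κ, WSM K S κ`: for `S = ∅`: `H63.MA.cnt K` (`H63/MA/Pv.lean`; enlarge `C` to be `≥ 1`, diminish `δ` to be `≤ 1/4`). Step:
`WS (insert v S) M = WS S M - WS S (M / nm v)` for `v ∉ S` (the ideals `I` of norm `≤ M`, prime to `S`, divisible by `v` are `v J` with `J` prime to `S`, `N J ≤ M / nm v`;
`v J` is prime to `S`: a prime `w ≠ v` divides `v J` iff it divides `J`). So `κ' = κ (1 - 1 / nm v) > 0`, `C' = 2 C + κ` (for `M / nm v < 1` the second count is `0` and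
`κ M / nm v ≤ κ`).

`kS_spec`: by definition of `kS`. `wsm_zero`: no ideals of norm `< 1` (the ideals of `IN K M` are nonzero). `wsm_card`: trivial upper bound from `kS_spec`:
`C M^(1-δ) + κ M ≤ C' M`. `wsm_sum`: `∑_{I ∈ IN K M} 1 / N I ≤ C (1 + log M)`: by the upper bound `#IN K M ≤ C M` (`kS_spec` with `S = ∅`, or `pzb_card` in `H63/MA/PZb`) and summation over
the dyadic intervals `2^j ≤ N I < 2^(j+1)`, `j ≤ log_2 M`.
-/

set_option autoImplicit false

open scoped NumberField Classical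
open IsDedekindDomain H63.MA NumberField H36.QA H57.LI H57.LC H67.SX H38.ML

noncomputable section

namespace H57.SL

private theorem wsm_U {K : Type} [Field K] [NumberField K] (S : Finset (Pl K)) (g : Pl K → ℂ)
    {M : ℝ} (hM : 0 ≤ M) : (idG K).U (prK K) g 1 ∅ S M = ((WS S M : ℝ) : ℂ) := by
  unfold GM.U WS
  rw [Finset.powerset_empty, Finset.sum_singleton]
  have h1 : (prK K).nn ∅ = 1 := by
    unfold Pr.nn
    rw [Finset.prod_empty]
  rw [h1, div_one]
  have h2 : ∀ I : nonZeroDivisors (Ideal (𝓞 K)), (∏ i ∈ (∅ : Finset (Pl K)), g i) *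
      (1 : nonZeroDivisors (Ideal (𝓞 K)) →* ℂ) I = 1 := by
    intro I
    simp
  rw [Finset.sum_congr rfl fun I _ => h2 I, Finset.sum_const, nsmul_eq_mul, mul_one]
  push_cast
  norm_cast
  refine Finset.card_bij (fun I _ => (I : Ideal (𝓞 K))) ?_ ?_ ?_
  · intro I hI
    rw [Finset.mem_filter, (idG K).mem_B] at hI
    rw [Finset.mem_filter, mem_IN hM]
    refine ⟨⟨hI.1, idg_ne K I⟩, fun v hv h => hI.2 v hv ?_⟩
    obtain ⟨J, hJ⟩ := h
    have hJ0 : J ∈ nonZeroDivisors (Ideal (𝓞 K)) := by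
      apply mem_nonZeroDivisors_of_ne_zero
      rintro rfl
      rw [mul_zero] at hJ
      exact idg_ne K I (by rw [hJ, Ideal.zero_eq_bot])
    exact ⟨⟨J, hJ0⟩, Subtype.ext hJ⟩
  · intro I _ J _ h
    exact Subtype.ext h
  · intro I hI
    rw [Finset.mem_filter, mem_IN hM] at hI
    refine ⟨⟨I, mem_nonZeroDivisors_of_ne_zero (by rw [Ideal.zero_eq_bot]; exact hI.1.2)⟩, ?_, rfl⟩
    rw [Finset.mem_filter, (idG K).mem_B]
    refine ⟨hI.1.1, fun v hv h => hI.2 v hv ?_⟩
    obtain ⟨J, hJ⟩ := h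
    exact ⟨(J : Ideal (𝓞 K)), congrArg Subtype.val hJ⟩

private theorem wsm_step {K : Type} [Field K] [NumberField K] (S : Finset (Pl K)) {v : Pl K}
    (hv : v ∉ S) {M : ℝ} (hM : 0 ≤ M) : WS (insert v S) M = WS S M - WS S (M / nm v) := by
  have h := U_S (idG K) (prK K) (fun _ => 0) 1 ∅ S v hv M
  rw [idG_Npr, wsm_U _ _ hM, wsm_U _ _ hM, wsm_U _ _ (by positivity), MonoidHom.one_apply,
    one_mul] at h
  exact_mod_cast h

theorem wsm_zero {K : Type} [Field K] [NumberField K] (S : Finset (Pl K)) (M : ℝ)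
    (hM : M < 1) : WS S M = 0 := by
  unfold WS
  rw [Nat.cast_eq_zero, Finset.card_eq_zero, Finset.filter_eq_empty_iff]
  intro I hI
  exfalso
  unfold IN at hI
  rw [Finset.mem_filter, Set.Finite.mem_toFinset] at hI
  have h0 : ⌊M⌋₊ = 0 := Nat.floor_eq_zero.2 hM
  rw [h0] at hI
  apply hI.2
  have h1 : Ideal.absNorm I ≤ 0 := hI.1
  exact Ideal.absNorm_eq_zero_iff.1 (by omega)

theorem wsm (K : Type) [Field K] [NumberField K] (S : Finset (Pl K)) : ∃ κ, WSM K S κ := by
  induction S using Finset.induction_on with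
  | empty =>
    obtain ⟨κ, C, δ, hκ, hC, hδ, hδ1, h⟩ := cnt K
    refine ⟨κ, hκ, max C 1, min δ (1 / 4), le_max_right _ _, lt_min hδ (by norm_num),
      min_le_right _ _, fun M hM => ?_⟩
    have h1 : WS (∅ : Finset (Pl K)) M = ((IN K M).card : ℝ) := by
      unfold WS
      simp
    rw [h1]
    refine (h M hM).trans (mul_le_mul (le_max_left _ _) ?_ (by positivity) (by positivity))
    exact Real.rpow_le_rpow_of_exponent_le hM (by linarith [min_le_left δ (1 / 4)])
  | insert v S hv ih =>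
    obtain ⟨κ, hκ, C, δ, hC, hδ, hδ4, h⟩ := ih
    have hN : (2 : ℝ) ≤ nm v := by
      have := prk_two v
      exact_mod_cast this
    have hN0 : (0 : ℝ) < nm v := by linarith
    refine ⟨κ * (1 - 1 / nm v), mul_pos hκ ?_, 2 * C + κ, δ, by linarith, hδ, hδ4, fun M hM => ?_⟩
    · have : 1 / (nm v : ℝ) ≤ 1 / 2 := one_div_le_one_div_of_le (by norm_num) hN
      linarith
    · rw [wsm_step S hv (by linarith)]
      have e : WS S M - WS S (M / nm v) - κ * (1 - 1 / nm v) * M =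
          (WS S M - κ * M) - (WS S (M / nm v) - κ * (M / nm v)) := by ring
      have hM1 : 1 ≤ M ^ (1 - δ) := Real.one_le_rpow hM (by linarith)
      have h2 : |WS S (M / nm v) - κ * (M / nm v)| ≤ (C + κ) * M ^ (1 - δ) := by
        by_cases hlt : M / nm v < 1
        · rw [wsm_zero S _ hlt, zero_sub, abs_neg, abs_of_nonneg (by positivity)]
          nlinarith
        · have h3 := h _ (not_lt.1 hlt)
          refine h3.trans ?_
          have h4 : (M / nm v) ^ (1 - δ) ≤ M ^ (1 - δ) :=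
            Real.rpow_le_rpow (by positivity) (div_le_self (by linarith) (by linarith))
              (by linarith)
          nlinarith
      rw [e]
      calc _ ≤ |WS S M - κ * M| + |WS S (M / nm v) - κ * (M / nm v)| := abs_sub _ _
        _ ≤ C * M ^ (1 - δ) + (C + κ) * M ^ (1 - δ) := add_le_add (h M hM) h2
        _ = (2 * C + κ) * M ^ (1 - δ) := by ring

theorem kS_spec (K : Type) [Field K] [NumberField K] (S : Finset (Pl K)) :
    WSM K S (kS S) := by
  unfold kS
  rw [dif_pos (wsm K S)]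
  exact (wsm K S).choose_spec

theorem wsm_card (K : Type) [Field K] [NumberField K] :
    ∃ C : ℝ, 1 ≤ C ∧ ∀ M : ℝ, 1 ≤ M → ((IN K M).card : ℝ) ≤ C * M := by
  obtain ⟨κ, C, δ, hκ, hC, hδ, hδ1, h⟩ := cnt K
  refine ⟨κ + C + 1, by linarith, fun M hM => ?_⟩
  have h3 := (abs_le.1 (h M hM)).2
  have h4 : M ^ (1 - δ) ≤ M := by
    calc M ^ (1 - δ) ≤ M ^ (1 : ℝ) := Real.rpow_le_rpow_of_exponent_le hM (by linarith)
      _ = M := Real.rpow_one M
  nlinarith

theorem wsm_sum (K : Type) [Field K] [NumberField K] :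
    ∃ C : ℝ, 1 ≤ C ∧ ∀ M : ℝ, 1 ≤ M →
      ∑ I ∈ IN K M, 1 / (Ideal.absNorm I : ℝ) ≤ C * (1 + Real.log M) := by
  obtain ⟨C, hC, h⟩ := wsm_card K
  refine ⟨4 * C, by linarith, fun M hM => ?_⟩
  have hM0 : (0 : ℝ) ≤ M := by linarith
  obtain ⟨L, hL⟩ : ∃ L, L = Nat.log 2 ⌊M⌋₊ := ⟨_, rfl⟩
  have hfl : ⌊M⌋₊ ≠ 0 := (Nat.floor_pos.2 hM).ne'
  have hLM : ((2 : ℝ) ^ L) ≤ M := by
    have h1 : 2 ^ L ≤ ⌊M⌋₊ := by
      rw [hL]
      exact Nat.pow_log_le_self 2 hfl
    calc ((2 : ℝ) ^ L) = ((2 ^ L : ℕ) : ℝ) := by push_cast; rfl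
      _ ≤ (⌊M⌋₊ : ℝ) := by exact_mod_cast h1
      _ ≤ M := Nat.floor_le hM0
  have hne : ∀ I ∈ IN K M, Ideal.absNorm I ≠ 0 := by
    intro I hI
    rw [mem_IN hM0] at hI
    rw [Ne, Ideal.absNorm_eq_zero_iff]
    exact hI.2
  have hmaps : ∀ I ∈ IN K M, Nat.log 2 (Ideal.absNorm I) ∈ Finset.range (L + 1) := by
    intro I hI
    rw [Finset.mem_range, hL]
    rw [mem_IN hM0] at hI
    have h1 : Ideal.absNorm I ≤ ⌊M⌋₊ := Nat.le_floor hI.1
    have h2 := Nat.log_mono_right (b := 2) h1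
    omega
  rw [← Finset.sum_fiberwise_of_maps_to hmaps]
  have hj : ∀ j ∈ Finset.range (L + 1),
      ∑ I ∈ (IN K M).filter (fun I => Nat.log 2 (Ideal.absNorm I) = j),
        1 / (Ideal.absNorm I : ℝ) ≤ 2 * C := by
    intro j _
    have h1 : ∀ I ∈ (IN K M).filter (fun I => Nat.log 2 (Ideal.absNorm I) = j),
        1 / (Ideal.absNorm I : ℝ) ≤ 1 / 2 ^ j := by
      intro I hI
      rw [Finset.mem_filter] at hI
      refine one_div_le_one_div_of_le (by positivity) ?_
      have h2 := Nat.pow_log_le_self 2 (hne I hI.1)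
      rw [hI.2] at h2
      exact_mod_cast h2
    refine (Finset.sum_le_sum h1).trans ?_
    rw [Finset.sum_const, nsmul_eq_mul]
    have h2 : (((IN K M).filter (fun I => Nat.log 2 (Ideal.absNorm I) = j)).card : ℝ) ≤
        C * 2 ^ (j + 1) := by
      refine le_trans ?_ (h (2 ^ (j + 1)) (one_le_pow₀ (by norm_num)))
      have h3 : (IN K M).filter (fun I => Nat.log 2 (Ideal.absNorm I) = j) ⊆
          IN K ((2 : ℝ) ^ (j + 1)) := by
        intro I hI
        rw [Finset.mem_filter, mem_IN hM0] at hI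
        rw [mem_IN (by positivity)]
        refine ⟨?_, hI.1.2⟩
        have h4 := Nat.lt_pow_succ_log_self (b := 2) (by norm_num) (Ideal.absNorm I)
        rw [hI.2] at h4
        exact_mod_cast h4.le
      exact_mod_cast Finset.card_le_card h3
    calc _ ≤ C * 2 ^ (j + 1) * (1 / 2 ^ j) := mul_le_mul_of_nonneg_right h2 (by positivity)
      _ = 2 * C := by
        rw [pow_succ]
        field_simp
  refine (Finset.sum_le_sum hj).trans ?_
  rw [Finset.sum_const, Finset.card_range, nsmul_eq_mul]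
  have hlog2 : (1 : ℝ) / 2 < Real.log 2 := by
    have := Real.log_two_gt_d9
    linarith
  have hlogM : (L : ℝ) * Real.log 2 ≤ Real.log M := by
    rw [← Real.log_pow]
    exact Real.log_le_log (by positivity) hLM
  have hL0 : (0 : ℝ) ≤ L := Nat.cast_nonneg _
  push_cast
  have h5 : (L : ℝ) ≤ 2 * Real.log M := by nlinarith
  have h6 : (L : ℝ) * (2 * C) ≤ 2 * Real.log M * (2 * C) :=
    mul_le_mul_of_nonneg_right h5 (by linarith)
  linarith

end H57.SL
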