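import Pool.Agent.H57.SL.Def
import Pool.Agent.H38.ML.EmbOrb

/-!
# [H57 SL DIU] the embeddings fixed by the Frobenius element and the primes of degree one (100-140 lines)

`F` a finite extension of `K` such that the inertia groups over `l` act trivially on the embeddings of `F` (`IT`), `φ = fr Q l`, `P = Q.P l`.

`dic_U`: two embeddings which are congruent modulo `P` on `𝓞 F` are equal: apply `H38.ML.exists_inertia` with `L = ι.fieldRange`, the inclusion and
`ι' ∘ ι⁻¹` (an integral element of `L` is `ι x` with `x ∈ 𝓞 F`): there is `τ` in the inertia group of `P` with `ι' = τ ∘ ι`, so `ι' = ι` by `IT`.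

`dic_fix`: `w = pe F Q l ι`, i.e. `x ∈ w ↔ ι x ∈ P`; `w` lies over `l` (`pe_over`), so `nm w = nm l ^ f`, `f ≥ 1` (`nm_over`). Let `q = nm l`. By `fr_spec`,
`φ (ι x) ≡ (ι x) ^ q = ι (x ^ q)` modulo `P` for `x ∈ 𝓞 F`. If `φ ∘ ι = ι` then `x ^ q ≡ x` modulo `w` for all `x`, so the field `𝓞 F / w` has at most `q` elements
(roots of `X ^ q - X`) and `nm w = q`. Conversely if `nm w = q` then `x ^ q ≡ x` modulo `w` (finite field with `q` elements), so `φ (ι x) ≡ ι x`, and
`φ ∘ ι = ι` by `dic_U`.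

`dic_bij`: well defined and surjective by `dic_fix`, `pe_over`, `pe_surj`. Injective: `pe ι = pe ι' = w`, `nm w = nm l`; then `𝓞 K / l → 𝓞 F / w` is bijective (injective
between fields with the same number of elements), so for `x ∈ 𝓞 F` there is `a ∈ 𝓞 K` with `x - a ∈ w`, and `ι x ≡ a ≡ ι' x` modulo `P` (`ι a = a = ι' a`). So `ι = ι'` by
`dic_U`. `dic_sum`: `finsum_mem` along `dic_bij` (`finsum_mem_eq_of_bijOn`).
-/

set_option autoImplicit false

open scoped NumberField Pointwise Classical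
open IsDedekindDomain H63.MA NumberField H1.LS4 H38.ML

noncomputable section

namespace H57.SL

variable {K : Type} [Field K] [NumberField K] {Ω : Type} [Field Ω] [Algebra K Ω]
  [IsAlgClosure K Ω] (F : Type) [Field F] [NumberField F] [Algebra K F]

theorem dic_U (Q : DP K Ω) (l : Pl K) (hl : IT Ω F l) (ι ι' : F →ₐ[K] Ω)
    (h : ∀ x : 𝓞 F, ro ι x - ro ι' x ∈ Q.P l) : ι = ι' := by
  have hfin : Module.Finite K F := Module.Finite.of_restrictScalars_finite ℚ K F
  let e : F ≃ₐ[K] ι.fieldRange := AlgEquiv.ofInjectiveField ι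
  have hfd : FiniteDimensional K ι.fieldRange := Module.Finite.equiv e.toLinearEquiv
  have he : ∀ z : F, ((e z : ι.fieldRange) : Ω) = ι z := fun z => rfl
  obtain ⟨τ, hτ, hτe⟩ := exists_inertia ι.fieldRange (Q.P l) (Q.prime l) ι.fieldRange.val
    (ι'.comp (e.symm : ι.fieldRange →ₐ[K] F)) (by
      intro x hx
      have hz : IsIntegral ℤ (e.symm x) := by
        have h3 : IsIntegral ℤ ((algebraMap ι.fieldRange Ω) x) := hx.algebraMap
        have h4 : (algebraMap ι.fieldRange Ω) x = ι (e.symm x) := by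
          rw [← he, AlgEquiv.apply_symm_apply]
          rfl
        rw [h4] at h3
        exact (isIntegral_algHom_iff (ι.restrictScalars ℤ) ι.toRingHom.injective).1 h3
      refine ⟨_, h ⟨e.symm x, hz⟩, ?_⟩
      show ι (e.symm x) - ι' (e.symm x) = (x : Ω) - ι' (e.symm x)
      rw [← he, AlgEquiv.apply_symm_apply])
  have h1 := hl (Q.P l) (Q.prime l) (Q.under l) τ hτ ι
  rw [← h1]
  apply AlgHom.ext
  intro z
  have h2 := DFunLike.congr_fun hτe (e z)
  have h3 : ι' (e.symm (e z)) = τ ((e z : ι.fieldRange) : Ω) := h2.symm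
  rw [AlgEquiv.symm_apply_apply, he] at h3
  exact h3.symm

omit [IsAlgClosure K Ω] [NumberField F] in
theorem diu_card {F : Type} [Field F] [NumberField F] (w : Pl F) :
    Nat.card (𝓞 F ⧸ w.asIdeal) = nm w := rfl

theorem diu_fin {F : Type} [Field F] [NumberField F] (w : Pl F) : Finite (𝓞 F ⧸ w.asIdeal) :=
  Ideal.finiteQuotientOfFreeOfNeBot w.asIdeal w.ne_bot

theorem diu_field {F : Type} [Field F] [NumberField F] (w : Pl F) (q : ℕ) (hq : 1 < q)
    (h : ∀ x : 𝓞 F, x ^ q - x ∈ w.asIdeal) : nm w ≤ q := by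
  have := w.isMaximal
  let _ : Field (𝓞 F ⧸ w.asIdeal) := Ideal.Quotient.field w.asIdeal
  have := diu_fin w
  let _ : Fintype (𝓞 F ⧸ w.asIdeal) := Fintype.ofFinite _
  have h1 : ∀ y : 𝓞 F ⧸ w.asIdeal, y ^ q - y = 0 := by
    intro y
    obtain ⟨x, rfl⟩ := Ideal.Quotient.mk_surjective y
    rw [← map_pow, ← map_sub, Ideal.Quotient.eq_zero_iff_mem]
    exact h x
  let f : Polynomial (𝓞 F ⧸ w.asIdeal) := Polynomial.X ^ q - Polynomial.X
  have hdeg : f.natDegree = q := FiniteField.X_pow_card_sub_X_natDegree_eq _ hq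
  have hf0 : f ≠ 0 := by
    intro h0
    rw [h0, Polynomial.natDegree_zero] at hdeg
    omega
  have h2 : (Finset.univ : Finset (𝓞 F ⧸ w.asIdeal)) ⊆ f.roots.toFinset := by
    intro y _
    rw [Multiset.mem_toFinset, Polynomial.mem_roots hf0, Polynomial.IsRoot.def]
    simp only [f, Polynomial.eval_sub, Polynomial.eval_pow, Polynomial.eval_X]
    exact h1 y
  have h3 := (Finset.card_le_card h2).trans (Multiset.toFinset_card_le _)
  have h4 := h3.trans (Polynomial.card_roots' f)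
  rw [hdeg, Finset.card_univ] at h4
  rw [← diu_card, Nat.card_eq_fintype_card]
  exact h4

theorem diu_pow {F : Type} [Field F] [NumberField F] (w : Pl F) (x : 𝓞 F) :
    x ^ nm w - x ∈ w.asIdeal := by
  have := w.isMaximal
  let _ : Field (𝓞 F ⧸ w.asIdeal) := Ideal.Quotient.field w.asIdeal
  have := diu_fin w
  let _ : Fintype (𝓞 F ⧸ w.asIdeal) := Fintype.ofFinite _
  have h1 := FiniteField.pow_card (Ideal.Quotient.mk w.asIdeal x)
  rw [← Nat.card_eq_fintype_card, diu_card] at h1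
  rw [← Ideal.Quotient.eq_zero_iff_mem, map_sub, map_pow, h1, sub_self]

theorem diu_one {F : Type} [Field F] [NumberField F] (w : Pl F) : 1 < nm w := by
  have := diu_fin w
  have := w.isMaximal
  have : Nontrivial (𝓞 F ⧸ w.asIdeal) := Ideal.Quotient.nontrivial_iff.2 w.isPrime.ne_top
  rw [← diu_card]
  exact Finite.one_lt_card

theorem dic_fix (Q : DP K Ω) (l : Pl K) (hl : IT Ω F l) (ι : F →ₐ[K] Ω) :
    ac (fr Q l) ι = ι ↔ nm (pe F Q l ι) = nm l := by
  constructor
  · intro h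
    have hq := diu_one l
    have h1 : nm (pe F Q l ι) ≤ nm l := by
      apply diu_field _ _ hq
      intro x
      rw [mem_pe, map_sub, map_pow]
      have h2 := fr_spec Q l (ro ι x)
      rw [← ro_ac, h] at h2
      rw [← neg_sub]
      exact (Q.P l).neg_mem h2
    obtain ⟨f, hf, hnm⟩ := nm_over (pe_over F Q l ι)
    apply le_antisymm h1
    rw [hnm]
    exact Nat.le_self_pow (by omega) _
  · intro h
    apply dic_U F Q l hl
    intro x
    have h1 := diu_pow (pe F Q l ι) x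
    rw [mem_pe, map_sub, map_pow, h] at h1
    have h2 := fr_spec Q l (ro ι x)
    rw [← ro_ac] at h2
    have h3 := (Q.P l).add_mem h2 h1
    rw [sub_add_sub_cancel] at h3
    exact h3

omit [IsAlgClosure K Ω] in
theorem diu_res (w : Pl F) (l : Pl K) (hw : Over w l) (hn : nm w = nm l) (x : 𝓞 F) :
    ∃ a : 𝓞 K, x - algebraMap (𝓞 K) (𝓞 F) a ∈ w.asIdeal := by
  have h0 : l.asIdeal ≤ w.asIdeal.comap (algebraMap (𝓞 K) (𝓞 F)) := le_of_eq hw.symm
  let g : (𝓞 K ⧸ l.asIdeal) →+* (𝓞 F ⧸ w.asIdeal) := Ideal.quotientMap w.asIdeal (algebraMap (𝓞 K) (𝓞 F)) h0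
  have hg : Function.Injective g := Ideal.quotientMap_injective' (le_of_eq hw)
  have := diu_fin w
  have := diu_fin l
  have hb : Function.Bijective g := by
    rw [Nat.bijective_iff_injective_and_card]
    refine ⟨hg, ?_⟩
    rw [diu_card, diu_card, hn]
  obtain ⟨y, hy⟩ := hb.2 (Ideal.Quotient.mk _ x)
  obtain ⟨a, rfl⟩ := Ideal.Quotient.mk_surjective y
  refine ⟨a, ?_⟩
  rw [Ideal.quotientMap_mk] at hy
  exact Ideal.Quotient.eq.1 hy.symm

theorem dic_bij (Q : DP K Ω) (l : Pl K) (hl : IT Ω F l) :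
    Set.BijOn (pe F Q l) (fx F (fr Q l)) {w : Pl F | Over w l ∧ nm w = nm l} := by
  refine ⟨?_, ?_, ?_⟩
  · intro ι hι
    exact ⟨pe_over F Q l ι, (dic_fix F Q l hl ι).1 hι⟩
  · intro ι hι ι' hι' he
    apply dic_U F Q l hl
    intro x
    obtain ⟨a, ha⟩ := diu_res F (pe F Q l ι) l (pe_over F Q l ι) ((dic_fix F Q l hl ι).1 hι) x
    have h1 := ha
    have h2 := ha
    rw [he] at h2
    rw [mem_pe, map_sub] at h1 h2
    have h3 : ro ι (algebraMap (𝓞 K) (𝓞 F) a) = ro ι' (algebraMap (𝓞 K) (𝓞 F) a) := by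
      apply RingOfIntegers.ext
      exact (ι.commutes (a : K)).trans (ι'.commutes (a : K)).symm
    have h4 := (Q.P l).sub_mem h1 h2
    rw [h3, sub_sub_sub_cancel_right] at h4
    exact h4
  · intro w hw
    obtain ⟨ι, rfl⟩ := pe_surj F Q l w hw.1
    exact ⟨ι, (dic_fix F Q l hl ι).2 hw.2, rfl⟩

theorem dic_sum (Q : DP K Ω) (l : Pl K) (hl : IT Ω F l) (f : Pl F → ℂ) :
    ∑ᶠ w ∈ {w : Pl F | Over w l ∧ nm w = nm l}, f w = ∑ᶠ ι ∈ fx F (fr Q l), f (pe F Q l ι) := by
  exact (finsum_mem_eq_of_bijOn (pe F Q l) (dic_bij F Q l hl) (fun ι _ => rfl)).symm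

end H57.SL
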