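import Pool.Agent.H57.SL.Def

/-!
# [H57 SL BDN] the ramified primes and the discriminant of a cubic extension (80-120 lines)

`bdn`: let `B` be the set of the primes `l` of `K` with `¬ H1.LS4.Unr K c.F l`. For such an `l` there is a nonzero prime `P` of `𝓞 c.F` with `P ^ 2 ∣ l 𝓞`, it lies over `l`, it is
ramified, so it divides the different (Mathlib: `dvd_differentIdeal_iff`, `not_dvd_differentIdeal_iff`, `pow_sub_one_dvd_differentIdeal`; see `H38/ML`, `H1/LS4/Bad`,
`H51/CUB/DSC` and their imports for the use). Choose `P_l` for each `l` (injective because `P_l` lies over `l`, so `B` is finite: the different is not zero and has finitely many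
prime divisors). The product of the `P_l` divides the different (distinct primes), `absNorm` is multiplicative and monotone for divisibility, `absNorm P_l = nm l ^ f ≥ nm l`
(`nm_over`). So `nr B ≤ absNorm (different) = c.D`.

`ddt`: tower formula `|disc F| = |disc K| ^ 3 * absNorm (different (F/K))` (see the proof of `dsc` in `H51/CUB/DSC`, where it is used; grep the tower formula there).

`one_le_D`: the absolute norm of a nonzero ideal. `cpw`: `nm v ≥ 2`, choose `A` with `C ≤ 2 ^ A`.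
-/

set_option autoImplicit false

open scoped NumberField Classical
open IsDedekindDomain H63.MA NumberField H1.LS4 H67.SX H36.QA H38.ML

noncomputable section

namespace H57.SL

variable {K : IntermediateField ℚ QBar} [NumberField K]

private theorem bdn_D (c : Cu K) :
    c.D = (Ideal.absNorm (differentIdeal (𝓞 K) (𝓞 c.F)) : ℝ) := by
  have h : NumberField c.F := inferInstance
  unfold Cu.D H38.ML.relDisc
  rw [dif_pos h]

private theorem bdn_tow (c : Cu K) : (discr c.F).natAbs =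
    Ideal.absNorm (differentIdeal (𝓞 K) (𝓞 c.F)) * (discr K).natAbs ^ 3 := by
  have h2 := NumberField.natAbs_discr_eq_absNorm_differentIdeal_mul_natAbs_discr_pow
    K (𝓞 K) c.F (𝓞 c.F)
  rw [c.deg] at h2
  exact h2

private theorem bdn_pos (c : Cu K) : 1 ≤ Ideal.absNorm (differentIdeal (𝓞 K) (𝓞 c.F)) := by
  rw [Nat.one_le_iff_ne_zero]
  intro h
  have h1 := bdn_tow c
  rw [h, zero_mul, Int.natAbs_eq_zero] at h1
  exact NumberField.discr_ne_zero c.F h1

private theorem bdn_nm (K : Type) [Field K] [NumberField K] (v : Pl K) : 2 ≤ nm v := by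
  have h0 : Ideal.absNorm v.asIdeal ≠ 0 := by
    rw [Ne, Ideal.absNorm_eq_zero_iff]
    exact v.ne_bot
  have h1 : Ideal.absNorm v.asIdeal ≠ 1 := by
    rw [Ne, Ideal.absNorm_eq_one_iff]
    exact v.isPrime.ne_top
  unfold nm
  omega

private theorem bdn_two (K : Type) [Field K] [NumberField K] (B : Finset (Pl K)) :
    (2 : ℝ) ^ B.card ≤ nr B := by
  unfold nr
  rw [← Finset.prod_const]
  refine Finset.prod_le_prod (fun _ _ => by norm_num) fun v _ => ?_
  exact_mod_cast bdn_nm K v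

/-- one prime -/
private theorem bdn_one (c : Cu K) (l : Pl K) (h : ¬ H1.LS4.Unr K c.F l.asIdeal) :
    ∃ P : Ideal (𝓞 c.F), P.IsPrime ∧ P ≠ ⊥ ∧ P ∣ differentIdeal (𝓞 K) (𝓞 c.F) ∧
      P.comap (algebraMap (𝓞 K) (𝓞 c.F)) = l.asIdeal := by
  unfold H1.LS4.Unr at h
  push Not at h
  obtain ⟨P, hP, hd⟩ := h
  have hmd : H57.LI.md l.asIdeal c.F ≠ ⊥ := by
    unfold H57.LI.md
    rw [Ne, Ideal.map_eq_bot_iff_of_injective (FaithfulSMul.algebraMap_injective (𝓞 K) (𝓞 c.F))]
    exact l.ne_bot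
  have hP0 : P ≠ ⊥ := by
    rintro rfl
    apply hmd
    have : (⊥ : Ideal (𝓞 c.F)) ^ 2 = ⊥ := by
      rw [← Ideal.zero_eq_bot, zero_pow two_ne_zero]
    rw [this] at hd
    exact eq_bot_iff.mpr (Ideal.dvd_iff_le.mp hd)
  have hle : H57.LI.md l.asIdeal c.F ≤ P :=
    (Ideal.dvd_iff_le.mp hd).trans (Ideal.pow_le_self two_ne_zero)
  have hcm : P.comap (algebraMap (𝓞 K) (𝓞 c.F)) = l.asIdeal := by
    have h1 : l.asIdeal ≤ P.comap (algebraMap (𝓞 K) (𝓞 c.F)) := Ideal.map_le_iff_le_comap.mp hle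
    exact (l.isMaximal.eq_of_le (Ideal.comap_ne_top _ hP.ne_top) h1).symm
  refine ⟨P, hP, hP0, ?_, hcm⟩
  have : l.asIdeal.IsMaximal := l.isMaximal
  have h3 := pow_sub_one_dvd_differentIdeal (𝓞 K) P 2 l.ne_bot hd
  simpa using h3

theorem bdn (c : Cu K) : ∃ B : Finset (Pl K), (nr B : ℝ) ≤ c.D ∧
    ∀ l, l ∉ B → H1.LS4.Unr K c.F l.asIdeal := by
  choose! P hP hP0 hPd hPc using bdn_one c
  have key : ∀ B : Finset (Pl K), (∀ l ∈ B, ¬ H1.LS4.Unr K c.F l.asIdeal) →
      (nr B : ℝ) ≤ c.D := by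
    intro B hB
    have hinj : Set.InjOn P (B : Set (Pl K)) := by
      intro a ha b hb hab
      apply IsDedekindDomain.HeightOneSpectrum.ext
      rw [← hPc a (hB a ha), ← hPc b (hB b hb), hab]
    have hprod : ∏ Q ∈ B.image P, Q ∣
        differentIdeal (𝓞 K) (𝓞 c.F) := by
      apply Finset.prod_primes_dvd
      · intro Q hQ
        obtain ⟨l, hl, rfl⟩ := Finset.mem_image.mp hQ
        exact Ideal.prime_of_isPrime (hP0 l (hB l hl)) (hP l (hB l hl))
      · intro Q hQ
        obtain ⟨l, hl, rfl⟩ := Finset.mem_image.mp hQ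
        exact hPd l (hB l hl)
    have hnorm : Ideal.absNorm (∏ Q ∈ B.image P, Q) ≤
        Ideal.absNorm (differentIdeal (𝓞 K) (𝓞 c.F)) :=
      Nat.le_of_dvd (bdn_pos c) (map_dvd Ideal.absNorm hprod)
    rw [map_prod, Finset.prod_image hinj] at hnorm
    have h1 : (nr B : ℝ) ≤ ((∏ l ∈ B, Ideal.absNorm (P l) : ℕ) : ℝ) := by
      unfold nr
      rw [Nat.cast_prod]
      refine Finset.prod_le_prod (fun _ _ => by positivity) fun l hl => ?_
      have hov : Over (⟨P l, hP l (hB l hl), hP0 l (hB l hl)⟩ : Pl c.F) l := hPc l (hB l hl)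
      obtain ⟨f, hf, hf2⟩ := nm_over hov
      have h2 : Ideal.absNorm (P l) = nm l ^ f := hf2
      rw [h2]
      have h3 : nm l ≤ nm l ^ f := Nat.le_self_pow (by omega) _
      exact_mod_cast h3
    rw [bdn_D]
    refine h1.trans ?_
    exact_mod_cast hnorm
  have hfin : {l : Pl K | ¬ H1.LS4.Unr K c.F l.asIdeal}.Finite := by
    by_contra hinf
    obtain ⟨n, hn⟩ := pow_unbounded_of_one_lt c.D (one_lt_two)
    obtain ⟨B, hBs, hBc⟩ := Set.Infinite.exists_subset_card_eq hinf n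
    have h1 := key B (fun l hl => hBs hl)
    have h2 := bdn_two K B
    rw [hBc] at h2
    linarith
  refine ⟨hfin.toFinset, key _ (fun l hl => by simpa using hl), ?_⟩
  intro l hl
  by_contra h
  exact hl (by simpa using h)

theorem ddt (K : IntermediateField ℚ QBar) [NumberField K] :
    ∃ C : ℝ, 1 ≤ C ∧ ∀ c : Cu K, dd c.F ≤ C * c.D := by
  have hK1 : 1 ≤ (discr K).natAbs :=
    Nat.one_le_iff_ne_zero.mpr (Int.natAbs_ne_zero.mpr (NumberField.discr_ne_zero K))
  refine ⟨(((discr K).natAbs ^ 3 : ℕ) : ℝ), ?_, fun c => ?_⟩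
  · exact_mod_cast Nat.one_le_pow _ _ hK1
  · have h4 : dd c.F = (((discr c.F).natAbs : ℕ) : ℝ) := by
      unfold dd
      rw [Nat.cast_natAbs, Int.cast_abs]
    rw [h4, bdn_tow c, bdn_D c, Nat.cast_mul, mul_comm]

theorem one_le_D (c : Cu K) : 1 ≤ c.D := by
  rw [bdn_D]
  exact_mod_cast bdn_pos c

theorem cpw (K : Type) [Field K] [NumberField K] (C : ℝ) :
    ∃ A : ℕ, ∀ B : Finset (Pl K), C ^ B.card ≤ (nr B : ℝ) ^ A := by
  obtain ⟨A, hA⟩ := pow_unbounded_of_one_lt |C| (one_lt_two (α := ℝ))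
  refine ⟨A, fun B => ?_⟩
  calc C ^ B.card ≤ |C ^ B.card| := le_abs_self _
    _ = |C| ^ B.card := abs_pow C _
    _ ≤ ((2 : ℝ) ^ A) ^ B.card := pow_le_pow_left₀ (abs_nonneg C) hA.le _
    _ = ((2 : ℝ) ^ B.card) ^ A := by rw [← pow_mul, ← pow_mul, mul_comm]
    _ ≤ (nr B : ℝ) ^ A := pow_le_pow_left₀ (by positivity) (bdn_two K B) _

end H57.SL
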