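import Pool.Agent.H57.SL.Def
import Pool.Agent.H38.ML.EmbOrb
import Pool.Agent.H38.BG.DEmb

/-!
# [H57 SL INR] unramified primes and the inertia groups (80-120 lines)

`E` a finite extension of `K`, `n = [E : K]`, `l` a prime of `K`. `Unr K E l` (no square of a prime ideal divides `l 𝓞_E`) iff the inertia groups over
`l` act trivially on the `n` embeddings of `E`.

Proof. `E` may be replaced by an intermediate field `L` of `Ω` (choose an embedding `ι₀` of `E`, `L = ι₀.fieldRange`, `E ≃ₐ[K] L`: `IT` transports along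
the isomorphism by composition; `Unr` by `gm` (`H1/LS4/Gal`: `gm_md`, `gm_mul`, `gm_prime`)). `∑_P e_P f_P = n` over the primes `P` of `L` over `l` (Mathlib
`Ideal.sum_ramification_inertia`), `e_P, f_P ≥ 1`. `Unr` iff all `e_P = 1` (`P ^ 2 ∣ l 𝓞` iff `e_P ≥ 2`; a nonzero prime `P` with `P ^ 2 ∣ l 𝓞` lies over `l`; `P = ⊥`
is impossible; see `H1/LS4/Spl`, `H1/LS4/Bad`, `H1/LS4/Lca` for the use of `Unr`) iff `∑ f_P = n`. By `embOrb_le` and `embOrb_ge`
(`H38/ML/EmbOrb`, `H38/BG/DEmb`) `∑ f_P = embOrb L (P.inertia)` for every prime `P` of `𝓞 Ω` over `l`, the number of the orbits of the inertia group on the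
`n` embeddings (`n` embeddings: `AlgHom.card` or `Field.finSepDegree`; see `H51/CUB/DSC` `dsc_orb`); it is `n` iff all orbits are singletons (a surjective map
between finite sets with the same number of elements is injective), i.e. iff `ac τ ι = ι` for all `τ` in the inertia group. There is a prime of `𝓞 Ω`
over `l`: `gloc_over` in `H63/MA/GLoc`.
-/

set_option autoImplicit false

open scoped NumberField Pointwise Classical
open IsDedekindDomain H63.MA NumberField H1.LS4 H38.ML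

noncomputable section

namespace H57.SL

section inr

variable {K : Type} [Field K] [NumberField K] {Ω : Type} [Field Ω] [Algebra K Ω] [IsAlgClosure K Ω]

private theorem inr_card (L : IntermediateField K Ω) [FiniteDimensional K L] :
    Nat.card (L →ₐ[K] Ω) = Module.finrank K L := by
  have hcl : IsAlgClosed Ω := IsAlgClosure.isAlgClosed K
  rw [Nat.card_eq_fintype_card, AlgHom.card K L Ω]

private theorem inr_orb (L : IntermediateField K Ω) [FiniteDimensional K L] (J : Subgroup Gal(Ω/K))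
    (h : ∀ τ ∈ J, ∀ φ : L →ₐ[K] Ω, ac τ φ = φ) : embOrb L J = Module.finrank K L := by
  unfold H38.ML.embOrb
  rw [← inr_card L]
  refine Nat.card_congr ?_
  refine ⟨Quot.lift id ?_, Quot.mk _, ?_, ?_⟩
  · rintro φ ψ ⟨τ, hτ, rfl⟩
    exact (h τ hτ φ).symm
  · intro x
    induction x using Quot.ind with
    | mk φ => rfl
  · intro φ
    rfl

private theorem inr_orb2 (L : IntermediateField K Ω) [FiniteDimensional K L] (J : Subgroup Gal(Ω/K))
    (h : embOrb L J = Module.finrank K L) : ∀ τ ∈ J, ∀ φ : L →ₐ[K] Ω, ac τ φ = φ := by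
  unfold H38.ML.embOrb at h
  rw [← inr_card L] at h
  have hs : Function.Surjective (Quot.mk fun φ ψ : L →ₐ[K] Ω =>
      ∃ τ ∈ J, ((τ : Gal(Ω/K)) : Ω →ₐ[K] Ω).comp φ = ψ) := Quot.mk_surjective
  have hb := hs.bijective_of_nat_card_le h.ge
  intro τ hτ φ
  exact (hb.1 (Quot.sound ⟨τ, hτ, rfl⟩)).symm

private theorem inr_L (L : IntermediateField K Ω) [FiniteDimensional K L] [NumberField L] (l : Pl K) :
    IT Ω L l ↔ H1.LS4.Unr K L l.asIdeal := by
  have hm : l.asIdeal.IsMaximal := l.isMaximal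
  have hp : l.asIdeal.IsPrime := l.isPrime
  have hfin : (l.asIdeal.primesOver (𝓞 L)).Finite := IsDedekindDomain.primesOver_finite l.asIdeal (𝓞 L)
  let _ : Fintype (l.asIdeal.primesOver (𝓞 L)) := hfin.fintype
  have h2 : Module.finrank (𝓞 K) (𝓞 L) = Module.finrank K L :=
    (IsFractionRing.finrank_eq (𝓞 K) K (𝓞 L) L).symm
  have h3 : ∑ Q : l.asIdeal.primesOver (𝓞 L), Q.1.ramificationIdx (𝓞 K) * Q.1.inertiaDeg (𝓞 K) =
      Module.finrank K L := by
    rw [← h2]
    exact Ideal.sum_ramification_inertia_eq_finrank l.asIdeal (𝓞 L)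
  have hb : l.asIdeal.map (algebraMap (𝓞 K) (𝓞 L)) ≠ ⊥ := Ideal.map_ne_bot_of_ne_bot l.ne_bot
  have he : ∀ Q : l.asIdeal.primesOver (𝓞 L), 0 < Q.1.ramificationIdx (𝓞 K) := by
    intro Q
    have := Q.2.1
    have := Q.2.2
    exact Ideal.ramificationIdx_pos Q.1 (𝓞 K)
  have hf : ∀ Q : l.asIdeal.primesOver (𝓞 L), 0 < Q.1.inertiaDeg (𝓞 K) := by
    intro Q
    have := Q.2.1
    have := Q.2.2
    exact Ideal.inertiaDeg_pos Q.1 (𝓞 K)
  have hmu : ∀ Q : l.asIdeal.primesOver (𝓞 L), Q.1.ramificationIdx (𝓞 K) =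
      multiplicity Q.1 (l.asIdeal.map (algebraMap (𝓞 K) (𝓞 L))) := by
    intro Q
    have := Q.2.1
    have := Q.2.2
    exact Ideal.IsDedekindDomain.ramificationIdx_eq_multiplicity l.asIdeal Q.1 hb
  have hu : H1.LS4.Unr K L l.asIdeal ↔
      ∀ Q : l.asIdeal.primesOver (𝓞 L), Q.1.ramificationIdx (𝓞 K) = 1 := by
    constructor
    · intro h Q
      by_contra hne
      have h6 : 2 ≤ multiplicity Q.1 (l.asIdeal.map (algebraMap (𝓞 K) (𝓞 L))) := by
        rw [← hmu Q]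
        have := he Q
        omega
      exact h Q.1 Q.2.1 (pow_dvd_of_le_multiplicity h6)
    · intro h P hP hd
      have hle : l.asIdeal.map (algebraMap (𝓞 K) (𝓞 L)) ≤ P := (Ideal.dvd_iff_le.mp hd).trans (Ideal.pow_le_self two_ne_zero)
      have hcm : P.comap (algebraMap (𝓞 K) (𝓞 L)) = l.asIdeal := by
        have h1 : l.asIdeal ≤ P.comap (algebraMap (𝓞 K) (𝓞 L)) := Ideal.map_le_iff_le_comap.mp hle
        exact (l.isMaximal.eq_of_le (Ideal.comap_ne_top _ hP.ne_top) h1).symm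
      have hmem : P ∈ l.asIdeal.primesOver (𝓞 L) := ⟨hP, ⟨hcm.symm⟩⟩
      have h4 := h ⟨P, hmem⟩
      rw [hmu ⟨P, hmem⟩] at h4
      have hP1 : P ≠ ⊤ := hP.ne_top
      have hfm : FiniteMultiplicity P (l.asIdeal.map (algebraMap (𝓞 K) (𝓞 L))) :=
        FiniteMultiplicity.of_not_isUnit (fun h0 => hP1 (Ideal.isUnit_iff.1 h0)) hb
      have h5 := hfm.le_multiplicity_of_pow_dvd (k := 2) hd
      have h6 : multiplicity P (l.asIdeal.map (algebraMap (𝓞 K) (𝓞 L))) = 1 := h4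
      omega
  have hs : ∀ 𝔓 : Ideal (𝓞 Ω), 𝔓.IsPrime → 𝔓.under (𝓞 K) = l.asIdeal →
      embOrb L (𝔓.inertia Gal(Ω/K)) = ∑ P : l.asIdeal.primesOver (𝓞 L), P.1.inertiaDeg (𝓞 K) := by
    intro 𝔓 h𝔓 h𝔓l
    exact le_antisymm (H38.ML.embOrb_le L l.asIdeal l.isPrime l.ne_bot 𝔓 h𝔓 h𝔓l)
      (H38.BG.embOrb_ge L l.asIdeal l.isPrime l.ne_bot 𝔓 h𝔓 h𝔓l)
  rw [hu]
  constructor
  · intro h Q
    obtain ⟨𝔓, h𝔓, h𝔓l⟩ := gloc_over K Ω l.asIdeal l.isPrime
    have h4 : embOrb L (𝔓.inertia Gal(Ω/K)) = Module.finrank K L :=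
      inr_orb L _ fun τ hτ φ => h 𝔓 h𝔓 h𝔓l τ hτ φ
    rw [hs 𝔓 h𝔓 h𝔓l, ← h3] at h4
    by_contra hne
    have h5 : ∑ P : l.asIdeal.primesOver (𝓞 L), P.1.inertiaDeg (𝓞 K) <
        ∑ Q : l.asIdeal.primesOver (𝓞 L), Q.1.ramificationIdx (𝓞 K) * Q.1.inertiaDeg (𝓞 K) := by
      refine Finset.sum_lt_sum (fun P _ => ?_) ⟨Q, Finset.mem_univ _, ?_⟩
      · exact Nat.le_mul_of_pos_left _ (he P)
      · have h6 : 1 < Q.1.ramificationIdx (𝓞 K) := by
          have := he Q
          omega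
        exact (Nat.lt_mul_iff_one_lt_left (hf Q)).2 h6
    exact absurd h4 h5.ne
  · intro h 𝔓 h𝔓 h𝔓l τ hτ φ
    have h4 : embOrb L (𝔓.inertia Gal(Ω/K)) = Module.finrank K L := by
      rw [hs 𝔓 h𝔓 h𝔓l, ← h3]
      refine Finset.sum_congr rfl fun Q _ => ?_
      rw [h Q, one_mul]
    exact inr_orb2 L _ h4 τ hτ φ

omit [IsAlgClosure K Ω] in
private theorem inr_it {E E' : Type} [Field E] [Algebra K E] [Field E'] [Algebra K E'] (e : E ≃ₐ[K] E')
    (l : Pl K) (h : IT Ω E l) : IT Ω E' l := by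
  intro P hP hPl τ hτ ι
  have h1 := h P hP hPl τ hτ (ι.comp (e : E →ₐ[K] E'))
  ext x
  have h2 := DFunLike.congr_fun h1 (e.symm x)
  have h3 : τ (ι (e (e.symm x))) = ι (e (e.symm x)) := h2
  rw [e.apply_symm_apply] at h3
  exact h3

omit [NumberField K] in
private theorem inr_unr {E E' : Type} [Field E] [Algebra K E] [Field E'] [Algebra K E'] (e : E ≃ₐ[K] E')
    (l : Ideal (𝓞 K)) (h : H1.LS4.Unr K E l) : H1.LS4.Unr K E' l := by
  intro P hP hd
  refine h (gm e.symm P) ((gm_prime e.symm P).2 hP) ?_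
  obtain ⟨J, hJ⟩ := hd
  refine ⟨gm e.symm J, ?_⟩
  rw [← gm_md e.symm l, hJ, gm_mul, pow_two, pow_two, gm_mul]

end inr

theorem inr_iff {K : Type} [Field K] [NumberField K] {Ω : Type} [Field Ω] [Algebra K Ω]
    [IsAlgClosure K Ω] (E : Type) [Field E] [NumberField E] [Algebra K E] (l : Pl K) :
    IT Ω E l ↔ H1.LS4.Unr K E l.asIdeal := by
  have hcl : IsAlgClosed Ω := IsAlgClosure.isAlgClosed K
  have halg : Algebra.IsAlgebraic K E := dic_alg E
  let ι₀ : E →ₐ[K] Ω := IsAlgClosed.lift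
  have hfd : FiniteDimensional K E := Module.Finite.of_restrictScalars_finite ℚ K E
  let e : E ≃ₐ[K] ι₀.fieldRange := AlgEquiv.ofInjectiveField ι₀
  have hfL : FiniteDimensional K ι₀.fieldRange := Module.Finite.equiv e.toLinearEquiv
  have hcz : CharZero ι₀.fieldRange := charZero_of_injective_algebraMap (algebraMap K ι₀.fieldRange).injective
  have hfQ : FiniteDimensional ℚ ι₀.fieldRange := Module.Finite.trans (R := ℚ) K ι₀.fieldRange
  have hnL : NumberField ι₀.fieldRange := ⟨⟩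
  have h1 := inr_L ι₀.fieldRange l
  constructor
  · intro h
    exact inr_unr e.symm l.asIdeal (h1.1 (inr_it e l h))
  · intro h
    exact inr_it e.symm l (h1.2 (inr_unr e l.asIdeal h))

end H57.SL
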