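import Pool.Agent.H57.SL.Def
import Pool.Agent.H57.SL.Inr
import Pool.Agent.H57.SL.Diu

/-!
# [H57 SL CBL] the local values of a cubic field and of a character (120-160 lines)

Let `c : Cu K`. The number of the primes over `l` is `1`, `2` or `3` (`∑ e f = 3`), so `c.lam l = 2 ^ (np - 1) - 1 ∈ {0, 1, 3}`: `cbl_mu`.
If `l` is unramified in `c.F` then `∑_{w ∣ l} f_w = 3` (`f_w`: `nm w = nm l ^ f_w`, `nm_over`, Mathlib `Ideal.sum_ramification_inertia`): three primes with `f = 1`, or two primes with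
`f = 1` and `2`, or one prime with `f = 3`.

`cbl_lam`: so `c.lam l` = number of the `w` over `l` with `nm w = nm l` = number of the embeddings fixed by `fr Q l` (`dic_bij`, `inr_iff`).

`cbl_lp`: `l ∉ S`, so the primes over `l` are prime to the modulus and `χ (l 𝓞) = 1` (`triv`, `l` is prime to `mS S` because `l ∉ S` and `8` is a product of primes of `S`: hypothesis
`h2`), where `l 𝓞` is the product of the primes over `l`. `χ (P) = ± 1` (`quad`). Three primes: the sets in `Ev l` are the three sets with two elements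
(`nm l ^ k` determines `k`) and `χ (P_i) χ (P_j) = χ (P_k)`. Two primes (`P_1` of degree 1, `P_2` of degree 2): `Ev l = {{P_2}}`, `χ (P_2) = χ (P_1)`.
One prime: `Ev l` is empty. So `lp l` is the sum of `χ (P)` over the `P` of degree one; the values are real.

`cbl_lp3`: for all `l`, `Ev l` has at most 3 elements (a nonempty subset of at most 3 primes; if there are 3 primes they have `f = 1` and only the sets with 2 elements are
possible; if there are at most 2 primes there are at most 3 nonempty subsets) and `|χ| ≤ 1` (`norm_rc`).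
-/

set_option autoImplicit false

open scoped NumberField Classical
open IsDedekindDomain H63.MA NumberField H1.LS4 H67.SX H36.QA H38.ML

noncomputable section

namespace H57.SL

section gen

variable {k : Type} [Field k] [NumberField k] (F : Type) [Field F] [NumberField F] [Algebra k F]

private theorem cbl_two (l : Pl k) : 2 ≤ nm l := by
  have h0 : nm l ≠ 0 := fun h => l.ne_bot (Ideal.absNorm_eq_zero_iff.1 h)
  have h1 : nm l ≠ 1 := fun h => l.isPrime.ne_top (Ideal.absNorm_eq_one_iff.1 h)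
  omega

private theorem cbl_data (l : Pl k) (h3 : Module.finrank k F = 3) :
    ∃ (W : Finset (Pl F)) (e f : Pl F → ℕ), (∀ P, P ∈ W ↔ Over P l) ∧ (∀ P, 1 ≤ e P) ∧ (∀ P, 1 ≤ f P) ∧
      (∀ P ∈ W, nm P = nm l ^ f P) ∧ ∑ P ∈ W, e P * f P = 3 ∧
      H57.LI.md l.asIdeal F = ∏ P ∈ W, P.asIdeal ^ e P ∧
      (H1.LS4.Unr k F l.asIdeal → ∀ P ∈ W, e P = 1) := by
  have hm : l.asIdeal.IsMaximal := l.isMaximal
  have hpr : l.asIdeal.IsPrime := l.isPrime
  have hfs : Finite (l.asIdeal.primesOver (𝓞 F)) := IsDedekindDomain.primesOver_finite l.asIdeal (𝓞 F)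
  have hft : Fintype (l.asIdeal.primesOver (𝓞 F)) := Fintype.ofFinite _
  have hinj : Function.Injective (fun P : Pl F => P.asIdeal) := fun _ _ h => HeightOneSpectrum.ext h
  have hmem : ∀ P : Pl F, P.asIdeal ∈ l.asIdeal.primesOver (𝓞 F) ↔ Over P l := fun P =>
    ⟨fun h => h.2.over.symm, fun h => ⟨P.isPrime, ⟨h.symm⟩⟩⟩
  have hWf : {P : Pl F | Over P l}.Finite := by
    refine Set.Finite.of_finite_image (f := fun P : Pl F => P.asIdeal) ?_ hinj.injOn
    refine (Set.toFinite (l.asIdeal.primesOver (𝓞 F))).subset ?_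
    rintro _ ⟨P, hP, rfl⟩
    exact (hmem P).2 hP
  have hWm : ∀ P, P ∈ hWf.toFinset ↔ Over P l := fun P => hWf.mem_toFinset
  have himg : ∀ h : Fintype (l.asIdeal.primesOver (𝓞 F)),
      @Set.toFinset _ (l.asIdeal.primesOver (𝓞 F)) h = hWf.toFinset.image (fun P : Pl F => P.asIdeal) := by
    intro h
    ext I
    rw [Set.mem_toFinset, Finset.mem_image]
    constructor
    · intro hI
      have h1 := hI.1
      have h2 := hI.2
      exact ⟨⟨I, hI.1, Ideal.ne_bot_of_liesOver_of_ne_bot l.ne_bot I⟩, (hWm _).2 ((hmem _).1 hI), rfl⟩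
    · rintro ⟨P, hP, rfl⟩
      exact (hmem P).2 ((hWm P).1 hP)
  refine ⟨hWf.toFinset, fun P => P.asIdeal.ramificationIdx (𝓞 k), fun P => P.asIdeal.inertiaDeg (𝓞 k), hWm,
    fun P => Ideal.ramificationIdx_pos P.asIdeal (𝓞 k), fun P => Ideal.inertiaDeg_pos P.asIdeal (𝓞 k), ?_, ?_, ?_, ?_⟩
  · intro P hP
    have h1 : P.asIdeal.LiesOver l.asIdeal := ⟨((hWm P).1 hP).symm⟩
    exact (Ideal.absNorm_pow_inertiaDeg l.asIdeal P.asIdeal).symm
  · have h1 := Ideal.sum_ramification_inertia_eq_finrank l.asIdeal (𝓞 F)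
    rw [Finset.sum_set_coe (l.asIdeal.primesOver (𝓞 F))
      (f := fun q : Ideal (𝓞 F) => q.ramificationIdx (𝓞 k) * q.inertiaDeg (𝓞 k)), himg,
      Finset.sum_image hinj.injOn] at h1
    rw [h1, ← IsFractionRing.finrank_eq (𝓞 k) k (𝓞 F) F, h3]
  · have h1 := Ideal.map_algebraMap_eq_finsetProd_pow (S := 𝓞 k) (R := 𝓞 F) (p := l.asIdeal) l.ne_bot
    rw [himg, Finset.prod_image hinj.injOn] at h1
    exact h1
  · intro h P hP
    have hP1 := P.isPrime
    have h1 : P.asIdeal.LiesOver l.asIdeal := ⟨((hWm P).1 hP).symm⟩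
    have hb : l.asIdeal.map (algebraMap (𝓞 k) (𝓞 F)) ≠ ⊥ := Ideal.map_ne_bot_of_ne_bot l.ne_bot
    have h5 : 0 < P.asIdeal.ramificationIdx (𝓞 k) := Ideal.ramificationIdx_pos P.asIdeal (𝓞 k)
    show P.asIdeal.ramificationIdx (𝓞 k) = 1
    rw [Ideal.IsDedekindDomain.ramificationIdx_eq_multiplicity l.asIdeal P.asIdeal hb] at h5 ⊢
    by_contra hne
    have h6 : 2 ≤ multiplicity P.asIdeal (l.asIdeal.map (algebraMap (𝓞 k) (𝓞 F))) := by omega
    exact h P.asIdeal hP1 (pow_dvd_of_le_multiplicity h6)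

end gen

section comb

variable {α : Type} (W : Finset α) (e f : α → ℕ)

/-- the three cases -/
private theorem cbl_cases (he : ∀ P, 1 ≤ e P) (hf : ∀ P, 1 ≤ f P) (h : ∑ P ∈ W, e P * f P = 3) :
    (∃ P, W = {P} ∧ e P * f P = 3) ∨ (∃ P Q, P ≠ Q ∧ W = {P, Q} ∧ e P * f P = 1 ∧ e Q * f Q = 2) ∨
      (∃ P Q R, P ≠ Q ∧ P ≠ R ∧ Q ≠ R ∧ W = {P, Q, R} ∧ e P * f P = 1 ∧ e Q * f Q = 1 ∧ e R * f R = 1) := by
  have h1 : ∀ P, 1 ≤ e P * f P := fun P => Nat.one_le_iff_ne_zero.2 (Nat.mul_ne_zero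
    (by have := he P; omega) (by have := hf P; omega))
  have h2 : W.card ≤ 3 := by
    rw [← h, Finset.card_eq_sum_ones]
    exact Finset.sum_le_sum fun P _ => h1 P
  have h3 : W.card ≠ 0 := by
    intro h4
    rw [Finset.card_eq_zero] at h4
    rw [h4, Finset.sum_empty] at h
    omega
  have h4 : W.card = 1 ∨ W.card = 2 ∨ W.card = 3 := by omega
  rcases h4 with h4 | h4 | h4
  · obtain ⟨P, rfl⟩ := Finset.card_eq_one.1 h4
    rw [Finset.sum_singleton] at h
    exact Or.inl ⟨P, rfl, h⟩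
  · obtain ⟨P, Q, hPQ, rfl⟩ := Finset.card_eq_two.1 h4
    rw [Finset.sum_pair hPQ] at h
    have h5 := h1 P
    have h6 := h1 Q
    right
    left
    rcases (by omega : e P * f P = 1 ∧ e Q * f Q = 2 ∨ e P * f P = 2 ∧ e Q * f Q = 1) with h7 | h7
    · exact ⟨P, Q, hPQ, rfl, h7.1, h7.2⟩
    · exact ⟨Q, P, hPQ.symm, Finset.pair_comm P Q, h7.2, h7.1⟩
  · obtain ⟨P, Q, R, hPQ, hPR, hQR, rfl⟩ := Finset.card_eq_three.1 h4
    rw [Finset.sum_insert (by simp [hPQ, hPR]), Finset.sum_pair hQR] at h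
    have h5 := h1 P
    have h6 := h1 Q
    have h7 := h1 R
    exact Or.inr (Or.inr ⟨P, Q, R, hPQ, hPR, hQR, rfl, by omega, by omega, by omega⟩)

private theorem cbl_ps1 (a : α) (G : Finset α → ℝ) : ∑ g ∈ ({a} : Finset α).powerset, G g = G ∅ + G {a} := by
  have h := Finset.sum_powerset_insert (Finset.notMem_empty a) G
  rw [Finset.powerset_empty, Finset.sum_singleton, Finset.sum_singleton] at h
  exact h

private theorem cbl_ps2 (a b : α) (hab : a ≠ b) (G : Finset α → ℝ) :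
    ∑ g ∈ ({a, b} : Finset α).powerset, G g = G ∅ + G {b} + (G {a} + G {a, b}) := by
  rw [Finset.sum_powerset_insert (by simp [hab]), cbl_ps1, cbl_ps1]
  rfl

private theorem cbl_ps3 (a b c : α) (hab : a ≠ b) (hac : a ≠ c) (hbc : b ≠ c) (G : Finset α → ℝ) :
    ∑ g ∈ ({a, b, c} : Finset α).powerset, G g =
      G ∅ + G {c} + (G {b} + G {b, c}) + (G {a} + G {a, c} + (G {a, b} + G {a, b, c})) := by
  rw [Finset.sum_powerset_insert (by simp [hab, hac]), cbl_ps2 b c hbc, cbl_ps2 b c hbc]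
  rfl

/-- one term -/
private def cT (x : α → ℝ) (g : Finset α) : ℝ := if g.Nonempty ∧ Even (∑ P ∈ g, f P) then ∏ P ∈ g, x P else 0

private theorem cT_empty (x : α → ℝ) : cT f x ∅ = 0 := by
  unfold cT
  rw [if_neg]
  rintro ⟨h, -⟩
  exact Finset.not_nonempty_empty h

private theorem cT_le (x : α → ℝ) (hx : ∀ P, |x P| ≤ 1) (g : Finset α) : |cT f x g| ≤ 1 := by
  unfold cT
  split_ifs
  · rw [Finset.abs_prod]
    exact Finset.prod_le_one (fun _ _ => abs_nonneg _) fun P _ => hx P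
  · rw [abs_zero]
    exact zero_le_one

private theorem cT_odd (x : α → ℝ) (g : Finset α) (h : ¬ Even (∑ P ∈ g, f P)) : cT f x g = 0 := by
  unfold cT
  rw [if_neg]
  exact fun h' => h h'.2

private theorem cT_even (x : α → ℝ) (g : Finset α) (h0 : g.Nonempty) (h : Even (∑ P ∈ g, f P)) :
    cT f x g = ∏ P ∈ g, x P := by
  unfold cT
  rw [if_pos ⟨h0, h⟩]

private theorem cT_three (x : α → ℝ) (P Q R : α) (hPQ : P ≠ Q) (hPR : P ≠ R) (hQR : Q ≠ R) (h1 : f P = 1) (h2 : f Q = 1)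
    (h3 : f R = 1) : ∑ g ∈ ({P, Q, R} : Finset α).powerset, cT f x g = x P * x Q + x P * x R + x Q * x R := by
  have e3 : ∑ y ∈ ({P, Q, R} : Finset α), f y = 3 := by
    rw [Finset.sum_insert (by simp [hPQ, hPR]), Finset.sum_pair hQR, h1, h2, h3]
    rfl
  rw [cbl_ps3 P Q R hPQ hPR hQR, cT_empty,
    cT_odd f x {R} (by rw [Finset.sum_singleton, h3]; decide),
    cT_odd f x {Q} (by rw [Finset.sum_singleton, h2]; decide),
    cT_odd f x {P} (by rw [Finset.sum_singleton, h1]; decide),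
    cT_odd f x {P, Q, R} (by rw [e3]; decide),
    cT_even f x {Q, R} (by simp) (by rw [Finset.sum_pair hQR, h2, h3]; decide),
    cT_even f x {P, Q} (by simp) (by rw [Finset.sum_pair hPQ, h1, h2]; decide),
    cT_even f x {P, R} (by simp) (by rw [Finset.sum_pair hPR, h1, h3]; decide),
    Finset.prod_pair hQR, Finset.prod_pair hPQ, Finset.prod_pair hPR]
  ring

private theorem cT_two (x : α → ℝ) (P Q : α) (hPQ : P ≠ Q) (h1 : f P = 1) (h2 : f Q = 2) :
    ∑ g ∈ ({P, Q} : Finset α).powerset, cT f x g = x Q := by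
  rw [cbl_ps2 P Q hPQ, cT_empty,
    cT_odd f x {P} (by rw [Finset.sum_singleton, h1]; decide),
    cT_odd f x {P, Q} (by rw [Finset.sum_pair hPQ, h1, h2]; decide),
    cT_even f x {Q} (by simp) (by rw [Finset.sum_singleton, h2]; decide), Finset.prod_singleton]
  ring

private theorem cT_one (x : α → ℝ) (P : α) (h1 : f P = 3) :
    ∑ g ∈ ({P} : Finset α).powerset, cT f x g = 0 := by
  rw [cbl_ps1 P, cT_empty, cT_odd f x {P} (by rw [Finset.sum_singleton, h1]; decide)]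
  ring

private theorem cT_bd (he : ∀ P, 1 ≤ e P) (hf : ∀ P, 1 ≤ f P) (h : ∑ P ∈ W, e P * f P = 3) (x : α → ℝ)
    (hx : ∀ P, |x P| ≤ 1) : |∑ g ∈ W.powerset, cT f x g| ≤ 3 := by
  rcases cbl_cases W e f he hf h with ⟨P, rfl, -⟩ | ⟨P, Q, hPQ, rfl, -, -⟩ | ⟨P, Q, R, hPQ, hPR, hQR, rfl, h1, h2, h3⟩
  · rw [cbl_ps1, cT_empty, zero_add]
    exact (cT_le f x hx _).trans (by norm_num)
  · rw [cbl_ps2 P Q hPQ, cT_empty, zero_add]
    have h1 := abs_le.1 (cT_le f x hx {Q})
    have h2 := abs_le.1 (cT_le f x hx {P})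
    have h3 := abs_le.1 (cT_le f x hx {P, Q})
    rw [abs_le]
    constructor <;> linarith [h1.1, h1.2, h2.1, h2.2, h3.1, h3.2]
  · rw [cT_three f x P Q R hPQ hPR hQR (Nat.eq_one_of_mul_eq_one_left h1) (Nat.eq_one_of_mul_eq_one_left h2)
      (Nat.eq_one_of_mul_eq_one_left h3)]
    have hm : ∀ A B : α, |x A * x B| ≤ 1 := fun A B => by
      rw [abs_mul]
      exact mul_le_one₀ (hx A) (abs_nonneg _) (hx B)
    have h4 := abs_le.1 (hm P Q)
    have h5 := abs_le.1 (hm P R)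
    have h6 := abs_le.1 (hm Q R)
    rw [abs_le]
    constructor <;> linarith [h4.1, h4.2, h5.1, h5.2, h6.1, h6.2]

end comb

variable {K : IntermediateField ℚ QBar} [NumberField K]

private theorem cbl_np (c : Cu K) (l : Pl K) (W : Finset (Pl c.F)) (hW : ∀ P, P ∈ W ↔ Over P l) :
    c.np l = W.card := by
  unfold Cu.np
  rw [← Set.ncard_coe_finset]
  congr 1
  ext P
  exact (hW P).symm

private theorem cbl_ev (c : Cu K) (l : Pl K) (W : Finset (Pl c.F)) (f : Pl c.F → ℕ) (hW : ∀ P, P ∈ W ↔ Over P l)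
    (hf : ∀ P ∈ W, nm P = nm l ^ f P) (x : Pl c.F → ℝ) :
    ∑ᶠ g ∈ c.Ev l, ∏ P ∈ g, x P = ∑ g ∈ W.powerset, cT f x g := by
  have h1 : c.Ev l = ((W.powerset.filter fun g => g.Nonempty ∧ Even (∑ P ∈ g, f P) : Finset (Finset (Pl c.F))) :
      Set (Finset (Pl c.F))) := by
    ext g
    rw [Finset.mem_coe, Finset.mem_filter, Finset.mem_powerset]
    have key : g ⊆ W → ((∃ k : ℕ, ∏ P ∈ g, nm P = nm l ^ (2 * k)) ↔ Even (∑ P ∈ g, f P)) := by
      intro hg
      have h2 : ∏ P ∈ g, nm P = nm l ^ (∑ P ∈ g, f P) := by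
        rw [← Finset.prod_pow_eq_pow_sum]
        exact Finset.prod_congr rfl fun P hP => hf P (hg hP)
      rw [h2, even_iff_exists_two_mul]
      constructor
      · rintro ⟨k, hk⟩
        exact ⟨k, Nat.pow_right_injective (cbl_two l) hk⟩
      · rintro ⟨k, hk⟩
        exact ⟨k, by rw [hk]⟩
    constructor
    · rintro ⟨h2, h3, h4⟩
      have hg : g ⊆ W := fun P hP => (hW P).2 (h3 P hP)
      exact ⟨hg, h2, (key hg).1 h4⟩
    · rintro ⟨hg, h2, h3⟩
      exact ⟨h2, fun P hP => (hW P).1 (hg hP), (key hg).2 h3⟩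
  rw [h1, finsum_mem_coe_finset, Finset.sum_filter]
  rfl

private theorem cbl_deg1 (c : Cu K) (l : Pl K) (W : Finset (Pl c.F)) (f : Pl c.F → ℕ) (hW : ∀ P, P ∈ W ↔ Over P l)
    (hf : ∀ P ∈ W, nm P = nm l ^ f P) :
    {w : Pl c.F | Over w l ∧ nm w = nm l} = ((W.filter fun P => f P = 1 : Finset (Pl c.F)) : Set (Pl c.F)) := by
  ext w
  rw [Finset.mem_coe, Finset.mem_filter, hW]
  refine and_congr_right fun h1 => ?_
  rw [hf w ((hW w).2 h1)]
  constructor
  · intro h
    exact Nat.pow_right_injective (cbl_two l) (h.trans (pow_one _).symm)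
  · intro h
    rw [h, pow_one]

theorem cbl_mu (c : Cu K) (l : Pl K) : |c.mu l| ≤ 2 ∧ -1 ≤ c.mu l ∧ 0 ≤ c.lam l ∧ c.lam l ≤ 3 := by
  obtain ⟨W, e, f, hW, he, hf, -, hs, -, -⟩ := cbl_data c.F l c.deg
  have hnp := cbl_np c l W hW
  unfold Cu.mu Cu.lam
  rcases cbl_cases W e f he hf hs with ⟨P, rfl, -⟩ | ⟨P, Q, hPQ, rfl, -, -⟩ | ⟨P, Q, R, hPQ, hPR, hQR, rfl, -⟩
  · rw [hnp, Finset.card_singleton]
    norm_num
  · rw [hnp, Finset.card_pair hPQ]
    norm_num
  · rw [hnp, Finset.card_eq_three.2 ⟨P, Q, R, hPQ, hPR, hQR, rfl⟩]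
    norm_num

theorem cbl_lam (c : Cu K) (Q : DP K QBar) (l : Pl K) (hl : H1.LS4.Unr K c.F l.asIdeal) :
    c.lam l = ((fx c.F (fr Q l)).ncard : ℝ) ∧ c.mu l = mm c (fr Q l) := by
  have main : c.lam l = ((fx c.F (fr Q l)).ncard : ℝ) := by
    obtain ⟨W, e, f, hW, he, hf, hnm, hs, -, hu⟩ := cbl_data c.F l c.deg
    have hnp := cbl_np c l W hW
    have hb := dic_bij c.F Q l ((inr_iff c.F l).2 hl)
    have h1 : (fx c.F (fr Q l)).ncard = (W.filter fun P => f P = 1).card := by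
      rw [← hb.injOn.ncard_image, hb.image_eq, cbl_deg1 c l W f hW hnm, Set.ncard_coe_finset]
    have he1 := hu hl
    rw [h1]
    unfold Cu.lam
    rw [hnp]
    rcases cbl_cases W e f he hf hs with ⟨P, rfl, h3⟩ | ⟨P, Q', hPQ, rfl, h2, h3⟩ | ⟨P, Q', R, hPQ, hPR, hQR, rfl, h2, h3, h4⟩
    · rw [he1 P (by simp), one_mul] at h3
      rw [Finset.filter_singleton, if_neg (by omega), Finset.card_singleton]
      norm_num
    · rw [he1 P (by simp), one_mul] at h2
      rw [he1 Q' (by simp), one_mul] at h3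
      rw [Finset.filter_insert, if_pos h2, Finset.filter_singleton, if_neg (by omega), Finset.card_pair hPQ]
      norm_num
    · rw [he1 P (by simp), one_mul] at h2
      rw [he1 Q' (by simp), one_mul] at h3
      rw [he1 R (by simp), one_mul] at h4
      rw [Finset.filter_insert, if_pos h2, Finset.filter_insert, if_pos h3, Finset.filter_singleton, if_pos h4,
        Finset.card_eq_three.2 ⟨P, Q', R, hPQ, hPR, hQR, rfl⟩]
      norm_num
  refine ⟨main, ?_⟩
  unfold Cu.mu mm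
  rw [main]

theorem cbl_lp {S : Finset (Pl K)} (h2 : ∀ v : Pl K, Above 2 v → v ∈ S) (x : AQ K S) (l : Pl K)
    (hS : l ∉ S) (hl : H1.LS4.Unr K x.c.F l.asIdeal) : ((x.lp l : ℝ) : ℂ) = d1 K x.χ.χ l := by
  obtain ⟨W, e, f, hW, he, hf, hnm, hs, hmd, hu⟩ := cbl_data x.c.F l x.c.deg
  have he1 := hu hl
  -- `l` is prime to the modulus
  have hcop : IsCoprime l.asIdeal (H48.T3.mS S) := by
    rw [Ideal.isCoprime_iff_sup_eq]
    by_contra hne
    have h5 : H48.T3.mS S ≤ l.asIdeal := by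
      have h6 := l.isMaximal.eq_of_le hne le_sup_left
      rw [h6]
      exact le_sup_right
    unfold H48.T3.mS at h5
    rcases (l.isPrime.mul_le).1 h5 with h6 | h6
    · apply hS
      apply h2
      have h7 : (8 : 𝓞 K) ∈ l.asIdeal := h6 (Ideal.mem_span_singleton_self _)
      have h8 : ((2 : ℕ) : 𝓞 K) ^ 3 ∈ l.asIdeal := by
        have e8 : ((2 : ℕ) : 𝓞 K) ^ 3 = 8 := by norm_num
        rw [e8]
        exact h7
      exact l.isPrime.mem_of_pow_mem 3 h8
    · obtain ⟨v, hv, h7⟩ := (Ideal.IsPrime.prod_le l.isPrime).1 h6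
      have h8 : v = l := HeightOneSpectrum.ext (v.isMaximal.eq_of_le l.isPrime.ne_top h7)
      exact hS (h8 ▸ hv)
  have hcopP : ∀ P ∈ W, IsCoprime P.asIdeal (mF S x.c.F) := by
    intro P hP
    rw [Ideal.isCoprime_iff_sup_eq] at hcop ⊢
    have h5 : H57.LI.md l.asIdeal x.c.F ≤ P.asIdeal := by
      unfold H57.LI.md
      rw [Ideal.map_le_iff_le_comap]
      exact ((hW P).1 hP).ge
    have h6 : H57.LI.md l.asIdeal x.c.F ⊔ mF S x.c.F = ⊤ := by
      unfold mF H57.LI.md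
      rw [← Ideal.map_sup, hcop, Ideal.map_top]
    rw [eq_top_iff, ← h6]
    exact sup_le_sup_right h5 _
  have hχ : ∀ P ∈ W, x.χ.χ P.asIdeal = (((x.χ.χ P.asIdeal).re : ℝ) : ℂ) ∧
      ((x.χ.χ P.asIdeal).re = 1 ∨ (x.χ.χ P.asIdeal).re = -1) := by
    intro P hP
    rcases x.quad P.asIdeal P.ne_bot (hcopP P hP) with h | h <;> rw [h] <;> norm_num
  have hprod : ∏ P ∈ W, (x.χ.χ P.asIdeal).re = 1 := by
    have h1 := x.triv l.asIdeal l.ne_bot hcop
    rw [hmd, map_prod] at h1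
    have h3 : ((∏ P ∈ W, (x.χ.χ P.asIdeal).re : ℝ) : ℂ) = ((1 : ℝ) : ℂ) := by
      rw [Complex.ofReal_prod, Complex.ofReal_one, ← h1]
      refine Finset.prod_congr rfl fun P hP => ?_
      rw [he1 P hP, pow_one]
      exact (hχ P hP).1.symm
    exact Complex.ofReal_injective h3
  have hlp : x.lp l = ∑ g ∈ W.powerset, cT f (fun P => (x.χ.χ P.asIdeal).re) g :=
    cbl_ev x.c l W f hW hnm (fun P => (x.χ.χ P.asIdeal).re)
  have hd : d1 K x.χ.χ l = ∑ P ∈ W.filter (fun P => f P = 1), x.χ.χ P.asIdeal := by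
    unfold d1
    rw [cbl_deg1 x.c l W f hW hnm, finsum_mem_coe_finset]
  rw [hlp, hd]
  rcases cbl_cases W e f he hf hs with ⟨P, rfl, h3⟩ | ⟨P, Q', hPQ, rfl, h2', h3⟩ | ⟨P, Q', R, hPQ, hPR, hQR, rfl, h2', h3, h4⟩
  · rw [he1 P (by simp), one_mul] at h3
    rw [Finset.filter_singleton, if_neg (by omega), Finset.sum_empty, cT_one f _ P h3, Complex.ofReal_zero]
  · rw [he1 P (by simp), one_mul] at h2'
    rw [he1 Q' (by simp), one_mul] at h3
    rw [Finset.filter_insert, if_pos h2', Finset.filter_singleton, if_neg (by omega), cT_two f _ P Q' hPQ h2' h3,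
      LawfulSingleton.insert_empty_eq, Finset.sum_singleton, (hχ P (by simp)).1]
    rw [Finset.prod_pair hPQ] at hprod
    congr 1
    rcases (hχ P (by simp)).2 with h5 | h5 <;> rcases (hχ Q' (by simp)).2 with h6 | h6 <;>
      rw [h5, h6] at hprod <;> first | (rw [h5, h6]; done) | (exfalso; norm_num at hprod)
  · rw [he1 P (by simp), one_mul] at h2'
    rw [he1 Q' (by simp), one_mul] at h3
    rw [he1 R (by simp), one_mul] at h4
    rw [Finset.filter_insert, if_pos h2', Finset.filter_insert, if_pos h3, Finset.filter_singleton, if_pos h4,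
      cT_three f _ P Q' R hPQ hPR hQR h2' h3 h4, Finset.sum_insert (by simp [hPQ, hPR]), Finset.sum_pair hQR,
      (hχ P (by simp)).1, (hχ Q' (by simp)).1, (hχ R (by simp)).1]
    rw [Finset.prod_insert (by simp [hPQ, hPR]), Finset.prod_pair hQR] at hprod
    rw [← Complex.ofReal_add, ← Complex.ofReal_add]
    congr 1
    rcases (hχ P (by simp)).2 with h5 | h5 <;> rcases (hχ Q' (by simp)).2 with h6 | h6 <;>
      rcases (hχ R (by simp)).2 with h7 | h7 <;> rw [h5, h6, h7] at hprod <;> rw [h5, h6, h7] <;>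
      first | (norm_num; done) | (exfalso; norm_num at hprod)

theorem cbl_lp3 {S : Finset (Pl K)} (x : AQ K S) (l : Pl K) : |x.lp l| ≤ 3 := by
  obtain ⟨W, e, f, hW, he, hf, hnm, hs, -, -⟩ := cbl_data x.c.F l x.c.deg
  have hlp : x.lp l = ∑ g ∈ W.powerset, cT f (fun P => (x.χ.χ P.asIdeal).re) g :=
    cbl_ev x.c l W f hW hnm (fun P => (x.χ.χ P.asIdeal).re)
  rw [hlp]
  exact cT_bd W e f he hf hs _ fun P => (Complex.abs_re_le_norm _).trans (H57.LI.norm_rc x.χ P.asIdeal)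

end H57.SL
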