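import Pool.Agent.H63.MC.CDef

/-!
# H57 SL DIC: primes of a finite extension `F` of `K` and embeddings of `F`

`Q.P v` a prime of the ring of all integers over `v`. `pe F Q v ι`: the prime of `F` below `Q.P v` via the embedding `ι : F → Ω`.
* `pe_over`: it lies over `v`. `pe_surj`: every prime over `v` is of this form.
* `pe_eq`: `pe ι = pe ι'` iff `ι' = σ ∘ ι` for some `σ` in the decomposition group of `Q.P v`.
-/

set_option autoImplicit false

open scoped NumberField Pointwise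
open IsDedekindDomain H63.MA NumberField

noncomputable section

namespace H57.SL

private theorem dic_comm {K : Type} [Field K] [NumberField K] {Ω : Type} [Field Ω]
    [Algebra K Ω] : SMulCommClass Gal(Ω/K) (𝓞 K) (𝓞 Ω) := by
  refine ⟨fun g a b => ?_⟩
  apply NumberField.RingOfIntegers.ext
  rw [Algebra.smul_def, Algebra.smul_def, smul_mul']
  have h1 : g • algebraMap (𝓞 K) (𝓞 Ω) a = algebraMap (𝓞 K) (𝓞 Ω) a := by
    apply NumberField.RingOfIntegers.ext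
    exact g.commutes (a : K)
  rw [h1]

theorem dic_tr {K : Type} [Field K] [NumberField K] {Ω : Type} [Field Ω] [Algebra K Ω]
    [IsAlgClosure K Ω] (P P' : Ideal (𝓞 Ω)) (hP : P.IsPrime) (hP' : P'.IsPrime)
    (h : P.under (𝓞 K) = P'.under (𝓞 K)) : ∃ g : Gal(Ω/K), P' = g • P := by
  have : IsGalois K Ω := IsAlgClosure.isGalois K Ω
  have : SMulCommClass Gal(Ω/K) (𝓞 K) (𝓞 Ω) := dic_comm
  let _ : TopologicalSpace (𝓞 Ω) := ⊥
  have : DiscreteTopology (𝓞 Ω) := ⟨rfl⟩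
  have : ContinuousSMul Gal(Ω/K) (𝓞 Ω) := by
    rw [continuousSMul_iff_stabilizer_isOpen]
    intro x
    have h1 := stabilizer_isOpen_of_isIntegral (K := K) (L := Ω) (x : Ω)
    have h2 : (MulAction.stabilizer Gal(Ω/K) x : Set Gal(Ω/K)) =
        (MulAction.stabilizer Gal(Ω/K) (x : Ω) : Set Gal(Ω/K)) := by
      ext g
      simp only [SetLike.mem_coe, MulAction.mem_stabilizer_iff]
      constructor
      · intro hg
        exact congrArg (fun z : 𝓞 Ω => (z : Ω)) hg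
      · intro hg
        exact NumberField.RingOfIntegers.ext hg
    rw [h2]
    exact h1
  have : Algebra.IsInvariant (𝓞 K) (𝓞 Ω) Gal(Ω/K) := ⟨fun b hb => by
    have h1 : (b : Ω) ∈ (⊥ : IntermediateField K Ω) := by
      rw [← InfiniteGalois.fixedField_bot (k := K) (K := Ω), IntermediateField.mem_fixedField_iff]
      intro g _
      exact congrArg (fun z : 𝓞 Ω => (z : Ω)) (hb g)
    obtain ⟨a, ha⟩ := IntermediateField.mem_bot.1 h1
    have h2 : IsIntegral ℤ a := by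
      have h3 : IsIntegral ℤ (algebraMap K Ω a) := by
        rw [ha]
        exact b.2
      exact (isIntegral_algebraMap_iff (algebraMap K Ω).injective).1 h3
    refine ⟨⟨a, h2⟩, NumberField.RingOfIntegers.ext ?_⟩
    exact ha⟩
  exact Algebra.IsInvariant.exists_smul_of_under_eq_of_profinite (A := 𝓞 K) (G := Gal(Ω/K)) P P' h

variable {K : Type} [Field K] [NumberField K] {Ω : Type} [Field Ω] [Algebra K Ω]

/-- the map on integers -/
def ro {F : Type} [Field F] [Algebra K F] (ι : F →ₐ[K] Ω) : 𝓞 F →+* 𝓞 Ω :=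
  RingOfIntegers.mapRingHom (ι : F →+* Ω)

theorem ro_coe {F : Type} [Field F] [Algebra K F] (ι : F →ₐ[K] Ω) (x : 𝓞 F) :
    ((ro ι x : 𝓞 Ω) : Ω) = ι (x : F) := rfl

/-- the composition with an automorphism -/
def ac {F : Type} [Field F] [Algebra K F] (σ : Gal(Ω/K)) (ι : F →ₐ[K] Ω) : F →ₐ[K] Ω :=
  (σ : Ω →ₐ[K] Ω).comp ι

theorem ac_apply {F : Type} [Field F] [Algebra K F] (σ : Gal(Ω/K)) (ι : F →ₐ[K] Ω) (x : F) :
    ac σ ι x = σ (ι x) := rfl

theorem ac_one {F : Type} [Field F] [Algebra K F] (ι : F →ₐ[K] Ω) : ac 1 ι = ι := rfl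

theorem ac_mul {F : Type} [Field F] [Algebra K F] (σ τ : Gal(Ω/K)) (ι : F →ₐ[K] Ω) :
    ac (σ * τ) ι = ac σ (ac τ ι) := rfl

theorem ro_ac {F : Type} [Field F] [Algebra K F] (σ : Gal(Ω/K)) (ι : F →ₐ[K] Ω) (x : 𝓞 F) :
    ro (ac σ ι) x = σ • ro ι x := rfl

variable (F : Type) [Field F] [NumberField F] [Algebra K F]

/-- the prime of `F` below `Q.P v` via `ι` -/
def pe (Q : DP K Ω) (v : Pl K) (ι : F →ₐ[K] Ω) : Pl F where
  asIdeal := (Q.P v).comap (ro ι)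
  isPrime := by
    haveI := Q.prime v
    exact Ideal.comap_isPrime _ _
  ne_bot := by
    intro h
    apply v.ne_bot
    rw [← Q.under v]
    refine (Submodule.eq_bot_iff _).2 fun x hx => ?_
    have h1 : algebraMap (𝓞 K) (𝓞 F) x ∈ (Q.P v).comap (ro ι) := by
      rw [Ideal.mem_comap]
      have h2 : ro ι (algebraMap (𝓞 K) (𝓞 F) x) = algebraMap (𝓞 K) (𝓞 Ω) x := by
        apply RingOfIntegers.ext
        exact ι.commutes (x : K)
      rw [h2]
      exact hx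
    rw [h, Ideal.mem_bot] at h1
    exact (FaithfulSMul.algebraMap_injective (𝓞 K) (𝓞 F)) (h1.trans (map_zero _).symm)

theorem mem_pe (Q : DP K Ω) (v : Pl K) (ι : F →ₐ[K] Ω) (x : 𝓞 F) :
    x ∈ (pe F Q v ι).asIdeal ↔ ro ι x ∈ Q.P v := Iff.rfl

theorem pe_over (Q : DP K Ω) (v : Pl K) (ι : F →ₐ[K] Ω) : Over (pe F Q v ι) v := by
  show ((Q.P v).comap (ro ι)).comap (algebraMap (𝓞 K) (𝓞 F)) = v.asIdeal
  rw [Ideal.comap_comap, ← Q.under v]
  congr 1
  ext x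
  exact ι.commutes (x : K)

theorem pe_ac (Q : DP K Ω) (v : Pl K) (ι : F →ₐ[K] Ω) {σ : Gal(Ω/K)}
    (hσ : σ ∈ dec (K := K) (Q.P v)) : pe F Q v (ac σ ι) = pe F Q v ι := by
  apply HeightOneSpectrum.ext
  ext x
  rw [mem_pe, mem_pe, ro_ac]
  exact hσ _

variable [IsAlgClosure K Ω]

theorem emb_tr (ι ι' : F →ₐ[K] Ω) : ∃ σ : Gal(Ω/K), ι' = ac σ ι := by
  haveI : IsAlgClosed Ω := IsAlgClosure.isAlgClosed K
  haveI : Algebra.IsAlgebraic K Ω := IsAlgClosure.isAlgebraic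
  haveI : Normal K Ω := IsAlgClosure.normal K Ω
  let e : ι.fieldRange ≃ₐ[K] ι'.fieldRange :=
    (AlgEquiv.ofInjectiveField ι).symm.trans (AlgEquiv.ofInjectiveField ι')
  obtain ⟨σ, hσ⟩ : ∃ σ : Gal(Ω/K), ∀ x : ι.fieldRange, σ (x : Ω) = (e x : Ω) := by
    let g : Ω →ₐ[K] Ω := AlgHom.liftNormal (e : ι.fieldRange →ₐ[K] ι'.fieldRange) Ω
    refine ⟨AlgEquiv.ofBijective g (Algebra.IsAlgebraic.algHom_bijective g), fun x => ?_⟩
    have h1 := AlgHom.liftNormal_commutes (e : ι.fieldRange →ₐ[K] ι'.fieldRange) Ω x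
    exact h1
  refine ⟨σ, AlgHom.ext fun x => ?_⟩
  rw [ac_apply]
  have h := hσ ⟨ι x, x, rfl⟩
  rw [h]
  have h2 : (AlgEquiv.ofInjectiveField ι).symm ⟨ι x, x, rfl⟩ = x := by
    rw [AlgEquiv.symm_apply_eq]
    rfl
  show ι' x = ((AlgEquiv.ofInjectiveField ι') ((AlgEquiv.ofInjectiveField ι).symm ⟨ι x, x, rfl⟩) : Ω)
  rw [h2]
  rfl

omit [IsAlgClosure K Ω] in
theorem dic_alg : Algebra.IsAlgebraic K F := by
  haveI : Module.Finite K F := Module.Finite.of_restrictScalars_finite ℚ K F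
  infer_instance

theorem pe_surj (Q : DP K Ω) (v : Pl K) (w : Pl F) (hw : Over w v) :
    ∃ ι : F →ₐ[K] Ω, pe F Q v ι = w := by
  haveI : IsAlgClosed Ω := IsAlgClosure.isAlgClosed K
  haveI : Algebra.IsAlgebraic K F := dic_alg F
  let ι0 : F →ₐ[K] Ω := IsAlgClosed.lift
  let _ : Algebra (𝓞 F) (𝓞 Ω) := (ro ι0).toAlgebra
  have hint : Algebra.IsIntegral (𝓞 F) (𝓞 Ω) := by
    refine ⟨fun y => ?_⟩
    have h1 : IsIntegral ℤ (y : Ω) := y.2
    have h2 : IsIntegral ℤ y := by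
      have h3 : IsIntegral ℤ (algebraMap (𝓞 Ω) Ω y) := h1
      exact (isIntegral_algebraMap_iff (FaithfulSMul.algebraMap_injective (𝓞 Ω) Ω)).1 h3
    exact h2.tower_top
  haveI := w.isPrime
  have hinj : Function.Injective (algebraMap (𝓞 F) (𝓞 Ω)) := by
    intro x y hxy
    have h1 : ι0 (x : F) = ι0 (y : F) := congrArg (fun z : 𝓞 Ω => (z : Ω)) hxy
    exact RingOfIntegers.ext (ι0.toRingHom.injective h1)
  obtain ⟨P', -, hP', hP'w⟩ := Ideal.exists_ideal_over_prime_of_isIntegral (S := 𝓞 Ω) w.asIdeal ⊥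
    (by
      rw [← RingHom.ker_eq_comap_bot, (RingHom.injective_iff_ker_eq_bot _).1 hinj]
      exact bot_le)
  have hmem : ∀ x : 𝓞 F, ro ι0 x ∈ P' ↔ x ∈ w.asIdeal := by
    intro x
    rw [← hP'w]
    rfl
  have hu : P'.under (𝓞 K) = (Q.P v).under (𝓞 K) := by
    rw [Q.under v, ← (show w.asIdeal.comap (algebraMap (𝓞 K) (𝓞 F)) = v.asIdeal from hw)]
    ext x
    show algebraMap (𝓞 K) (𝓞 Ω) x ∈ P' ↔ algebraMap (𝓞 K) (𝓞 F) x ∈ w.asIdeal
    rw [← hmem]
    have h2 : ro ι0 (algebraMap (𝓞 K) (𝓞 F) x) = algebraMap (𝓞 K) (𝓞 Ω) x := by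
      apply RingOfIntegers.ext
      exact ι0.commutes (x : K)
    rw [h2]
  obtain ⟨g, hg⟩ := dic_tr P' (Q.P v) hP' (Q.prime v) hu
  refine ⟨ac g ι0, ?_⟩
  apply HeightOneSpectrum.ext
  ext x
  rw [mem_pe, ro_ac, hg, Ideal.smul_mem_pointwise_smul_iff, hmem]

end H57.SL
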