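import Pool.Agent.H57.SL.Def
import Pool.Agent.H57.LI.Sfk

/-!
# [H57 SL XAB] sums over the pairs (100-140 lines, elementary)

`bsi`: group the pairs by `f = x.2`: for a fixed `f` (disjoint from `S`, `nn f ^ 2 ≤ Z`) the sum over `d` of `pd μ d` over the `d` disjoint from `S ∪ f` with `nn d ≤ Z / nn f ^ 2`
is `p.SS (off (S ∪ f) μ) (Z / nn f ^ 2)` because `pd (off T μ) d = pd μ d` if `d` is disjoint from `T` and `0` otherwise (`pd_off`).
`xab`: `|bb μ x| ≤ 2 ^ #x.1 * 3 ^ #x.2`, `nx ≥ nn x.1 * nn x.2`; the sum is at most `(∑_{d ∈ SF V} 2 ^ #d / nn d) (∑_{f ∈ SF V} 3 ^ #f / nn f)`, `Pr.sfk` with `Z = max V 2`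
(`log Z ≤ 1 + log V`).
`sf32`: for a finite set `T` of finite sets let `U` be the union: `∑_{f ∈ T} a ^ #f nn f ^ (-3/2) ≤ ∏_{i ∈ U} (1 + a N i ^ (-3/2)) ≤ exp (a ∑_{i ∈ U} N i ^ (-3/2))` and
`∑_{i ∈ U} N i ^ (-3/2) ≤ n ∑ m ^ (-3/2)` (at most `n` indices with the same norm; see `cmp_sum` in `H57/LC/Cmp.lean`).
-/

set_option autoImplicit false

noncomputable section

namespace H57.SL

open H57.LI H57.LC Classical

variable {ι : Type} (p : Pr ι)

theorem pd_off (T : Finset ι) (μ : ι → ℝ) (s : Finset ι) :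
    pd (off T μ) s = if Disjoint s T then pd μ s else 0 := by
  unfold pd off
  split_ifs with h
  · refine Finset.prod_congr rfl fun i hi => ?_
    rw [if_neg (Finset.disjoint_left.1 h hi)]
  · rw [Finset.not_disjoint_iff] at h
    obtain ⟨i, hi, hi'⟩ := h
    exact Finset.prod_eq_zero hi (if_pos hi')

theorem bsi (S : Finset ι) (μ : ι → ℝ) (Z : ℝ) :
    Bs p S μ Z = ∑ f ∈ (p.SF Z).filter (fun f => Disjoint f S ∧ p.nn f ^ 2 ≤ Z),
      pd (fun i => -(1 + μ i)) f * p.SS (off (S ∪ f) μ) (Z / p.nn f ^ 2) := by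
  have e1 : ∀ f : Finset ι, pd (fun i => -(1 + μ i)) f * p.SS (off (S ∪ f) μ) (Z / p.nn f ^ 2) =
      ∑ d ∈ (p.SF (Z / p.nn f ^ 2)).filter (fun d => Disjoint d (S ∪ f)), bb μ (d, f) := by
    intro f
    unfold Pr.SS bb
    rw [Finset.mul_sum, Finset.sum_filter]
    refine Finset.sum_congr rfl fun d _ => ?_
    rw [pd_off]
    split_ifs
    · ring
    · ring
  rw [Finset.sum_congr rfl fun f _ => e1 f]
  unfold Bs
  rw [Finset.sum_sigma']
  refine Finset.sum_nbij' (fun x : Finset ι × Finset ι => (⟨x.2, x.1⟩ : (_ : Finset ι) × Finset ι))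
    (fun y : (_ : Finset ι) × Finset ι => (y.2, y.1)) ?_ ?_ ?_ ?_ ?_
  · rintro ⟨d, f⟩ hx
    simp only [XP, nx, Finset.mem_filter, Finset.mem_product, p.mem_SF] at hx
    simp only [Finset.mem_sigma, Finset.mem_filter, p.mem_SF, Finset.disjoint_union_right]
    obtain ⟨⟨h1, h2⟩, h3, h4, h5, h6⟩ := hx
    have hf := p.nn_pos f
    have hd := p.one_le_nn d
    refine ⟨⟨h2, h5, ?_⟩, ?_, h4, h3⟩
    · have h7 : 1 * p.nn f ^ 2 ≤ p.nn d * p.nn f ^ 2 := mul_le_mul_of_nonneg_right hd (by positivity)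
      linarith
    · rw [le_div_iff₀ (by positivity)]
      exact h6
  · rintro ⟨f, d⟩ hy
    simp only [Finset.mem_sigma, Finset.mem_filter, p.mem_SF, Finset.disjoint_union_right] at hy
    simp only [XP, nx, Finset.mem_filter, Finset.mem_product, p.mem_SF]
    obtain ⟨⟨h1, h2, h3⟩, h4, h5, h6⟩ := hy
    have hf := p.nn_pos f
    have hf1 := p.one_le_nn f
    have hd := p.nn_pos d
    rw [le_div_iff₀ (by positivity)] at h4
    refine ⟨⟨?_, h1⟩, h6, h5, h2, h4⟩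
    have h7 : p.nn d * 1 ≤ p.nn d * p.nn f ^ 2 :=
      mul_le_mul_of_nonneg_left (one_le_pow₀ hf1) hd.le
    linarith
  · intro x _
    rfl
  · intro y _
    rfl
  · intro x _
    rfl

theorem abs_pd_le (μ : ι → ℝ) (c : ℝ) (h : ∀ i, |μ i| ≤ c) (s : Finset ι) : |pd μ s| ≤ c ^ s.card := by
  unfold pd
  rw [Finset.abs_prod]
  rw [← Finset.prod_const]
  exact Finset.prod_le_prod (fun i _ => abs_nonneg _) fun i _ => h i

theorem abs_bb_le (μ : ι → ℝ) (hμ : ∀ i, |μ i| ≤ 2) (x : Finset ι × Finset ι) :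
    |bb μ x| ≤ 2 ^ x.1.card * 3 ^ x.2.card := by
  unfold bb
  rw [abs_mul]
  refine mul_le_mul (abs_pd_le μ 2 hμ _) (abs_pd_le _ 3 ?_ _) (abs_nonneg _) (by positivity)
  intro i
  rw [abs_neg]
  have h1 := abs_add_le 1 (μ i)
  rw [abs_one] at h1
  linarith [hμ i]

theorem xab : ∃ (C : ℝ) (k : ℕ), 1 ≤ C ∧ ∀ μ : ι → ℝ, (∀ i, |μ i| ≤ 2) →
    ∀ (S : Finset ι) (V : ℝ), 1 ≤ V →
      ∑ x ∈ XP p S V, |bb μ x| / nx p x ≤ C * (1 + Real.log V) ^ k := by
  refine ⟨p.C ^ 5, p.n * 5, one_le_pow₀ p.C1, ?_⟩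
  intro μ hμ S V hV
  set W := max V 2 with hW
  have hW2 : 2 ≤ W := le_max_right _ _
  have hC := p.C1
  have hlogV : 0 ≤ Real.log V := Real.log_nonneg hV
  have hlogW : Real.log W ≤ 1 + Real.log V := by
    rcases le_total V 2 with h | h
    · rw [hW, max_eq_right h]
      have h2 : Real.log 2 ≤ 1 := by
        have := Real.log_two_lt_d9
        linarith
      linarith
    · rw [hW, max_eq_left h]
      linarith
  have hlogW0 : 0 ≤ Real.log W := Real.log_nonneg (by linarith)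
  calc ∑ x ∈ XP p S V, |bb μ x| / nx p x
      ≤ ∑ x ∈ XP p S V, ((2 : ℝ) ^ x.1.card / p.nn x.1) * ((3 : ℝ) ^ x.2.card / p.nn x.2) := by
        refine Finset.sum_le_sum fun x _ => ?_
        have h1 := p.nn_pos x.1
        have h2 := p.nn_pos x.2
        have h3 := p.one_le_nn x.2
        rw [div_mul_div_comm]
        refine div_le_div₀ (by positivity) (abs_bb_le μ hμ x) (by positivity) ?_
        unfold nx
        have h4 : p.nn x.2 ≤ p.nn x.2 ^ 2 := by nlinarith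
        exact mul_le_mul_of_nonneg_left h4 h1.le
    _ ≤ ∑ x ∈ p.SF W ×ˢ p.SF W, ((2 : ℝ) ^ x.1.card / p.nn x.1) * ((3 : ℝ) ^ x.2.card / p.nn x.2) := by
        refine Finset.sum_le_sum_of_subset_of_nonneg ?_ ?_
        · intro x hx
          simp only [XP, Finset.mem_filter, Finset.mem_product, p.mem_SF] at hx
          rw [Finset.mem_product, p.mem_SF, p.mem_SF]
          exact ⟨hx.1.1.trans (le_max_left _ _), hx.1.2.trans (le_max_left _ _)⟩
        · intro x _ _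
          have h1 := p.nn_pos x.1
          have h2 := p.nn_pos x.2
          positivity
    _ = (∑ s ∈ p.SF W, ((2 : ℕ) : ℝ) ^ s.card / p.nn s) * ∑ s ∈ p.SF W, ((3 : ℕ) : ℝ) ^ s.card / p.nn s := by
        rw [Finset.sum_product, Finset.sum_mul_sum]
        push_cast
        rfl
    _ ≤ (p.C * Real.log W ^ p.n) ^ 2 * (p.C * Real.log W ^ p.n) ^ 3 := by
        refine mul_le_mul (p.sfk 2 W hW2) (p.sfk 3 W hW2) ?_ (by positivity)
        exact Finset.sum_nonneg fun s _ => by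
          have := p.nn_pos s
          positivity
    _ = p.C ^ 5 * Real.log W ^ (p.n * 5) := by
        rw [← pow_add, mul_pow, ← pow_mul]
    _ ≤ p.C ^ 5 * (1 + Real.log V) ^ (p.n * 5) := by
        have : 0 ≤ p.C ^ 5 := by positivity
        gcongr

private theorem xab_sum (T : Finset ι) :
    ∑ l ∈ T, (p.N l : ℝ) ^ (-(3 / 2) : ℝ) ≤ p.n * ∑' m : ℕ, (m : ℝ) ^ (-(3 / 2) : ℝ) := by
  have hs : Summable fun m : ℕ => (m : ℝ) ^ (-(3 / 2) : ℝ) := Real.summable_nat_rpow.2 (by norm_num)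
  have hmaps : ∀ i ∈ T, p.N i ∈ T.image p.N := fun i hi => Finset.mem_image_of_mem _ hi
  rw [← Finset.sum_fiberwise_of_maps_to hmaps]
  have hfib : ∀ m ∈ T.image p.N,
      ∑ i ∈ T.filter (fun i => p.N i = m), (p.N i : ℝ) ^ (-(3 / 2) : ℝ) ≤ p.n * (m : ℝ) ^ (-(3 / 2) : ℝ) := by
    intro m _
    have h1 : ∑ i ∈ T.filter (fun i => p.N i = m), (p.N i : ℝ) ^ (-(3 / 2) : ℝ)
        = ∑ i ∈ T.filter (fun i => p.N i = m), (m : ℝ) ^ (-(3 / 2) : ℝ) := by
      refine Finset.sum_congr rfl fun i hi => ?_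
      rw [(Finset.mem_filter.1 hi).2]
    rw [h1, Finset.sum_const, nsmul_eq_mul]
    refine mul_le_mul_of_nonneg_right ?_ (Real.rpow_nonneg (Nat.cast_nonneg _) _)
    have h2 : (T.filter (fun i => p.N i = m)).card ≤ p.n := by
      rw [← Set.ncard_coe_finset]
      refine (Set.ncard_le_ncard ?_ (p.fin m)).trans (p.mul m)
      intro i hi
      exact (Finset.mem_filter.1 (Finset.mem_coe.1 hi)).2
    exact_mod_cast h2
  refine (Finset.sum_le_sum hfib).trans ?_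
  rw [← Finset.mul_sum]
  refine mul_le_mul_of_nonneg_left ?_ (Nat.cast_nonneg _)
  exact hs.sum_le_tsum _ fun m _ => Real.rpow_nonneg (Nat.cast_nonneg _) _

theorem sf32 (a : ℝ) (ha : 0 ≤ a) : ∃ C : ℝ, 1 ≤ C ∧ ∀ T : Finset (Finset ι),
    ∑ f ∈ T, a ^ f.card * p.nn f ^ (-(3 / 2) : ℝ) ≤ C := by
  have hz : 0 ≤ ∑' m : ℕ, (m : ℝ) ^ (-(3 / 2) : ℝ) := tsum_nonneg fun m => Real.rpow_nonneg (Nat.cast_nonneg _) _
  refine ⟨Real.exp (a * (p.n * ∑' m : ℕ, (m : ℝ) ^ (-(3 / 2) : ℝ))), Real.one_le_exp (by positivity), ?_⟩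
  intro T
  set U := T.biUnion id with hU
  have hterm : ∀ f : Finset ι, a ^ f.card * p.nn f ^ (-(3 / 2) : ℝ) =
      ∏ i ∈ f, (a * (p.N i : ℝ) ^ (-(3 / 2) : ℝ)) := by
    intro f
    rw [Finset.prod_mul_distrib, Finset.prod_const]
    unfold Pr.nn
    rw [← Real.finsetProd_rpow _ _ fun i _ => Nat.cast_nonneg _]
  have hnn : ∀ f : Finset ι, 0 ≤ ∏ i ∈ f, (a * (p.N i : ℝ) ^ (-(3 / 2) : ℝ)) := fun f =>
    Finset.prod_nonneg fun i _ => mul_nonneg ha (Real.rpow_nonneg (Nat.cast_nonneg _) _)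
  calc ∑ f ∈ T, a ^ f.card * p.nn f ^ (-(3 / 2) : ℝ)
      = ∑ f ∈ T, ∏ i ∈ f, (a * (p.N i : ℝ) ^ (-(3 / 2) : ℝ)) :=
        Finset.sum_congr rfl fun f _ => hterm f
    _ ≤ ∑ f ∈ U.powerset, ∏ i ∈ f, (a * (p.N i : ℝ) ^ (-(3 / 2) : ℝ)) := by
        refine Finset.sum_le_sum_of_subset_of_nonneg ?_ fun f _ _ => hnn f
        intro f hf
        rw [Finset.mem_powerset]
        exact Finset.subset_biUnion_of_mem id hf
    _ = ∏ i ∈ U, (1 + a * (p.N i : ℝ) ^ (-(3 / 2) : ℝ)) := by rw [Finset.prod_one_add]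
    _ ≤ ∏ i ∈ U, Real.exp (a * (p.N i : ℝ) ^ (-(3 / 2) : ℝ)) := by
        refine Finset.prod_le_prod (fun i _ => ?_) fun i _ => ?_
        · have := mul_nonneg ha (Real.rpow_nonneg (Nat.cast_nonneg (p.N i)) (-(3 / 2) : ℝ))
          linarith
        · have := Real.add_one_le_exp (a * (p.N i : ℝ) ^ (-(3 / 2) : ℝ))
          linarith
    _ = Real.exp (a * ∑ i ∈ U, (p.N i : ℝ) ^ (-(3 / 2) : ℝ)) := by
        rw [← Real.exp_sum, Finset.mul_sum]
    _ ≤ Real.exp (a * (p.n * ∑' m : ℕ, (m : ℝ) ^ (-(3 / 2) : ℝ))) :=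
        Real.exp_le_exp.2 (mul_le_mul_of_nonneg_left (xab_sum p U) ha)

end H57.SL
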