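import Pool.Agent.H57.SL.Wsm
import Pool.Agent.H57.LI.Sfk

/-!
# [H57 SL AMT] the trivial bound with the exact power of the logarithm (60-90 lines)

`∑_{q ∈ SF Y} 1 / nn q ≤ ∑_{I ∈ IN K Y} 1 / N I ≤ C (1 + log Y)` (`q ↦ idl q` is injective with norm `nn q`: `idl_inj`, `idl_norm`, `prK_nn` in `H57/LI/PrK`; `wsm_sum`). Then
`∑_{q ∈ SF Y} 3 ^ #q / nn q ≤ (∑_{q ∈ SF Y} 1 / nn q) ^ 3` (`3 ^ #q` = number of the ordered partitions of `q` in three subsets; see the proof of `Pr.sfk` in `H57/LI/Sfk.lean`), and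
`1 ≤ Y / nn q` for `q ∈ SF Y`.
-/

set_option autoImplicit false

open scoped NumberField Classical
open IsDedekindDomain H63.MA NumberField H36.QA H57.LI H57.LC H67.SX H38.ML

noncomputable section

namespace H57.SL

private theorem amt_sfk {ι : Type} (p : Pr ι) (k : ℕ) (Z : ℝ) (hZ : 1 ≤ Z) :
    ∑ s ∈ p.SF Z, (k : ℝ) ^ s.card / p.nn s ≤ (∑ s ∈ p.SF Z, 1 / p.nn s) ^ k := by
  have hB : 0 ≤ ∑ s ∈ p.SF Z, 1 / p.nn s := Finset.sum_nonneg fun u _ => by
    have := p.nn_pos u
    positivity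
  induction k with
  | zero =>
    have h : ∑ s ∈ p.SF Z, ((0 : ℕ) : ℝ) ^ s.card / p.nn s = 1 := by
      rw [Finset.sum_eq_single ∅]
      · simp [Pr.nn]
      · intro s _ hs
        have h1 : s.card ≠ 0 := by simpa using hs
        rw [Nat.cast_zero, zero_pow h1, zero_div]
      · intro h
        refine absurd (p.mem_SF.2 ?_) h
        have : p.nn ∅ = 1 := by simp [Pr.nn]
        rw [this]
        exact hZ
    rw [h, pow_zero]
  | succ k ih =>
    have hpow : ∀ s : Finset ι, ((k + 1 : ℕ) : ℝ) ^ s.card = ∑ t ∈ s.powerset, (k : ℝ) ^ t.card := by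
      intro s
      have h := Finset.sum_pow_mul_eq_add_pow (k : ℝ) 1 s
      simp only [one_pow, mul_one] at h
      rw [h]
      push_cast
      rfl
    have hnn : ∀ s t : Finset ι, t ⊆ s → p.nn s = p.nn t * p.nn (s \ t) := by
      intro s t hts
      unfold Pr.nn
      rw [mul_comm, Finset.prod_sdiff hts]
    calc ∑ s ∈ p.SF Z, ((k + 1 : ℕ) : ℝ) ^ s.card / p.nn s
        = ∑ s ∈ p.SF Z, ∑ t ∈ s.powerset, (k : ℝ) ^ t.card / p.nn t * (1 / p.nn (s \ t)) := by
          refine Finset.sum_congr rfl fun s _ => ?_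
          rw [hpow, Finset.sum_div]
          refine Finset.sum_congr rfl fun t ht => ?_
          rw [hnn s t (Finset.mem_powerset.1 ht)]
          have h1 := (p.nn_pos t).ne'
          have h2 := (p.nn_pos (s \ t)).ne'
          field_simp
      _ = ∑ x ∈ (p.SF Z).sigma (fun s => s.powerset),
            (k : ℝ) ^ x.2.card / p.nn x.2 * (1 / p.nn (x.1 \ x.2)) := by
          rw [Finset.sum_sigma]
      _ = ∑ y ∈ ((p.SF Z).sigma (fun s => s.powerset)).image (fun x => (x.2, x.1 \ x.2)),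
            (k : ℝ) ^ y.1.card / p.nn y.1 * (1 / p.nn y.2) := by
          rw [Finset.sum_image]
          rintro ⟨s, t⟩ hx ⟨s', t'⟩ hy hxy
          simp only [Finset.coe_sigma, Set.mem_sigma_iff, Finset.mem_coe, Finset.mem_powerset] at hx hy
          simp only [Prod.mk.injEq] at hxy
          obtain ⟨h1, h2⟩ := hxy
          subst h1
          have h3 : s = s' := by
            rw [← Finset.sdiff_union_of_subset hx.2, ← Finset.sdiff_union_of_subset hy.2, h2]
          subst h3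
          rfl
      _ ≤ ∑ y ∈ (p.SF Z) ×ˢ (p.SF Z), (k : ℝ) ^ y.1.card / p.nn y.1 * (1 / p.nn y.2) := by
          refine Finset.sum_le_sum_of_subset_of_nonneg ?_ ?_
          · intro y hy
            rw [Finset.mem_image] at hy
            obtain ⟨⟨s, t⟩, hx, rfl⟩ := hy
            rw [Finset.mem_sigma] at hx
            obtain ⟨hs, ht⟩ := hx
            simp only [Finset.mem_powerset] at ht
            have hs' := p.mem_SF.1 hs
            simp only at hs'
            have h1 := hnn s t ht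
            have h2 := p.one_le_nn t
            have h3 := p.one_le_nn (s \ t)
            rw [Finset.mem_product]
            refine ⟨p.mem_SF.2 ?_, p.mem_SF.2 ?_⟩
            · simp only
              nlinarith
            · simp only
              nlinarith
          · intro y _ _
            have h1 := p.nn_pos y.1
            have h2 := p.nn_pos y.2
            positivity
      _ = (∑ t ∈ p.SF Z, (k : ℝ) ^ t.card / p.nn t) * ∑ u ∈ p.SF Z, 1 / p.nn u := by
          rw [Finset.sum_product, Finset.sum_mul_sum]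
      _ ≤ (∑ s ∈ p.SF Z, 1 / p.nn s) ^ k * ∑ s ∈ p.SF Z, 1 / p.nn s :=
          mul_le_mul_of_nonneg_right ih hB
      _ = (∑ s ∈ p.SF Z, 1 / p.nn s) ^ (k + 1) := by rw [pow_succ]

theorem amt (K : Type) [Field K] [NumberField K] : ∃ C : ℝ, 1 ≤ C ∧ ∀ Y : ℝ, 1 ≤ Y →
    ∑ q ∈ (prK K).SF Y, (3 : ℝ) ^ q.card ≤ C * Y * (1 + Real.log Y) ^ 3 := by
  obtain ⟨C, hC, hsum⟩ := wsm_sum K
  refine ⟨C ^ 3, one_le_pow₀ hC, ?_⟩
  intro Y hY
  have hY0 : 0 < Y := by linarith
  have hlog : 0 ≤ Real.log Y := Real.log_nonneg hY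
  have h1 : ∑ q ∈ (prK K).SF Y, 1 / (prK K).nn q ≤ C * (1 + Real.log Y) := by
    refine le_trans ?_ (hsum Y hY)
    have e : ∑ q ∈ (prK K).SF Y, 1 / (prK K).nn q =
        ∑ I ∈ ((prK K).SF Y).image H57.LI.idl, 1 / (Ideal.absNorm I : ℝ) := by
      rw [Finset.sum_image (fun s _ t _ h => H57.LI.idl_inj h)]
      refine Finset.sum_congr rfl fun s _ => ?_
      rw [prK_nn]
    rw [e]
    refine Finset.sum_le_sum_of_subset_of_nonneg ?_ fun I _ _ => by positivity
    intro I hI
    rw [Finset.mem_image] at hI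
    obtain ⟨s, hs, rfl⟩ := hI
    rw [mem_IN hY0.le, ← prK_nn]
    exact ⟨(prK K).mem_SF.1 hs, H57.LI.idl_ne s⟩
  have h2 := amt_sfk (prK K) 3 Y hY
  have h0 : 0 ≤ ∑ q ∈ (prK K).SF Y, 1 / (prK K).nn q := Finset.sum_nonneg fun u _ => by
    have := (prK K).nn_pos u
    positivity
  calc ∑ q ∈ (prK K).SF Y, (3 : ℝ) ^ q.card
      ≤ ∑ q ∈ (prK K).SF Y, Y * (((3 : ℕ) : ℝ) ^ q.card / (prK K).nn q) := by
        refine Finset.sum_le_sum fun s hs => ?_
        have h3 := (prK K).mem_SF.1 hs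
        have h4 := (prK K).nn_pos s
        rw [mul_div_assoc', le_div_iff₀ h4]
        push_cast
        rw [mul_comm]
        exact mul_le_mul_of_nonneg_right h3 (by positivity)
    _ = Y * ∑ q ∈ (prK K).SF Y, ((3 : ℕ) : ℝ) ^ q.card / (prK K).nn q := by rw [Finset.mul_sum]
    _ ≤ Y * (∑ q ∈ (prK K).SF Y, 1 / (prK K).nn q) ^ 3 := by gcongr
    _ ≤ Y * (C * (1 + Real.log Y)) ^ 3 := by gcongr
    _ = C ^ 3 * Y * (1 + Real.log Y) ^ 3 := by ring

end H57.SL
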