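import Pool.Agent.H57.SL.Xab

/-!
# [H57 SL BSA] bounds for the sum of the coefficients (120-160 lines)

Both start from `bsi`: `Bs Z = ∑_f pd (-(1 + μ)) f * SS (off (S ∪ f) μ) (Z / nn f ^ 2)`, `|pd (-(1 + μ)) f| ≤ 3 ^ #f`.

`bsa`: `|Bs Z| ≤ ∑_f 3 ^ #f D c ^ #f (Z / nn f ^ 2)^(1-δ) ≤ D Z^(1-δ) ∑_f (3 c) ^ #f nn f ^ (-3/2)` (`2 (1 - δ) ≥ 3/2`), `sf32` with `a = 3 c`.

`bsb`: let `w = log R`, `Z0 = exp ((log log √R)^3)`. Trivial bound: `|SS (off T μ) Z'| ≤ ∑_{d ∈ SF Z'} 2 ^ #d ≤ Z' C w ^ k` for `1 ≤ Z' ≤ R ^ A'` (`Pr.sfk_card` with exponent 2; for `Z' < 2`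
only `d = ∅`), `C`, `k` depend on `p`, `A'`. Take `B1 = 2 (B + k + 1)`, `B2 = B + 1`. For `nn f ≤ w ^ B1`: `Z / nn f ^ 2 ≥ Z0`, so the terms are at most
`3 ^ #f (Z / nn f ^ 2) / w ^ B2`, with sum `≤ C Z / w ^ B2` (`sf32` with `a = 3`, `nn f ^ (-2) ≤ nn f ^ (-3/2)`). For `nn f > w ^ B1`: `nn f ^ (-2) ≤ w ^ (-B1/2) nn f ^ (-3/2)`, so the sum is at
most `C Z w ^ k w ^ (-B1/2) ≤ C Z / w ^ (B + 1)`. For `R ≥ R₀` (`w ≥ 2 C` + …) the total is at most `Z / w ^ B`.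

`thr`: with `u = log log R` (large), `log log √R = u - log 2`, `(u - log 2)^3 + B u ≤ u ^ 3` for `u ≥ B + 1` or so (`3 log 2 u^2 - ... ≥ B u`).
-/

set_option autoImplicit false

noncomputable section

namespace H57.SL

open H57.LI H57.LC Classical

variable {ι : Type} (p : Pr ι)

private theorem bsa_abs (S : Finset ι) (μ : ι → ℝ) (hμ : ∀ i, |μ i| ≤ 2) (Z : ℝ) (G : Finset ι → ℝ) (K : ℝ)
    (hK : 0 ≤ K)
    (h : ∀ f : Finset ι, p.nn f ^ 2 ≤ Z → |p.SS (off (S ∪ f) μ) (Z / p.nn f ^ 2)| ≤ K * G f)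
    (C a : ℝ) (hC : ∀ T : Finset (Finset ι), ∑ f ∈ T, a ^ f.card * p.nn f ^ (-(3 / 2) : ℝ) ≤ C)
    (hG : ∀ f, 3 ^ f.card * G f ≤ a ^ f.card * p.nn f ^ (-(3 / 2) : ℝ)) :
    |Bs p S μ Z| ≤ C * K := by
  rw [bsi]
  refine (Finset.abs_sum_le_sum_abs _ _).trans ?_
  have h1 : ∀ f ∈ (p.SF Z).filter (fun f => Disjoint f S ∧ p.nn f ^ 2 ≤ Z),
      |pd (fun i => -(1 + μ i)) f * p.SS (off (S ∪ f) μ) (Z / p.nn f ^ 2)| ≤
        K * (a ^ f.card * p.nn f ^ (-(3 / 2) : ℝ)) := by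
    intro f hf
    rw [Finset.mem_filter] at hf
    rw [abs_mul]
    have h2 : |pd (fun i => -(1 + μ i)) f| ≤ 3 ^ f.card := by
      refine abs_pd_le _ 3 ?_ _
      intro i
      rw [abs_neg]
      have h1 := abs_add_le 1 (μ i)
      rw [abs_one] at h1
      linarith [hμ i]
    calc |pd (fun i => -(1 + μ i)) f| * |p.SS (off (S ∪ f) μ) (Z / p.nn f ^ 2)|
        ≤ 3 ^ f.card * (K * G f) := mul_le_mul h2 (h f hf.2.2) (abs_nonneg _) (by positivity)
      _ = K * (3 ^ f.card * G f) := by ring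
      _ ≤ K * (a ^ f.card * p.nn f ^ (-(3 / 2) : ℝ)) := mul_le_mul_of_nonneg_left (hG f) hK
  refine (Finset.sum_le_sum h1).trans ?_
  rw [← Finset.mul_sum, mul_comm C K]
  exact mul_le_mul_of_nonneg_left (hC _) hK

theorem bsa (c δ : ℝ) (hc : 1 ≤ c) (hδ : 0 < δ) (hδ1 : δ ≤ 1 / 4) : ∃ C : ℝ, 1 ≤ C ∧
    ∀ (S : Finset ι) (μ : ι → ℝ), (∀ i, |μ i| ≤ 2) → ∀ D : ℝ, 0 ≤ D →
    (∀ (e : Finset ι) (Z : ℝ), 1 ≤ Z →
      |p.SS (off (S ∪ e) μ) Z| ≤ D * c ^ e.card * Z ^ (1 - δ)) →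
    ∀ Z : ℝ, 1 ≤ Z → |Bs p S μ Z| ≤ C * D * Z ^ (1 - δ) := by
  obtain ⟨C, hC1, hC⟩ := sf32 p (3 * c) (by linarith)
  refine ⟨C, hC1, ?_⟩
  intro S μ hμ D hD h Z hZ
  have hZ0 : 0 < Z := by linarith
  rw [mul_assoc]
  refine bsa_abs p S μ hμ Z (fun f => c ^ f.card * p.nn f ^ (-(3 / 2) : ℝ)) (D * Z ^ (1 - δ))
    (by positivity) ?_ C (3 * c) hC ?_
  · intro f hf
    have h1 := p.nn_pos f
    have h2 := p.one_le_nn f
    have h3 : 1 ≤ Z / p.nn f ^ 2 := by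
      rw [le_div_iff₀ (by positivity)]
      linarith
    refine (h f _ h3).trans ?_
    have h4 : (Z / p.nn f ^ 2) ^ (1 - δ) ≤ Z ^ (1 - δ) * p.nn f ^ (-(3 / 2) : ℝ) := by
      rw [Real.div_rpow hZ0.le (by positivity), div_eq_mul_inv]
      refine mul_le_mul_of_nonneg_left ?_ (by positivity)
      rw [← Real.rpow_natCast, ← Real.rpow_mul h1.le, ← Real.rpow_neg h1.le]
      refine Real.rpow_le_rpow_of_exponent_le h2 ?_
      push_cast
      linarith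
    calc D * c ^ f.card * (Z / p.nn f ^ 2) ^ (1 - δ)
        ≤ D * c ^ f.card * (Z ^ (1 - δ) * p.nn f ^ (-(3 / 2) : ℝ)) := by gcongr
      _ = D * Z ^ (1 - δ) * (c ^ f.card * p.nn f ^ (-(3 / 2) : ℝ)) := by ring
  · intro f
    rw [mul_pow, mul_assoc]

private theorem bsa_triv (μ : ι → ℝ) (hμ : ∀ i, |μ i| ≤ 2) (Z : ℝ) (hZ : 1 ≤ Z) :
    |p.SS μ Z| ≤ Z * (p.C ^ 2 * (1 + Real.log Z) ^ (p.n * 2)) := by
  set W := max Z 2 with hW
  have hW2 : 2 ≤ W := le_max_right _ _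
  have hC := p.C1
  have hlogV : 0 ≤ Real.log Z := Real.log_nonneg hZ
  have hlogW : Real.log W ≤ 1 + Real.log Z := by
    rcases le_total Z 2 with h | h
    · rw [hW, max_eq_right h]
      have h2 : Real.log 2 ≤ 1 := by
        have := Real.log_two_lt_d9
        linarith
      linarith
    · rw [hW, max_eq_left h]
      linarith
  have hlogW0 : 0 ≤ Real.log W := Real.log_nonneg (by linarith)
  unfold Pr.SS
  calc |∑ s ∈ p.SF Z, pd μ s| ≤ ∑ s ∈ p.SF Z, |pd μ s| := Finset.abs_sum_le_sum_abs _ _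
    _ ≤ ∑ s ∈ p.SF Z, Z * (((2 : ℕ) : ℝ) ^ s.card / p.nn s) := by
        refine Finset.sum_le_sum fun s hs => (abs_pd_le μ 2 hμ s).trans ?_
        have h1 := p.mem_SF.1 hs
        have h2 := p.nn_pos s
        rw [mul_div_assoc', le_div_iff₀ h2]
        push_cast
        rw [mul_comm]
        exact mul_le_mul_of_nonneg_right h1 (by positivity)
    _ = Z * ∑ s ∈ p.SF Z, ((2 : ℕ) : ℝ) ^ s.card / p.nn s := by rw [Finset.mul_sum]
    _ ≤ Z * ∑ s ∈ p.SF W, ((2 : ℕ) : ℝ) ^ s.card / p.nn s := by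
        refine mul_le_mul_of_nonneg_left ?_ (by linarith)
        refine Finset.sum_le_sum_of_subset_of_nonneg ?_ ?_
        · intro s hs
          exact p.mem_SF.2 ((p.mem_SF.1 hs).trans (le_max_left _ _))
        · intro s _ _
          have := p.nn_pos s
          positivity
    _ ≤ Z * (p.C * Real.log W ^ p.n) ^ 2 := mul_le_mul_of_nonneg_left (p.sfk 2 W hW2) (by linarith)
    _ = Z * (p.C ^ 2 * Real.log W ^ (p.n * 2)) := by rw [mul_pow, ← pow_mul]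
    _ ≤ Z * (p.C ^ 2 * (1 + Real.log Z) ^ (p.n * 2)) := by
        have : 0 ≤ p.C ^ 2 := by positivity
        gcongr

theorem bsb (B A' : ℕ) : ∃ (B1 B2 : ℕ) (R₀ : ℝ), 3 ≤ R₀ ∧ ∀ R : ℝ, R₀ ≤ R →
    ∀ (S : Finset ι) (μ : ι → ℝ), (∀ i, |μ i| ≤ 2) →
    (∀ e : Finset ι, p.nn e ≤ Real.log R ^ B1 →
      ∀ Z : ℝ, Real.exp (Real.log (Real.log (Real.sqrt R)) ^ 3) ≤ Z →
        |p.SS (off (S ∪ e) μ) Z| ≤ Z / Real.log R ^ B2) →
    ∀ Z : ℝ, Real.exp (Real.log (Real.log (Real.sqrt R)) ^ 3) * Real.log R ^ (2 * B1) ≤ Z →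
      Z ≤ R ^ A' → |Bs p S μ Z| ≤ Z / Real.log R ^ B := by
  obtain ⟨C, hC1, hC⟩ := sf32 p 3 (by norm_num)
  set k := p.n * 2 with hk
  set C1 : ℝ := p.C ^ 2 * (1 + A') ^ k with hC1def
  have hpC := p.C1
  have hC1' : 1 ≤ C1 := one_le_mul_of_one_le_of_one_le (one_le_pow₀ hpC)
    (one_le_pow₀ (by have : (0 : ℝ) ≤ A' := Nat.cast_nonneg _; linarith))
  refine ⟨2 * (B + k + 1), B + 1, max 3 (Real.exp (C1 * C)), le_max_left _ _, ?_⟩
  intro R hR S μ hμ h Z hZ1 hZ2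
  have hR3 : 3 ≤ R := (le_max_left _ _).trans hR
  have hR0 : 0 < R := by linarith
  set w := Real.log R with hw
  have hwC : C1 * C ≤ w := by
    rw [hw, Real.le_log_iff_exp_le hR0]
    exact (le_max_right _ _).trans hR
  have hw1 : 1 ≤ w := by
    have : 1 ≤ C1 * C := one_le_mul_of_one_le_of_one_le hC1' hC1
    linarith
  have hw0 : 0 < w := by linarith
  set Z0 := Real.exp (Real.log (Real.log (Real.sqrt R)) ^ 3) with hZ0
  have hZ00 : 0 < Z0 := Real.exp_pos _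
  have hZpos : 0 < Z := lt_of_lt_of_le (by positivity) hZ1
  have hoff : ∀ T : Finset ι, ∀ i, |off T μ i| ≤ 2 := by
    intro T i
    unfold off
    split_ifs
    · norm_num
    · exact hμ i
  have hmain : |Bs p S μ Z| ≤ C * (C1 * Z / w ^ (B + 1)) := by
    refine bsa_abs p S μ hμ Z (fun f => p.nn f ^ (-(3 / 2) : ℝ)) (C1 * Z / w ^ (B + 1)) (by positivity) ?_ C 3 hC
      (fun f => le_rfl)
    intro f hf
    have h1 := p.nn_pos f
    have h2 := p.one_le_nn f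
    have h3 : 1 ≤ Z / p.nn f ^ 2 := by
      rw [le_div_iff₀ (by positivity)]
      linarith
    by_cases hfB : p.nn f ≤ w ^ (2 * (B + k + 1))
    · have h4 : Z0 ≤ Z / p.nn f ^ 2 := by
        rw [le_div_iff₀ (by positivity)]
        refine le_trans ?_ hZ1
        refine mul_le_mul_of_nonneg_left ?_ hZ00.le
        calc p.nn f ^ 2 ≤ (w ^ (2 * (B + k + 1))) ^ 2 := by gcongr
          _ = w ^ (2 * (2 * (B + k + 1))) := by rw [← pow_mul]; ring_nf
      refine (h f hfB _ h4).trans ?_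
      have h5 : (1 : ℝ) / p.nn f ^ 2 ≤ p.nn f ^ (-(3 / 2) : ℝ) := by
        rw [one_div, ← Real.rpow_natCast, ← Real.rpow_neg h1.le]
        refine Real.rpow_le_rpow_of_exponent_le h2 ?_
        norm_num
      calc Z / p.nn f ^ 2 / w ^ (B + 1) = 1 * (Z / w ^ (B + 1)) * (1 / p.nn f ^ 2) := by
            field_simp
        _ ≤ C1 * (Z / w ^ (B + 1)) * p.nn f ^ (-(3 / 2) : ℝ) := by gcongr
        _ = C1 * Z / w ^ (B + 1) * p.nn f ^ (-(3 / 2) : ℝ) := by ring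
    · push Not at hfB
      refine (bsa_triv p _ (hoff _) _ h3).trans ?_
      have h4 : 1 + Real.log (Z / p.nn f ^ 2) ≤ (1 + A') * w := by
        have h5 : Real.log (Z / p.nn f ^ 2) ≤ A' * w := by
          calc Real.log (Z / p.nn f ^ 2) ≤ Real.log (R ^ A') := by
                refine Real.log_le_log (by linarith) ?_
                refine (div_le_self hZpos.le (one_le_pow₀ h2)).trans hZ2
            _ = A' * w := by rw [Real.log_pow]
        linarith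
      have h40 : 0 ≤ 1 + Real.log (Z / p.nn f ^ 2) := by
        have := Real.log_nonneg h3
        linarith
      have h5 : (1 : ℝ) / p.nn f ^ 2 ≤ 1 / w ^ (B + k + 1) * p.nn f ^ (-(3 / 2) : ℝ) := by
        have e1 : (1 : ℝ) / p.nn f ^ 2 = p.nn f ^ (-(1 / 2) : ℝ) * p.nn f ^ (-(3 / 2) : ℝ) := by
          rw [← Real.rpow_add h1, one_div, ← Real.rpow_natCast, ← Real.rpow_neg h1.le]
          norm_num
        rw [e1]
        refine mul_le_mul_of_nonneg_right ?_ (by positivity)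
        rw [Real.rpow_neg h1.le, ← one_div]
        refine one_div_le_one_div_of_le (by positivity) ?_
        calc w ^ (B + k + 1) = (w ^ (2 * (B + k + 1))) ^ (1 / 2 : ℝ) := by
              rw [← Real.rpow_natCast, ← Real.rpow_natCast, ← Real.rpow_mul hw0.le]
              congr 1
              push_cast
              ring
          _ ≤ p.nn f ^ (1 / 2 : ℝ) := Real.rpow_le_rpow (by positivity) hfB.le (by norm_num)
      calc Z / p.nn f ^ 2 * (p.C ^ 2 * (1 + Real.log (Z / p.nn f ^ 2)) ^ (p.n * 2))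
          ≤ Z / p.nn f ^ 2 * (p.C ^ 2 * ((1 + A') * w) ^ k) := by
            have : 0 ≤ p.C ^ 2 := by positivity
            gcongr
        _ = Z * C1 * w ^ k * (1 / p.nn f ^ 2) := by rw [hC1def, mul_pow]; ring
        _ ≤ Z * C1 * w ^ k * (1 / w ^ (B + k + 1) * p.nn f ^ (-(3 / 2) : ℝ)) := by gcongr
        _ = C1 * Z / w ^ (B + 1) * p.nn f ^ (-(3 / 2) : ℝ) := by
            have e2 : w ^ (B + k + 1) = w ^ (B + 1) * w ^ k := by rw [← pow_add]; ring_nf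
            rw [e2]
            field_simp
  refine hmain.trans ?_
  rw [mul_div_assoc', div_le_div_iff₀ (by positivity) (by positivity)]
  calc C * (C1 * Z) * w ^ B = (C1 * C) * (Z * w ^ B) := by ring
    _ ≤ w * (Z * w ^ B) := by gcongr
    _ = Z * w ^ (B + 1) := by ring

theorem thr (B : ℕ) : ∃ R₀ : ℝ, 3 ≤ R₀ ∧ ∀ R : ℝ, R₀ ≤ R →
    Real.exp (Real.log (Real.log (Real.sqrt R)) ^ 3) * Real.log R ^ B ≤
      Real.exp (Real.log (Real.log R) ^ 3) := by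
  refine ⟨max 3 (Real.exp (Real.exp (B + 1))), le_max_left _ _, ?_⟩
  intro R hR
  have hR3 : 3 ≤ R := (le_max_left _ _).trans hR
  have hR0 : 0 < R := by linarith
  have h1 : Real.exp (B + 1) ≤ Real.log R := by
    rw [Real.le_log_iff_exp_le hR0]
    exact (le_max_right _ _).trans hR
  have hl0 : 0 < Real.log R := lt_of_lt_of_le (Real.exp_pos _) h1
  set u := Real.log (Real.log R) with hu
  have hu1 : (B : ℝ) + 1 ≤ u := by
    rw [hu, Real.le_log_iff_exp_le hl0]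
    exact h1
  have e1 : Real.log (Real.log (Real.sqrt R)) = u - Real.log 2 := by
    rw [Real.log_sqrt hR0.le, Real.log_div hl0.ne' (by norm_num)]
  have e2 : Real.log R ^ B = Real.exp (B * u) := by
    rw [Real.exp_nat_mul, hu, Real.exp_log hl0]
  rw [e1, e2, ← Real.exp_add, Real.exp_le_exp]
  have hL1 := Real.log_two_gt_d9
  have hL2 := Real.log_two_lt_d9
  set L := Real.log 2 with hL
  have hB : (0 : ℝ) ≤ B := Nat.cast_nonneg _
  have hu0 : 0 < u := by linarith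
  have h2 : (B : ℝ) ≤ 3 * L * (u - L) := by
    have h3 : (1 : ℝ) ≤ 3 * L := by linarith
    have h4 : (B : ℝ) ≤ u - L := by linarith
    have h5 : 0 ≤ u - L := by linarith
    nlinarith
  have h3 : (B : ℝ) * u ≤ 3 * L * (u - L) * u := mul_le_mul_of_nonneg_right h2 hu0.le
  have h4 : 0 ≤ L ^ 3 := by positivity
  nlinarith

end H57.SL
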