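import Pool.Agent.H57.SL.Def
import Pool.Agent.H57.LC.Rec

/-!
# [H57 SL IDN] the convolution identity (120-160 lines)

Claim: `∑_q ∏_{l ∈ q} (1 + μ l) = FF S μ Y` (sum over the finite sets `q` of primes outside `S` with norm at most `Y`). This is the comparison of the coefficients of
`∏_{l ∉ S} (1 + (1 + μ l) X_l) = ∏_{l ∉ S} (1 + μ l X_l - (1 + μ l) X_l ^ 2) * ∏_{l ∉ S} (1 - X_l)⁻¹`.
Proof with `GM.U` (`H57/LC/Rec.lean`: `U_zero`, `U_S`, `U_T`, `U_end`) for `G = idG K` (`H57/LC/IdG`), `p = prK K`, `ψ = 1`, `g = 1 + μ` (complex): for a finite set `T` of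
primes disjoint from `S` and all real `M`:
`U g T (S ∪ T) M = ∑_{(d, f)} bb μ (d, f) * U g ∅ S (M / nx (d, f))`, sum over the pairs of disjoint subsets `d, f` of `T`. Induction on `T` (`Finset.induction_on`): by `U_S` and `U_T`
(`U_T` at `S' = insert l (S ∪ T)`, then `U_S`): `U (insert l T) (insert l (S ∪ T)) M = F(M) - F(M/N) + g (F(M/N) - F(M/N^2)) = F(M) + μ F(M/N) - (1 + μ) F(M/N^2)`, `F = U T (S ∪ T)`,
`N = nm l`, and the pairs of disjoint subsets of `insert l T` are `(d, f)`, `(insert l d, f)`, `(d, insert l f)`.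
Apply it to `T` = primes of norm at most `Y` outside `S`, `M = Y ≥ 1`: by `U_end` (all primes `q ∉ S ∪ T` have norm `> Y`; note that `U_end` needs all primes of norm `≤ Y` in `S ∪ T`) the left side
is `∑_{q ⊆ T, nn q ≤ Y} ∏ (1 + μ)`; these are the `q ∈ AS K S Y` (`mem_AF`, `nr q = ∏ nm`). `U g ∅ S M` = number of the `I` with `N I ≤ M` not divisible by the primes of `S`
`= WS S M` (nonzero ideals; `idG_W` for the comparison of `(idG K).B M` with `IN K M`); it is `0` for `M < 1`, so only the pairs with `nx ≤ Y` count: `XP (prK K) S Y`.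
For `Y < 1` both sides are empty sums.
-/

set_option autoImplicit false

open scoped NumberField Classical
open IsDedekindDomain H63.MA NumberField H36.QA H57.LI H57.LC H67.SX H38.ML

noncomputable section

namespace H57.SL

section idnabs

variable {𝓘 ι : Type} [CommMonoid 𝓘] (G : GM 𝓘 ι) (p : Pr ι)

private def PS (T : Finset ι) (H : Finset ι → Finset ι → ℂ) : ℂ :=
  ∑ d ∈ T.powerset, ∑ f ∈ (T \ d).powerset, H d f

private theorem PS_insert {l : ι} {T : Finset ι} (hl : l ∉ T) (H : Finset ι → Finset ι → ℂ) :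
    PS (insert l T) H = PS T H + PS T (fun d f => H d (insert l f)) +
      PS T (fun d f => H (insert l d) f) := by
  unfold PS
  rw [Finset.sum_powerset_insert hl]
  congr 1
  · rw [← Finset.sum_add_distrib]
    refine Finset.sum_congr rfl fun d hd => ?_
    have hd' : l ∉ d := fun h => hl (Finset.mem_powerset.1 hd h)
    rw [Finset.insert_sdiff_of_notMem _ hd', Finset.sum_powerset_insert (by simp [hl])]
  · refine Finset.sum_congr rfl fun d hd => ?_
    have h : insert l T \ insert l d = T \ d := by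
      ext t
      simp only [Finset.mem_sdiff, Finset.mem_insert, not_or]
      constructor
      · rintro ⟨h1 | h1, h2, h3⟩
        · exact absurd h1 h2
        · exact ⟨h1, h3⟩
      · rintro ⟨h1, h2⟩
        exact ⟨Or.inr h1, fun h => hl (h ▸ h1), h2⟩
    rw [h]

private theorem PS_mul (T : Finset ι) (c : ℂ) (H : Finset ι → Finset ι → ℂ) :
    PS T (fun d f => c * H d f) = c * PS T H := by
  unfold PS
  simp only [Finset.mul_sum]

private theorem nn_ins {l : ι} {T : Finset ι} (hl : l ∉ T) :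
    p.nn (insert l T) = p.N l * p.nn T := by
  unfold Pr.nn
  rw [Finset.prod_insert hl]

private theorem idn_main (hN : ∀ l, G.N (G.pr l) = p.N l) (μ : ι → ℂ) (S T : Finset ι)
    (hST : Disjoint S T) (M : ℝ) :
    G.U p (fun i => 1 + μ i) 1 T (S ∪ T) M =
      PS T (fun d f => (∏ i ∈ d, μ i) * (∏ i ∈ f, -(1 + μ i)) *
        G.U p (fun i => 1 + μ i) 1 ∅ S (M / (p.nn d * p.nn f ^ 2))) := by
  induction T using Finset.induction_on generalizing M with
  | empty => simp [PS, Pr.nn]
  | insert l T hl ih =>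
    have hlS : l ∉ S := fun h => (Finset.disjoint_left.1 hST h) (Finset.mem_insert_self _ _)
    have hST' : Disjoint S T := hST.mono_right (Finset.subset_insert _ _)
    have hlST : l ∉ S ∪ T := by simp [hl, hlS]
    have e1 : S ∪ insert l T = insert l (S ∪ T) := by rw [Finset.union_insert]
    rw [e1, U_S G p _ 1 (insert l T) (S ∪ T) l hlST, U_T G p _ 1 T (S ∪ T) l hl,
      U_T G p _ 1 T (S ∪ T) l hl, hN, ih hST', ih hST', ih hST', PS_insert hl]
    have hN0 : (p.N l : ℝ) ≠ 0 := by
      have := p.one_le l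
      positivity
    have e2 : PS T (fun d f => (∏ i ∈ d, μ i) * (∏ i ∈ insert l f, -(1 + μ i)) *
        G.U p (fun i => 1 + μ i) 1 ∅ S (M / (p.nn d * p.nn (insert l f) ^ 2))) =
        -(1 + μ l) * PS T (fun d f => (∏ i ∈ d, μ i) * (∏ i ∈ f, -(1 + μ i)) *
        G.U p (fun i => 1 + μ i) 1 ∅ S (M / p.N l / p.N l / (p.nn d * p.nn f ^ 2))) := by
      rw [← PS_mul]
      unfold PS
      refine Finset.sum_congr rfl fun d hd => Finset.sum_congr rfl fun f hf => ?_
      have hlf : l ∉ f := fun h => hl (Finset.mem_sdiff.1 (Finset.mem_powerset.1 hf h)).1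
      beta_reduce
      rw [nn_ins p hlf, Finset.prod_insert hlf]
      have e3 : M / (p.nn d * (p.N l * p.nn f) ^ 2) = M / p.N l / p.N l / (p.nn d * p.nn f ^ 2) := by
        rw [div_div, div_div]
        congr 1
        ring
      rw [e3]
      ring
    have e4 : PS T (fun d f => (∏ i ∈ insert l d, μ i) * (∏ i ∈ f, -(1 + μ i)) *
        G.U p (fun i => 1 + μ i) 1 ∅ S (M / (p.nn (insert l d) * p.nn f ^ 2))) =
        μ l * PS T (fun d f => (∏ i ∈ d, μ i) * (∏ i ∈ f, -(1 + μ i)) *
        G.U p (fun i => 1 + μ i) 1 ∅ S (M / p.N l / (p.nn d * p.nn f ^ 2))) := by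
      rw [← PS_mul]
      unfold PS
      refine Finset.sum_congr rfl fun d hd => Finset.sum_congr rfl fun f hf => ?_
      have hld : l ∉ d := fun h => hl (Finset.mem_powerset.1 hd h)
      beta_reduce
      rw [nn_ins p hld, Finset.prod_insert hld]
      have e3 : M / (p.N l * p.nn d * p.nn f ^ 2) = M / p.N l / (p.nn d * p.nn f ^ 2) := by
        rw [div_div]
        congr 1
        ring
      rw [e3]
      ring
    rw [e2, e4]
    simp only [MonoidHom.one_apply]
    ring

end idnabs

private theorem idn_U {K : Type} [Field K] [NumberField K] (S : Finset (Pl K)) (g : Pl K → ℂ)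
    {M : ℝ} (hM : 0 ≤ M) : (idG K).U (prK K) g 1 ∅ S M = ((WS S M : ℝ) : ℂ) := by
  unfold GM.U WS
  rw [Finset.powerset_empty, Finset.sum_singleton]
  have h1 : (prK K).nn ∅ = 1 := by
    unfold Pr.nn
    rw [Finset.prod_empty]
  rw [h1, div_one]
  have h2 : ∀ I : nonZeroDivisors (Ideal (𝓞 K)), (∏ i ∈ (∅ : Finset (Pl K)), g i) *
      (1 : nonZeroDivisors (Ideal (𝓞 K)) →* ℂ) I = 1 := by
    intro I
    simp
  rw [Finset.sum_congr rfl fun I _ => h2 I, Finset.sum_const, nsmul_eq_mul, mul_one]
  push_cast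
  norm_cast
  refine Finset.card_bij (fun I _ => (I : Ideal (𝓞 K))) ?_ ?_ ?_
  · intro I hI
    rw [Finset.mem_filter, (idG K).mem_B] at hI
    rw [Finset.mem_filter, mem_IN hM]
    refine ⟨⟨hI.1, idg_ne K I⟩, fun v hv h => hI.2 v hv ?_⟩
    obtain ⟨J, hJ⟩ := h
    have hJ0 : J ∈ nonZeroDivisors (Ideal (𝓞 K)) := by
      apply mem_nonZeroDivisors_of_ne_zero
      rintro rfl
      rw [mul_zero] at hJ
      exact idg_ne K I (by rw [hJ, Ideal.zero_eq_bot])
    exact ⟨⟨J, hJ0⟩, Subtype.ext hJ⟩
  · intro I _ J _ h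
    exact Subtype.ext h
  · intro I hI
    rw [Finset.mem_filter, mem_IN hM] at hI
    refine ⟨⟨I, mem_nonZeroDivisors_of_ne_zero (by rw [Ideal.zero_eq_bot]; exact hI.1.2)⟩, ?_, rfl⟩
    rw [Finset.mem_filter, (idG K).mem_B]
    refine ⟨hI.1.1, fun v hv h => hI.2 v hv ?_⟩
    obtain ⟨J, hJ⟩ := h
    exact ⟨(J : Ideal (𝓞 K)), congrArg Subtype.val hJ⟩

private theorem idn_WS0 {K : Type} [Field K] [NumberField K] (S : Finset (Pl K)) {M : ℝ}
    (hM0 : 0 ≤ M) (hM : M < 1) : WS S M = 0 := by
  unfold WS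
  rw [Nat.cast_eq_zero, Finset.card_eq_zero, Finset.filter_eq_empty_iff]
  intro I hI
  exfalso
  rw [mem_IN hM0] at hI
  have h : Ideal.absNorm I ≠ 0 := by
    rw [Ne, Ideal.absNorm_eq_zero_iff]
    exact hI.2
  have h1 : (1 : ℝ) ≤ Ideal.absNorm I := by
    exact_mod_cast Nat.one_le_iff_ne_zero.2 h
  linarith [hI.1]

private theorem idn_nn {K : Type} [Field K] [NumberField K] (s : Finset (Pl K)) :
    (prK K).nn s = nr s := by
  unfold Pr.nn nr
  exact Finset.prod_congr rfl fun l _ => by rw [prK_N]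

theorem idn {K : IntermediateField ℚ QBar} [NumberField K] (S : Finset (Pl K)) (μ : Pl K → ℝ)
    (Y : ℝ) : ∑ q ∈ AS K S Y, ∏ l ∈ q, (1 + μ l) = FF S μ Y := by
  by_cases hY : Y < 1
  · have h1 : AS K S Y = ∅ := by
      rw [Finset.eq_empty_iff_forall_notMem]
      intro q hq
      rw [AS, Finset.mem_filter, mem_AF, ← idn_nn] at hq
      linarith [(prK K).one_le_nn q, hq.1]
    have h2 : XP (prK K) S Y = ∅ := by
      rw [Finset.eq_empty_iff_forall_notMem]
      intro x hx
      rw [XP, Finset.mem_filter, Finset.mem_product, (prK K).mem_SF] at hx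
      linarith [(prK K).one_le_nn x.1, hx.1.1]
    rw [FF, h1, h2, Finset.sum_empty, Finset.sum_empty]
  · have hY' : 1 ≤ Y := not_lt.1 hY
    have hY0 : 0 ≤ Y := by linarith
    obtain ⟨T, hT⟩ : ∃ T, T = ((prK K).P Y) \ S := ⟨_, rfl⟩
    have hmT : ∀ l, l ∈ T ↔ ((prK K).N l : ℝ) ≤ Y ∧ l ∉ S := by
      intro l
      rw [hT, Finset.mem_sdiff, (prK K).mem_P]
    have hd : Disjoint S T := by
      rw [Finset.disjoint_left]
      intro l hl hl'
      exact ((hmT l).1 hl').2 hl
    have hN : ∀ l : Pl K, (idG K).N ((idG K).pr l) = (prK K).N l := by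
      intro l
      rw [idG_Npr, prK_N]
    have key := idn_main (idG K) (prK K) hN (fun l => (μ l : ℂ)) S T hd Y
    rw [U_end] at key
    · have hL : (∑ s ∈ T.powerset.filter (fun s => (prK K).nn s ≤ Y), ∏ i ∈ s, (1 + (μ i : ℂ))) =
          ((∑ q ∈ AS K S Y, ∏ l ∈ q, (1 + μ l) : ℝ) : ℂ) := by
        push_cast
        refine Finset.sum_congr ?_ fun _ _ => rfl
        ext s
        rw [Finset.mem_filter, Finset.mem_powerset, AS, Finset.mem_filter, mem_AF, idn_nn]
        constructor
        · rintro ⟨h1, h2⟩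
          exact ⟨h2, fun l hl => ((hmT l).1 (h1 hl)).2⟩
        · rintro ⟨h1, h2⟩
          refine ⟨fun l hl => (hmT l).2 ⟨?_, h2 l hl⟩, h1⟩
          rw [← idn_nn] at h1
          exact ((prK K).le_nn hl).trans h1
      have hR : PS T (fun d f => (∏ i ∈ d, (μ i : ℂ)) * (∏ i ∈ f, -(1 + (μ i : ℂ))) *
          (idG K).U (prK K) (fun i => 1 + (μ i : ℂ)) 1 ∅ S
            (Y / ((prK K).nn d * (prK K).nn f ^ 2))) = ((FF S μ Y : ℝ) : ℂ) := by
        have h1 : ∀ d f : Finset (Pl K), (∏ i ∈ d, (μ i : ℂ)) * (∏ i ∈ f, -(1 + (μ i : ℂ))) *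
          (idG K).U (prK K) (fun i => 1 + (μ i : ℂ)) 1 ∅ S
            (Y / ((prK K).nn d * (prK K).nn f ^ 2)) =
            ((bb μ (d, f) * WS S (Y / nx (prK K) (d, f)) : ℝ) : ℂ) := by
          intro d f
          rw [idn_U S _ (div_nonneg hY0 (mul_nonneg ((prK K).nn_pos d).le (sq_nonneg _)))]
          unfold bb pd nx
          push_cast
          ring
        simp only [h1]
        unfold PS FF
        rw [Finset.sum_sigma', ← Complex.ofReal_sum]
        congr 1
        refine (Finset.sum_bij_ne_zero (fun x _ _ => (⟨x.1, x.2⟩ : (_ : Finset (Pl K)) × Finset (Pl K)))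
          ?_ ?_ ?_ ?_).symm
        · intro x hx _
          rw [XP, Finset.mem_filter, Finset.mem_product, (prK K).mem_SF, (prK K).mem_SF] at hx
          obtain ⟨⟨h1, h2⟩, h3, h4, h5, h6⟩ := hx
          rw [Finset.mem_sigma, Finset.mem_powerset, Finset.mem_powerset]
          refine ⟨fun l hl => (hmT l).2 ⟨((prK K).le_nn hl).trans h1,
            Finset.disjoint_left.1 h4 hl⟩, fun l hl => Finset.mem_sdiff.2 ⟨(hmT l).2
            ⟨((prK K).le_nn hl).trans h2, Finset.disjoint_left.1 h5 hl⟩,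
            Finset.disjoint_right.1 h3 hl⟩⟩
        · intro x _ _ y _ _ h
          simp only [Sigma.mk.injEq, heq_eq_eq] at h
          exact Prod.ext h.1 h.2
        · rintro ⟨d, f⟩ hx hne
          rw [Finset.mem_sigma, Finset.mem_powerset, Finset.mem_powerset] at hx
          obtain ⟨hx1, hx2⟩ := hx
          simp only at hx1 hx2 hne
          have hpos : 0 < nx (prK K) (d, f) :=
            mul_pos ((prK K).nn_pos d) (pow_pos ((prK K).nn_pos f) 2)
          have hle : nx (prK K) (d, f) ≤ Y := by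
            by_contra hc
            apply hne
            rw [idn_WS0 S (div_nonneg hY0 hpos.le) ((div_lt_one hpos).2 (not_le.1 hc)), mul_zero]
          have hd1 := (prK K).one_le_nn d
          have hf1 := (prK K).one_le_nn f
          have hle' : (prK K).nn d * (prK K).nn f ^ 2 ≤ Y := hle
          refine ⟨(d, f), ?_, hne, rfl⟩
          rw [XP, Finset.mem_filter, Finset.mem_product, (prK K).mem_SF, (prK K).mem_SF]
          refine ⟨⟨?_, ?_⟩, ?_, ?_, ?_, hle⟩
          · have h2 := one_le_pow₀ (n := 2) hf1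
            have h3 := mul_le_mul_of_nonneg_left h2 ((prK K).nn_pos d).le
            rw [mul_one] at h3
            exact h3.trans hle'
          · have h2 := le_self_pow₀ hf1 (two_ne_zero)
            have h3 := mul_le_mul_of_nonneg_right hd1 (pow_pos ((prK K).nn_pos f) 2).le
            rw [one_mul] at h3
            exact h2.trans (h3.trans hle')
          · rw [Finset.disjoint_right]
            intro l hl
            exact (Finset.mem_sdiff.1 (hx2 hl)).2
          · rw [Finset.disjoint_left]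
            intro l hl
            exact ((hmT l).1 (hx1 hl)).2
          · rw [Finset.disjoint_left]
            intro l hl
            exact ((hmT l).1 (Finset.mem_sdiff.1 (hx2 hl)).1).2
        · intro x _ _
          rfl
      rw [hL, hR] at key
      exact_mod_cast key
    · intro q hq
      rw [hN] at hq
      rw [Finset.mem_union]
      by_cases h : q ∈ S
      · exact Or.inl h
      · exact Or.inr ((hmT q).2 ⟨hq, h⟩)

theorem idn_mq {K : IntermediateField ℚ QBar} [NumberField K] (S : Finset (Pl K)) (c : Cu K)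
    (Y : ℝ) : c.mq S Y = FF S c.mu Y := by
  rw [← idn]
  unfold Cu.mq
  refine Finset.sum_congr rfl fun q _ => Finset.prod_congr rfl fun l _ => ?_
  unfold Cu.mu
  ring

end H57.SL
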