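import Pool.Agent.H57.SL.Def
import Pool.Agent.H38.ML.Disc
import Pool.Agent.H63.MA.GDisU
import Pool.Agent.H63.MA.GLoc

/-!
# [H57 SL DSB] the discriminant of an extension which is unramified outside `S` and `B` (60-90 lines)

Use `H38.ML.disc_bound QBar d S'` with `S'` = the prime ideals `v.asIdeal`, `v ∈ S`, together with the (finitely many) nonzero primes which contain `d !`. Take
`T` = the ideals of the primes in `B` and `w = d` (the condition for `v ∈ T` is trivial). For `v ∉ S', T`: `IT` says that the inertia group of every prime `𝔓` of `𝓞 QBar` over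
`v` acts trivially on the embeddings of `E`, so `embOrb E (𝔓.inertia) =` the number of the embeddings `= d` (see `dsc_orb` in `H51/CUB/DSC`). There is a prime `𝔓` over `v`
(`gloc_over` in `H63/MA/GLoc`). Then `absNorm (different (E/K)) ≤ C (∏_{v ∈ B} nm v) ^ d`, and `dd E = dd K ^ d * absNorm (different)` (tower formula, see the
proof of `dsc` in `H51/CUB/DSC`; that proof is the model for this file).
-/

set_option autoImplicit false

open scoped NumberField Classical
open IsDedekindDomain H63.MA NumberField H1.LS4 H67.SX H36.QA H38.ML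

noncomputable section

namespace H57.SL

/-- an inertia group which acts trivially on the embeddings -/
private theorem dsb_orb {K : Type} [Field K] {Ω : Type} [Field Ω] [Algebra K Ω] [IsAlgClosure K Ω]
    (M : IntermediateField K Ω) [FiniteDimensional K M] [Algebra.IsSeparable K M] (J : Subgroup Gal(Ω/K))
    (hJ : ∀ τ ∈ J, ∀ ι : M →ₐ[K] Ω, ac τ ι = ι) : embOrb M J = Module.finrank K M := by
  have hcl : IsAlgClosed Ω := IsAlgClosure.isAlgClosed K
  unfold embOrb
  rw [← AlgHom.card K M Ω, ← Nat.card_eq_fintype_card]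
  refine Nat.card_congr ?_
  refine ⟨Quot.lift id ?_, Quot.mk _, ?_, ?_⟩
  · rintro φ ψ ⟨τ, hτ, rfl⟩
    exact (hJ τ hτ φ).symm
  · intro x
    induction x using Quot.ind with
    | mk φ => rfl
  · intro φ
    rfl

theorem dsb (K : IntermediateField ℚ QBar) [NumberField K] (d : ℕ) (S : Finset (Pl K)) :
    ∃ C : ℝ, 1 ≤ C ∧ ∀ (E : IntermediateField K QBar) [NumberField E],
      Module.finrank K E = d → ∀ B : Finset (Pl K),
      (∀ l : Pl K, l ∉ S → l ∉ B → IT QBar E l) → dd E ≤ C * (nr B : ℝ) ^ d := by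
  set S1 : Set (Ideal (𝓞 K)) := ((S.image fun v : Pl K => v.asIdeal : Finset (Ideal (𝓞 K))) :
    Set (Ideal (𝓞 K))) ∪
    {v : Ideal (𝓞 K) | v.IsPrime ∧ v ≠ ⊥ ∧ ((d.factorial : ℕ) : 𝓞 K) ∈ v} with hS1
  have hSf : S1.Finite := (Finset.finite_toSet _).union (gdisu_fin d)
  obtain ⟨C, hC, hb⟩ := H38.ML.disc_bound QBar d S1 hSf (fun v hv hv0 hvS hmem =>
    hvS (Or.inr ⟨hv, hv0, hmem⟩))
  have hK1 : 1 ≤ (NumberField.discr K).natAbs :=
    Nat.one_le_iff_ne_zero.mpr (Int.natAbs_ne_zero.mpr (NumberField.discr_ne_zero K))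
  refine ⟨((C * (NumberField.discr K).natAbs ^ d : ℕ) : ℝ), ?_, ?_⟩
  · exact_mod_cast Nat.mul_pos hC (Nat.pow_pos hK1)
  intro M hnf hdeg B hB
  have hfd : FiniteDimensional K M := Module.Finite.of_restrictScalars_finite ℚ K M
  set T₀ : Finset (Pl K) := B.filter fun v => v.asIdeal ∉ S1 with hT₀
  have hS0 : ∀ v : Pl K, v.asIdeal ∉ S1 → v ∉ S := by
    intro v hv h
    exact hv (Or.inl (Finset.mem_coe.2 (Finset.mem_image_of_mem _ h)))
  have hmain := hb M hfd hnf hdeg (T₀.image fun v => v.asIdeal) d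
    (by
      intro v hv
      obtain ⟨w, -, rfl⟩ := Finset.mem_image.1 hv
      exact ⟨w.isPrime, w.ne_bot⟩)
    (by
      intro v hv
      obtain ⟨w, hw, rfl⟩ := Finset.mem_image.1 hv
      obtain ⟨P, hP, hPv⟩ := gloc_over K QBar w.asIdeal w.isPrime
      exact ⟨P, hP, hPv, Nat.le_add_right _ _⟩)
    (by
      intro v hv hv0 hvS hvT
      have hw0 : (⟨v, hv, hv0⟩ : Pl K) ∉ S := hS0 ⟨v, hv, hv0⟩ hvS
      have hwT : (⟨v, hv, hv0⟩ : Pl K) ∉ B := by
        intro h
        exact hvT (Finset.mem_image.2 ⟨⟨v, hv, hv0⟩, Finset.mem_filter.2 ⟨h, hvS⟩, rfl⟩)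
      obtain ⟨P, hP, hPv⟩ := gloc_over K QBar v hv
      refine ⟨P, hP, hPv, ?_⟩
      rw [dsb_orb M _ (hB ⟨v, hv, hv0⟩ hw0 hwT P hP hPv), hdeg])
  have hprod : ∏ v ∈ T₀.image (fun v : Pl K => v.asIdeal), Ideal.absNorm v ≤ ∏ v ∈ B, nm v := by
    rw [Finset.prod_image (fun a _ b _ h => HeightOneSpectrum.ext h)]
    refine Finset.prod_le_prod_of_subset_of_one_le' (Finset.filter_subset _ _) fun v _ _ => ?_
    exact Nat.one_le_iff_ne_zero.2 fun h => v.ne_bot (Ideal.absNorm_eq_zero_iff.1 h)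
  have h1 : Ideal.absNorm (differentIdeal (𝓞 K) (𝓞 M)) ≤ C * (∏ v ∈ B, nm v) ^ d :=
    le_trans hmain (Nat.mul_le_mul_left _ (Nat.pow_le_pow_left hprod _))
  have h2 := NumberField.natAbs_discr_eq_absNorm_differentIdeal_mul_natAbs_discr_pow
    K (𝓞 K) M (𝓞 M)
  have h4 : dd M = (((NumberField.discr M).natAbs : ℕ) : ℝ) := by
    unfold dd
    rw [Nat.cast_natAbs, Int.cast_abs]
  rw [h4, h2, hdeg]
  have h5 : Ideal.absNorm (differentIdeal (𝓞 K) (𝓞 M)) * (NumberField.discr K).natAbs ^ d ≤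
      (C * (∏ v ∈ B, nm v) ^ d) * (NumberField.discr K).natAbs ^ d :=
    Nat.mul_le_mul_right _ h1
  calc ((Ideal.absNorm (differentIdeal (𝓞 K) (𝓞 M)) * (NumberField.discr K).natAbs ^ d : ℕ) : ℝ)
      ≤ (((C * (∏ v ∈ B, nm v) ^ d) * (NumberField.discr K).natAbs ^ d : ℕ) : ℝ) := by
        exact_mod_cast h5
    _ = _ := by
        unfold nr
        push_cast
        ring

end H57.SL
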