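import Pool.Agent.H57.SL.Def

/-!
# [H57 SL RES] the quadratic resolvent of a cubic extension which is not Galois (150-200 lines)

`X = (c.F →ₐ[K] QBar)` has 3 elements, `G = Gal(QBar/K)` acts by `ρ σ ι = ac σ ι`, `ρ : G →* Equiv.Perm X`, transitively (`emb_tr`). For `ι ∈ X` let `G_ι` be the stabilizer; the fixed field of `G_ι` is `ι(F)` (Galois
correspondence for the finite extension `ι.fieldRange`: `IntermediateField` / `InfiniteGalois.fixedField_fixingSubgroup`, `G_ι = ι.fieldRange.fixingSubgroup`).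
`ρ(G)` is not contained in the alternating group: otherwise an element of `G_ι` has an even image with a fixed point, so it acts trivially on `X` (`decide` for `Equiv.Perm (Fin 3)`), so `G_ι` fixes `ι'(F)` for every `ι'`,
`ι'(F) ⊆ ι(F)` for all `ι'`, and `c.F / K` is normal, hence Galois (characteristic 0), contradiction to `c.non`. So `ρ(G)` is transitive and contains an odd element: it is `Equiv.Perm X` (order divisible by 3 and by 2).
`H = (sign ∘ ρ).ker`: open (it contains `(⨆ ι, ι.fieldRange).fixingSubgroup`, a finite extension) of index 2. `E = fixedField H`, `E.fixingSubgroup = H` (`InfiniteGalois.fixingSubgroup_fixedField`, an open subgroup is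
closed), `[E : K] = 2` (index of the fixing subgroup; grep `index` in `H38/ML`, `H63/MA`, `H1/AR`, `H51/CUB` for the lemma that the degree is the index). `alternatingGroup X` has 3 elements, choose an
isomorphism `e` with `Multiplicative (ZMod 3)` (`mulEquivOfPrimeCardEq` or `IsCyclic`), `θ σ = toAdd (e (ρ σ))` for `σ ∈ H`, `0` otherwise.
`ker`: `ρ σ = 1`. `mul`: clear. `inv`: `ρ(τ)⁻¹ ρ(σ) ρ(τ) = ρ(σ)⁻¹` for an even `ρ(σ)` and an odd `ρ(τ)` in `Equiv.Perm X`, 3 elements (transport to `Fin 3`, `decide`). `non`: `ρ` is surjective. `fix0`, `fix1`: an odd permutation of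
3 elements has exactly one fixed point, an even permutation `≠ 1` has none (`decide` on `Fin 3`).
-/

set_option autoImplicit false

open scoped NumberField Classical
open IsDedekindDomain H63.MA NumberField H36.QA H57.LI H57.LC H67.SX H38.ML

noncomputable section

namespace H57.SL

/-- the value at a permutation of three elements -/
private def res_tt (g : Equiv.Perm (Fin 3)) : ZMod 3 := if Equiv.Perm.sign g = 1 then g 0 else 0

private theorem res_d1 : ∀ g : Equiv.Perm (Fin 3), Equiv.Perm.sign g = 1 → ∀ i : Fin 3, g i = i →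
    g = 1 := by decide

private theorem res_d2 : ∀ g h : Equiv.Perm (Fin 3), g 0 = 1 → h 0 = 2 →
    (Equiv.Perm.sign g = 1 ∧ res_tt g ≠ 0) ∨ (Equiv.Perm.sign h = 1 ∧ res_tt h ≠ 0) ∨
      (Equiv.Perm.sign (g * h) = 1 ∧ res_tt (g * h) ≠ 0) := by decide

private theorem res_d3 : ∀ g : Equiv.Perm (Fin 3), (Equiv.Perm.sign g = 1 ∧ res_tt g = 0) ↔ g = 1 := by
  decide

private theorem res_d4 : ∀ g h : Equiv.Perm (Fin 3), Equiv.Perm.sign g = 1 →
    Equiv.Perm.sign h = 1 → res_tt (g * h) = res_tt g + res_tt h := by decide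

private theorem res_d5 : ∀ g h : Equiv.Perm (Fin 3), Equiv.Perm.sign g = 1 →
    Equiv.Perm.sign h ≠ 1 → res_tt (h⁻¹ * g * h) = - res_tt g := by decide

private theorem res_d6 : ∀ g : Equiv.Perm (Fin 3), Equiv.Perm.sign g ≠ 1 →
    (Finset.univ.filter fun i : Fin 3 => g i = i).card = 1 := by decide

private theorem res_d7 : ∀ g : Equiv.Perm (Fin 3), Equiv.Perm.sign g = 1 → res_tt g ≠ 0 →
    (Finset.univ.filter fun i : Fin 3 => g i = i).card = 0 := by decide

private theorem res_gal {K : IntermediateField ℚ QBar} : IsGalois K QBar := by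
  have : IsAlgClosed QBar := IsAlgClosure.isAlgClosed K
  have : Algebra.IsAlgebraic K QBar := IsAlgClosure.isAlgebraic
  have : Normal K QBar := IsAlgClosure.normal K QBar
  exact ⟨⟩

private theorem res_card {K : IntermediateField ℚ QBar} [NumberField K] (c : Cu K) :
    Nat.card (c.F →ₐ[K] QBar) = 3 := by
  have hcl : IsAlgClosed QBar := IsAlgClosure.isAlgClosed K
  rw [Nat.card_eq_fintype_card, AlgHom.card K c.F QBar, c.deg]

/-- the action on three elements -/
private def res_rho {K : IntermediateField ℚ QBar} [NumberField K] (F : IntermediateField K QBar)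
    (e : (F →ₐ[K] QBar) ≃ Fin 3) : Gal(QBar/K) →* Equiv.Perm (Fin 3) where
  toFun σ :=
    { toFun := fun i => e (ac σ (e.symm i))
      invFun := fun i => e (ac σ⁻¹ (e.symm i))
      left_inv := fun i => by
        show e (ac σ⁻¹ (e.symm (e (ac σ (e.symm i))))) = i
        rw [e.symm_apply_apply, ← ac_mul, inv_mul_cancel, ac_one, e.apply_symm_apply]
      right_inv := fun i => by
        show e (ac σ (e.symm (e (ac σ⁻¹ (e.symm i))))) = i
        rw [e.symm_apply_apply, ← ac_mul, mul_inv_cancel, ac_one, e.apply_symm_apply] }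
  map_one' := by
    ext i
    show ((e (ac 1 (e.symm i)) : Fin 3) : ℕ) = _
    rw [ac_one, e.apply_symm_apply]
    rfl
  map_mul' σ τ := by
    ext i
    show ((e (ac (σ * τ) (e.symm i)) : Fin 3) : ℕ) = ((e (ac σ (e.symm (e (ac τ (e.symm i))))) : Fin 3) : ℕ)
    rw [e.symm_apply_apply, ac_mul]

private theorem res_apply {K : IntermediateField ℚ QBar} [NumberField K] (F : IntermediateField K QBar)
    (e : (F →ₐ[K] QBar) ≃ Fin 3) (σ : Gal(QBar/K)) (i : Fin 3) :
    res_rho F e σ i = e (ac σ (e.symm i)) := rfl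

private theorem res_fix {K : IntermediateField ℚ QBar} [NumberField K] (F : IntermediateField K QBar)
    (e : (F →ₐ[K] QBar) ≃ Fin 3) (σ : Gal(QBar/K)) (ι : F →ₐ[K] QBar) :
    res_rho F e σ (e ι) = e ι ↔ ac σ ι = ι := by
  rw [res_apply, e.symm_apply_apply, e.apply_eq_iff_eq]

private theorem res_fix1 {K : IntermediateField ℚ QBar} [NumberField K] (F : IntermediateField K QBar)
    (e : (F →ₐ[K] QBar) ≃ Fin 3) (σ : Gal(QBar/K)) :
    res_rho F e σ = 1 ↔ ∀ ι : F →ₐ[K] QBar, ac σ ι = ι := by
  constructor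
  · intro h ι
    rw [← res_fix F e, h]
    rfl
  · intro h
    ext i
    rw [res_apply, h, e.apply_symm_apply]
    rfl

private theorem res_nc {K : IntermediateField ℚ QBar} [NumberField K] (F : IntermediateField K QBar)
    (e : (F →ₐ[K] QBar) ≃ Fin 3) (σ : Gal(QBar/K)) :
    (fx F σ).ncard = (Finset.univ.filter fun i : Fin 3 => res_rho F e σ i = i).card := by
  rw [← Set.ncard_coe_finset, ← Set.ncard_image_of_injective _ e.injective]
  congr 1
  ext i
  simp only [Set.mem_image, Finset.coe_filter, Finset.mem_univ, true_and, Set.mem_setOf_eq]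
  constructor
  · rintro ⟨ι, hι, rfl⟩
    exact (res_fix F e σ ι).2 hι
  · intro h
    refine ⟨e.symm i, ?_, e.apply_symm_apply i⟩
    show ac σ (e.symm i) = e.symm i
    rw [← res_fix F e, e.apply_symm_apply]
    exact h

private theorem res_odd {K : IntermediateField ℚ QBar} [NumberField K] (c : Cu K)
    (e : (c.F →ₐ[K] QBar) ≃ Fin 3) : ∃ σ, Equiv.Perm.sign (res_rho c.F e σ) ≠ 1 := by
  have : IsGalois K QBar := res_gal
  by_contra hne
  push Not at hne
  apply c.non
  have hn : Normal K c.F := by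
    rw [IntermediateField.normal_iff_forall_fieldRange_le]
    intro j
    refine le_trans (InfiniteGalois.fixedField_fixingSubgroup j.fieldRange).ge
      (le_trans ?_ (InfiniteGalois.fixedField_fixingSubgroup c.F).le)
    refine IntermediateField.fixedField_antitone ?_
    intro σ hσ
    have h1 : ac σ c.F.val = c.F.val := by
      ext x
      rw [IntermediateField.mem_fixingSubgroup_iff] at hσ
      exact hσ x x.2
    have h2 := res_d1 _ (hne σ) _ ((res_fix c.F e σ c.F.val).2 h1)
    have h3 := (res_fix1 c.F e σ).1 h2 j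
    rw [IntermediateField.mem_fixingSubgroup_iff]
    rintro y ⟨x, rfl⟩
    exact DFunLike.congr_fun h3 x
  exact ⟨⟩

private theorem res_three {K : IntermediateField ℚ QBar} [NumberField K] (c : Cu K)
    (e : (c.F →ₐ[K] QBar) ≃ Fin 3) : ∃ σ, Equiv.Perm.sign (res_rho c.F e σ) = 1 ∧
      res_tt (res_rho c.F e σ) ≠ 0 := by
  obtain ⟨σ, hσ⟩ := emb_tr c.F (e.symm 0) (e.symm 1)
  obtain ⟨τ, hτ⟩ := emb_tr c.F (e.symm 0) (e.symm 2)
  have h1 : res_rho c.F e σ 0 = 1 := by rw [res_apply, ← hσ, e.apply_symm_apply]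
  have h2 : res_rho c.F e τ 0 = 2 := by rw [res_apply, ← hτ, e.apply_symm_apply]
  rcases res_d2 _ _ h1 h2 with h | h | h
  · exact ⟨σ, h⟩
  · exact ⟨τ, h⟩
  · refine ⟨σ * τ, ?_⟩
    rw [map_mul]
    exact h

/-- the subgroup of the elements which act by even permutations -/
private def res_H {K : IntermediateField ℚ QBar} [NumberField K] (F : IntermediateField K QBar)
    (e : (F →ₐ[K] QBar) ≃ Fin 3) : Subgroup Gal(QBar/K) :=
  (Equiv.Perm.sign.comp (res_rho F e)).ker

private theorem res_mem {K : IntermediateField ℚ QBar} [NumberField K] (F : IntermediateField K QBar)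
    (e : (F →ₐ[K] QBar) ≃ Fin 3) (σ : Gal(QBar/K)) :
    σ ∈ res_H F e ↔ Equiv.Perm.sign (res_rho F e σ) = 1 := Iff.rfl

private theorem res_closed {K : IntermediateField ℚ QBar} [NumberField K] (c : Cu K)
    (e : (c.F →ₐ[K] QBar) ≃ Fin 3) : IsClosed (res_H c.F e : Set Gal(QBar/K)) := by
  have : Finite (c.F →ₐ[K] QBar) := Finite.of_equiv _ e.symm
  have : ∀ ι : c.F →ₐ[K] QBar, FiniteDimensional K ι.fieldRange := fun ι =>
    Module.Finite.equiv (AlgEquiv.ofInjectiveField ι).toLinearEquiv
  have hM : FiniteDimensional K (⨆ ι : c.F →ₐ[K] QBar, ι.fieldRange : IntermediateField K QBar) :=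
    IntermediateField.finiteDimensional_iSup_of_finite
  apply Subgroup.isClosed_of_isOpen
  refine Subgroup.isOpen_mono ?_ (IntermediateField.fixingSubgroup_isOpen
    (⨆ ι : c.F →ₐ[K] QBar, ι.fieldRange : IntermediateField K QBar))
  intro σ hσ
  rw [res_mem]
  have h1 : res_rho c.F e σ = 1 := by
    rw [res_fix1]
    intro ι
    ext x
    rw [IntermediateField.mem_fixingSubgroup_iff] at hσ
    exact hσ (ι x) ((le_iSup (fun ι : c.F →ₐ[K] QBar => ι.fieldRange) ι) ⟨x, rfl⟩)
  rw [h1, map_one]

private theorem res_idx {K : IntermediateField ℚ QBar} [NumberField K] (c : Cu K)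
    (e : (c.F →ₐ[K] QBar) ≃ Fin 3) : (res_H c.F e).index = 2 := by
  obtain ⟨τ, hτ⟩ := res_odd c e
  have hs : Function.Surjective (Equiv.Perm.sign.comp (res_rho c.F e)) := by
    intro u
    rcases Int.units_eq_one_or u with rfl | rfl
    · exact ⟨1, map_one _⟩
    · refine ⟨τ, ?_⟩
      rcases Int.units_eq_one_or (Equiv.Perm.sign (res_rho c.F e τ)) with h | h
      · exact absurd h hτ
      · exact h
  unfold res_H
  rw [Subgroup.index_ker, MonoidHom.range_eq_top.2 hs, Nat.card_congr Subgroup.topEquiv.toEquiv]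
  rw [Nat.card_eq_fintype_card]
  rfl

theorem res_ex {K : IntermediateField ℚ QBar} [NumberField K] (c : Cu K) :
    ∃ (E : IntermediateField K QBar) (θ : Gal(QBar/K) → ZMod 3), Rs c E θ := by
  have : IsGalois K QBar := res_gal
  have hf : Finite (c.F →ₐ[K] QBar) :=
    Nat.finite_of_card_ne_zero (by rw [res_card c]; norm_num)
  let e : (c.F →ₐ[K] QBar) ≃ Fin 3 := (Finite.equivFin _).trans (finCongr (res_card c))
  have hE : (IntermediateField.fixedField (res_H c.F e)).fixingSubgroup = res_H c.F e :=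
    InfiniteGalois.fixingSubgroup_fixedField ⟨res_H c.F e, res_closed c e⟩
  have hm : ∀ σ, σ ∈ (IntermediateField.fixedField (res_H c.F e)).fixingSubgroup ↔
      Equiv.Perm.sign (res_rho c.F e σ) = 1 := by
    intro σ
    rw [hE, res_mem]
  refine ⟨IntermediateField.fixedField (res_H c.F e), fun σ => res_tt (res_rho c.F e σ), ?_⟩
  constructor
  · refine (IntermediateField.finrank_eq_fixingSubgroup_index QBar _).trans ?_
    rw [hE, res_idx]
  · intro σ
    rw [← res_fix1 c.F e σ, hm, ← res_d3]
  · intro σ hσ τ hτ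
    rw [hm] at hσ hτ
    rw [map_mul]
    exact res_d4 _ _ hσ hτ
  · intro σ hσ τ hτ
    rw [hm] at hσ hτ
    rw [map_mul, map_mul, map_inv]
    exact res_d5 _ _ hσ hτ
  · obtain ⟨σ, h1, h2⟩ := res_three c e
    exact ⟨σ, (hm σ).2 h1, h2⟩
  · intro σ hσ
    rw [hm] at hσ
    rw [res_nc c.F e σ]
    exact res_d6 _ hσ
  · intro σ hσ h0
    rw [hm] at hσ
    rw [res_nc c.F e σ]
    exact res_d7 _ hσ h0

theorem emb_card {K : IntermediateField ℚ QBar} [NumberField K] (c : Cu K) :
    Nat.card (c.F →ₐ[K] QBar) = 3 := res_card c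

end H57.SL
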