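import Pool.Agent.H57.SL.Dth
import Pool.Agent.H57.SL.Res
import Pool.Agent.H57.SL.Inr

/-!
# [H57 SL ACP] the characters of order three of one and of two cubic fields (150-200 lines)

`mm_out`: `fix0`. `mm_in`: if `θ σ = 0` all 3 embeddings are fixed (`ker`, `emb_card`): `mm = 2 = 1 + 1`. If `θ σ ≠ 0` then `mm = -1` (`fix1`) and `ep 3 1 + ep 3 2 = -1` (`θ σ ∈ {1, 2}`).

`ac2`: if `θ σ + θ' σ = 0` for all `σ ∈ E.fixingSubgroup`, or `θ σ - θ' σ = 0` for all these `σ`, then `θ σ = 0 ↔ θ' σ = 0`, so by `ker` the same elements `N₀` act trivially on the embeddings of `c.F` and of `c'.F`. Take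
`τ ∉ E.fixingSubgroup` (`deg = 2`, so it is not everything) and the unique embeddings `ι`, `ι'` fixed by `τ` (`fix0`). The stabilizer of `ι` is `N₀ ∪ τ N₀`: if `σ ∈ E.fixingSubgroup` fixes `ι` then `θ σ = 0` by `fix1`; if
`σ ∉ E.fixingSubgroup` then `τ⁻¹ σ ∈ E.fixingSubgroup` (index 2: `E.fixingSubgroup` has index 2 because `deg = 2`) fixes `ι`. The same for `ι'`. So `ι.fieldRange.fixingSubgroup = ι'.fieldRange.fixingSubgroup`, `ι.fieldRange = ι'.fieldRange`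
(`InfiniteGalois.fixedField_fixingSubgroup`), `c.F ≃ₐ[K] c'.F`, contradiction.

`ac3`: let `E ≠ E'`, both of degree 2. There is `τ ∈ E.fixingSubgroup`, `τ ∉ E'.fixingSubgroup` (otherwise `E' ⊆ E`, equal degrees). Suppose `θ σ + θ' σ = 0` for all `σ` in both. For such `σ`, `τ⁻¹ σ τ` is in both (index 2: normal), `θ (τ⁻¹ σ τ) = θ σ`
(`mul` on `E.fixingSubgroup`), `θ' (τ⁻¹ σ τ) = - θ' σ` (`inv`), so `0 = θ σ - θ' σ = 2 θ σ`, `θ σ = 0`. But for `σ ∈ E.fixingSubgroup` with `θ σ ≠ 0` (`non`), `σ ^ 2` is in both (index 2) and `θ (σ ^ 2) = 2 θ σ ≠ 0`.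

`rs_th`: `unr`: `inr_iff` and `Unr`: the inertia groups over `l ∉ B` act trivially on the embeddings of `c.F`, so `ker`. `ft`: `M = ⨆ ι, ι.fieldRange` (finite, `M.fixingSubgroup` acts trivially on the embeddings).
`th_add`, `th_sub`, `th_sup`: clear (`M = M₁ ⊔ M₂`, `IntermediateField.fixingSubgroup_sup`).
-/

set_option autoImplicit false

open scoped NumberField Classical
open IsDedekindDomain H63.MA NumberField H36.QA H57.LI H57.LC H67.SX H38.ML

noncomputable section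

namespace H57.SL

variable {K : IntermediateField ℚ QBar} [NumberField K]

omit [NumberField K] in
private theorem acp_gal : IsGalois K QBar := by
  have : IsAlgClosed QBar := IsAlgClosure.isAlgClosed K
  have : Algebra.IsAlgebraic K QBar := IsAlgClosure.isAlgebraic
  have : Normal K QBar := IsAlgClosure.normal K QBar
  exact ⟨⟩

private theorem acp_idx {E : IntermediateField K QBar} (h : Module.finrank K E = 2) :
    E.fixingSubgroup.index = 2 := by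
  have : IsGalois K QBar := acp_gal
  exact (IntermediateField.finrank_eq_fixingSubgroup_index QBar E).symm.trans h

private theorem acp_mul {E : IntermediateField K QBar} (h : Module.finrank K E = 2)
    {σ τ : Gal(QBar/K)} : σ * τ ∈ E.fixingSubgroup ↔ (σ ∈ E.fixingSubgroup ↔ τ ∈ E.fixingSubgroup) :=
  Subgroup.mul_mem_iff_of_index_two (acp_idx h)

private theorem acp_conj {E : IntermediateField K QBar} (h : Module.finrank K E = 2)
    {σ : Gal(QBar/K)} (hσ : σ ∈ E.fixingSubgroup) (τ : Gal(QBar/K)) :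
    τ⁻¹ * σ * τ ∈ E.fixingSubgroup := by
  rw [acp_mul h, acp_mul h, Subgroup.inv_mem_iff]
  tauto

private theorem acp_sum (f : ZMod 3 → ℂ) : ∑ a : ZMod 3, f a = f 0 + f 1 + f 2 :=
  Fin.sum_univ_three f

private theorem acp_fin (c : Cu K) : Finite (c.F →ₐ[K] QBar) :=
  Nat.finite_of_card_ne_zero (by rw [emb_card c]; norm_num)

private theorem acp_one {E : IntermediateField K QBar} {θ : Gal(QBar/K) → ZMod 3}
    (h : ∀ σ ∈ E.fixingSubgroup, ∀ τ ∈ E.fixingSubgroup, θ (σ * τ) = θ σ + θ τ) : θ 1 = 0 := by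
  have h1 := h 1 (one_mem _) 1 (one_mem _)
  rw [mul_one] at h1
  exact left_eq_add.1 h1

private theorem acp_inv {E : IntermediateField K QBar} {θ : Gal(QBar/K) → ZMod 3}
    (h : ∀ σ ∈ E.fixingSubgroup, ∀ τ ∈ E.fixingSubgroup, θ (σ * τ) = θ σ + θ τ)
    {σ : Gal(QBar/K)} (hσ : σ ∈ E.fixingSubgroup) : θ σ⁻¹ = - θ σ := by
  have h1 := h σ⁻¹ (inv_mem hσ) σ hσ
  rw [inv_mul_cancel, acp_one h] at h1
  exact eq_neg_of_add_eq_zero_left h1.symm

private theorem acp_in {c : Cu K} {E : IntermediateField K QBar} {θ : Gal(QBar/K) → ZMod 3}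
    (h : Rs c E θ) {σ : Gal(QBar/K)} (hσ : σ ∈ E.fixingSubgroup) {ι : c.F →ₐ[K] QBar}
    (hi : ac σ ι = ι) : θ σ = 0 := by
  by_contra hne
  have h1 := h.fix1 σ hσ hne
  have := acp_fin c
  rw [Set.ncard_eq_zero (Set.toFinite _)] at h1
  have h2 : ι ∈ fx c.F σ := hi
  rw [h1] at h2
  exact h2

private theorem acp_stab {c : Cu K} {E : IntermediateField K QBar} {θ : Gal(QBar/K) → ZMod 3}
    (h : Rs c E θ) {τ : Gal(QBar/K)} (hτ : τ ∉ E.fixingSubgroup) {ι : c.F →ₐ[K] QBar}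
    (hi : ac τ ι = ι) (σ : Gal(QBar/K)) : ac σ ι = ι ↔
      (σ ∈ E.fixingSubgroup ∧ θ σ = 0) ∨
        (τ⁻¹ * σ ∈ E.fixingSubgroup ∧ θ (τ⁻¹ * σ) = 0) := by
  have hti : ac τ⁻¹ ι = ι := by
    conv_lhs => rw [← hi]
    rw [← ac_mul, inv_mul_cancel, ac_one]
  constructor
  · intro hs
    by_cases hσ : σ ∈ E.fixingSubgroup
    · exact Or.inl ⟨hσ, acp_in h hσ hs⟩
    · have h1 : τ⁻¹ * σ ∈ E.fixingSubgroup := by
        rw [acp_mul h.deg, Subgroup.inv_mem_iff]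
        tauto
      refine Or.inr ⟨h1, acp_in h h1 (ι := ι) ?_⟩
      rw [ac_mul, hs, hti]
  · rintro (h1 | h1)
    · exact (h.ker σ).2 h1 ι
    · have h2 := (h.ker _).2 h1 ι
      have h3 : ac (τ * (τ⁻¹ * σ)) ι = ι := by rw [ac_mul, h2, hi]
      rwa [mul_inv_cancel_left] at h3

private theorem acp_iso {c c' : Cu K} (ι : c.F →ₐ[K] QBar) (ι' : c'.F →ₐ[K] QBar)
    (h : ∀ σ : Gal(QBar/K), ac σ ι = ι ↔ ac σ ι' = ι') : Nonempty (c.F ≃ₐ[K] c'.F) := by
  have : IsGalois K QBar := acp_gal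
  have hm : ∀ (d : Cu K) (j : d.F →ₐ[K] QBar) (σ : Gal(QBar/K)),
      σ ∈ j.fieldRange.fixingSubgroup ↔ ac σ j = j := by
    intro d j σ
    rw [IntermediateField.mem_fixingSubgroup_iff]
    constructor
    · intro h1
      ext x
      exact h1 (j x) ⟨x, rfl⟩
    · rintro h1 y ⟨x, rfl⟩
      exact DFunLike.congr_fun h1 x
  have h1 : ι.fieldRange.fixingSubgroup = ι'.fieldRange.fixingSubgroup := by
    ext σ
    rw [hm, hm, h σ]
  have h2 : ι.fieldRange = ι'.fieldRange := by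
    rw [← InfiniteGalois.fixedField_fixingSubgroup ι.fieldRange, h1,
      InfiniteGalois.fixedField_fixingSubgroup]
  exact ⟨(AlgEquiv.ofInjectiveField ι).trans ((IntermediateField.equivOfEq h2).trans
    (AlgEquiv.ofInjectiveField ι').symm)⟩

private theorem acp_fixed {c : Cu K} {E : IntermediateField K QBar} {θ : Gal(QBar/K) → ZMod 3}
    (h : Rs c E θ) {τ : Gal(QBar/K)} (hτ : τ ∉ E.fixingSubgroup) :
    ∃ ι : c.F →ₐ[K] QBar, ac τ ι = ι := by
  obtain ⟨ι, hι⟩ := Set.ncard_eq_one.1 (h.fix0 τ hτ)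
  have h1 : ι ∈ fx c.F τ := by
    rw [hι]
    exact Set.mem_singleton _
  exact ⟨ι, h1⟩

private theorem acp_out {E : IntermediateField K QBar} (h : Module.finrank K E = 2) :
    ∃ τ : Gal(QBar/K), τ ∉ E.fixingSubgroup := by
  by_contra hne
  push Not at hne
  have h1 : E.fixingSubgroup = ⊤ := by
    rw [Subgroup.eq_top_iff']
    exact hne
  have h2 := acp_idx h
  rw [h1, Subgroup.index_top] at h2
  omega

private theorem acp_two {c c' : Cu K} {E : IntermediateField K QBar}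
    {θ θ' : Gal(QBar/K) → ZMod 3}
    (h : Rs c E θ) (h' : Rs c' E θ') (hi : IsEmpty (c.F ≃ₐ[K] c'.F))
    (hz : ∀ σ ∈ E.fixingSubgroup, θ σ = 0 ↔ θ' σ = 0) : False := by
  obtain ⟨τ, hτ⟩ := acp_out h.deg
  obtain ⟨ι, hι⟩ := acp_fixed h hτ
  obtain ⟨ι', hι'⟩ := acp_fixed h' hτ
  obtain ⟨e⟩ := acp_iso ι ι' (fun σ => by
    rw [acp_stab h hτ hι σ, acp_stab h' hτ hι' σ]
    constructor
    · rintro (⟨h1, h2⟩ | ⟨h1, h2⟩)
      · exact Or.inl ⟨h1, (hz _ h1).1 h2⟩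
      · exact Or.inr ⟨h1, (hz _ h1).1 h2⟩
    · rintro (⟨h1, h2⟩ | ⟨h1, h2⟩)
      · exact Or.inl ⟨h1, (hz _ h1).2 h2⟩
      · exact Or.inr ⟨h1, (hz _ h1).2 h2⟩)
  exact hi.false e

theorem mm_out {c : Cu K} {E : IntermediateField K QBar} {θ : Gal(QBar/K) → ZMod 3}
    (h : Rs c E θ) (σ : Gal(QBar/K)) (hσ : σ ∉ E.fixingSubgroup) : mm c σ = 0 := by
  unfold mm
  rw [h.fix0 σ hσ]
  norm_num

theorem mm_in {c : Cu K} {E : IntermediateField K QBar} {θ : Gal(QBar/K) → ZMod 3}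
    (h : Rs c E θ) (σ : Gal(QBar/K)) (hσ : σ ∈ E.fixingSubgroup) :
    ((mm c σ : ℝ) : ℂ) = ep 3 (θ σ) + ep 3 (-θ σ) := by
  unfold mm
  by_cases h0 : θ σ = 0
  · have h1 : fx c.F σ = Set.univ := by
      ext ι
      simp only [Set.mem_univ, iff_true]
      exact (h.ker σ).2 ⟨hσ, h0⟩ ι
    rw [h1, Set.ncard_univ, emb_card c, h0, neg_zero, ep_zero]
    push_cast
    norm_num
  · rw [h.fix1 σ hσ h0]
    have h2 := ep_sum Nat.prime_three (θ σ)
    rw [if_neg h0] at h2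
    have h3 : ∑ a : ZMod 3, ep 3 (a * θ σ) = ep 3 (0 * θ σ) + ep 3 (1 * θ σ) + ep 3 (2 * θ σ) :=
      acp_sum (fun a => ep 3 (a * θ σ))
    have h4 : (2 : ZMod 3) * θ σ = - θ σ := by
      have h5 : ∀ x : ZMod 3, 2 * x = - x := by decide
      exact h5 _
    rw [h3, zero_mul, one_mul, h4, ep_zero] at h2
    push_cast
    linear_combination -h2

theorem ac2 {c c' : Cu K} {E : IntermediateField K QBar} {θ θ' : Gal(QBar/K) → ZMod 3}
    (h : Rs c E θ) (h' : Rs c' E θ') (hi : IsEmpty (c.F ≃ₐ[K] c'.F)) :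
    (∃ σ ∈ E.fixingSubgroup, θ σ + θ' σ ≠ 0) ∧ ∃ σ ∈ E.fixingSubgroup, θ σ - θ' σ ≠ 0 := by
  constructor
  · by_contra hne
    push Not at hne
    refine acp_two h h' hi fun σ hσ => ?_
    have h1 := hne σ hσ
    constructor
    · intro h2
      rwa [h2, zero_add] at h1
    · intro h2
      rwa [h2, add_zero] at h1
  · by_contra hne
    push Not at hne
    refine acp_two h h' hi fun σ hσ => ?_
    have h1 := hne σ hσ
    rw [sub_eq_zero] at h1
    rw [h1]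

theorem ac3 {c c' : Cu K} {E E' : IntermediateField K QBar} {θ θ' : Gal(QBar/K) → ZMod 3}
    (h : Rs c E θ) (h' : Rs c' E' θ') (hne : E ≠ E') :
    ∃ σ ∈ E.fixingSubgroup, σ ∈ E'.fixingSubgroup ∧ θ σ + θ' σ ≠ 0 := by
  have : IsGalois K QBar := acp_gal
  obtain ⟨τ, hτ, hτ'⟩ : ∃ τ ∈ E.fixingSubgroup, τ ∉ E'.fixingSubgroup := by
    by_contra hn
    push Not at hn
    have h1 : E' ≤ E := by
      rw [← InfiniteGalois.fixedField_fixingSubgroup E, ← InfiniteGalois.fixedField_fixingSubgroup E']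
      exact IntermediateField.fixedField_antitone hn
    have : FiniteDimensional K E := Module.finite_of_finrank_pos (by rw [h.deg]; norm_num)
    exact hne (IntermediateField.eq_of_le_of_finrank_eq h1 (by rw [h.deg, h'.deg])).symm
  by_contra hn
  push Not at hn
  have hz : ∀ σ ∈ E.fixingSubgroup, σ ∈ E'.fixingSubgroup → θ σ = 0 := by
    intro σ hσ hσ'
    have h1 := hn σ hσ hσ'
    have h2 := hn (τ⁻¹ * σ * τ) (acp_conj h.deg hσ τ) (acp_conj h'.deg hσ' τ)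
    rw [h'.inv σ hσ' τ hτ', h.mul _ (mul_mem (inv_mem hτ) hσ) τ hτ, h.mul _ (inv_mem hτ) σ hσ,
      acp_inv h.mul hτ] at h2
    have h3 : ∀ x y z : ZMod 3, x + y = 0 → -z + x + z + -y = 0 → x = 0 := by decide
    exact h3 _ _ _ h1 h2
  obtain ⟨σ, hσ, hs⟩ := h.non
  have h1 := hz (σ * σ) (mul_mem hσ hσ) ((acp_mul h'.deg).2 Iff.rfl)
  rw [h.mul σ hσ σ hσ] at h1
  have h3 : ∀ x : ZMod 3, x + x = 0 → x = 0 := by decide
  exact hs (h3 _ h1)

theorem rs_th {c : Cu K} {E : IntermediateField K QBar} {θ : Gal(QBar/K) → ZMod 3}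
    (h : Rs c E θ) (B : Finset (Pl K)) (hB : ∀ l, l ∉ B → H1.LS4.Unr K c.F l.asIdeal) :
    Th E θ B where
  mul := h.mul
  ft := by
    have := acp_fin c
    refine ⟨⨆ ι : c.F →ₐ[K] QBar, ι.fieldRange, ?_, ?_⟩
    · have : ∀ ι : c.F →ₐ[K] QBar, FiniteDimensional K ι.fieldRange := fun ι =>
        Module.Finite.equiv (AlgEquiv.ofInjectiveField ι).toLinearEquiv
      exact IntermediateField.finiteDimensional_iSup_of_finite
    · intro σ hσ
      refine (h.ker σ).1 fun ι => ?_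
      ext x
      rw [IntermediateField.mem_fixingSubgroup_iff] at hσ
      exact hσ (ι x) ((le_iSup (fun ι : c.F →ₐ[K] QBar => ι.fieldRange) ι) ⟨x, rfl⟩)
  unr := by
    intro l _ hl P hP hPl τ hτ
    exact (h.ker τ).1 fun ι => (inr_iff (Ω := QBar) c.F l).2 (hB l hl) P hP hPl τ hτ ι

private theorem acp_ft {E E' : IntermediateField K QBar} {θ θ' : Gal(QBar/K) → ZMod 3}
    {B B' : Finset (Pl K)} (h : Th E θ B) (h' : Th E' θ' B') :
    ∃ M : IntermediateField K QBar, FiniteDimensional K M ∧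
    ∀ σ ∈ M.fixingSubgroup, (σ ∈ E.fixingSubgroup ∧ θ σ = 0) ∧
      (σ ∈ E'.fixingSubgroup ∧ θ' σ = 0) := by
  obtain ⟨M, hM, h1⟩ := h.ft
  obtain ⟨M', hM', h1'⟩ := h'.ft
  have := hM
  have := hM'
  refine ⟨M ⊔ M', IntermediateField.finiteDimensional_sup M M', fun σ hσ => ?_⟩
  rw [IntermediateField.fixingSubgroup_sup, Subgroup.mem_inf] at hσ
  exact ⟨h1 σ hσ.1, h1' σ hσ.2⟩

theorem th_add {E : IntermediateField K QBar} {θ θ' : Gal(QBar/K) → ZMod 3}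
    {B B' : Finset (Pl K)} (h : Th E θ B) (h' : Th E θ' B') :
    Th E (fun σ => θ σ + θ' σ) (B ∪ B') where
  mul := by
    intro σ hσ τ hτ
    show θ (σ * τ) + θ' (σ * τ) = _
    rw [h.mul σ hσ τ hτ, h'.mul σ hσ τ hτ]
    abel
  ft := by
    obtain ⟨M, hM, h1⟩ := acp_ft h h'
    refine ⟨M, hM, fun σ hσ => ⟨(h1 σ hσ).1.1, ?_⟩⟩
    show θ σ + θ' σ = 0
    rw [(h1 σ hσ).1.2, (h1 σ hσ).2.2, add_zero]
  unr := by
    intro l h3 hl P hP hPl τ hτ
    rw [Finset.mem_union, not_or] at hl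
    have h1 := h.unr l h3 hl.1 P hP hPl τ hτ
    have h2 := h'.unr l h3 hl.2 P hP hPl τ hτ
    refine ⟨h1.1, ?_⟩
    show θ τ + θ' τ = 0
    rw [h1.2, h2.2, add_zero]

theorem th_sub {E : IntermediateField K QBar} {θ θ' : Gal(QBar/K) → ZMod 3}
    {B B' : Finset (Pl K)} (h : Th E θ B) (h' : Th E θ' B') :
    Th E (fun σ => θ σ - θ' σ) (B ∪ B') where
  mul := by
    intro σ hσ τ hτ
    show θ (σ * τ) - θ' (σ * τ) = (θ σ - θ' σ) + (θ τ - θ' τ)
    rw [h.mul σ hσ τ hτ, h'.mul σ hσ τ hτ]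
    abel
  ft := by
    obtain ⟨M, hM, h1⟩ := acp_ft h h'
    refine ⟨M, hM, fun σ hσ => ⟨(h1 σ hσ).1.1, ?_⟩⟩
    show θ σ - θ' σ = 0
    rw [(h1 σ hσ).1.2, (h1 σ hσ).2.2, sub_zero]
  unr := by
    intro l h3 hl P hP hPl τ hτ
    rw [Finset.mem_union, not_or] at hl
    have h1 := h.unr l h3 hl.1 P hP hPl τ hτ
    have h2 := h'.unr l h3 hl.2 P hP hPl τ hτ
    refine ⟨h1.1, ?_⟩
    show θ τ - θ' τ = 0
    rw [h1.2, h2.2, sub_zero]

theorem th_sup {E E' : IntermediateField K QBar} {θ θ' : Gal(QBar/K) → ZMod 3}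
    {B B' : Finset (Pl K)} (h : Th E θ B) (h' : Th E' θ' B') :
    Th (E ⊔ E') (fun σ => θ σ + θ' σ) (B ∪ B') where
  mul := by
    intro σ hσ τ hτ
    rw [IntermediateField.fixingSubgroup_sup, Subgroup.mem_inf] at hσ hτ
    show θ (σ * τ) + θ' (σ * τ) = (θ σ + θ' σ) + (θ τ + θ' τ)
    rw [h.mul σ hσ.1 τ hτ.1, h'.mul σ hσ.2 τ hτ.2]
    abel
  ft := by
    obtain ⟨M, hM, h1⟩ := acp_ft h h'
    refine ⟨M, hM, fun σ hσ => ⟨?_, ?_⟩⟩
    · rw [IntermediateField.fixingSubgroup_sup, Subgroup.mem_inf]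
      exact ⟨(h1 σ hσ).1.1, (h1 σ hσ).2.1⟩
    · show θ σ + θ' σ = 0
      rw [(h1 σ hσ).1.2, (h1 σ hσ).2.2, add_zero]
  unr := by
    intro l h3 hl P hP hPl τ hτ
    rw [Finset.mem_union, not_or] at hl
    have h1 := h.unr l h3 hl.1 P hP hPl τ hτ
    have h2 := h'.unr l h3 hl.2 P hP hPl τ hτ
    refine ⟨?_, ?_⟩
    · rw [IntermediateField.fixingSubgroup_sup, Subgroup.mem_inf]
      exact ⟨h1.1, h2.1⟩
    · show θ τ + θ' τ = 0
      rw [h1.2, h2.2, add_zero]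

end H57.SL
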