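import Pool.Agent.H57.SL.Dth
import Pool.Agent.H57.SL.Chv
import Pool.Agent.H57.SL.Diu

/-!
# [H57 SL DRB] the sum of a character over the primes of degree one of a quadratic and of a biquadratic extension (120-160 lines)

`φ = fr Q l`. `IT QBar E l` by `th_IT`. By `dic_sum` `d1 K χ.χ l = ∑ χ.χ (pe E Q l ι)` over the embeddings `ι` of `E` with `ac φ ι = ι`. Every `ι` is `ac τ E.val` for some `τ` (`emb_tr`), and `ac φ (ac τ E.val) = ac τ E.val` iff
`τ⁻¹ φ τ ∈ E.fixingSubgroup`; then `χ.χ (pe E Q l ι) = ep 3 (θ (τ⁻¹ φ τ))` (`Vl`).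

`dr_q`: `E.fixingSubgroup` has index 2 (degree = index, see `Res`), so it is normal and the embeddings are `E.val` and `ac τ E.val` for a fixed `τ ∉ E.fixingSubgroup` (`Nat.card (E →ₐ[K] QBar) = 2`, the two are different). If `φ ∉ E.fixingSubgroup`
no embedding is fixed. If `φ ∈ E.fixingSubgroup` both are fixed: `ep (θ φ) + ep (θ (τ⁻¹ φ τ)) = ep (θ φ) + ep (- θ φ)`.

`dr_b`: `L = E ⊔ E'`, `L.fixingSubgroup = E.fixingSubgroup ⊓ E'.fixingSubgroup` (`IntermediateField.fixingSubgroup_sup`), normal of index 4 (`E ≠ E'`). Let `τ ∉ E.fixingSubgroup`, `τ ∈ E'.fixingSubgroup` and `τ' ∈ E.fixingSubgroup`, `τ' ∉ E'.fixingSubgroup`. The four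
embeddings of `L` are `ac s L.val`, `s = 1, τ, τ', τ τ'` (an embedding of `L` is determined by its restrictions to `E` and `E'`, two possibilities each; or by cosets). If `φ` is not in both subgroups no embedding is fixed. If it is, all are fixed,
and with `a = θ φ`, `b = θ' φ`: `θ (s⁻¹ φ s) + θ' (s⁻¹ φ s) = a + b, -a + b, a - b, -a - b` (conjugation by an element of `E.fixingSubgroup` does not change `θ`, by `mul`; by an element outside it changes the sign), and
`ep (a + b) + ep (-a + b) + ep (a - b) + ep (-a - b) = (ep a + ep (-a)) (ep b + ep (-b))`.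
-/

set_option autoImplicit false

open scoped NumberField Classical
open IsDedekindDomain H63.MA NumberField H36.QA H57.LI H57.LC H67.SX H38.ML

noncomputable section

namespace H57.SL

variable {K : IntermediateField ℚ QBar} [NumberField K]

theorem drb_mem (E : IntermediateField K QBar) (σ : Gal(QBar/K)) :
    σ ∈ E.fixingSubgroup ↔ ac σ E.val = E.val := by
  rw [IntermediateField.mem_fixingSubgroup_iff]
  constructor
  · intro h
    exact AlgHom.ext fun x => h x x.2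
  · intro h x hx
    exact DFunLike.congr_fun h (⟨x, hx⟩ : E)

theorem drb_conj (E : IntermediateField K QBar) (φ τ : Gal(QBar/K)) :
    ac φ (ac τ E.val) = ac τ E.val ↔ τ⁻¹ * φ * τ ∈ E.fixingSubgroup := by
  rw [drb_mem, ac_mul, ac_mul]
  constructor
  · intro h
    rw [h, ← ac_mul, inv_mul_cancel, ac_one]
  · intro h
    have h1 := congrArg (ac τ) h
    rw [← ac_mul τ τ⁻¹, mul_inv_cancel, ac_one] at h1
    exact h1

theorem drb_two (E : IntermediateField K QBar) (hd : Module.finrank K E = 2) :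
    ∃! ι : E →ₐ[K] QBar, ι ≠ E.val := by
  haveI : IsAlgClosed QBar := IsAlgClosure.isAlgClosed K
  haveI : FiniteDimensional K E := Module.finite_of_finrank_pos (by rw [hd]; norm_num)
  have h : Nat.card (E →ₐ[K] QBar) = 2 := by
    rw [Nat.card_eq_fintype_card, AlgHom.card, hd]
  exact (Nat.card_eq_two_iff' E.val).1 h

theorem drb_nrm (E : IntermediateField K QBar) (hd : Module.finrank K E = 2)
    (σ : Gal(QBar/K)) (hσ : σ ∈ E.fixingSubgroup) (s : Gal(QBar/K)) :
    s⁻¹ * σ * s ∈ E.fixingSubgroup := by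
  rw [← drb_conj]
  obtain ⟨ι, hι, hu⟩ := drb_two E hd
  by_cases h : ac s E.val = E.val
  · rw [h]
    exact (drb_mem E σ).1 hσ
  · have h1 : ac s E.val = ι := hu _ h
    have h2 : ac σ ι ≠ E.val := by
      intro h3
      apply hι
      have h4 := congrArg (ac σ⁻¹) h3
      rw [← ac_mul, inv_mul_cancel, ac_one] at h4
      rw [h4]
      exact (drb_mem E σ⁻¹).1 (inv_mem hσ)
    rw [h1]
    exact hu _ h2

theorem drb_idx (E : IntermediateField K QBar) (hd : Module.finrank K E = 2)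
    (s t : Gal(QBar/K)) (hs : s ∉ E.fixingSubgroup) (ht : t ∉ E.fixingSubgroup) :
    s⁻¹ * t ∈ E.fixingSubgroup := by
  obtain ⟨ι, hι, hu⟩ := drb_two E hd
  rw [drb_mem] at hs ht ⊢
  have h1 : ac s E.val = ι := hu _ hs
  have h2 : ac t E.val = ι := hu _ ht
  rw [ac_mul, h2, ← h1, ← ac_mul, inv_mul_cancel, ac_one]

theorem drb_out (E : IntermediateField K QBar) (hd : Module.finrank K E = 2) :
    ∃ τ : Gal(QBar/K), τ ∉ E.fixingSubgroup := by
  obtain ⟨ι, hι, hu⟩ := drb_two E hd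
  haveI : FiniteDimensional K E := Module.finite_of_finrank_pos (by rw [hd]; norm_num)
  haveI : NumberField E := NumberField.of_module_finite K E
  obtain ⟨τ, hτ⟩ := emb_tr E E.val ι
  refine ⟨τ, fun h => hι ?_⟩
  rw [hτ]
  exact (drb_mem E τ).1 h

theorem drb_out2 (E E' : IntermediateField K QBar) (hd : Module.finrank K E = 2)
    (hd' : Module.finrank K E' = 2) (hne : E ≠ E') :
    ∃ τ : Gal(QBar/K), τ ∉ E.fixingSubgroup ∧ τ ∈ E'.fixingSubgroup := by
  haveI : IsGalois K QBar := IsAlgClosure.isGalois K QBar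
  haveI : FiniteDimensional K E' := Module.finite_of_finrank_pos (by rw [hd']; norm_num)
  by_contra hc
  push Not at hc
  apply hne
  have h1 : E'.fixingSubgroup ≤ E.fixingSubgroup := by
    intro τ hτ
    by_contra h
    exact hc τ h hτ
  have h2 : E ≤ E' := by
    have h3 := IntermediateField.fixedField_antitone h1
    rw [InfiniteGalois.fixedField_fixingSubgroup, InfiniteGalois.fixedField_fixingSubgroup] at h3
    exact h3
  exact IntermediateField.eq_of_le_of_finrank_eq h2 (by rw [hd, hd'])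

theorem drb_cj {H : Subgroup Gal(QBar/K)} {θ : Gal(QBar/K) → ZMod 3}
    (hm : ∀ σ ∈ H, ∀ τ ∈ H, θ (σ * τ) = θ σ + θ τ) (σ s : Gal(QBar/K)) (hσ : σ ∈ H)
    (hs : s ∈ H) : θ (s⁻¹ * σ * s) = θ σ := by
  have h1 : θ 1 = 0 := by
    have h := hm 1 H.one_mem 1 H.one_mem
    rw [one_mul] at h
    exact left_eq_add.1 h
  have h2 : θ s⁻¹ + θ s = 0 := by
    rw [← hm _ (H.inv_mem hs) _ hs, inv_mul_cancel, h1]
  rw [hm _ (H.mul_mem (H.inv_mem hs) hσ) _ hs, hm _ (H.inv_mem hs) _ hσ]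
  linear_combination h2

theorem drb_ep (a b : ZMod 3) : ep 3 (a + b) = ep 3 a * ep 3 b := by
  exact ep_add (by norm_num) a b

theorem dr_q (E : IntermediateField K QBar) [NumberField E] (hd : Module.finrank K E = 2)
    (θ : Gal(QBar/K) → ZMod 3) (B : Finset (Pl K)) (h : Th E θ B)
    (hinv : ∀ σ ∈ E.fixingSubgroup, ∀ τ, τ ∉ E.fixingSubgroup → θ (τ⁻¹ * σ * τ) = - θ σ)
    (χ : RC E (md (mB B) E)) (hχ : Vl E θ B χ) (Q : DP K QBar) (l : Pl K)
    (h3 : ¬ Above 3 l) (hB : l ∉ B) (hp : (nm l).Prime) :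
    d1 K χ.χ l = if fr Q l ∈ E.fixingSubgroup then
      ep 3 (θ (fr Q l)) + ep 3 (-θ (fr Q l)) else 0 := by
  haveI : FiniteDimensional K E := Module.finite_of_finrank_pos (by rw [hd]; norm_num)
  have hIT := th_IT E θ B h l h3 hB
  have h1 : d1 K χ.χ l = ∑ᶠ ι ∈ fx E (fr Q l), χ.χ (pe E Q l ι).asIdeal :=
    dic_sum E Q l hIT (fun w => χ.χ w.asIdeal)
  obtain ⟨ι, hι, hu⟩ := drb_two E hd
  obtain ⟨τ, hτ⟩ := drb_out E hd
  have hτι : ac τ E.val = ι := hu _ (fun h => hτ ((drb_mem E τ).2 h))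
  rw [h1]
  by_cases hφ : fr Q l ∈ E.fixingSubgroup
  · rw [if_pos hφ]
    have h2 : fx E (fr Q l) = {E.val, ι} := by
      ext κ
      simp only [Set.mem_insert_iff, Set.mem_singleton_iff]
      constructor
      · intro _
        by_cases hk : κ = E.val
        · exact Or.inl hk
        · exact Or.inr (hu _ hk)
      · rintro (hk | hk)
        · rw [hk]
          exact (drb_mem E _).1 hφ
        · rw [hk, ← hτι]
          exact (drb_conj E _ _).2 (drb_nrm E hd _ hφ τ)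
    rw [h2, finsum_mem_pair (Ne.symm hι)]
    have e1 : χ.χ (pe E Q l E.val).asIdeal = ep 3 (θ (fr Q l)) := by
      have h4 := hχ Q l h3 hB hp 1 (by rw [inv_one, one_mul, mul_one]; exact hφ)
      rw [ac_one, inv_one, one_mul, mul_one] at h4
      exact h4
    have e2 : χ.χ (pe E Q l ι).asIdeal = ep 3 (-θ (fr Q l)) := by
      have h4 := hχ Q l h3 hB hp τ (drb_nrm E hd _ hφ τ)
      rw [hτι, hinv _ hφ τ hτ] at h4
      exact h4
    rw [e1, e2]
  · rw [if_neg hφ]
    have h2 : fx E (fr Q l) = ∅ := by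
      ext κ
      simp only [Set.mem_empty_iff_false, iff_false]
      intro hk
      have hk' : ac (fr Q l) κ = κ := hk
      obtain ⟨s, hs⟩ := emb_tr E E.val κ
      rw [hs] at hk'
      have h4 := (drb_conj E _ _).1 hk'
      apply hφ
      have h5 := drb_nrm E hd _ h4 s⁻¹
      have h6 : (s⁻¹)⁻¹ * (s⁻¹ * fr Q l * s) * s⁻¹ = fr Q l := by group
      rw [h6] at h5
      exact h5
    rw [h2, finsum_mem_empty]

theorem dr_b (E E' : IntermediateField K QBar) [NumberField ↥(E ⊔ E')]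
    (hd : Module.finrank K E = 2) (hd' : Module.finrank K E' = 2) (hne : E ≠ E')
    (θ θ' : Gal(QBar/K) → ZMod 3)
    (hm : ∀ σ ∈ E.fixingSubgroup, ∀ τ ∈ E.fixingSubgroup, θ (σ * τ) = θ σ + θ τ)
    (hm' : ∀ σ ∈ E'.fixingSubgroup, ∀ τ ∈ E'.fixingSubgroup, θ' (σ * τ) = θ' σ + θ' τ)
    (hinv : ∀ σ ∈ E.fixingSubgroup, ∀ τ, τ ∉ E.fixingSubgroup → θ (τ⁻¹ * σ * τ) = - θ σ)
    (hinv' : ∀ σ ∈ E'.fixingSubgroup, ∀ τ, τ ∉ E'.fixingSubgroup →
      θ' (τ⁻¹ * σ * τ) = - θ' σ)
    (B : Finset (Pl K)) (h : Th (E ⊔ E') (fun σ => θ σ + θ' σ) B)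
    (χ : RC ↥(E ⊔ E') (md (mB B) ↥(E ⊔ E')))
    (hχ : Vl (E ⊔ E') (fun σ => θ σ + θ' σ) B χ) (Q : DP K QBar) (l : Pl K)
    (h3 : ¬ Above 3 l) (hB : l ∉ B) (hp : (nm l).Prime) :
    d1 K χ.χ l = if fr Q l ∈ E.fixingSubgroup ∧ fr Q l ∈ E'.fixingSubgroup then
      (ep 3 (θ (fr Q l)) + ep 3 (-θ (fr Q l))) *
        (ep 3 (θ' (fr Q l)) + ep 3 (-θ' (fr Q l))) else 0 := by
  haveI : FiniteDimensional K E := Module.finite_of_finrank_pos (by rw [hd]; norm_num)
  haveI : FiniteDimensional K E' := Module.finite_of_finrank_pos (by rw [hd']; norm_num)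
  have hIT := th_IT (E ⊔ E') _ B h l h3 hB
  have h1 : d1 K χ.χ l = ∑ᶠ ι ∈ fx ↥(E ⊔ E') (fr Q l),
      χ.χ (pe ↥(E ⊔ E') Q l ι).asIdeal := dic_sum ↥(E ⊔ E') Q l hIT (fun w => χ.χ w.asIdeal)
  have hL : ∀ σ : Gal(QBar/K), σ ∈ (E ⊔ E').fixingSubgroup ↔
      σ ∈ E.fixingSubgroup ∧ σ ∈ E'.fixingSubgroup := by
    intro σ
    rw [IntermediateField.fixingSubgroup_sup]
    exact Subgroup.mem_inf
  obtain ⟨τ, hτ, hτ'⟩ := drb_out2 E E' hd hd' hne
  obtain ⟨τ', hs', hs⟩ := drb_out2 E' E hd' hd (Ne.symm hne)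
  rw [h1]
  by_cases hφ : fr Q l ∈ E.fixingSubgroup ∧ fr Q l ∈ E'.fixingSubgroup
  · rw [if_pos hφ]
    obtain ⟨hφ1, hφ2⟩ := hφ
    have hall : ∀ s : Gal(QBar/K), s⁻¹ * fr Q l * s ∈ (E ⊔ E').fixingSubgroup := fun s =>
      (hL _).2 ⟨drb_nrm E hd _ hφ1 s, drb_nrm E' hd' _ hφ2 s⟩
    have hval : ∀ s : Gal(QBar/K), χ.χ (pe ↥(E ⊔ E') Q l (ac s (E ⊔ E').val)).asIdeal =
        ep 3 (θ (s⁻¹ * fr Q l * s) + θ' (s⁻¹ * fr Q l * s)) := fun s =>
      hχ Q l h3 hB hp s (hall s)
    have hinj : ∀ s t : Gal(QBar/K), ac s (E ⊔ E').val = ac t (E ⊔ E').val ↔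
        (s⁻¹ * t ∈ E.fixingSubgroup ∧ s⁻¹ * t ∈ E'.fixingSubgroup) := by
      intro s t
      rw [← hL, drb_mem, ac_mul]
      constructor
      · intro he
        rw [← he, ← ac_mul, inv_mul_cancel, ac_one]
      · intro he
        have h4 := congrArg (ac s) he
        rw [← ac_mul, mul_inv_cancel, ac_one] at h4
        exact h4.symm
    have hττ' : τ * τ' ∉ E.fixingSubgroup ∧ τ * τ' ∉ E'.fixingSubgroup := by
      constructor
      · intro hc
        exact hτ ((Subgroup.mul_mem_cancel_right _ hs).1 hc)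
      · intro hc
        exact hs' ((Subgroup.mul_mem_cancel_left _ hτ').1 hc)
    have h2 : fx ↥(E ⊔ E') (fr Q l) =
        ((({(E ⊔ E').val, ac τ (E ⊔ E').val, ac τ' (E ⊔ E').val,
          ac (τ * τ') (E ⊔ E').val} : Finset (↥(E ⊔ E') →ₐ[K] QBar))) :
          Set (↥(E ⊔ E') →ₐ[K] QBar)) := by
      ext κ
      simp only [Finset.coe_insert, Finset.coe_singleton, Set.mem_insert_iff,
        Set.mem_singleton_iff]
      constructor
      · intro _
        obtain ⟨s, hsk⟩ := emb_tr ↥(E ⊔ E') (E ⊔ E').val κ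
        by_cases c1 : s ∈ E.fixingSubgroup
        · by_cases c2 : s ∈ E'.fixingSubgroup
          · left
            rw [hsk]
            exact (drb_mem _ _).1 ((hL s).2 ⟨c1, c2⟩)
          · right; right; left
            rw [hsk, hinj]
            exact ⟨mul_mem (inv_mem c1) hs, drb_idx E' hd' _ _ c2 hs'⟩
        · by_cases c2 : s ∈ E'.fixingSubgroup
          · right; left
            rw [hsk, hinj]
            exact ⟨drb_idx E hd _ _ c1 hτ, mul_mem (inv_mem c2) hτ'⟩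
          · right; right; right
            rw [hsk, hinj]
            exact ⟨drb_idx E hd _ _ c1 hττ'.1, drb_idx E' hd' _ _ c2 hττ'.2⟩
      · rintro (hk | hk | hk | hk)
        · rw [hk]
          exact (drb_mem _ _).1 ((hL _).2 ⟨hφ1, hφ2⟩)
        · rw [hk]
          exact (drb_conj _ _ _).2 (hall τ)
        · rw [hk]
          exact (drb_conj _ _ _).2 (hall τ')
        · rw [hk]
          exact (drb_conj _ _ _).2 (hall (τ * τ'))
    rw [h2, finsum_mem_coe_finset]
    have n1 : (E ⊔ E').val ≠ ac τ (E ⊔ E').val := by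
      intro he
      have h4 := (hinj 1 τ).1 he
      rw [inv_one, one_mul] at h4
      exact hτ h4.1
    have n2 : (E ⊔ E').val ≠ ac τ' (E ⊔ E').val := by
      intro he
      have h4 := (hinj 1 τ').1 he
      rw [inv_one, one_mul] at h4
      exact hs' h4.2
    have n3 : (E ⊔ E').val ≠ ac (τ * τ') (E ⊔ E').val := by
      intro he
      have h4 := (hinj 1 (τ * τ')).1 he
      rw [inv_one, one_mul] at h4
      exact hττ'.1 h4.1
    have n4 : ac τ (E ⊔ E').val ≠ ac τ' (E ⊔ E').val := by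
      intro he
      have h4 := ((hinj τ τ').1 he).2
      exact hs' ((Subgroup.mul_mem_cancel_left _ (inv_mem hτ')).1 h4)
    have n5 : ac τ (E ⊔ E').val ≠ ac (τ * τ') (E ⊔ E').val := by
      intro he
      have h4 := ((hinj τ (τ * τ')).1 he).2
      exact hττ'.2 ((Subgroup.mul_mem_cancel_left _ (inv_mem hτ')).1 h4)
    have n6 : ac τ' (E ⊔ E').val ≠ ac (τ * τ') (E ⊔ E').val := by
      intro he
      have h4 := ((hinj τ' (τ * τ')).1 he).1
      exact hττ'.1 ((Subgroup.mul_mem_cancel_left _ (inv_mem hs)).1 h4)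
    rw [Finset.sum_insert (by simp only [Finset.mem_insert, Finset.mem_singleton, not_or]; exact ⟨n1, n2, n3⟩),
      Finset.sum_insert (by simp only [Finset.mem_insert, Finset.mem_singleton, not_or]; exact ⟨n4, n5⟩),
      Finset.sum_insert (by simp only [Finset.mem_singleton]; exact n6), Finset.sum_singleton]
    have v0 := hval 1
    rw [ac_one, inv_one, one_mul, mul_one] at v0
    have v1 := hval τ
    rw [hinv _ hφ1 τ hτ, drb_cj hm' _ _ hφ2 hτ'] at v1
    have v2 := hval τ'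
    rw [drb_cj hm _ _ hφ1 hs, hinv' _ hφ2 τ' hs'] at v2
    have v3 := hval (τ * τ')
    rw [hinv _ hφ1 _ hττ'.1, hinv' _ hφ2 _ hττ'.2] at v3
    rw [v0, v1, v2, v3, drb_ep, drb_ep, drb_ep, drb_ep]
    ring
  · rw [if_neg hφ]
    have h2 : fx ↥(E ⊔ E') (fr Q l) = ∅ := by
      ext κ
      simp only [Set.mem_empty_iff_false, iff_false]
      intro hk
      have hk' : ac (fr Q l) κ = κ := hk
      obtain ⟨s, hsk⟩ := emb_tr ↥(E ⊔ E') (E ⊔ E').val κ
      rw [hsk] at hk'
      have h4 := (hL _).1 ((drb_conj (E ⊔ E') _ _).1 hk')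
      apply hφ
      have h6 : (s⁻¹)⁻¹ * (s⁻¹ * fr Q l * s) * s⁻¹ = fr Q l := by group
      have h5 := drb_nrm E hd _ h4.1 s⁻¹
      have h7 := drb_nrm E' hd' _ h4.2 s⁻¹
      rw [h6] at h5 h7
      exact ⟨h5, h7⟩
    rw [h2, finsum_mem_empty]

end H57.SL
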