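import Pool.Agent.H57.SL.Int
import Pool.Agent.H57.SL.Drb
import Pool.Agent.H57.SL.Acp
import Pool.Agent.H57.SL.Dsb
import Pool.Agent.H57.SL.Bdn
import Pool.Agent.H57.SL.Cbl
import Pool.Agent.H57.SL.Ast
import Pool.Agent.H1.LS4.Cpf

/-!
# [H57 SL PCS] PC1 and PC2 (150-220 lines)

`n = [K : ℚ]`. `tc3`: `K` contains a primitive third root of unity, so it is totally complex (see `dsc_tc` in `H51/CUB/DSC`). `tc_up` (`H1/LS4/Cpf`): an extension of degree `d` is `TC (n d)`. `Q` from `exists_DP K QBar`.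

`pc1`: `ast1 K (2 n)` and `dsb K 2 S`. Let `c`, `e`, `Y` be given, `B` from `bdn c` (`nr B ≤ c.D`), `E, θ` from `res_ex c` (`E` is a number field: finite over `K`), `Th E θ B` (`rs_th`), `χ` from `chv`, `χ.Non` (`non`). `g = off (S ∪ e) c.mu`,
`Bd = S ∪ e ∪ B`. For `l ∉ Bd` with `nm l` prime (`¬ Above 3 l` because `l ∉ S`): `c.mu l = mm c (fr Q l)` (`cbl_lam`), and `dr_q` with `mm_in`, `mm_out` gives `d1 K χ.χ l = c.mu l`. `|g| ≤ 2`. `dd E ≤ C (nr B)^2` (`dsb`; `IT` from `th_IT` for `l ∉ S`,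
`l ∉ B`), `absNorm (md (mB B) E) = (27 ^ n nr B)^2` (`mB_norm`, `mB_ne`), so `(dd E * absNorm)^A ≤ C c.D^(4 A)`; `C ^ #Bd ≤ C ^ #S C ^ #e C ^ #B` and `C ^ #B ≤ (nr B)^a ≤ c.D ^ a` (`cpw`). `p.SS g Y = ∑_{s ∈ SF Y} pd g s`.

`pc2`: `c, c'` not isomorphic, `E, θ`, `E', θ'`, `B, B'`. `g l = off (S ∪ e) c.mu l * off (S ∪ e) c'.mu l`, `pd` is multiplicative, `|g| ≤ 4`.
Case `E = E'`: `χ₁` for `θ + θ'`, `χ₂` for `θ - θ'` (`th_add`, `th_sub`, `chv`; `Non` by `ac2`; the hypothesis `hinv` of `dr_q` for `θ ± θ'` from `inv`). For `φ = fr Q l ∈ E.fixingSubgroup`, `a = θ φ`, `b = θ' φ`: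
`d1 χ₁ + d1 χ₂ = ep (a+b) + ep (-a-b) + ep (a-b) + ep (b-a) = (ep a + ep (-a)) (ep b + ep (-b)) = c.mu l c'.mu l`; otherwise `0`. `ast2 K (2 n) (2 n)`.
Case `E ≠ E'`: `χ` for `E ⊔ E'` and `θ + θ'` (`th_sup`, `chv`, `ac3`), `dr_b`; `ast1 K (4 n)`, `dsb K 4 S`; `[E ⊔ E' : K] = 4`.
Take the larger constants and the smaller `δ` of the two cases.
-/

set_option autoImplicit false

open scoped NumberField Classical
open IsDedekindDomain H63.MA NumberField H36.QA H57.LI H57.LC H67.SX H38.ML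

noncomputable section

namespace H57.SL

/-- the bound with all the constants collected -/
private theorem pcs_bd {C1 G D Q Y' X : ℝ} {A1 s e b a k N : ℕ} (hC1 : 1 ≤ C1) (hG : 1 ≤ G)
    (hD : 1 ≤ D) (hQ : 0 ≤ Q) (hQG : Q ≤ G * D ^ k) (hN : N ≤ s + e + b) (hb : C1 ^ b ≤ D ^ a)
    (hY : 0 ≤ Y') (hX : X ≤ C1 * C1 ^ N * Q ^ A1 * Y') :
    X ≤ (C1 * C1 ^ s * G ^ A1) * (C1 * C1 ^ s * G ^ A1) ^ e * D ^ (a + k * A1) * Y' := by
  have hC0 : (0 : ℝ) ≤ C1 := by linarith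
  have hG0 : (0 : ℝ) ≤ G := by linarith
  have hD0 : (0 : ℝ) ≤ D := by linarith
  have h1 : C1 ^ N ≤ C1 ^ s * C1 ^ e * D ^ a := by
    calc C1 ^ N ≤ C1 ^ (s + e + b) := pow_le_pow_right₀ hC1 hN
      _ = C1 ^ s * C1 ^ e * C1 ^ b := by rw [pow_add, pow_add]
      _ ≤ C1 ^ s * C1 ^ e * D ^ a := mul_le_mul_of_nonneg_left hb (by positivity)
  have h2 : Q ^ A1 ≤ G ^ A1 * D ^ (k * A1) := by
    calc Q ^ A1 ≤ (G * D ^ k) ^ A1 := pow_le_pow_left₀ hQ hQG A1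
      _ = G ^ A1 * D ^ (k * A1) := by rw [mul_pow, ← pow_mul]
  have h3 : C1 ^ e ≤ (C1 * C1 ^ s * G ^ A1) ^ e := by
    refine pow_le_pow_left₀ hC0 ?_ e
    have h4 : 1 ≤ C1 ^ s := one_le_pow₀ hC1
    have h5 : 1 ≤ G ^ A1 := one_le_pow₀ hG
    calc C1 = C1 * 1 * 1 := by ring
      _ ≤ C1 * C1 ^ s * G ^ A1 := by gcongr
  refine hX.trans ?_
  refine mul_le_mul_of_nonneg_right ?_ hY
  calc C1 * C1 ^ N * Q ^ A1 ≤ C1 * (C1 ^ s * C1 ^ e * D ^ a) * (G ^ A1 * D ^ (k * A1)) := by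
        gcongr
    _ = (C1 * C1 ^ s * G ^ A1) * C1 ^ e * D ^ (a + k * A1) := by
        rw [pow_add]
        ring
    _ ≤ (C1 * C1 ^ s * G ^ A1) * (C1 * C1 ^ s * G ^ A1) ^ e * D ^ (a + k * A1) := by
        gcongr

/-- enlarge the constants -/
private theorem pcs_mono {C C' D X Y δ δ' : ℝ} {A A' e : ℕ} (hC : 1 ≤ C) (hD : 1 ≤ D)
    (hY : 1 ≤ Y) (hCC : C ≤ C') (hA : A ≤ A') (hδ : δ' ≤ δ)
    (hX : X ≤ C * C ^ e * D ^ A * Y ^ (1 - δ)) : X ≤ C' * C' ^ e * D ^ A' * Y ^ (1 - δ') := by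
  have h0 : (0 : ℝ) ≤ C := by linarith
  have hD0 : (0 : ℝ) ≤ D := by linarith
  have h1 : C ^ e ≤ C' ^ e := pow_le_pow_left₀ h0 hCC e
  have h2 : D ^ A ≤ D ^ A' := pow_le_pow_right₀ hD hA
  have h3 : Y ^ (1 - δ) ≤ Y ^ (1 - δ') := Real.rpow_le_rpow_of_exponent_le hY (by linarith)
  have h4 : (0 : ℝ) ≤ Y ^ (1 - δ) := by positivity
  have h5 : (0 : ℝ) ≤ C' := h0.trans hCC
  refine hX.trans ?_
  gcongr

variable {K : IntermediateField ℚ QBar} [NumberField K]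

private theorem pcs_DP (K : IntermediateField ℚ QBar) [NumberField K] : Nonempty (DP K QBar) := by
  choose P hP hP' using fun v : Pl K => gloc_over K QBar v.asIdeal v.isPrime
  exact ⟨⟨P, hP, hP'⟩⟩

private theorem pcs_tc {ζ : K} (hζ : IsPrimitiveRoot ζ 3) : TC K (Module.finrank ℚ K) :=
  ⟨NumberField.nrRealPlaces_eq_zero_iff.mp
    (NumberField.InfinitePlace.IsPrimitiveRoot.nrRealPlaces_eq_zero_of_two_lt (by norm_num) hζ),
    rfl⟩

theorem tc3 {ζ : K} (hζ : IsPrimitiveRoot ζ 3) : TC K (Module.finrank ℚ K) := pcs_tc hζ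

private theorem pcs_nr1 (B : Finset (Pl K)) : (1 : ℝ) ≤ nr B := by
  have h := (prK K).one_le_nn B
  have e : (prK K).nn B = nr B := by
    unfold Pr.nn nr
    exact Finset.prod_congr rfl fun l _ => by rw [prK_N]
  rw [e] at h
  exact h

private theorem pcs_nru (B B' : Finset (Pl K)) : (nr (B ∪ B') : ℝ) ≤ nr B * nr B' := by
  have h : nr (B ∪ B') * nr (B ∩ B') = nr B * nr B' := by
    unfold nr
    exact Finset.prod_union_inter
  have h1 := pcs_nr1 (B ∩ B')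
  have h2 := pcs_nr1 (B ∪ B')
  nlinarith

private theorem pcs_Q (d : ℕ) (S : Finset (Pl K)) {Cd : ℝ} (hCd : 1 ≤ Cd)
    (hds : ∀ (E : IntermediateField K QBar) [NumberField E],
      Module.finrank K E = d → ∀ B : Finset (Pl K),
      (∀ l : Pl K, l ∉ S → l ∉ B → IT QBar E l) → dd E ≤ Cd * (nr B : ℝ) ^ d)
    (h3 : ∀ v : Pl K, Above 3 v → v ∈ S) (E : IntermediateField K QBar) [NumberField E]
    (hd : Module.finrank K E = d) (θ : Gal(QBar/K) → ZMod 3) (B : Finset (Pl K))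
    (h : Th E θ B) {D : ℝ} (hD : nr B ≤ D) :
    dd E * Ideal.absNorm (md (mB B) E) ≤ (Cd * ((27 : ℝ) ^ Module.finrank ℚ K) ^ d) * D ^ (2 * d) := by
  have h1 := hds E hd B fun l hl hB => th_IT E θ B h l (fun h' => hl (h3 l h')) hB
  have hB1 := pcs_nr1 B
  have hB0 : (0 : ℝ) ≤ nr B := by linarith
  have hdd : 0 ≤ dd E := (dd_pos E).le
  rw [mB_norm, hd, mul_pow]
  calc dd E * ((27 ^ Module.finrank ℚ K) ^ d * nr B ^ d) ≤
      (Cd * (nr B : ℝ) ^ d) * ((27 ^ Module.finrank ℚ K) ^ d * nr B ^ d) := by gcongr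
    _ = (Cd * ((27 : ℝ) ^ Module.finrank ℚ K) ^ d) * nr B ^ (2 * d) := by
      rw [two_mul, pow_add]
      ring
    _ ≤ _ := by gcongr

private theorem pcs_off {T : Finset (Pl K)} (c : Cu K) (l : Pl K) : |off T c.mu l| ≤ 2 := by
  unfold off
  split_ifs
  · simp
  · exact (cbl_mu c l).1

theorem pc1 {ζ : K} (hζ : IsPrimitiveRoot ζ 3) (S : Finset (Pl K))
    (h3 : ∀ v : Pl K, Above 3 v → v ∈ S) : PC1 K S := by
  obtain ⟨Q⟩ := pcs_DP K
  have hn : 0 < Module.finrank ℚ K * 2 := Nat.mul_pos Module.finrank_pos (by norm_num)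
  obtain ⟨C1, A1, δ, hC1, hδ, hδ4, hast⟩ := ast1 K (Module.finrank ℚ K * 2) hn
  obtain ⟨Cd, hCd, hds⟩ := dsb K 2 S
  obtain ⟨a, ha⟩ := cpw K C1
  have hG : 1 ≤ Cd * ((27 : ℝ) ^ Module.finrank ℚ K) ^ 2 := by
    have : (1 : ℝ) ≤ ((27 : ℝ) ^ Module.finrank ℚ K) ^ 2 :=
      one_le_pow₀ (one_le_pow₀ (by norm_num))
    nlinarith
  refine ⟨C1 * C1 ^ S.card * (Cd * ((27 : ℝ) ^ Module.finrank ℚ K) ^ 2) ^ A1,
    a + (2 * 2) * A1, δ, ?_, hδ, hδ4, ?_⟩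
  · have h4 : 1 ≤ C1 ^ S.card := one_le_pow₀ hC1
    have h5 : 1 ≤ (Cd * ((27 : ℝ) ^ Module.finrank ℚ K) ^ 2) ^ A1 := one_le_pow₀ hG
    calc (1 : ℝ) = 1 * 1 * 1 := by ring
      _ ≤ _ := by gcongr
  intro c e Y hY
  obtain ⟨B, hBD, hB⟩ := bdn c
  obtain ⟨E, θ, hR⟩ := res_ex c
  have hfd : FiniteDimensional K E := Module.finite_of_finrank_pos (by rw [hR.deg]; norm_num)
  have hnf : NumberField E := NumberField.of_module_finite K E
  have hT := rs_th hR B hB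
  obtain ⟨χ, hV, hN⟩ := chv hζ E θ B hT
  have hNon := hN hR.non
  have htc : TC E (Module.finrank ℚ K * 2) := H1.LS4.tc_up (tc3 hζ) hR.deg
  have hD1 := one_le_D c
  have key := hast E htc (md (mB B) E) ?_ χ hNon (off (S ∪ e) c.mu) ?_ (S ∪ e ∪ B) ?_ Y hY
  · refine pcs_bd hC1 hG hD1 ?_ (pcs_Q 2 S hCd hds h3 E hR.deg θ B hT hBD)
      (b := B.card) ?_ ?_ (by positivity) key
    · exact mul_nonneg (dd_pos E).le (Nat.cast_nonneg _)
    · exact (Finset.card_union_le _ _).trans (Nat.add_le_add_right (Finset.card_union_le _ _) _)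
    · exact (ha B).trans (pow_le_pow_left₀ (by linarith [pcs_nr1 B]) hBD a)
  · intro h
    have h1 := mB_norm E B
    rw [h] at h1
    have h2 : (0 : ℝ) < nr B := by linarith [pcs_nr1 B]
    have h3 : (0 : ℝ) < ((27 : ℝ) ^ Module.finrank ℚ K * nr B) ^ Module.finrank K E := by
      positivity
    rw [← h1] at h3
    simp at h3
  · intro l
    linarith [pcs_off (T := S ∪ e) c l]
  · intro l hl hp
    simp only [Finset.mem_union, not_or] at hl
    obtain ⟨⟨hlS, hle⟩, hlB⟩ := hl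
    have h3l : ¬ Above 3 l := fun h => hlS (h3 l h)
    rw [dr_q E hR.deg θ B hT hR.inv χ hV Q l h3l hlB hp]
    have h1 : off (S ∪ e) c.mu l = mm c (fr Q l) := by
      unfold off
      rw [if_neg (by simp [hlS, hle])]
      exact (cbl_lam c Q l (hB l hlB)).2
    rw [h1]
    split_ifs with h2
    · rw [mm_in hR _ h2]
    · rw [mm_out hR _ h2]
      simp

omit [NumberField K] in
private theorem pcs_four (E E' : IntermediateField K QBar) (h : Module.finrank K E = 2)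
    (h' : Module.finrank K E' = 2) (hne : E ≠ E') [FiniteDimensional K E]
    [FiniteDimensional K E'] : Module.finrank K ↥(E ⊔ E') = 4 := by
  have h1 := IntermediateField.finrank_sup_le E E'
  rw [h, h'] at h1
  have h2 := IntermediateField.finrank_dvd_of_le_right (le_sup_left : E ≤ E ⊔ E')
  rw [h] at h2
  have h3 : Module.finrank K ↥(E ⊔ E') ≠ 2 := by
    intro h4
    apply hne
    have h5 : E = E ⊔ E' := IntermediateField.eq_of_le_of_finrank_eq le_sup_left (by rw [h, h4])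
    have h6 : E' = E ⊔ E' := IntermediateField.eq_of_le_of_finrank_eq le_sup_right (by rw [h', h4])
    rw [h5, ← h6]
  have h4 : 0 < Module.finrank K ↥(E ⊔ E') := Module.finrank_pos
  obtain ⟨k, hk⟩ := h2
  omega

private theorem pcs_md {E : IntermediateField K QBar} [NumberField E] (B : Finset (Pl K)) :
    md (mB B) E ≠ ⊥ := by
  intro h
  have h1 := mB_norm E B
  rw [h] at h1
  have h2 : (0 : ℝ) < nr B := by linarith [pcs_nr1 B]
  have h3 : (0 : ℝ) < ((27 : ℝ) ^ Module.finrank ℚ K * nr B) ^ Module.finrank K E := by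
    positivity
  rw [← h1] at h3
  simp at h3

private theorem pcs_pd (f g : Pl K → ℝ) (s : Finset (Pl K)) :
    pd f s * pd g s = pd (fun l => f l * g l) s := by
  unfold pd
  rw [Finset.prod_mul_distrib]

theorem pc2 {ζ : K} (hζ : IsPrimitiveRoot ζ 3) (S : Finset (Pl K))
    (h3 : ∀ v : Pl K, Above 3 v → v ∈ S) : PC2 K S := by
  obtain ⟨Q⟩ := pcs_DP K
  have hn2 : 0 < Module.finrank ℚ K * 2 := Nat.mul_pos Module.finrank_pos (by norm_num)
  have hn4 : 0 < Module.finrank ℚ K * 4 := Nat.mul_pos Module.finrank_pos (by norm_num)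
  obtain ⟨C1, A1, δ1, hC1, hδ1, hδ14, hast1⟩ := ast1 K (Module.finrank ℚ K * 4) hn4
  obtain ⟨C2, A2, δ2, hC2, hδ2, hδ24, hast2⟩ := ast2 K (Module.finrank ℚ K * 2)
    (Module.finrank ℚ K * 2) hn2 hn2
  obtain ⟨Cd, hCd, hds⟩ := dsb K 2 S
  obtain ⟨Cf, hCf, hdf⟩ := dsb K 4 S
  obtain ⟨a1, ha1⟩ := cpw K C1
  obtain ⟨a2, ha2⟩ := cpw K C2
  obtain ⟨G1, hG1⟩ : ∃ G1, G1 = Cf * ((27 : ℝ) ^ Module.finrank ℚ K) ^ 4 := ⟨_, rfl⟩
  obtain ⟨G2, hG2⟩ : ∃ G2, G2 = (Cd * ((27 : ℝ) ^ Module.finrank ℚ K) ^ 2) ^ 2 := ⟨_, rfl⟩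
  have h27 : ∀ m : ℕ, (1 : ℝ) ≤ ((27 : ℝ) ^ Module.finrank ℚ K) ^ m := fun m =>
    one_le_pow₀ (one_le_pow₀ (by norm_num))
  have hG1' : 1 ≤ G1 := by
    rw [hG1]
    have := h27 4
    nlinarith
  have hG2' : 1 ≤ G2 := by
    rw [hG2]
    have := h27 2
    exact one_le_pow₀ (by nlinarith)
  obtain ⟨M1, hM1⟩ : ∃ M1, M1 = C1 * C1 ^ S.card * G1 ^ A1 := ⟨_, rfl⟩
  obtain ⟨M2, hM2⟩ : ∃ M2, M2 = C2 * C2 ^ S.card * G2 ^ A2 := ⟨_, rfl⟩
  have hM1' : 1 ≤ M1 := by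
    have h4 : 1 ≤ C1 ^ S.card := one_le_pow₀ hC1
    have h5 : 1 ≤ G1 ^ A1 := one_le_pow₀ hG1'
    calc (1 : ℝ) = 1 * 1 * 1 := by ring
      _ ≤ C1 * C1 ^ S.card * G1 ^ A1 := by gcongr
      _ = M1 := hM1.symm
  have hM2' : 1 ≤ M2 := by
    have h4 : 1 ≤ C2 ^ S.card := one_le_pow₀ hC2
    have h5 : 1 ≤ G2 ^ A2 := one_le_pow₀ hG2'
    calc (1 : ℝ) = 1 * 1 * 1 := by ring
      _ ≤ C2 * C2 ^ S.card * G2 ^ A2 := by gcongr
      _ = M2 := hM2.symm
  refine ⟨max M1 M2, max (a1 + 8 * A1) (a2 + 8 * A2), min δ1 δ2, hM1'.trans (le_max_left _ _),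
    lt_min hδ1 hδ2, (min_le_left _ _).trans hδ14, ?_⟩
  intro c c' hiso e Y hY
  obtain ⟨B, hBD, hB⟩ := bdn c
  obtain ⟨B', hBD', hB'⟩ := bdn c'
  obtain ⟨E, θ, hR⟩ := res_ex c
  obtain ⟨E', θ', hR'⟩ := res_ex c'
  have hfd : FiniteDimensional K E := Module.finite_of_finrank_pos (by rw [hR.deg]; norm_num)
  have hfd' : FiniteDimensional K E' := Module.finite_of_finrank_pos (by rw [hR'.deg]; norm_num)
  have hT := rs_th hR B hB
  have hT' := rs_th hR' B' hB'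
  have hD1 := one_le_D c
  have hD1' := one_le_D c'
  have hD : 1 ≤ c.D * c'.D := one_le_mul_of_one_le_of_one_le hD1 hD1'
  have hBB : (nr (B ∪ B') : ℝ) ≤ c.D * c'.D := by
    refine (pcs_nru B B').trans (mul_le_mul hBD hBD' ?_ ?_)
    · linarith [pcs_nr1 B']
    · linarith
  have hsum : ∑ s ∈ (prK K).SF Y, pd (off (S ∪ e) c.mu) s * pd (off (S ∪ e) c'.mu) s =
      ∑ s ∈ (prK K).SF Y, pd (fun l => off (S ∪ e) c.mu l * off (S ∪ e) c'.mu l) s :=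
    Finset.sum_congr rfl fun s _ => pcs_pd _ _ s
  rw [hsum]
  have hg9 : ∀ l, |off (S ∪ e) c.mu l * off (S ∪ e) c'.mu l| ≤ 9 := by
    intro l
    rw [abs_mul]
    have h1 := pcs_off (T := S ∪ e) c l
    have h2 := pcs_off (T := S ∪ e) c' l
    have h4 := abs_nonneg (off (S ∪ e) c.mu l)
    have h5 := abs_nonneg (off (S ∪ e) c'.mu l)
    nlinarith
  have hcard : (S ∪ e ∪ (B ∪ B')).card ≤ S.card + e.card + (B ∪ B').card :=
    (Finset.card_union_le _ _).trans (Nat.add_le_add_right (Finset.card_union_le _ _) _)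
  have hval : ∀ l, l ∉ S ∪ e ∪ (B ∪ B') → ((off (S ∪ e) c.mu l * off (S ∪ e) c'.mu l : ℝ) : ℂ) =
      ((mm c (fr Q l) : ℝ) : ℂ) * ((mm c' (fr Q l) : ℝ) : ℂ) := by
    intro l hl
    simp only [Finset.mem_union, not_or] at hl
    obtain ⟨⟨hlS, hle⟩, hlB, hlB'⟩ := hl
    unfold off
    rw [if_neg (by simp [hlS, hle]), if_neg (by simp [hlS, hle]),
      (cbl_lam c Q l (hB l hlB)).2, (cbl_lam c' Q l (hB' l hlB')).2]
    push_cast
    rfl
  by_cases hEE : E = E'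
  · subst hEE
    have hnf : NumberField E := NumberField.of_module_finite K E
    have htc : TC E (Module.finrank ℚ K * 2) := H1.LS4.tc_up (tc3 hζ) hR.deg
    have hTa := th_add hT hT'
    have hTs := th_sub hT hT'
    obtain ⟨χ1, hV1, hN1⟩ := chv hζ E _ (B ∪ B') hTa
    obtain ⟨χ2, hV2, hN2⟩ := chv hζ E _ (B ∪ B') hTs
    have hac := ac2 hR hR' hiso
    have key := hast2 E E htc htc (md (mB (B ∪ B')) E) (md (mB (B ∪ B')) E) (pcs_md _) (pcs_md _)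
      χ1 χ2 (hN1 hac.1) (hN2 hac.2) (fun l => off (S ∪ e) c.mu l * off (S ∪ e) c'.mu l) hg9
      (S ∪ e ∪ (B ∪ B')) ?_ Y hY
    · refine pcs_mono hM2' hD hY (le_max_right _ _) (le_max_right _ _) (min_le_right _ _) ?_
      rw [hM2]
      refine pcs_bd hC2 hG2' hD ?_ ?_ hcard ?_ (by positivity) key
      · have h1 : 0 ≤ dd E * (Ideal.absNorm (md (mB (B ∪ B')) E) : ℝ) :=
          mul_nonneg (dd_pos E).le (Nat.cast_nonneg _)
        exact mul_nonneg h1 h1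
      · have h1 : 0 ≤ dd E * (Ideal.absNorm (md (mB (B ∪ B')) E) : ℝ) :=
          mul_nonneg (dd_pos E).le (Nat.cast_nonneg _)
        have h2 := pcs_Q 2 S hCd hds h3 E hR.deg _ (B ∪ B') hTa hBB
        calc _ ≤ ((Cd * ((27 : ℝ) ^ Module.finrank ℚ K) ^ 2) * (c.D * c'.D) ^ (2 * 2)) *
              ((Cd * ((27 : ℝ) ^ Module.finrank ℚ K) ^ 2) * (c.D * c'.D) ^ (2 * 2)) :=
              mul_le_mul h2 h2 h1 (h1.trans h2)
          _ = G2 * (c.D * c'.D) ^ 8 := by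
              rw [hG2]
              ring
      · exact (ha2 _).trans (pow_le_pow_left₀ (by linarith [pcs_nr1 (B ∪ B')]) hBB a2)
    · intro l hl hp
      rw [hval l hl]
      simp only [Finset.mem_union, not_or] at hl
      obtain ⟨⟨hlS, hle⟩, hlB, hlB'⟩ := hl
      have h3l : ¬ Above 3 l := fun h => hlS (h3 l h)
      have hlBB : l ∉ B ∪ B' := by simp [hlB, hlB']
      rw [dr_q E hR.deg _ (B ∪ B') hTa (fun σ hσ τ hτ => by
          rw [hR.inv σ hσ τ hτ, hR'.inv σ hσ τ hτ]; ring) χ1 hV1 Q l h3l hlBB hp,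
        dr_q E hR.deg _ (B ∪ B') hTs (fun σ hσ τ hτ => by
          rw [hR.inv σ hσ τ hτ, hR'.inv σ hσ τ hτ]; ring) χ2 hV2 Q l h3l hlBB hp]
      by_cases h2 : fr Q l ∈ E.fixingSubgroup
      · rw [if_pos h2, if_pos h2, mm_in hR _ h2, mm_in hR' _ h2]
        have e1 : -(θ (fr Q l) + θ' (fr Q l)) = -θ (fr Q l) + -θ' (fr Q l) := by ring
        have e2 : θ (fr Q l) - θ' (fr Q l) = θ (fr Q l) + -θ' (fr Q l) := by ring
        have e3 : -(θ (fr Q l) + -θ' (fr Q l)) = -θ (fr Q l) + θ' (fr Q l) := by ring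
        rw [e2, e1, e3, ep_add Nat.prime_three, ep_add Nat.prime_three, ep_add Nat.prime_three,
          ep_add Nat.prime_three]
        ring
      · rw [if_neg h2, if_neg h2, mm_out hR _ h2]
        simp
  · have hfs : FiniteDimensional K ↥(E ⊔ E') := inferInstance
    have hnf : NumberField ↥(E ⊔ E') := NumberField.of_module_finite K ↥(E ⊔ E')
    have h4 := pcs_four E E' hR.deg hR'.deg hEE
    have htc : TC ↥(E ⊔ E') (Module.finrank ℚ K * 4) := H1.LS4.tc_up (tc3 hζ) h4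
    have hTs := th_sup hT hT'
    obtain ⟨χ, hV, hN⟩ := chv hζ (E ⊔ E') _ (B ∪ B') hTs
    have hNon : χ.Non := by
      apply hN
      obtain ⟨σ, hσ, hσ', hne⟩ := ac3 hR hR' hEE
      refine ⟨σ, ?_, hne⟩
      rw [IntermediateField.fixingSubgroup_sup]
      exact ⟨hσ, hσ'⟩
    have key := hast1 ↥(E ⊔ E') htc (md (mB (B ∪ B')) ↥(E ⊔ E')) (pcs_md _) χ hNon
      (fun l => off (S ∪ e) c.mu l * off (S ∪ e) c'.mu l) hg9 (S ∪ e ∪ (B ∪ B')) ?_ Y hY
    · refine pcs_mono hM1' hD hY (le_max_left _ _) (le_max_left _ _) (min_le_left _ _) ?_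
      rw [hM1]
      refine pcs_bd hC1 hG1' hD ?_ ?_ hcard ?_ (by positivity) key
      · exact mul_nonneg (dd_pos _).le (Nat.cast_nonneg _)
      · have h2 := pcs_Q 4 S hCf hdf h3 (E ⊔ E') h4 _ (B ∪ B') hTs hBB
        rw [hG1]
        exact h2
      · exact (ha1 _).trans (pow_le_pow_left₀ (by linarith [pcs_nr1 (B ∪ B')]) hBB a1)
    · intro l hl hp
      rw [hval l hl]
      simp only [Finset.mem_union, not_or] at hl
      obtain ⟨⟨hlS, hle⟩, hlB, hlB'⟩ := hl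
      have h3l : ¬ Above 3 l := fun h => hlS (h3 l h)
      have hlBB : l ∉ B ∪ B' := by simp [hlB, hlB']
      rw [dr_b E E' hR.deg hR'.deg hEE θ θ' hR.mul hR'.mul hR.inv hR'.inv (B ∪ B') hTs χ hV Q l
        h3l hlBB hp]
      by_cases h2 : fr Q l ∈ E.fixingSubgroup
      · by_cases h2' : fr Q l ∈ E'.fixingSubgroup
        · rw [if_pos ⟨h2, h2'⟩, mm_in hR _ h2, mm_in hR' _ h2']
        · rw [if_neg (fun h => h2' h.2), mm_out hR' _ h2']
          simp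
      · rw [if_neg (fun h => h2 h.1), mm_out hR _ h2]
        simp

end H57.SL
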