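import Pool.Agent.H57.SL.Def

/-!
# H57 SL DTH: two more definitions (no proof)

* `sE E σ h`: the element `σ` of `E.fixingSubgroup` as an element of `Gal(QBar/E)`.
* `Vl E θ B χ`: the values of the ray class character `χ` of `E` at the primes of prime norm are given by `θ` and the Frobenius elements.
-/

set_option autoImplicit false

open scoped NumberField Classical
open IsDedekindDomain H63.MA NumberField H36.QA H57.LI H57.LC H67.SX H38.ML

noncomputable section

namespace H57.SL

variable {K : IntermediateField ℚ QBar} [NumberField K]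

/-- an element of the fixing subgroup as an element of the absolute Galois group of `E` -/
def sE (E : IntermediateField K QBar) (σ : Gal(QBar/K)) (h : σ ∈ E.fixingSubgroup) :
    Gal(QBar/E) := IntermediateField.fixingSubgroupEquiv E ⟨σ, h⟩

/-- the values of the character -/
def Vl (E : IntermediateField K QBar) [NumberField E] (θ : Gal(QBar/K) → ZMod 3)
    (B : Finset (Pl K)) (χ : RC E (md (mB B) E)) : Prop :=
  ∀ (Q : DP K QBar) (l : Pl K), ¬ Above 3 l → l ∉ B → (nm l).Prime → ∀ τ : Gal(QBar/K),
    τ⁻¹ * fr Q l * τ ∈ E.fixingSubgroup →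
    χ.χ (pe E Q l (ac τ E.val)).asIdeal = ep 3 (θ (τ⁻¹ * fr Q l * τ))

end H57.SL
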