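import Mathlib

/-!
# [H57 SL CAU] a Cauchy criterion (40-70 lines, Mathlib only)

Let `2 ≤ Y ≤ Y'`. With `Y_0 = Y`, `Y_{k+1} = Y_k ^ 2` choose the first `k` with `Y' ≤ Y_{k+1}`: `|φ Y - φ Y'| ≤ ∑_{j ≤ k} E Y_j ^ (-η) ≤ E Y ^ (-η) ∑_{j ≥ 0} Y ^ (-η (2^j - 1))`
`≤ C E Y ^ (-η)`, `C = ∑_{j ≥ 0} 2 ^ (-η (2 ^ j - 1))` (or the larger `∑_j 2 ^ (-η j)`, because `2 ^ j - 1 ≥ j`: a geometric series). So `φ` is Cauchy at infinity, it has a limit `L`, and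
the bound passes to the limit.
-/

set_option autoImplicit false

noncomputable section

namespace H57.SL

private theorem cau_k (η : ℝ) (hη : 0 < η) (φ : ℝ → ℝ) (E : ℝ) (hE : 0 ≤ E)
    (h : ∀ Y Y' : ℝ, 2 ≤ Y → Y ≤ Y' → Y' ≤ Y ^ 2 → |φ Y - φ Y'| ≤ E * Y ^ (-η)) (k : ℕ) :
    ∀ Y Y' : ℝ, 2 ≤ Y → Y ≤ Y' → Y' ≤ Y ^ (2 ^ k) →
      |φ Y - φ Y'| ≤ E * Y ^ (-η) * ∑ j ∈ Finset.range k, ((2 : ℝ) ^ (-η)) ^ j := by
  have hq0 : (0 : ℝ) ≤ 2 ^ (-η) := by positivity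
  induction k with
  | zero =>
    intro Y Y' h2 h3 h4
    rw [pow_zero, pow_one] at h4
    rw [le_antisymm h3 h4, sub_self, abs_zero, Finset.sum_range_zero, mul_zero]
  | succ k ih =>
    intro Y Y' h2 h3 h4
    have hY : 0 < Y := by linarith
    have hYη : 0 ≤ Y ^ (-η) := by positivity
    have hs : 0 ≤ ∑ j ∈ Finset.range k, ((2 : ℝ) ^ (-η)) ^ j := Finset.sum_nonneg fun j _ => pow_nonneg hq0 j
    have hsum : ∑ j ∈ Finset.range (k + 1), ((2 : ℝ) ^ (-η)) ^ j =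
        1 + 2 ^ (-η) * ∑ j ∈ Finset.range k, ((2 : ℝ) ^ (-η)) ^ j := by
      rw [Finset.sum_range_succ', Finset.mul_sum, pow_zero, add_comm]
      congr 1
      exact Finset.sum_congr rfl fun j _ => by rw [pow_succ, mul_comm]
    have hEY : 0 ≤ E * Y ^ (-η) := mul_nonneg hE hYη
    rw [hsum]
    rcases le_total Y' (Y ^ 2) with h5 | h5
    · have h6 := h Y Y' h2 h3 h5
      have h7 : 0 ≤ E * Y ^ (-η) * (2 ^ (-η) * ∑ j ∈ Finset.range k, ((2 : ℝ) ^ (-η)) ^ j) := by positivity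
      linarith
    · have h6 := h Y (Y ^ 2) h2 (by nlinarith) le_rfl
      have h7 := ih (Y ^ 2) Y' (by nlinarith) h5 (by
        rw [← pow_mul, ← pow_succ']
        exact h4)
      have h8 : (Y ^ 2) ^ (-η) ≤ Y ^ (-η) * 2 ^ (-η) := by
        have h9 : (Y ^ 2) ^ (-η) = Y ^ (-η) * Y ^ (-η) := by
          rw [pow_two, Real.mul_rpow hY.le hY.le]
        rw [h9]
        exact mul_le_mul_of_nonneg_left (Real.rpow_le_rpow_of_nonpos (by norm_num) h2 (by linarith)) hYη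
      have h9 : E * (Y ^ 2) ^ (-η) * ∑ j ∈ Finset.range k, ((2 : ℝ) ^ (-η)) ^ j ≤
          E * (Y ^ (-η) * 2 ^ (-η)) * ∑ j ∈ Finset.range k, ((2 : ℝ) ^ (-η)) ^ j :=
        mul_le_mul_of_nonneg_right (mul_le_mul_of_nonneg_left h8 hE) hs
      have h10 := abs_sub_le (φ Y) (φ (Y ^ 2)) (φ Y')
      calc |φ Y - φ Y'| ≤ E * Y ^ (-η) + E * (Y ^ (-η) * 2 ^ (-η)) * ∑ j ∈ Finset.range k, ((2 : ℝ) ^ (-η)) ^ j := by
            linarith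
        _ = _ := by ring

private theorem cau_all (η : ℝ) (hη : 0 < η) (φ : ℝ → ℝ) (E : ℝ) (hE : 0 ≤ E)
    (h : ∀ Y Y' : ℝ, 2 ≤ Y → Y ≤ Y' → Y' ≤ Y ^ 2 → |φ Y - φ Y'| ≤ E * Y ^ (-η)) (Y Y' : ℝ) (h2 : 2 ≤ Y) (h3 : Y ≤ Y') :
    |φ Y - φ Y'| ≤ (1 - (2 : ℝ) ^ (-η))⁻¹ * E * Y ^ (-η) := by
  have hq0 : (0 : ℝ) ≤ 2 ^ (-η) := by positivity
  have hq1 : (2 : ℝ) ^ (-η) < 1 := Real.rpow_lt_one_of_one_lt_of_neg (by norm_num) (by linarith)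
  obtain ⟨k, hk⟩ := pow_unbounded_of_one_lt Y' (show (1 : ℝ) < 2 by norm_num)
  have h4 : Y' ≤ Y ^ (2 ^ k) := by
    refine hk.le.trans ?_
    calc (2 : ℝ) ^ k ≤ 2 ^ (2 ^ k) := pow_le_pow_right₀ (by norm_num) (Nat.lt_two_pow_self).le
      _ ≤ Y ^ (2 ^ k) := pow_le_pow_left₀ (by norm_num) h2 _
  have h5 := cau_k η hη φ E hE h k Y Y' h2 h3 h4
  have h6 : ∑ j ∈ Finset.range k, ((2 : ℝ) ^ (-η)) ^ j ≤ (1 - (2 : ℝ) ^ (-η))⁻¹ := by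
    rw [← tsum_geometric_of_lt_one hq0 hq1]
    exact (summable_geometric_of_lt_one hq0 hq1).sum_le_tsum _ fun j _ => pow_nonneg hq0 j
  have h7 : 0 ≤ E * Y ^ (-η) := mul_nonneg hE (Real.rpow_nonneg (by linarith) _)
  calc |φ Y - φ Y'| ≤ _ := h5
    _ ≤ E * Y ^ (-η) * (1 - (2 : ℝ) ^ (-η))⁻¹ := mul_le_mul_of_nonneg_left h6 h7
    _ = _ := by ring

theorem cau (η : ℝ) (hη : 0 < η) : ∃ C : ℝ, 1 ≤ C ∧ ∀ (φ : ℝ → ℝ) (E : ℝ), 0 ≤ E →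
    (∀ Y Y' : ℝ, 2 ≤ Y → Y ≤ Y' → Y' ≤ Y ^ 2 → |φ Y - φ Y'| ≤ E * Y ^ (-η)) →
    ∃ L : ℝ, ∀ Y : ℝ, 2 ≤ Y → |φ Y - L| ≤ C * E * Y ^ (-η) := by
  have hq0 : (0 : ℝ) < 2 ^ (-η) := by positivity
  have hq1 : (2 : ℝ) ^ (-η) < 1 := Real.rpow_lt_one_of_one_lt_of_neg (by norm_num) (by linarith)
  obtain ⟨C, hC⟩ : ∃ C, C = (1 - (2 : ℝ) ^ (-η))⁻¹ := ⟨_, rfl⟩
  have hC1 : 1 ≤ C := by
    rw [hC]
    exact (one_le_inv₀ (by linarith)).2 (by linarith)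
  refine ⟨C, hC1, fun φ E hE h => ?_⟩
  have hall := cau_all η hη φ E hE h
  rw [← hC] at hall
  have hCE : 0 ≤ C * E := by positivity
  have hlim : Filter.Tendsto (fun n : ℕ => 2 * (C * E * ((n : ℝ) + 2) ^ (-η))) Filter.atTop (nhds 0) := by
    have h1 : Filter.Tendsto (fun n : ℕ => ((n : ℝ) + 2) ^ (-η)) Filter.atTop (nhds 0) :=
      (tendsto_rpow_neg_atTop hη).comp (Filter.tendsto_atTop_add_const_right _ _ tendsto_natCast_atTop_atTop)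
    have h2 := (h1.const_mul (C * E)).const_mul 2
    rwa [mul_zero, mul_zero] at h2
  have hcau : CauchySeq fun n : ℕ => φ ((n : ℝ) + 2) := by
    refine cauchySeq_of_le_tendsto_0 _ (fun n m N hn hm => ?_) hlim
    have hN : (2 : ℝ) ≤ (N : ℝ) + 2 := by
      have : (0 : ℝ) ≤ N := Nat.cast_nonneg N
      linarith
    have h1 := hall ((N : ℝ) + 2) ((n : ℝ) + 2) hN (by
      have : (N : ℝ) ≤ n := by exact_mod_cast hn
      linarith)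
    have h2 := hall ((N : ℝ) + 2) ((m : ℝ) + 2) hN (by
      have : (N : ℝ) ≤ m := by exact_mod_cast hm
      linarith)
    have h3 := abs_sub_le (φ ((n : ℝ) + 2)) (φ ((N : ℝ) + 2)) (φ ((m : ℝ) + 2))
    rw [abs_sub_comm (φ ((n : ℝ) + 2)) (φ ((N : ℝ) + 2))] at h3
    rw [Real.dist_eq]
    linarith
  obtain ⟨L, hL⟩ := cauchySeq_tendsto_of_complete hcau
  refine ⟨L, fun Y hY => ?_⟩
  have h1 : Filter.Tendsto (fun n : ℕ => |φ Y - φ ((n : ℝ) + 2)|) Filter.atTop (nhds |φ Y - L|) :=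
    (hL.const_sub (φ Y)).abs
  refine le_of_tendsto h1 ?_
  obtain ⟨n₀, hn₀⟩ := exists_nat_ge Y
  filter_upwards [Filter.eventually_ge_atTop n₀] with n hn
  refine hall Y _ hY ?_
  have : (n₀ : ℝ) ≤ n := by exact_mod_cast hn
  linarith

end H57.SL
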