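import Mathlib

/-!
# [H57 SL CLS] sets with classes of at most three elements (40-70 lines, Mathlib only)

Claim: every finite subset `T` of `J` has at most `3 M` elements; then `J` is finite (`Set.Infinite.exists_subset_card_eq`) and `ncard ≤ 3 M`. Let `T ⊆ J` be finite.
Choose `T' ⊆ T` maximal (for the cardinality) among the subsets of pairwise not equivalent elements; then every `x ∈ T` is equivalent to an element of `T'`
(otherwise `insert x T'` is larger), so `T ⊆ ⋃_{y ∈ T'} {z | r y z}` has at most `3 * T'.card ≤ 3 M` elements.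
-/

set_option autoImplicit false

noncomputable section

namespace H57.SL

theorem cls {X : Type} (r : X → X → Prop) (hr : Equivalence r)
    (h3 : ∀ x, {y | r x y}.Finite ∧ {y | r x y}.ncard ≤ 3) (J : Set X) (M : ℝ)
    (h : ∀ T : Finset X, (∀ x ∈ T, x ∈ J) → (∀ x ∈ T, ∀ y ∈ T, x ≠ y → ¬ r x y) →
      (T.card : ℝ) ≤ M) : J.Finite ∧ (J.ncard : ℝ) ≤ 3 * M := by
  classical
  let s : Setoid X := ⟨r, hr⟩
  let mk : X → Quotient s := Quotient.mk s
  have hmk : ∀ x y, mk x = mk y ↔ r x y := fun x y => Quotient.eq (r := s)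
  have key : ∀ T : Finset X, (∀ x ∈ T, x ∈ J) → (T.card : ℝ) ≤ 3 * M := by
    intro T hT
    have h1 : ∀ c ∈ T.image mk, ∃ x ∈ T, mk x = c := fun c hc => by
      obtain ⟨x, hx, hxc⟩ := Finset.mem_image.1 hc
      exact ⟨x, hx, hxc⟩
    choose g hg1 hg2 using h1
    let G : {c // c ∈ T.image mk} → X := fun c => g c.1 c.2
    have hGinj : Function.Injective G := by
      intro a b hab
      have h2 : mk (g a.1 a.2) = mk (g b.1 b.2) := congrArg mk hab
      rw [hg2, hg2] at h2
      exact Subtype.ext h2
    have h4 : (((T.image mk).attach.image G).card : ℝ) ≤ M := by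
      refine h _ (fun x hx => ?_) (fun x hx y hy hxy hr' => ?_)
      · obtain ⟨c, -, rfl⟩ := Finset.mem_image.1 hx
        exact hT _ (hg1 _ _)
      · obtain ⟨c, -, rfl⟩ := Finset.mem_image.1 hx
        obtain ⟨d, -, rfl⟩ := Finset.mem_image.1 hy
        have h5 := (hmk _ _).2 hr'
        have h6 : mk (g c.1 c.2) = mk (g d.1 d.2) := h5
        rw [hg2, hg2] at h6
        exact hxy (congrArg G (Subtype.ext h6))
    rw [Finset.card_image_of_injective _ hGinj, Finset.card_attach] at h4
    have h5 : T.card ≤ 3 * (T.image mk).card := by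
      refine Finset.card_le_mul_card_image (f := mk) T 3 fun c hc => ?_
      obtain ⟨x, hx, rfl⟩ := Finset.mem_image.1 hc
      refine le_trans ?_ (h3 x).2
      rw [← Set.ncard_coe_finset]
      refine Set.ncard_le_ncard (fun y hy => ?_) (h3 x).1
      have h6 := (Finset.mem_filter.1 (Finset.mem_coe.1 hy)).2
      exact (hmk x y).1 h6.symm
    have h6 : (T.card : ℝ) ≤ 3 * (T.image mk).card := by exact_mod_cast h5
    linarith
  have hfin : J.Finite := by
    by_contra hinf
    obtain ⟨n, hn⟩ := exists_nat_gt (3 * M)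
    obtain ⟨T, hT1, hT2⟩ := (Set.not_finite.1 hinf).exists_subset_card_eq n
    have h1 := key T fun x hx => hT1 hx
    rw [hT2] at h1
    linarith
  refine ⟨hfin, ?_⟩
  rw [Set.ncard_eq_toFinset_card J hfin]
  exact key _ fun x hx => (Set.Finite.mem_toFinset hfin).1 hx

end H57.SL
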