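import Pool.Agent.H57.SL.Int
import Pool.Agent.H57.SL.Wsm
import Pool.Agent.H57.SL.Xab

/-!
# [H57 SL HYB] the hyperbola method (120-160 lines)

`p = prK K`, `κ = kS S`, `WS S M = κ M + O(C0 M^(1-δ))` for `M ≥ 1` (`kS_spec`), `WS S M = 0` for `M < 1`. `WS S M = ∑_{J} 1`, sum over the ideals `J` of `IN K M` prime to `S`.
Split `FF S μ Y = ∑_{x ∈ XP p S Y} bb μ x WS S (Y / nx x)` into `nx x ≤ V` and `V < nx x ≤ Y`.
(1) `nx x ≤ V ≤ Y`: `∑_{x ∈ XP p S V} bb μ x (κ Y / nx x + O(C0 (Y / nx x)^(1-δ))) = κ AV p S μ V Y + O(C0 Y^(1-δ) ∑ |bb μ x| nx^(-(1-δ)))` and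
`nx^(-(1-δ)) = nx^(-1) nx^δ ≤ nx^(-1) V^δ`; by `xab` the error is at most `C Y (V/Y)^δ (1 + log V)^k`.
(2) `nx x > V`: the pairs `(x, J)` with `N J ≤ Y / nx x` have `N J < Y / V`; exchange the sums: `∑_{J ∈ IN K (Y/V), J prime to S} ∑_{x : V < nx x ≤ Y / N J} bb μ x
= ∑_J (Bs p S μ (Y / N J) - Bs p S μ V)` (for `N J ≤ Y / V` we have `V ≤ Y / N J ≤ Y`), and the hypothesis gives `|.| ≤ β (Y / N J)^(1-η) + β V^(1-η)`.
`∑_J (Y / N J)^(1-η) = Y^(1-η) ∑_J (N J)^(-1) (N J)^η ≤ Y^(1-η) (Y/V)^η ∑_J 1 / N J ≤ Y V^(-η) C (1 + log (Y/V))` (`wsm_sum`), and `V^(1-η) #J ≤ V^(1-η) C Y / V = C Y V^(-η)` (`wsm_card`).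
-/

set_option autoImplicit false

open scoped NumberField Classical
open IsDedekindDomain H63.MA NumberField H36.QA H57.LI H57.LC H67.SX H38.ML

noncomputable section

namespace H57.SL

private theorem hyb_mem {ι : Type} (p : Pr ι) (S : Finset ι) (Z : ℝ) (x : Finset ι × Finset ι) :
    x ∈ XP p S Z ↔ Disjoint x.1 x.2 ∧ Disjoint x.1 S ∧ Disjoint x.2 S ∧ nx p x ≤ Z := by
  simp only [XP, Finset.mem_filter, Finset.mem_product, p.mem_SF]
  refine ⟨fun h => h.2, fun h => ⟨⟨?_, ?_⟩, h⟩⟩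
  · have h1 := p.one_le_nn x.1
    have h2 := p.one_le_nn x.2
    have h3 : p.nn x.1 * 1 ≤ p.nn x.1 * p.nn x.2 ^ 2 :=
      mul_le_mul_of_nonneg_left (one_le_pow₀ h2) (by linarith)
    have h4 := h.2.2.2
    unfold nx at h4
    linarith
  · have h1 := p.one_le_nn x.1
    have h2 := p.one_le_nn x.2
    have h3 : 1 * p.nn x.2 ^ 2 ≤ p.nn x.1 * p.nn x.2 ^ 2 :=
      mul_le_mul_of_nonneg_right h1 (by positivity)
    have h4 := h.2.2.2
    unfold nx at h4
    nlinarith

private theorem hyb_filter {ι : Type} (p : Pr ι) (S : Finset ι) (V Z : ℝ) (h : V ≤ Z) :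
    (XP p S Z).filter (fun x => nx p x ≤ V) = XP p S V := by
  ext x
  rw [Finset.mem_filter, hyb_mem, hyb_mem]
  exact ⟨fun h1 => ⟨h1.1.1, h1.1.2.1, h1.1.2.2.1, h1.2⟩,
    fun h1 => ⟨⟨h1.1, h1.2.1, h1.2.2.1, h1.2.2.2.trans h⟩, h1.2.2.2⟩⟩

private theorem hyb_nx {ι : Type} (p : Pr ι) (x : Finset ι × Finset ι) : 0 < nx p x := by
  unfold nx
  have h1 := p.nn_pos x.1
  have h2 := p.nn_pos x.2
  positivity

theorem hyb (K : Type) [Field K] [NumberField K] (S : Finset (Pl K)) :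
    ∃ (C δ : ℝ) (k : ℕ), 1 ≤ C ∧ 0 < δ ∧ δ ≤ 1 / 4 ∧ ∀ μ : Pl K → ℝ, (∀ l, |μ l| ≤ 2) →
      ∀ V Y β η : ℝ, 1 ≤ V → V ≤ Y → 0 ≤ β → 0 ≤ η → η ≤ 1 / 2 →
      (∀ Z : ℝ, V ≤ Z → Z ≤ Y → |Bs (prK K) S μ Z| ≤ β * Z ^ (1 - η)) →
      |FF S μ Y - kS S * AV (prK K) S μ V * Y| ≤
        C * Y * ((V / Y) ^ δ * (1 + Real.log V) ^ k + β * V ^ (-η) * (1 + Real.log (Y / V))) := by
  obtain ⟨hκ, C0, δ, hC0, hδ, hδ4, hW⟩ := kS_spec K S
  obtain ⟨Cx, k, hCx, hx⟩ := xab (prK K)
  obtain ⟨C2, hC2, hsum⟩ := wsm_sum K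
  obtain ⟨C3, hC3, hcard⟩ := wsm_card K
  refine ⟨C0 * Cx + C2 + C3, δ, k, ?_, hδ, hδ4, ?_⟩
  · have : 0 ≤ C0 * Cx := by positivity
    linarith
  intro μ hμ V Y β η hV hVY hβ hη hη2 hB
  set p := prK K with hp
  set κ := kS S with hκdef
  have hV0 : 0 < V := by linarith
  have hY0 : 0 < Y := by linarith
  have hlogV : 0 ≤ Real.log V := Real.log_nonneg hV
  have hYV : 1 ≤ Y / V := (one_le_div hV0).2 hVY
  have hlogYV : 0 ≤ Real.log (Y / V) := Real.log_nonneg hYV
  -- first part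
  have h1 : |∑ x ∈ XP p S V, bb μ x * WS S (Y / nx p x) - κ * AV p S μ V * Y| ≤
      C0 * Cx * Y * ((V / Y) ^ δ * (1 + Real.log V) ^ k) := by
    have e1 : ∑ x ∈ XP p S V, bb μ x * WS S (Y / nx p x) - κ * AV p S μ V * Y =
        ∑ x ∈ XP p S V, bb μ x * (WS S (Y / nx p x) - κ * (Y / nx p x)) := by
      unfold AV
      rw [Finset.mul_sum, Finset.sum_mul, ← Finset.sum_sub_distrib]
      refine Finset.sum_congr rfl fun x _ => ?_
      ring
    rw [e1]
    refine (Finset.abs_sum_le_sum_abs _ _).trans ?_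
    have h2 : ∀ x ∈ XP p S V, |bb μ x * (WS S (Y / nx p x) - κ * (Y / nx p x))| ≤
        C0 * Y * (V / Y) ^ δ * (|bb μ x| / nx p x) := by
      intro x hxV
      have hn := hyb_nx p x
      have hnV : nx p x ≤ V := ((hyb_mem p S V x).1 hxV).2.2.2
      have h3 := hW (Y / nx p x) ((one_le_div hn).2 (hnV.trans hVY))
      rw [abs_mul]
      have h4 : (Y / nx p x) ^ (1 - δ) ≤ Y * (V / Y) ^ δ / nx p x := by
        rw [Real.rpow_sub (by positivity), Real.rpow_one, div_eq_mul_inv _ ((Y / nx p x) ^ δ),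
          ← Real.inv_rpow (by positivity), inv_div]
        have h5 : (nx p x / Y) ^ δ ≤ (V / Y) ^ δ := by
          apply Real.rpow_le_rpow (by positivity) _ hδ.le
          gcongr
        calc Y / nx p x * (nx p x / Y) ^ δ ≤ Y / nx p x * (V / Y) ^ δ := by gcongr
          _ = Y * (V / Y) ^ δ / nx p x := by ring
      calc |bb μ x| * |WS S (Y / nx p x) - κ * (Y / nx p x)|
          ≤ |bb μ x| * (C0 * (Y * (V / Y) ^ δ / nx p x)) := by
            refine mul_le_mul_of_nonneg_left (h3.trans ?_) (abs_nonneg _)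
            exact mul_le_mul_of_nonneg_left h4 (by linarith)
        _ = C0 * Y * (V / Y) ^ δ * (|bb μ x| / nx p x) := by ring
    refine (Finset.sum_le_sum h2).trans ?_
    rw [← Finset.mul_sum]
    calc C0 * Y * (V / Y) ^ δ * ∑ x ∈ XP p S V, |bb μ x| / nx p x
        ≤ C0 * Y * (V / Y) ^ δ * (Cx * (1 + Real.log V) ^ k) :=
          mul_le_mul_of_nonneg_left (hx μ hμ S V hV) (by positivity)
      _ = C0 * Cx * Y * ((V / Y) ^ δ * (1 + Real.log V) ^ k) := by ring
  -- second part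
  set W : Finset (Ideal (𝓞 K)) := (IN K (Y / V)).filter fun I => ∀ v ∈ S, ¬ v.asIdeal ∣ I with hWdef
  have hWS : ∀ M : ℝ, 0 ≤ M → M ≤ Y / V → WS S M = ∑ I ∈ W, if (Ideal.absNorm I : ℝ) ≤ M then (1 : ℝ) else 0 := by
    intro M hM hMY
    rw [← Finset.sum_filter, Finset.sum_const, nsmul_eq_mul, mul_one]
    unfold WS
    congr 2
    ext I
    rw [Finset.mem_filter, Finset.mem_filter, hWdef, Finset.mem_filter, mem_IN hM, mem_IN (by positivity)]
    exact ⟨fun h => ⟨⟨⟨h.1.1.trans hMY, h.1.2⟩, h.2⟩, h.1.1⟩, fun h => ⟨⟨h.2, h.1.1.2⟩, h.1.2⟩⟩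
  have h2 : |∑ x ∈ (XP p S Y).filter (fun x => ¬ nx p x ≤ V), bb μ x * WS S (Y / nx p x)| ≤
      (C2 + C3) * Y * (β * V ^ (-η) * (1 + Real.log (Y / V))) := by
    have e1 : ∑ x ∈ (XP p S Y).filter (fun x => ¬ nx p x ≤ V), bb μ x * WS S (Y / nx p x) =
        ∑ I ∈ W, (Bs p S μ (Y / Ideal.absNorm I) - Bs p S μ V) := by
      calc ∑ x ∈ (XP p S Y).filter (fun x => ¬ nx p x ≤ V), bb μ x * WS S (Y / nx p x)
          = ∑ x ∈ (XP p S Y).filter (fun x => ¬ nx p x ≤ V), ∑ I ∈ W,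
              (if (Ideal.absNorm I : ℝ) ≤ Y / nx p x then bb μ x else 0) := by
            refine Finset.sum_congr rfl fun x hx' => ?_
            rw [Finset.mem_filter] at hx'
            have hn := hyb_nx p x
            rw [hWS (Y / nx p x) (by positivity)
              (div_le_div_of_nonneg_left hY0.le hV0 (not_le.1 hx'.2).le), Finset.mul_sum]
            refine Finset.sum_congr rfl fun I _ => ?_
            rw [mul_ite, mul_one, mul_zero]
        _ = ∑ I ∈ W, ∑ x ∈ (XP p S Y).filter (fun x => ¬ nx p x ≤ V),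
              (if (Ideal.absNorm I : ℝ) ≤ Y / nx p x then bb μ x else 0) := Finset.sum_comm
        _ = ∑ I ∈ W, (Bs p S μ (Y / Ideal.absNorm I) - Bs p S μ V) := by
            refine Finset.sum_congr rfl fun I hI => ?_
            rw [hWdef, Finset.mem_filter, mem_IN (by positivity)] at hI
            have hI0 : 0 < Ideal.absNorm I := by
              rw [Nat.pos_iff_ne_zero, Ne, Ideal.absNorm_eq_zero_iff]
              exact hI.1.2
            have hN1 : (1 : ℝ) ≤ Ideal.absNorm I := by exact_mod_cast hI0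
            have hN0 : (0 : ℝ) < Ideal.absNorm I := by linarith
            have hNV : V ≤ Y / Ideal.absNorm I := by
              rw [le_div_iff₀ hN0, mul_comm, ← le_div_iff₀ hV0]
              exact hI.1.1
            have hNY : Y / Ideal.absNorm I ≤ Y := div_le_self hY0.le hN1
            have e2 : Bs p S μ (Y / Ideal.absNorm I) =
                ∑ x ∈ (XP p S Y).filter (fun x => nx p x ≤ Y / Ideal.absNorm I), bb μ x := by
              unfold Bs
              rw [hyb_filter p S _ _ hNY]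
            have e3 : Bs p S μ V = ∑ x ∈ ((XP p S Y).filter (fun x => nx p x ≤ Y / Ideal.absNorm I)).filter
                (fun x => nx p x ≤ V), bb μ x := by
              unfold Bs
              rw [hyb_filter p S _ _ hNY, hyb_filter p S _ _ hNV]
            rw [e2, e3, ← Finset.sum_filter_add_sum_filter_not
              ((XP p S Y).filter (fun x => nx p x ≤ Y / Ideal.absNorm I)) (fun x => nx p x ≤ V) (bb μ),
              add_sub_cancel_left, ← Finset.sum_filter]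
            refine Finset.sum_congr ?_ fun _ _ => rfl
            ext x
            have hn := hyb_nx p x
            have h3 : (Ideal.absNorm I : ℝ) ≤ Y / nx p x ↔ nx p x ≤ Y / Ideal.absNorm I := by
              rw [le_div_iff₀ hn, le_div_iff₀ hN0, mul_comm]
            simp only [Finset.mem_filter, h3]
            tauto
    rw [e1]
    refine (Finset.abs_sum_le_sum_abs _ _).trans ?_
    have h3 : ∀ I ∈ W, |Bs p S μ (Y / Ideal.absNorm I) - Bs p S μ V| ≤
        β * Y * V ^ (-η) * (1 / (Ideal.absNorm I : ℝ)) + β * V ^ (1 - η) := by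
      intro I hI
      rw [hWdef, Finset.mem_filter, mem_IN (by positivity)] at hI
      have hI0 : 0 < Ideal.absNorm I := by
        rw [Nat.pos_iff_ne_zero, Ne, Ideal.absNorm_eq_zero_iff]
        exact hI.1.2
      have hN1 : (1 : ℝ) ≤ Ideal.absNorm I := by exact_mod_cast hI0
      set N : ℝ := (Ideal.absNorm I : ℝ) with hN
      have hN0 : 0 < N := by linarith
      have hNV : V ≤ Y / N := by
        rw [le_div_iff₀ hN0, mul_comm, ← le_div_iff₀ hV0]
        exact hI.1.1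
      have hNY : Y / N ≤ Y := div_le_self hY0.le hN1
      refine (abs_sub _ _).trans ?_
      refine add_le_add ((hB _ hNV hNY).trans ?_) (hB V le_rfl hVY)
      have h4 : (Y / N) ^ (1 - η) ≤ Y * V ^ (-η) * (1 / N) := by
        rw [Real.rpow_sub (by positivity), Real.rpow_one, Real.rpow_neg hV0.le]
        have h5 : V ^ η ≤ (Y / N) ^ η := Real.rpow_le_rpow hV0.le hNV hη
        have h6 : 0 < V ^ η := by positivity
        calc Y / N / (Y / N) ^ η ≤ Y / N / V ^ η := by gcongr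
          _ = Y * (V ^ η)⁻¹ * (1 / N) := by ring
      calc β * (Y / N) ^ (1 - η) ≤ β * (Y * V ^ (-η) * (1 / N)) := mul_le_mul_of_nonneg_left h4 hβ
        _ = β * Y * V ^ (-η) * (1 / N) := by ring
    refine (Finset.sum_le_sum h3).trans ?_
    rw [Finset.sum_add_distrib, ← Finset.mul_sum, Finset.sum_const, nsmul_eq_mul]
    have h4 : ∑ I ∈ W, 1 / (Ideal.absNorm I : ℝ) ≤ C2 * (1 + Real.log (Y / V)) := by
      refine (Finset.sum_le_sum_of_subset_of_nonneg (Finset.filter_subset _ _) ?_).trans (hsum _ hYV)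
      intro I _ _
      positivity
    have h5 : (W.card : ℝ) ≤ C3 * (Y / V) := by
      refine le_trans ?_ (hcard _ hYV)
      exact_mod_cast Finset.card_le_card (Finset.filter_subset _ _)
    have h6 : V ^ (1 - η) = V * V ^ (-η) := by
      rw [sub_eq_add_neg, Real.rpow_add hV0, Real.rpow_one]
    have h7 : 0 ≤ β * Y * V ^ (-η) := by positivity
    calc β * Y * V ^ (-η) * ∑ I ∈ W, 1 / (Ideal.absNorm I : ℝ) + W.card * (β * V ^ (1 - η))
        ≤ β * Y * V ^ (-η) * (C2 * (1 + Real.log (Y / V))) + C3 * (Y / V) * (β * V ^ (1 - η)) := by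
          gcongr
      _ = β * Y * V ^ (-η) * (C2 * (1 + Real.log (Y / V)) + C3) := by
          rw [h6]
          field_simp
      _ ≤ β * Y * V ^ (-η) * ((C2 + C3) * (1 + Real.log (Y / V))) := by
          refine mul_le_mul_of_nonneg_left ?_ h7
          nlinarith
      _ = (C2 + C3) * Y * (β * V ^ (-η) * (1 + Real.log (Y / V))) := by ring
  -- together
  have e : FF S μ Y = ∑ x ∈ XP p S V, bb μ x * WS S (Y / nx p x) +
      ∑ x ∈ (XP p S Y).filter (fun x => ¬ nx p x ≤ V), bb μ x * WS S (Y / nx p x) := by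
    unfold FF
    rw [← hyb_filter p S V Y hVY]
    exact (Finset.sum_filter_add_sum_filter_not _ _ _).symm
  have hA : 0 ≤ Y * ((V / Y) ^ δ * (1 + Real.log V) ^ k) := by positivity
  have hB' : 0 ≤ Y * (β * V ^ (-η) * (1 + Real.log (Y / V))) := by positivity
  rw [e]
  calc |∑ x ∈ XP p S V, bb μ x * WS S (Y / nx p x) +
      ∑ x ∈ (XP p S Y).filter (fun x => ¬ nx p x ≤ V), bb μ x * WS S (Y / nx p x) - κ * AV p S μ V * Y|
      = |(∑ x ∈ XP p S V, bb μ x * WS S (Y / nx p x) - κ * AV p S μ V * Y) +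
        ∑ x ∈ (XP p S Y).filter (fun x => ¬ nx p x ≤ V), bb μ x * WS S (Y / nx p x)| := by
        congr 1; ring
    _ ≤ C0 * Cx * Y * ((V / Y) ^ δ * (1 + Real.log V) ^ k) +
        (C2 + C3) * Y * (β * V ^ (-η) * (1 + Real.log (Y / V))) := (abs_add_le _ _).trans (add_le_add h1 h2)
    _ ≤ (C0 * Cx + C2 + C3) * Y * ((V / Y) ^ δ * (1 + Real.log V) ^ k +
        β * V ^ (-η) * (1 + Real.log (Y / V))) := by
        have hc : 0 ≤ C0 * Cx := by positivity
        have h3 : 0 ≤ (C2 + C3) * (Y * ((V / Y) ^ δ * (1 + Real.log V) ^ k)) := by positivity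
        have h4 : 0 ≤ (C0 * Cx) * (Y * (β * V ^ (-η) * (1 + Real.log (Y / V)))) := by positivity
        nlinarith

end H57.SL
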