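import Pool.Agent.H57.SL.Def

/-!
# H57 SL INT: interfaces (no proof)

* `kS S`: the constant with `WS S M = kS S * M + O(M ^ (1 - δ))` (see `Wsm` for the proof of `WSM`; `kS` is defined by `choose` with default value 1).
* `PC1`, `PC2`: power saving for the sums of `c.mu`, and of `c.mu * c'.mu` for fields which are not isomorphic, outside a finite set `S ∪ e`.
* `MUX`: few exceptions for the sums of `c.mu`. `APX`: `Am c` is close to `kS S * AV` with few exceptions.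
-/

set_option autoImplicit false

open scoped NumberField Classical
open IsDedekindDomain H63.MA NumberField H36.QA H57.LI H57.LC H67.SX H38.ML

noncomputable section

namespace H57.SL

/-- the number of the ideals prime to `S` -/
def WSM (K : Type) [Field K] [NumberField K] (S : Finset (Pl K)) (κ : ℝ) : Prop :=
  0 < κ ∧ ∃ C δ : ℝ, 1 ≤ C ∧ 0 < δ ∧ δ ≤ 1 / 4 ∧ ∀ M : ℝ, 1 ≤ M →
    |WS S M - κ * M| ≤ C * M ^ (1 - δ)

/-- the density of the ideals prime to `S` -/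
def kS {K : Type} [Field K] [NumberField K] (S : Finset (Pl K)) : ℝ :=
  if h : ∃ κ, WSM K S κ then h.choose else 1

variable (K : IntermediateField ℚ QBar) [NumberField K] (S : Finset (Pl K))

/-- power saving for one field -/
def PC1 : Prop :=
  ∃ (C : ℝ) (A : ℕ) (δ : ℝ), 1 ≤ C ∧ 0 < δ ∧ δ ≤ 1 / 4 ∧ ∀ (c : Cu K) (e : Finset (Pl K))
    (Y : ℝ), 1 ≤ Y →
    |(prK K).SS (off (S ∪ e) c.mu) Y| ≤ C * C ^ e.card * c.D ^ A * Y ^ (1 - δ)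

/-- power saving for two fields -/
def PC2 : Prop :=
  ∃ (C : ℝ) (A : ℕ) (δ : ℝ), 1 ≤ C ∧ 0 < δ ∧ δ ≤ 1 / 4 ∧ ∀ (c c' : Cu K),
    IsEmpty (c.F ≃ₐ[K] c'.F) → ∀ (e : Finset (Pl K)) (Y : ℝ), 1 ≤ Y →
    |∑ s ∈ (prK K).SF Y, pd (off (S ∪ e) c.mu) s * pd (off (S ∪ e) c'.mu) s| ≤
      C * C ^ e.card * (c.D * c'.D) ^ A * Y ^ (1 - δ)

/-- few exceptions -/
def MUX : Prop :=
  ∀ (A₁ B B1 : ℕ) (ε : ℝ), 0 < ε → ∃ R₀ : ℝ, 3 ≤ R₀ ∧ ∀ R : ℝ, R₀ ≤ R → ∀ J : Set (Cu K),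
    (∀ c ∈ J, c.D ≤ R ^ A₁ ∧ ∃ e : Finset (Pl K), (prK K).nn e ≤ Real.log R ^ B1 ∧
      ∃ Z : ℝ, Real.exp (Real.log (Real.log (Real.sqrt R)) ^ 3) ≤ Z ∧
        Z / Real.log R ^ B < |(prK K).SS (off (S ∪ e) c.mu) Z|) →
    J.Finite ∧ (J.ncard : ℝ) ≤ R ^ ε

/-- `Am c` is close to the truncated sum with few exceptions -/
def APX (Am : Cu K → ℝ) : Prop :=
  ∀ η₀ : ℝ, 0 < η₀ → η₀ ≤ 1 → ∃ R₀ : ℝ, 3 ≤ R₀ ∧ ∀ R : ℝ, R₀ ≤ R →
    {c : Cu K | c.D ≤ R ∧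
      1 / Real.log R < |kS S * AV (prK K) S c.mu (R ^ η₀) - Am c|}.Finite ∧
    ({c : Cu K | c.D ≤ R ∧
      1 / Real.log R < |kS S * AV (prK K) S c.mu (R ^ η₀) - Am c|}.ncard : ℝ) ≤
      R ^ (1 / 2 : ℝ)

end H57.SL
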