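import Pool.Agent.H57.SL.Hyb
import Pool.Agent.H57.SL.Cau

/-!
# [H57 SL LSA] the asymptotic formula with a power saving, and with a log saving (120-160 lines)

`lsa`: `hyb` with `β = D` and the given `η`. For `2 ≤ Y`, `Y ≤ Y' ≤ Y ^ 2`, `V = √Y`: `|FF Y' / Y' - κ AV V| ≤ C ((V/Y')^δ (1 + log V)^k + D V^(-η) (1 + log (Y'/V)))
≤ C' D Y^(-η')`, where `η' > 0` is smaller than `δ/4` and `η/4` (`V / Y' ≤ Y^(-1/2)`, `log Y' ≤ 2 log Y`; a power of the logarithm is absorbed). The same for `Y' = Y`, so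
`|φ Y - φ Y'| ≤ 2 C' D Y^(-η')`, `φ Y = FF Y / Y`; `cau η'` gives `L`. For `1 ≤ Y < 2`: only the pair `(∅, ∅)` has `nx ≤ Y` (all norms are `≥ 2`), `FF Y = WS S Y` is bounded, and `|L|` is at most
`|φ 2| + C D ≤ C' D`.

`lsb`: let `w = log R`, `κ = kS S`. Choose `A'` with `A' ≥ 3` and `A - η' (A' - 1) ≤ -1`. Power saving: for `Y ≥ R ^ (A' - 1)`: `|FF Y - L Y| ≤ R ^ A Y^(1-η') ≤ Y / R`.
For `Z1 ≤ V ≤ Y ≤ R ^ A'` `hyb` with `β = w ^ (-B')`, `η = 0` gives `|FF Y / Y - κ AV V| ≤ C ((V/Y)^δ (1 + A' w)^k + w ^ (-B') (1 + A' w))`.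
(a) `Z1 ≤ V ≤ R`, `Y = R ^ A'`: the right side is at most `1 / (4 w ^ B)` for large `R` (`(V/Y)^δ ≤ R^(-δ)`; `B' ≥ B + 3`), and `|FF Y / Y - L| ≤ 1 / R`: second claim.
The same holds for `Z1 ≤ V ≤ R ^ (A' - 1)`. (b) `Z1 w ^ B'' ≤ Y ≤ R ^ (A' - 1)`: `V = Y / w ^ B''`: `(V/Y)^δ (1 + A' w)^k = w ^ (- B'' δ) (1 + A' w)^k ≤ 1 / (8 C w ^ B)` if `B'' δ ≥ B + k + 2`; and
`|κ AV V - L| ≤ 1 / (2 w ^ B)` by (a). For `Y ≥ R ^ (A' - 1)` use the power saving.
-/

set_option autoImplicit false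

open scoped NumberField Classical
open IsDedekindDomain H63.MA NumberField H36.QA H57.LI H57.LC H67.SX H38.ML

noncomputable section

namespace H57.SL

private theorem lsa_log (k : ℕ) (ε : ℝ) (hε : 0 < ε) : ∃ C : ℝ, 1 ≤ C ∧ ∀ Y : ℝ, 1 ≤ Y →
    (1 + Real.log Y) ^ k ≤ C * Y ^ ε := by
  have hk : (0 : ℝ) < k + 1 := by positivity
  refine ⟨(1 + (k + 1) / ε) ^ k, one_le_pow₀ (by have : 0 < ((k : ℝ) + 1) / ε := by positivity
                                                 linarith), ?_⟩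
  intro Y hY
  have hY0 : 0 < Y := by linarith
  have hl : 0 ≤ Real.log Y := Real.log_nonneg hY
  have h1 := Real.log_le_rpow_div hY0.le (by positivity : 0 < ε / (k + 1))
  have h2 : (1 : ℝ) ≤ Y ^ (ε / (k + 1)) := Real.one_le_rpow hY (by positivity)
  have h3 : Y ^ (ε / (k + 1)) / (ε / (k + 1)) = (k + 1) / ε * Y ^ (ε / (k + 1)) := by field_simp
  rw [h3] at h1
  have h4 : 1 + Real.log Y ≤ (1 + (k + 1) / ε) * Y ^ (ε / (k + 1)) := by nlinarith
  calc (1 + Real.log Y) ^ k ≤ ((1 + (k + 1) / ε) * Y ^ (ε / (k + 1))) ^ k := by gcongr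
    _ = (1 + (k + 1) / ε) ^ k * Y ^ (ε / (k + 1) * k) := by
        rw [mul_pow, Real.rpow_mul hY0.le, Real.rpow_natCast]
    _ ≤ (1 + (k + 1) / ε) ^ k * Y ^ ε := by
        refine mul_le_mul_of_nonneg_left (Real.rpow_le_rpow_of_exponent_le hY ?_) (by positivity)
        rw [div_mul_eq_mul_div, div_le_iff₀ hk]
        nlinarith

private theorem lsa_ev (c : ℝ) (m : ℕ) (δ : ℝ) (hδ : 0 < δ) :
    ∀ᶠ R : ℝ in Filter.atTop, c * Real.log R ^ m ≤ R ^ δ := by
  have h1 := (isLittleO_log_rpow_rpow_atTop (m : ℝ) hδ).bound (show (0 : ℝ) < 1 / (|c| + 1) by positivity)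
  filter_upwards [h1, Filter.eventually_ge_atTop (1 : ℝ)] with R hR hR1
  have hl : 0 ≤ Real.log R := Real.log_nonneg hR1
  rw [Real.norm_of_nonneg (by positivity), Real.norm_of_nonneg (by positivity), Real.rpow_natCast] at hR
  have h2 : c * Real.log R ^ m ≤ (|c| + 1) * Real.log R ^ m := by
    refine mul_le_mul_of_nonneg_right ?_ (by positivity)
    linarith [le_abs_self c]
  refine h2.trans ?_
  have h3 : (0 : ℝ) < |c| + 1 := by positivity
  calc (|c| + 1) * Real.log R ^ m ≤ (|c| + 1) * (1 / (|c| + 1) * R ^ δ) := by gcongr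
    _ = R ^ δ := by field_simp

theorem lsa (K : Type) [Field K] [NumberField K] (S : Finset (Pl K)) (η : ℝ) (hη : 0 < η)
    (hη1 : η ≤ 1 / 4) : ∃ C η' : ℝ, 1 ≤ C ∧ 0 < η' ∧ η' ≤ 1 / 4 ∧
      ∀ μ : Pl K → ℝ, (∀ l, |μ l| ≤ 2) → ∀ D : ℝ, 1 ≤ D →
      (∀ Z : ℝ, 1 ≤ Z → |Bs (prK K) S μ Z| ≤ D * Z ^ (1 - η)) →
      ∃ L : ℝ, ∀ Y : ℝ, 1 ≤ Y → |FF S μ Y - L * Y| ≤ C * D * Y ^ (1 - η') := by
  obtain ⟨C1, δ, k, hC1, hδ, hδ4, hyb⟩ := hyb K S
  obtain ⟨Ca, hCa, hca⟩ := lsa_log k (δ / 4) (by positivity)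
  obtain ⟨Cb, hCb, hcb⟩ := lsa_log 1 (η / 4) (by positivity)
  set η' := min (δ / 4) (η / 4) with hη'
  have hη'0 : 0 < η' := lt_min (by positivity) (by positivity)
  have hη'δ : η' ≤ δ / 4 := min_le_left _ _
  have hη'η : η' ≤ η / 4 := min_le_right _ _
  obtain ⟨Cc, hCc, hcau⟩ := cau η' hη'0
  set E0 : ℝ := 2 * (C1 * (Ca + 2 * Cb)) with hE0
  have hE00 : 0 ≤ E0 := by positivity
  refine ⟨12 * C1 + 2 * (Cc * E0), η', ?_, hη'0, by linarith, ?_⟩
  · have : 0 ≤ Cc * E0 := by positivity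
    linarith
  intro μ hμ D hD hB
  have hD0 : 0 < D := by linarith
  -- the main comparison
  have key : ∀ Y Y' : ℝ, 2 ≤ Y → Y ≤ Y' → Y' ≤ Y ^ 2 →
      |FF S μ Y' / Y' - kS S * AV (prK K) S μ (Real.sqrt Y)| ≤ C1 * (Ca + 2 * Cb) * D * Y ^ (-η') := by
    intro Y Y' hY hYY' hY'
    have hY0 : 0 < Y := by linarith
    have hY1 : 1 ≤ Y := by linarith
    have hY'0 : 0 < Y' := by linarith
    have hV1 : 1 ≤ Real.sqrt Y := Real.one_le_sqrt.2 hY1
    have hV0 : 0 < Real.sqrt Y := by linarith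
    have hVY : Real.sqrt Y ≤ Y := by
      rw [Real.sqrt_le_left hY0.le]
      nlinarith
    have h1 := hyb μ hμ (Real.sqrt Y) Y' D η hV1 (hVY.trans hYY') hD0.le hη.le (by linarith)
      (fun Z hZ1 _ => hB Z (hV1.trans hZ1))
    have hsq : Real.sqrt Y = Y ^ (1 / 2 : ℝ) := Real.sqrt_eq_rpow Y
    have hlog : Real.log (Real.sqrt Y) ≤ Real.log Y := Real.log_le_log hV0 hVY
    have hlog0 : 0 ≤ Real.log (Real.sqrt Y) := Real.log_nonneg hV1
    have hlogY : 0 ≤ Real.log Y := Real.log_nonneg hY1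
    have t1 : (Real.sqrt Y / Y') ^ δ * (1 + Real.log (Real.sqrt Y)) ^ k ≤ Ca * Y ^ (-η') := by
      have a1 : (Real.sqrt Y / Y') ^ δ ≤ Y ^ (-(δ / 2)) := by
        have a2 : Real.sqrt Y / Y' ≤ Y ^ (-(1 / 2) : ℝ) := by
          calc Real.sqrt Y / Y' ≤ Real.sqrt Y / Y := by gcongr
            _ = Y ^ (-(1 / 2) : ℝ) := by
                rw [hsq, div_eq_mul_inv]
                nth_rewrite 2 [← Real.rpow_one Y]
                rw [← Real.rpow_neg hY0.le, ← Real.rpow_add hY0]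
                norm_num
        calc (Real.sqrt Y / Y') ^ δ ≤ (Y ^ (-(1 / 2) : ℝ)) ^ δ := Real.rpow_le_rpow (by positivity) a2 hδ.le
          _ = Y ^ (-(δ / 2)) := by rw [← Real.rpow_mul hY0.le]; congr 1; ring
      have a3 : (1 + Real.log (Real.sqrt Y)) ^ k ≤ Ca * Y ^ (δ / 4) := by
        refine le_trans ?_ (hca Y hY1)
        gcongr
      calc (Real.sqrt Y / Y') ^ δ * (1 + Real.log (Real.sqrt Y)) ^ k ≤ Y ^ (-(δ / 2)) * (Ca * Y ^ (δ / 4)) :=
            mul_le_mul a1 a3 (by positivity) (by positivity)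
        _ = Ca * Y ^ (-(δ / 4)) := by
            rw [mul_left_comm, ← Real.rpow_add hY0]
            congr 2
            ring
        _ ≤ Ca * Y ^ (-η') := by
            refine mul_le_mul_of_nonneg_left (Real.rpow_le_rpow_of_exponent_le hY1 (by linarith)) (by linarith)
    have t2 : D * Real.sqrt Y ^ (-η) * (1 + Real.log (Y' / Real.sqrt Y)) ≤ 2 * Cb * D * Y ^ (-η') := by
      have a1 : Real.sqrt Y ^ (-η) = Y ^ (-(η / 2)) := by
        rw [hsq, ← Real.rpow_mul hY0.le]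
        congr 1
        ring
      have a2 : 1 + Real.log (Y' / Real.sqrt Y) ≤ 2 * (1 + Real.log Y) := by
        have a3 : Real.log (Y' / Real.sqrt Y) ≤ Real.log (Y ^ 2) := by
          refine Real.log_le_log (by positivity) ?_
          exact (div_le_self hY'0.le hV1).trans hY'
        rw [Real.log_pow] at a3
        push_cast at a3
        linarith
      have a4 : 1 + Real.log Y ≤ Cb * Y ^ (η / 4) := by
        have := hcb Y hY1
        rwa [pow_one] at this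
      rw [a1]
      calc D * Y ^ (-(η / 2)) * (1 + Real.log (Y' / Real.sqrt Y))
          ≤ D * Y ^ (-(η / 2)) * (2 * (Cb * Y ^ (η / 4))) := by
            refine mul_le_mul_of_nonneg_left (a2.trans ?_) (by positivity)
            linarith
        _ = 2 * Cb * D * (Y ^ (-(η / 2)) * Y ^ (η / 4)) := by ring
        _ = 2 * Cb * D * Y ^ (-(η / 4)) := by
            rw [← Real.rpow_add hY0]
            congr 2
            ring
        _ ≤ 2 * Cb * D * Y ^ (-η') := by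
            refine mul_le_mul_of_nonneg_left (Real.rpow_le_rpow_of_exponent_le hY1 (by linarith)) (by positivity)
    have e1 : FF S μ Y' / Y' - kS S * AV (prK K) S μ (Real.sqrt Y) =
        (FF S μ Y' - kS S * AV (prK K) S μ (Real.sqrt Y) * Y') / Y' := by
      field_simp
    rw [e1, abs_div, abs_of_pos hY'0, div_le_iff₀ hY'0]
    refine h1.trans ?_
    have hYη : 0 < Y ^ (-η') := by positivity
    calc C1 * Y' * ((Real.sqrt Y / Y') ^ δ * (1 + Real.log (Real.sqrt Y)) ^ k +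
          D * Real.sqrt Y ^ (-η) * (1 + Real.log (Y' / Real.sqrt Y)))
        ≤ C1 * Y' * (Ca * Y ^ (-η') + 2 * Cb * D * Y ^ (-η')) := by
          gcongr
      _ ≤ C1 * Y' * (Ca * D * Y ^ (-η') + 2 * Cb * D * Y ^ (-η')) := by
          refine mul_le_mul_of_nonneg_left ?_ (by positivity)
          have : Ca * 1 * Y ^ (-η') ≤ Ca * D * Y ^ (-η') := by gcongr
          linarith
      _ = C1 * (Ca + 2 * Cb) * D * Y ^ (-η') * Y' := by ring
  obtain ⟨L, hL⟩ := hcau (fun Y => FF S μ Y / Y) (E0 * D) (by positivity) (by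
    intro Y Y' hY hYY' hY'
    have h1 := key Y Y' hY hYY' hY'
    have h2 := key Y Y hY le_rfl (by nlinarith)
    have e1 : FF S μ Y / Y - FF S μ Y' / Y' =
        (FF S μ Y / Y - kS S * AV (prK K) S μ (Real.sqrt Y)) -
        (FF S μ Y' / Y' - kS S * AV (prK K) S μ (Real.sqrt Y)) := by ring
    rw [e1]
    refine (abs_sub _ _).trans ?_
    calc _ ≤ C1 * (Ca + 2 * Cb) * D * Y ^ (-η') + C1 * (Ca + 2 * Cb) * D * Y ^ (-η') := add_le_add h2 h1
      _ = E0 * D * Y ^ (-η') := by rw [hE0]; ring)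
  refine ⟨L, ?_⟩
  intro Y hY
  have hY0 : 0 < Y := by linarith
  rcases le_or_gt 2 Y with h2 | h2
  · have h3 := hL Y h2
    have e1 : FF S μ Y - L * Y = (FF S μ Y / Y - L) * Y := by field_simp
    rw [e1, abs_mul, abs_of_pos hY0]
    calc |FF S μ Y / Y - L| * Y ≤ Cc * (E0 * D) * Y ^ (-η') * Y := by gcongr
      _ = Cc * E0 * D * Y ^ (1 - η') := by
          rw [sub_eq_add_neg 1 η', Real.rpow_add hY0, Real.rpow_one]
          ring
      _ ≤ (12 * C1 + 2 * (Cc * E0)) * D * Y ^ (1 - η') := by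
          have h4 : 0 ≤ Cc * E0 := by positivity
          have h5 : Cc * E0 ≤ 12 * C1 + 2 * (Cc * E0) := by linarith
          gcongr
  · -- 1 ≤ Y < 2
    have hsmall : ∀ y : ℝ, 1 ≤ y → y ≤ 2 → |FF S μ y - kS S * AV (prK K) S μ 1 * y| ≤ 6 * C1 * D := by
      intro y hy1 hy2
      have hy0 : 0 < y := by linarith
      have h3 := hyb μ hμ 1 y D η le_rfl hy1 hD0.le hη.le (by linarith) (fun Z hZ1 _ => hB Z hZ1)
      refine h3.trans ?_
      have h4 : (1 / y) ^ δ ≤ 1 := by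
        refine Real.rpow_le_one (by positivity) ?_ hδ.le
        rw [div_le_one hy0]
        exact hy1
      have h5 : Real.log (y / 1) ≤ 1 := by
        rw [div_one]
        have h6 := Real.log_le_sub_one_of_pos hy0
        linarith
      have h6 : 0 ≤ Real.log (y / 1) := by
        rw [div_one]
        exact Real.log_nonneg hy1
      rw [Real.log_one, add_zero, one_pow, mul_one, Real.one_rpow, mul_one]
      calc C1 * y * ((1 / y) ^ δ + D * (1 + Real.log (y / 1))) ≤ C1 * 2 * (1 + D * (1 + 1)) := by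
            gcongr
        _ ≤ 6 * C1 * D := by nlinarith
    have h3 := hsmall Y hY h2.le
    have h4 := hsmall 2 (by norm_num) le_rfl
    have h5 := hL 2 le_rfl
    have h6 : |FF S μ 2 / 2 - L| ≤ Cc * (E0 * D) := by
      refine h5.trans ?_
      have h7 : (2 : ℝ) ^ (-η') ≤ 1 := Real.rpow_le_one_of_one_le_of_nonpos (by norm_num) (by linarith)
      calc Cc * (E0 * D) * 2 ^ (-η') ≤ Cc * (E0 * D) * 1 := by gcongr
        _ = Cc * (E0 * D) := mul_one _
    have h7 : |kS S * AV (prK K) S μ 1 - L| ≤ 3 * C1 * D + Cc * (E0 * D) := by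
      rw [abs_le] at h4 h6 ⊢
      constructor <;> linarith [h4.1, h4.2, h6.1, h6.2]
    have h8 : |FF S μ Y - L * Y| ≤ 6 * C1 * D + (3 * C1 * D + Cc * (E0 * D)) * 2 := by
      have e1 : FF S μ Y - L * Y = (FF S μ Y - kS S * AV (prK K) S μ 1 * Y) +
        (kS S * AV (prK K) S μ 1 - L) * Y := by ring
      rw [e1]
      refine (abs_add_le _ _).trans (add_le_add h3 ?_)
      rw [abs_mul, abs_of_pos hY0]
      have : 0 ≤ 3 * C1 * D + Cc * (E0 * D) := by positivity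
      gcongr
    refine h8.trans ?_
    have h9 : 1 ≤ Y ^ (1 - η') := Real.one_le_rpow hY (by linarith)
    have h10 : 0 ≤ (12 * C1 + 2 * (Cc * E0)) * D := by positivity
    calc 6 * C1 * D + (3 * C1 * D + Cc * (E0 * D)) * 2 = (12 * C1 + 2 * (Cc * E0)) * D * 1 := by ring
      _ ≤ (12 * C1 + 2 * (Cc * E0)) * D * Y ^ (1 - η') := by gcongr

theorem lsb (K : Type) [Field K] [NumberField K] (S : Finset (Pl K)) (A B : ℕ) (η' : ℝ)
    (hη : 0 < η') (hη1 : η' ≤ 1 / 4) : ∃ (A' B' B'' : ℕ) (R₀ : ℝ), 3 ≤ R₀ ∧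
      ∀ R : ℝ, R₀ ≤ R → ∀ μ : Pl K → ℝ, (∀ l, |μ l| ≤ 2) → ∀ L D Z1 : ℝ, 1 ≤ Z1 → D ≤ R ^ A →
      (∀ Y : ℝ, 1 ≤ Y → |FF S μ Y - L * Y| ≤ D * Y ^ (1 - η')) →
      (∀ Z : ℝ, Z1 ≤ Z → Z ≤ R ^ A' → |Bs (prK K) S μ Z| ≤ Z / Real.log R ^ B') →
      (∀ Y : ℝ, Z1 * Real.log R ^ B'' ≤ Y → |FF S μ Y - L * Y| ≤ Y / Real.log R ^ B) ∧
      ∀ V : ℝ, Z1 ≤ V → V ≤ R →
        |kS S * AV (prK K) S μ V - L| ≤ 1 / Real.log R ^ B := by
  obtain ⟨C, δ, k, hC, hδ, hδ4, hyb⟩ := hyb K S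
  set A1 : ℕ := ⌈((A : ℝ) + 1) / η'⌉₊ + 2 with hA1
  set B'' : ℕ := ⌈((B : ℝ) + k + 1) / δ⌉₊ with hB''
  have hA1η : (A : ℝ) + 1 ≤ η' * A1 := by
    have h1 : ((A : ℝ) + 1) / η' ≤ A1 := by
      rw [hA1]
      push_cast
      have := Nat.le_ceil (((A : ℝ) + 1) / η')
      linarith
    rw [div_le_iff₀ hη] at h1
    linarith
  have hB''δ : (B : ℝ) + k + 1 ≤ δ * B'' := by
    have h1 : ((B : ℝ) + k + 1) / δ ≤ B'' := Nat.le_ceil _
    rw [div_le_iff₀ hδ] at h1
    linarith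
  set a : ℝ := (A1 : ℝ) + 2 with ha
  have ha1 : 1 ≤ a := by
    have : (0 : ℝ) ≤ A1 := Nat.cast_nonneg _
    linarith
  have hev : ∀ᶠ R : ℝ in Filter.atTop, 3 ≤ R ∧ 8 * C * a ^ (k + 1) ≤ Real.log R ∧
      (8 * C * a ^ k) * Real.log R ^ (k + B) ≤ R ^ δ ∧ 8 * Real.log R ^ B ≤ R := by
    filter_upwards [Filter.eventually_ge_atTop (3 : ℝ),
      Real.tendsto_log_atTop.eventually_ge_atTop (8 * C * a ^ (k + 1)),
      lsa_ev (8 * C * a ^ k) (k + B) δ hδ, lsa_ev 8 B 1 one_pos] with R h1 h2 h3 h4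
    rw [Real.rpow_one] at h4
    exact ⟨h1, h2, h3, h4⟩
  obtain ⟨R1, hR1⟩ := Filter.eventually_atTop.1 hev
  refine ⟨A1 + 1, B + 2, B'', max 3 R1, le_max_left _ _, ?_⟩
  intro R hR μ hμ L D Z1 hZ1 hDR hF hBs
  obtain ⟨hR3, hw2, hw3, hw4⟩ := hR1 R ((le_max_right _ _).trans hR)
  have hR0 : 0 < R := by linarith
  have hR1' : 1 ≤ R := by linarith
  set w := Real.log R with hw
  have hCa : 1 ≤ 8 * C * a ^ (k + 1) := by
    have : 1 ≤ a ^ (k + 1) := one_le_pow₀ ha1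
    nlinarith
  have hw1 : 1 ≤ w := hCa.trans hw2
  have hw0 : 0 < w := by linarith
  have hlogR : ∀ V : ℝ, 1 ≤ V → V ≤ R ^ (A1 + 1) → 1 + Real.log V ≤ a * w := by
    intro V hV1 hV2
    have h1 : Real.log V ≤ Real.log (R ^ (A1 + 1)) := Real.log_le_log (by linarith) hV2
    rw [Real.log_pow] at h1
    push_cast at h1
    rw [ha]
    nlinarith
  -- comparison of `FF` and `AV`
  have hcmp : ∀ V Y : ℝ, Z1 ≤ V → V ≤ Y → Y ≤ R ^ (A1 + 1) →
      |FF S μ Y / Y - kS S * AV (prK K) S μ V| ≤ C * ((V / Y) ^ δ * (a * w) ^ k) + 1 / (8 * w ^ B) := by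
    intro V Y hV hVY hY
    have hV1 : 1 ≤ V := hZ1.trans hV
    have hV0 : 0 < V := by linarith
    have hY0 : 0 < Y := by linarith
    have hY1 : 1 ≤ Y := hV1.trans hVY
    have h1 := hyb μ hμ V Y (1 / w ^ (B + 2)) 0 hV1 hVY (by positivity) le_rfl (by norm_num)
      (fun Z hZ1' hZ2 => by
        refine (hBs Z (hV.trans hZ1') (hZ2.trans hY)).trans (le_of_eq ?_)
        rw [sub_zero, Real.rpow_one]
        ring)
    have hl1 := hlogR V hV1 (hVY.trans hY)
    have hl0 : 0 ≤ Real.log V := Real.log_nonneg hV1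
    have hl2 : 1 + Real.log (Y / V) ≤ a * w := by
      refine le_trans ?_ (hlogR Y hY1 hY)
      have := Real.log_le_log (by positivity) (div_le_self hY0.le hV1)
      linarith
    have hl3 : 0 ≤ Real.log (Y / V) := Real.log_nonneg ((one_le_div hV0).2 hVY)
    have e1 : FF S μ Y / Y - kS S * AV (prK K) S μ V = (FF S μ Y - kS S * AV (prK K) S μ V * Y) / Y := by
      field_simp
    rw [e1, abs_div, abs_of_pos hY0, div_le_iff₀ hY0]
    refine h1.trans ?_
    rw [neg_zero, Real.rpow_zero, mul_one]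
    have h3 : C * (1 / w ^ (B + 2) * (a * w)) ≤ 1 / (8 * w ^ B) := by
      have e2 : C * (1 / w ^ (B + 2) * (a * w)) = C * a / w ^ (B + 1) := by
        rw [pow_succ w (B + 1)]
        field_simp
      rw [e2, div_le_div_iff₀ (by positivity) (by positivity)]
      have h4 : 8 * C * a ≤ w := by
        refine le_trans ?_ hw2
        have h5 : a ^ 1 ≤ a ^ (k + 1) := pow_le_pow_right₀ ha1 (by omega)
        rw [pow_one] at h5
        gcongr
      calc C * a * (8 * w ^ B) = 8 * C * a * w ^ B := by ring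
        _ ≤ w * w ^ B := by gcongr
        _ = 1 * w ^ (B + 1) := by ring
    calc C * Y * ((V / Y) ^ δ * (1 + Real.log V) ^ k + 1 / w ^ (B + 2) * (1 + Real.log (Y / V)))
        ≤ C * Y * ((V / Y) ^ δ * (a * w) ^ k + 1 / w ^ (B + 2) * (a * w)) := by gcongr
      _ = (C * ((V / Y) ^ δ * (a * w) ^ k) + C * (1 / w ^ (B + 2) * (a * w))) * Y := by ring
      _ ≤ (C * ((V / Y) ^ δ * (a * w) ^ k) + 1 / (8 * w ^ B)) * Y := by gcongr
  -- power saving
  have hpow : ∀ Y : ℝ, R ^ A1 ≤ Y → |FF S μ Y - L * Y| ≤ Y * (1 / R) := by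
    intro Y hY
    have hRA : 1 ≤ R ^ A1 := one_le_pow₀ hR1'
    have hY1 : 1 ≤ Y := hRA.trans hY
    have hY0 : 0 < Y := by linarith
    refine (hF Y hY1).trans ?_
    have h1 : R ^ A * Y ^ (-η') ≤ 1 / R := by
      have h2 : Y ^ (-η') ≤ (R ^ A1) ^ (-η') :=
        Real.rpow_le_rpow_of_nonpos (by positivity) hY (by linarith)
      have h3 : (R ^ A1 : ℝ) ^ (-η') = R ^ (-(η' * A1)) := by
        rw [← Real.rpow_natCast, ← Real.rpow_mul hR0.le]
        congr 1
        ring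
      rw [h3] at h2
      calc R ^ A * Y ^ (-η') ≤ R ^ A * R ^ (-(η' * A1)) := by gcongr
        _ = R ^ ((A : ℝ) + -(η' * A1)) := by rw [Real.rpow_add hR0, Real.rpow_natCast]
        _ ≤ R ^ (-1 : ℝ) := Real.rpow_le_rpow_of_exponent_le hR1' (by linarith)
        _ = 1 / R := by rw [Real.rpow_neg_one, one_div]
    calc D * Y ^ (1 - η') ≤ R ^ A * Y ^ (1 - η') := by gcongr
      _ = Y * (R ^ A * Y ^ (-η')) := by
          rw [sub_eq_add_neg, Real.rpow_add hY0, Real.rpow_one]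
          ring
      _ ≤ Y * (1 / R) := by gcongr
  have hRw : 1 / R ≤ 1 / (8 * w ^ B) := one_div_le_one_div_of_le (by positivity) hw4
  -- (a)
  have hA : ∀ V : ℝ, Z1 ≤ V → V ≤ R ^ A1 → |kS S * AV (prK K) S μ V - L| ≤ 3 * (1 / (8 * w ^ B)) := by
    intro V hV1 hV2
    have hV0 : 0 < V := by linarith
    have hRA : R ^ A1 ≤ R ^ (A1 + 1) := pow_le_pow_right₀ hR1' (by omega)
    have hY0 : 0 < R ^ (A1 + 1) := by positivity
    have h1 := hcmp V (R ^ (A1 + 1)) hV1 (hV2.trans hRA) le_rfl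
    have h2 : |FF S μ (R ^ (A1 + 1)) / R ^ (A1 + 1) - L| ≤ 1 / (8 * w ^ B) := by
      have h3 := hpow (R ^ (A1 + 1)) hRA
      have e1 : FF S μ (R ^ (A1 + 1)) / R ^ (A1 + 1) - L =
          (FF S μ (R ^ (A1 + 1)) - L * R ^ (A1 + 1)) / R ^ (A1 + 1) := by field_simp
      rw [e1, abs_div, abs_of_pos hY0, div_le_iff₀ hY0]
      refine h3.trans ?_
      rw [mul_comm]
      gcongr
    have h3 : C * ((V / R ^ (A1 + 1)) ^ δ * (a * w) ^ k) ≤ 1 / (8 * w ^ B) := by
      have h4 : (V / R ^ (A1 + 1)) ^ δ ≤ 1 / R ^ δ := by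
        have h5 : V / R ^ (A1 + 1) ≤ 1 / R := by
          rw [div_le_div_iff₀ hY0 hR0, one_mul, pow_succ]
          gcongr
        calc (V / R ^ (A1 + 1)) ^ δ ≤ (1 / R) ^ δ := Real.rpow_le_rpow (by positivity) h5 hδ.le
          _ = 1 / R ^ δ := by rw [Real.div_rpow zero_le_one hR0.le, Real.one_rpow]
      calc C * ((V / R ^ (A1 + 1)) ^ δ * (a * w) ^ k) ≤ C * (1 / R ^ δ * (a * w) ^ k) := by gcongr
        _ = C * a ^ k * w ^ k / R ^ δ := by rw [mul_pow]; ring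
        _ ≤ 1 / (8 * w ^ B) := by
            rw [div_le_div_iff₀ (by positivity) (by positivity), one_mul]
            calc C * a ^ k * w ^ k * (8 * w ^ B) = (8 * C * a ^ k) * w ^ (k + B) := by rw [pow_add]; ring
              _ ≤ R ^ δ := hw3
    rw [abs_le] at h1 h2 ⊢
    constructor <;> linarith [h1.1, h1.2, h2.1, h2.2]
  have hwB : 1 / w ^ B = 8 * (1 / (8 * w ^ B)) := by field_simp
  have hq : 0 < 1 / (8 * w ^ B) := by positivity
  refine ⟨?_, ?_⟩
  · intro Y hY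
    have hY1 : 1 ≤ Y := by
      have : 1 ≤ w ^ B'' := one_le_pow₀ hw1
      nlinarith
    have hY0 : 0 < Y := by linarith
    rcases le_total (R ^ A1) Y with h | h
    · refine (hpow Y h).trans ?_
      rw [div_eq_mul_one_div Y (w ^ B), hwB]
      refine mul_le_mul_of_nonneg_left ?_ hY0.le
      linarith
    · set V := Y / w ^ B'' with hV
      have hwB'' : 0 < w ^ B'' := by positivity
      have hV1 : Z1 ≤ V := by
        rw [hV, le_div_iff₀ hwB'']
        exact hY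
      have hVY : V ≤ Y := div_le_self hY0.le (one_le_pow₀ hw1)
      have hRA : R ^ A1 ≤ R ^ (A1 + 1) := pow_le_pow_right₀ hR1' (by omega)
      have h1 := hcmp V Y hV1 hVY (h.trans hRA)
      have h2 := hA V hV1 (hVY.trans h)
      have h3 : C * ((V / Y) ^ δ * (a * w) ^ k) ≤ 1 / (8 * w ^ B) := by
        have h4 : (V / Y) ^ δ ≤ 1 / w ^ (B + k + 1) := by
          have e1 : V / Y = w ^ (-(B'' : ℝ)) := by
            rw [hV, Real.rpow_neg hw0.le, Real.rpow_natCast]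
            field_simp
          rw [e1, ← Real.rpow_mul hw0.le, one_div, ← Real.rpow_natCast, ← Real.rpow_neg hw0.le]
          refine Real.rpow_le_rpow_of_exponent_le hw1 ?_
          push_cast
          linarith
        calc C * ((V / Y) ^ δ * (a * w) ^ k) ≤ C * (1 / w ^ (B + k + 1) * (a * w) ^ k) := by gcongr
          _ = C * a ^ k / w ^ (B + 1) := by
              have e2 : w ^ (B + k + 1) = w ^ (B + 1) * w ^ k := by rw [← pow_add]; ring_nf
              rw [e2, mul_pow]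
              field_simp
          _ ≤ 1 / (8 * w ^ B) := by
              rw [div_le_div_iff₀ (by positivity) (by positivity), one_mul]
              have h5 : 8 * C * a ^ k ≤ w := by
                refine le_trans ?_ hw2
                have : a ^ k ≤ a ^ (k + 1) := pow_le_pow_right₀ ha1 (by omega)
                gcongr
              calc C * a ^ k * (8 * w ^ B) = 8 * C * a ^ k * w ^ B := by ring
                _ ≤ w * w ^ B := by gcongr
                _ = w ^ (B + 1) := by ring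
      have h4 : |FF S μ Y / Y - L| ≤ 1 / w ^ B := by
        rw [hwB]
        rw [abs_le] at h1 h2 ⊢
        constructor <;> linarith [h1.1, h1.2, h2.1, h2.2]
      have e1 : FF S μ Y - L * Y = (FF S μ Y / Y - L) * Y := by field_simp
      rw [e1, abs_mul, abs_of_pos hY0, div_eq_mul_one_div Y (w ^ B), mul_comm Y]
      gcongr
  · intro V hV1 hV2
    have hRA : R ≤ R ^ A1 := by
      calc R = R ^ 1 := (pow_one R).symm
        _ ≤ R ^ A1 := pow_le_pow_right₀ hR1' (by omega)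
    refine (hA V hV1 (hV2.trans hRA)).trans ?_
    rw [hwB]
    linarith

end H57.SL
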