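import Pool.Agent.H57.SL.Int
import Pool.Agent.H57.SL.Cls
import Pool.Agent.H57.SL.Cbl
import Pool.Agent.H57.SL.Bdn
import Pool.Agent.H57.LI.AbsFin

/-!
# [H57 SL MUX] few exceptions for the sums of `c.mu` (150-200 lines; model: `H57/LI/Fin.lean`, `li2`)

Equivalence `r c c' := Nonempty (c.F ≃ₐ[K] c'.F)`: its classes have at most 3 elements: `c' ↦` the embedding `c.F ≃ c'.F ⊆ QBar` (choose an isomorphism) is injective into the 3
embeddings of `c.F` (`c'` is determined by its field: `Cu` is a structure with one data field; the field is the range of the embedding). Equivalent fields have the same `mu` (not needed).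

Let `A₁, B, B1, ε` be given, `p = prK K`, `R' = √R`. By `cls` it is enough that a finite subset `T` of `J` of pairwise not isomorphic fields has at most `R ^ ε / 3` elements.
For every `e` with `nn e ≤ (log R) ^ B1` let `T_e` be the set of the `c ∈ T` such that some `Z ≥ exp ((log log R')^3)` has `Z / (log R) ^ B < |SS (off (S ∪ e) c.mu) Z|`. Apply `absfin` (`H57/LI/AbsFin`) at
`R'` with `J = T_e`, `lam c = off (S ∪ e) c.mu` (`|lam| ≤ 2`, `cbl_mu`), exponent `B`: `Z / (log R') ^ (B + 1) ≤ Z / (log R) ^ B` for large `R` since `log R' = log R / 2`: use exponent `B + 1`.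
`Crs p A δ R' lam`: by `PC2` and `C * C ^ #e ≤ R'` for large `R` (`2 ^ #e ≤ nn e ≤ (log R) ^ B1`, so `C ^ #e ≤ (log R) ^ (B1 a)`, `C ≤ 2 ^ a`, `log_pow_le`), `c.D ≤ R ^ A₁ = R' ^ (2 A₁)`.
Individual power saving: `PC1` in the same way; the common `δ` is the minimum of the two. So `#T_e ≤ R' ^ ε = R ^ (ε/2)`.
The number of the `e` with `nn e ≤ (log R) ^ B1` is at most `C (log R) ^ (2 B1)` (`Pr.sfk_card` with `k = 1`, or the number of ideals), so `#T ≤ ∑_e #T_e ≤ C (log R) ^ (2 B1) R ^ (ε/2) ≤ R ^ ε / 3`.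
-/

set_option autoImplicit false

open scoped NumberField Classical
open IsDedekindDomain H63.MA NumberField H36.QA H57.LI H57.LC H67.SX H38.ML

noncomputable section

namespace H57.SL

variable {K : IntermediateField ℚ QBar} [NumberField K]

private theorem cu_ext {c c' : Cu K} (h : c.F = c'.F) : c = c' := by
  cases c
  cases c'
  simp only at h
  subst h
  rfl

theorem cu_class (c : Cu K) : {c' : Cu K | Nonempty (c.F ≃ₐ[K] c'.F)}.Finite ∧
    {c' : Cu K | Nonempty (c.F ≃ₐ[K] c'.F)}.ncard ≤ 3 := by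
  classical
  obtain ⟨f, hf⟩ : ∃ f : {c' : Cu K | Nonempty (c.F ≃ₐ[K] c'.F)} → (c.F →ₐ[K] QBar),
      ∀ x, f x = (x.1.F.val).comp (x.2.some : c.F →ₐ[K] x.1.F) := ⟨_, fun _ => rfl⟩
  have hr : ∀ x, (f x).fieldRange = x.1.F := by
    intro x
    rw [hf]
    ext y
    constructor
    · rintro ⟨z, rfl⟩
      exact (x.2.some z).2
    · intro hy
      refine ⟨x.2.some.symm ⟨y, hy⟩, ?_⟩
      simp
  have hinj : Function.Injective f := by
    intro x y hxy
    apply Subtype.ext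
    apply cu_ext
    rw [← hr x, ← hr y, hxy]
  have hfin : Finite {c' : Cu K | Nonempty (c.F ≃ₐ[K] c'.F)} := Finite.of_injective f hinj
  refine ⟨Set.toFinite _, ?_⟩
  have h1 : Nat.card {c' : Cu K | Nonempty (c.F ≃ₐ[K] c'.F)} ≤ Nat.card (c.F →ₐ[K] QBar) :=
    Nat.card_le_card_of_injective f hinj
  have h2 : Nat.card (c.F →ₐ[K] QBar) ≤ 3 := by
    rw [← c.deg]
    exact card_algHom_le_finrank K c.F QBar
  rw [← Nat.card_coe_set_eq]
  exact h1.trans h2

private theorem ev_lp (C : ℝ) (k : ℕ) (δ : ℝ) (hδ : 0 < δ) :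
    ∀ᶠ R : ℝ in Filter.atTop, C * Real.log R ^ k ≤ R ^ δ := by
  have h := isLittleO_log_rpow_rpow_atTop (k : ℝ) hδ
  have h1 := h.bound (c := 1 / (|C| + 1)) (by positivity)
  filter_upwards [h1, Filter.eventually_ge_atTop 1] with R hR hR1
  have hl : 0 ≤ Real.log R := Real.log_nonneg hR1
  have hRd : 0 ≤ R ^ δ := Real.rpow_nonneg (by linarith) _
  rw [Real.rpow_natCast, Real.norm_of_nonneg (pow_nonneg hl k), Real.norm_of_nonneg hRd] at hR
  have hC : 0 < |C| + 1 := by positivity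
  calc C * Real.log R ^ k ≤ (|C| + 1) * Real.log R ^ k :=
        mul_le_mul_of_nonneg_right (by have := le_abs_self C; linarith) (pow_nonneg hl k)
    _ ≤ (|C| + 1) * (1 / (|C| + 1) * R ^ δ) := mul_le_mul_of_nonneg_left hR hC.le
    _ = R ^ δ := by
      field_simp

/-- the number of the squarefree products of norm at most `x` -/
private theorem sf_card {ι : Type} (p : Pr ι) (x : ℝ) (hx : 2 ≤ x) :
    ((p.SF x).card : ℝ) ≤ p.C * x ^ (p.n + 1) := by
  have h1 := p.har x hx (p.SF x) (fun s hs => p.mem_SF.1 hs)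
  have h2 : ((p.SF x).card : ℝ) * (1 / x) ≤ ∑ s ∈ p.SF x, 1 / ∏ i ∈ s, (p.N i : ℝ) := by
    rw [← nsmul_eq_mul, ← Finset.sum_const]
    refine Finset.sum_le_sum fun s hs => ?_
    have h3 : ∏ i ∈ s, (p.N i : ℝ) ≤ x := p.mem_SF.1 hs
    have h4 : 0 < ∏ i ∈ s, (p.N i : ℝ) := Finset.prod_pos fun i _ => by
      have := p.two i
      exact_mod_cast (by omega : 0 < p.N i)
    exact one_div_le_one_div_of_le h4 h3
  have h5 : ((p.SF x).card : ℝ) ≤ x * (p.C * Real.log x ^ p.n) := by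
    have h6 := h2.trans h1
    rw [mul_one_div, div_le_iff₀ (by linarith)] at h6
    linarith
  refine h5.trans ?_
  have hlog : Real.log x ≤ x := (Real.log_le_sub_one_of_pos (by linarith)).trans (by linarith)
  have hlog0 : 0 ≤ Real.log x := Real.log_nonneg (by linarith)
  have hC := p.C1
  calc x * (p.C * Real.log x ^ p.n) ≤ x * (p.C * x ^ p.n) :=
        mul_le_mul_of_nonneg_left (mul_le_mul_of_nonneg_left (pow_le_pow_left₀ hlog0 hlog _) (by linarith)) (by linarith)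
    _ = p.C * x ^ (p.n + 1) := by rw [pow_succ]; ring

theorem mux (S : Finset (Pl K)) (h1 : PC1 K S) (h2 : PC2 K S) : MUX K S := by
  classical
  obtain ⟨C1, A2, δ1, hC1, hδ1, hδ1', h1⟩ := h1
  obtain ⟨C2, A3, δ2, hC2, hδ2, hδ2', h2⟩ := h2
  obtain ⟨a1, ha1⟩ := cpw K C1
  obtain ⟨a2, ha2⟩ := cpw K C2
  intro A₁ B B1 ε hε
  obtain ⟨δ, hδd⟩ : ∃ δ, δ = min δ1 δ2 := ⟨_, rfl⟩
  have hδ : 0 < δ := by rw [hδd]; exact lt_min hδ1 hδ2
  have hδa : δ ≤ δ1 := by rw [hδd]; exact min_le_left _ _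
  have hδb : δ ≤ δ2 := by rw [hδd]; exact min_le_right _ _
  obtain ⟨A, hAd⟩ : ∃ A : ℕ, A = 2 + 2 * A₁ * A2 + 4 * A₁ * A3 := ⟨_, rfl⟩
  obtain ⟨p, hp⟩ : ∃ p, p = prK K := ⟨_, rfl⟩
  obtain ⟨Ra, hRa3, hRa⟩ := absfin p (A : ℝ) δ ε (Nat.cast_nonneg _) hδ (by linarith) hε (B + 1)
  -- large `R`
  have hev := ((((Filter.eventually_ge_atTop (max (Ra ^ 2) (max (C1 ^ 2) (max (C2 ^ 2) (max 9 (Real.exp (2 ^ (B + 1)))))))).and
    (ev_lp 1 ((B1 + 1) * a1) (1 / 2) (by norm_num))).and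
    (ev_lp 1 ((B1 + 1) * a2) (1 / 2) (by norm_num))).and
    (ev_lp (3 * p.C) ((B1 + 1) * (p.n + 1)) (ε / 2) (by linarith)))
  obtain ⟨R₀, hR₀⟩ := Filter.eventually_atTop.1 hev
  refine ⟨max R₀ 3, le_max_right _ _, fun R hR J hJ => ?_⟩
  obtain ⟨⟨⟨ev1, ev2⟩, ev3⟩, ev4⟩ := hR₀ R ((le_max_left _ _).trans hR)
  rw [one_mul] at ev2 ev3
  simp only [max_le_iff] at ev1
  obtain ⟨ev1a, ev1b, ev1c, ev1d, ev1e⟩ := ev1
  have hR1 : 1 ≤ R := by linarith
  have hR0 : 0 < R := by linarith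
  obtain ⟨R', hR'⟩ : ∃ R', R' = Real.sqrt R := ⟨_, rfl⟩
  have hsq : R' ^ 2 = R := by rw [hR']; exact Real.sq_sqrt hR0.le
  have hR'0 : 0 ≤ R' := by rw [hR']; exact Real.sqrt_nonneg _
  have hhalf : R ^ (1 / 2 : ℝ) = R' := by rw [hR', Real.sqrt_eq_rpow]
  rw [hhalf] at ev2 ev3
  have hR'a : Ra ≤ R' := by
    rw [hR']
    exact Real.le_sqrt_of_sq_le ev1a
  have hR'1 : C1 ≤ R' := by
    rw [hR']
    exact Real.le_sqrt_of_sq_le ev1b
  have hR'2 : C2 ≤ R' := by
    rw [hR']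
    exact Real.le_sqrt_of_sq_le ev1c
  have hR'3 : 3 ≤ R' := hRa3.trans hR'a
  have hR'p : 0 < R' := by linarith
  have hlog : (2 : ℝ) ^ (B + 1) ≤ Real.log R := by
    rw [Real.le_log_iff_exp_le hR0]
    exact ev1e
  have hlog2 : 2 ≤ Real.log R := by
    refine le_trans ?_ hlog
    calc (2 : ℝ) = 2 ^ 1 := by norm_num
      _ ≤ 2 ^ (B + 1) := pow_le_pow_right₀ (by norm_num) (by omega)
  have hlogs : Real.log R' = Real.log R / 2 := by
    rw [hR', Real.log_sqrt hR0.le]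
  have hnr : ∀ e : Finset (Pl K), (nr e : ℝ) = p.nn e := by
    intro e
    rw [hp]
    unfold nr Pr.nn
    refine Finset.prod_congr rfl fun l _ => ?_
    rw [prK_N]
  obtain ⟨x, hx⟩ : ∃ x, x = 2 * Real.log R ^ B1 := ⟨_, rfl⟩
  have hlB1 : 1 ≤ Real.log R ^ B1 := one_le_pow₀ (by linarith)
  have hx2 : 2 ≤ x := by rw [hx]; linarith
  have hxle : x ≤ Real.log R ^ (B1 + 1) := by
    rw [hx, pow_succ]
    nlinarith
  have hnn0 : ∀ e : Finset (Pl K), 0 ≤ p.nn e := by
    intro e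
    unfold Pr.nn
    exact Finset.prod_nonneg fun i _ => Nat.cast_nonneg _
  have hCe1 : ∀ e ∈ p.SF x, C1 ^ e.card ≤ R' := by
    intro e he
    have h3 := p.mem_SF.1 he
    calc C1 ^ e.card ≤ (nr e : ℝ) ^ a1 := ha1 e
      _ = p.nn e ^ a1 := by rw [hnr]
      _ ≤ (Real.log R ^ (B1 + 1)) ^ a1 := pow_le_pow_left₀ (hnn0 e) (h3.trans hxle) _
      _ = Real.log R ^ ((B1 + 1) * a1) := by rw [← pow_mul]
      _ ≤ R' := ev2
  have hCe2 : ∀ e ∈ p.SF x, C2 ^ e.card ≤ R' := by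
    intro e he
    have h3 := p.mem_SF.1 he
    calc C2 ^ e.card ≤ (nr e : ℝ) ^ a2 := ha2 e
      _ = p.nn e ^ a2 := by rw [hnr]
      _ ≤ (Real.log R ^ (B1 + 1)) ^ a2 := pow_le_pow_left₀ (hnn0 e) (h3.trans hxle) _
      _ = Real.log R ^ ((B1 + 1) * a2) := by rw [← pow_mul]
      _ ≤ R' := ev3
  have hDR : ∀ c ∈ J, c.D ≤ R' ^ (2 * A₁) := by
    intro c hc
    have h3 := (hJ c hc).1
    rw [pow_mul, hsq]
    exact h3
  -- the bound for the pairwise not isomorphic fields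
  have hRε : 0 < R ^ (ε / 2) := Real.rpow_pos_of_pos hR0 _
  have hRε' : R' ^ ε = R ^ (ε / 2) := by
    rw [← hhalf, ← Real.rpow_mul hR0.le]
    congr 1
    ring
  have key : ∀ T : Finset (Cu K), (∀ x ∈ T, x ∈ J) →
      (∀ x ∈ T, ∀ y ∈ T, x ≠ y → ¬ Nonempty (x.F ≃ₐ[K] y.F)) → (T.card : ℝ) ≤ R ^ ε / 3 := by
    intro T hT hT2
    obtain ⟨Te, hTe⟩ : ∃ Te : Finset (Pl K) → Finset (Cu K), Te = fun e => T.filter fun c =>
        ∃ Z : ℝ, Real.exp (Real.log (Real.log R') ^ 3) ≤ Z ∧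
          Z / Real.log R ^ B < |p.SS (off (S ∪ e) c.mu) Z| := ⟨_, rfl⟩
    have hmem : ∀ e c, c ∈ Te e → c ∈ T ∧ ∃ Z : ℝ, Real.exp (Real.log (Real.log R') ^ 3) ≤ Z ∧
          Z / Real.log R ^ B < |p.SS (off (S ∪ e) c.mu) Z| := by
      intro e c hc
      rw [hTe] at hc
      exact Finset.mem_filter.1 hc
    have hsub : T ⊆ (p.SF x).biUnion Te := by
      intro c hc
      obtain ⟨-, e, he, Z, hZ1, hZ2⟩ := hJ c (hT c hc)
      rw [Finset.mem_biUnion]
      refine ⟨e, ?_, ?_⟩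
      · rw [p.mem_SF, hp, hx]
        linarith
      · rw [hTe, Finset.mem_filter]
        refine ⟨hc, Z, ?_, ?_⟩
        · rw [hR']
          exact hZ1
        · rw [hp]
          exact hZ2
    have hTec : ∀ e ∈ p.SF x, ((Te e).card : ℝ) ≤ R ^ (ε / 2) := by
      intro e he
      have h3 := hRa R' hR'a (Te e) (fun c => off (S ∪ e) c.1.mu) ?_ ?_ ?_ ?_
      · rw [Fintype.card_coe, hRε'] at h3
        exact h3
      · intro c l
        unfold off
        split_ifs
        · norm_num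
        · have := (cbl_mu c.1 l).1
          linarith
      · intro c c' hcc Y hY
        have hcT : c.1 ∈ T := (hmem e _ c.2).1
        have hcT' : c'.1 ∈ T := (hmem e _ c'.2).1
        have hni : IsEmpty (c.1.F ≃ₐ[K] c'.1.F) := by
          rw [← not_nonempty_iff]
          exact hT2 _ hcT _ hcT' fun h => hcc (Subtype.ext h)
        have h4 := h2 c.1 c'.1 hni e Y hY
        rw [hp]
        refine h4.trans ?_
        have hd := hDR _ (hT _ hcT)
        have hd' := hDR _ (hT _ hcT')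
        have hd1 := one_le_D c.1
        have hd1' := one_le_D c'.1
        have h5 : (c.1.D * c'.1.D) ^ A3 ≤ R' ^ (4 * A₁ * A3) := by
          calc (c.1.D * c'.1.D) ^ A3 ≤ (R' ^ (2 * A₁) * R' ^ (2 * A₁)) ^ A3 :=
                pow_le_pow_left₀ (by positivity) (mul_le_mul hd hd' (by linarith) (by positivity)) A3
            _ = R' ^ (4 * A₁ * A3) := by
              rw [← pow_add, ← pow_mul]
              congr 1
              ring
        have h6 : C2 * C2 ^ e.card * (c.1.D * c'.1.D) ^ A3 ≤ R' ^ (A : ℝ) := by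
          rw [Real.rpow_natCast]
          calc C2 * C2 ^ e.card * (c.1.D * c'.1.D) ^ A3 ≤ R' * R' * R' ^ (4 * A₁ * A3) :=
                mul_le_mul (mul_le_mul hR'2 (hCe2 e he) (by positivity) hR'0) h5 (by positivity) (by positivity)
            _ = R' ^ (2 + 4 * A₁ * A3) := by rw [pow_add]; ring
            _ ≤ R' ^ A := pow_le_pow_right₀ (by linarith) (by rw [hAd]; omega)
        have h7 : Y ^ (1 - δ2) ≤ Y ^ (1 - δ) := Real.rpow_le_rpow_of_exponent_le hY (by linarith)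
        exact mul_le_mul h6 h7 (by positivity) (by positivity)
      · intro c Y hY
        have hcT : c.1 ∈ T := (hmem e _ c.2).1
        have h4 := h1 c.1 e Y hY
        rw [hp]
        refine h4.trans ?_
        have hd := hDR _ (hT _ hcT)
        have hd1 := one_le_D c.1
        have h5 : c.1.D ^ A2 ≤ R' ^ (2 * A₁ * A2) := by
          rw [pow_mul]
          exact pow_le_pow_left₀ (by linarith) hd A2
        have h6 : C1 * C1 ^ e.card * c.1.D ^ A2 ≤ R' ^ (A : ℝ) := by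
          rw [Real.rpow_natCast]
          calc C1 * C1 ^ e.card * c.1.D ^ A2 ≤ R' * R' * R' ^ (2 * A₁ * A2) :=
                mul_le_mul (mul_le_mul hR'1 (hCe1 e he) (by positivity) hR'0) h5 (by positivity) (by positivity)
            _ = R' ^ (2 + 2 * A₁ * A2) := by rw [pow_add]; ring
            _ ≤ R' ^ A := pow_le_pow_right₀ (by linarith) (by rw [hAd]; omega)
        have h7 : Y ^ (1 - δ1) ≤ Y ^ (1 - δ) := Real.rpow_le_rpow_of_exponent_le hY (by linarith)
        exact mul_le_mul h6 h7 (by positivity) (by positivity)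
      · intro c
        obtain ⟨-, Z, hZ1, hZ2⟩ := hmem e _ c.2
        refine ⟨Z, hZ1, lt_of_le_of_lt ?_ hZ2⟩
        have hZ0 : 0 ≤ Z := (Real.exp_pos _).le.trans hZ1
        have hl : Real.log R ^ B ≤ Real.log R' ^ (B + 1) := by
          rw [hlogs, div_pow, le_div_iff₀ (by positivity), pow_succ (Real.log R)]
          exact mul_le_mul_of_nonneg_left hlog (by positivity)
        exact div_le_div_of_nonneg_left hZ0 (by positivity) hl
    have h5 : (T.card : ℝ) ≤ (p.SF x).card * R ^ (ε / 2) := by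
      calc (T.card : ℝ) ≤ (((p.SF x).biUnion Te).card : ℝ) := by exact_mod_cast Finset.card_le_card hsub
        _ ≤ ∑ e ∈ p.SF x, ((Te e).card : ℝ) := by exact_mod_cast Finset.card_biUnion_le
        _ ≤ ∑ _e ∈ p.SF x, R ^ (ε / 2) := Finset.sum_le_sum hTec
        _ = (p.SF x).card * R ^ (ε / 2) := by rw [Finset.sum_const, nsmul_eq_mul]
    have h6 : ((p.SF x).card : ℝ) ≤ R ^ (ε / 2) / 3 := by
      refine (sf_card p x hx2).trans ?_
      have hC := p.C1
      calc p.C * x ^ (p.n + 1) ≤ p.C * (Real.log R ^ (B1 + 1)) ^ (p.n + 1) :=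
            mul_le_mul_of_nonneg_left (pow_le_pow_left₀ (by linarith) hxle _) (by linarith)
        _ = p.C * Real.log R ^ ((B1 + 1) * (p.n + 1)) := by rw [← pow_mul]
        _ ≤ _ := by linarith
    calc (T.card : ℝ) ≤ (p.SF x).card * R ^ (ε / 2) := h5
      _ ≤ R ^ (ε / 2) / 3 * R ^ (ε / 2) := mul_le_mul_of_nonneg_right h6 hRε.le
      _ = R ^ ε / 3 := by
        rw [div_mul_eq_mul_div, ← Real.rpow_add hR0]
        congr 2
        ring
  have hfinal := cls (fun c c' : Cu K => Nonempty (c.F ≃ₐ[K] c'.F))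
    ⟨fun c => ⟨AlgEquiv.refl⟩, fun h => ⟨h.some.symm⟩, fun h h' => ⟨h.some.trans h'.some⟩⟩
    cu_class J (R ^ ε / 3) key
  refine ⟨hfinal.1, hfinal.2.trans (le_of_eq ?_)⟩
  ring

end H57.SL
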