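import Pool.Agent.H57.SL.Int
import Pool.Agent.H57.SL.Xab

/-!
# [H57 SL VFB] the limit of the truncated sum for the mean values is positive (100-140 lines)

`p = prK K`, `t x = bb m x / nx p x`. `|t x| ≤ ∏_{l ∈ x.1} (C / N l ^ 2) ∏_{l ∈ x.2} ((1 + C) / N l ^ 2)` (`|m l| ≤ C / N l`, `|1 + m l| ≤ 1 + C`), so for every finite set `U` of primes the sum of `|t x|` over the pairs of disjoint
subsets of `U` is at most `∏_{l ∈ U} (1 + (2 C + 1) / N l ^ 2) ≤ exp ((2 C + 1) ∑ 1 / N l ^ 2)`, bounded (`∑_l N l ^ (-3/2) < ∞`, see `sf32`, or `pz_summable` in `H63/MA/PZb`). So `t` is summable over all pairs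
(disjoint, outside `S`; extend by 0), and `AV p S m V → a₀ = ∑ t` for `V → ∞` (the finite sets `XP p S V` are increasing with union everything: `HasSum` along `Finset` `atTop`).
For a finite set `U` outside `S` the sum over the pairs of disjoint subsets of `U` is `P_U = ∏_{l ∈ U} (1 + m l / N l - (1 + m l) / N l ^ 2) = ∏_{l ∈ U} (1 - 1 / N l) (1 + (1 + m l) / N l)` (induction on `U`), and `a₀` is the limit of
`P_U` along the finite sets `U` (`U ↦` the pairs of subsets of `U` is cofinal). Each factor is `≥ 1 - 1 / N l ≥ 1/2` because `m l ≥ -1`, and it is `≥ 1 - (2 C + 1) / N l ^ 2`. For `N l ^ 2 > 2 (2 C + 1)` it is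
`≥ exp (- 2 (2 C + 1) / N l ^ 2)`; there are finitely many other `l`. So `P_U ≥ c₀ > 0` for all `U`, and `a₀ ≥ c₀ > 0`.
-/

set_option autoImplicit false

open scoped NumberField Classical
open IsDedekindDomain H63.MA NumberField H36.QA H57.LI H57.LC H67.SX H38.ML Filter Topology

noncomputable section

namespace H57.SL

section abs

variable {ι : Type}

private def gg (S : Finset ι) (a b : ι → ℝ) (x : Finset ι × Finset ι) : ℝ :=
  if Disjoint x.1 x.2 ∧ Disjoint x.1 S ∧ Disjoint x.2 S then pd a x.1 * pd b x.2 else 0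

private theorem gg_right (S : Finset ι) (a b : ι → ℝ) {U x y : Finset ι} {i : ι} (hi : i ∉ U) (hx : x ⊆ U)
    (hy : y ⊆ U) : gg S a b (x, insert i y) = (if i ∈ S then 0 else b i) * gg S a b (x, y) := by
  have hix : i ∉ x := fun h => hi (hx h)
  have hiy : i ∉ y := fun h => hi (hy h)
  have e : pd b (insert i y) = b i * pd b y := by
    unfold pd
    rw [Finset.prod_insert hiy]
  unfold gg
  by_cases hS : i ∈ S
  · rw [if_pos hS, zero_mul, if_neg]
    rintro ⟨-, -, h⟩
    exact (Finset.disjoint_left.1 h) (Finset.mem_insert_self i y) hS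
  · rw [if_neg hS]
    have e2 : (Disjoint x (insert i y) ∧ Disjoint x S ∧ Disjoint (insert i y) S) ↔
        (Disjoint x y ∧ Disjoint x S ∧ Disjoint y S) := by
      rw [Finset.disjoint_insert_right, Finset.disjoint_insert_left]
      tauto
    by_cases h : Disjoint x y ∧ Disjoint x S ∧ Disjoint y S
    · rw [if_pos (e2.2 h), if_pos h, e]
      ring
    · rw [if_neg (fun h' => h (e2.1 h')), if_neg h, mul_zero]

private theorem gg_left (S : Finset ι) (a b : ι → ℝ) {U x y : Finset ι} {i : ι} (hi : i ∉ U) (hx : x ⊆ U)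
    (hy : y ⊆ U) : gg S a b (insert i x, y) = (if i ∈ S then 0 else a i) * gg S a b (x, y) := by
  have hix : i ∉ x := fun h => hi (hx h)
  have hiy : i ∉ y := fun h => hi (hy h)
  have e : pd a (insert i x) = a i * pd a x := by
    unfold pd
    rw [Finset.prod_insert hix]
  unfold gg
  by_cases hS : i ∈ S
  · rw [if_pos hS, zero_mul, if_neg]
    rintro ⟨-, h, -⟩
    exact (Finset.disjoint_left.1 h) (Finset.mem_insert_self i x) hS
  · rw [if_neg hS]
    have e2 : (Disjoint (insert i x) y ∧ Disjoint (insert i x) S ∧ Disjoint y S) ↔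
        (Disjoint x y ∧ Disjoint x S ∧ Disjoint y S) := by
      rw [Finset.disjoint_insert_left, Finset.disjoint_insert_left]
      tauto
    by_cases h : Disjoint x y ∧ Disjoint x S ∧ Disjoint y S
    · rw [if_pos (e2.2 h), if_pos h, e]
      ring
    · rw [if_neg (fun h' => h (e2.1 h')), if_neg h, mul_zero]

private theorem gg_both (S : Finset ι) (a b : ι → ℝ) (x y : Finset ι) (i : ι) :
    gg S a b (insert i x, insert i y) = 0 := by
  unfold gg
  rw [if_neg]
  rintro ⟨h, -⟩
  exact (Finset.disjoint_left.1 h) (Finset.mem_insert_self i x) (Finset.mem_insert_self i y)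

private theorem gg_sum (S : Finset ι) (a b : ι → ℝ) (U : Finset ι) :
    ∑ x ∈ U.powerset ×ˢ U.powerset, gg S a b x =
      ∏ i ∈ U, (if i ∈ S then 1 else 1 + a i + b i) := by
  induction U using Finset.induction_on with
  | empty => simp [gg, pd]
  | insert i U hi ih =>
    rw [Finset.prod_insert hi, ← ih, Finset.sum_product, Finset.sum_product,
      Finset.sum_powerset_insert hi]
    have h1 : ∀ x ∈ U.powerset, ∑ y ∈ (insert i U).powerset, gg S a b (x, y) =
        (1 + (if i ∈ S then 0 else b i)) * ∑ y ∈ U.powerset, gg S a b (x, y) := by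
      intro x hx
      rw [Finset.sum_powerset_insert hi, add_mul, one_mul, Finset.mul_sum]
      congr 1
      exact Finset.sum_congr rfl fun y hy =>
        gg_right S a b hi (Finset.mem_powerset.1 hx) (Finset.mem_powerset.1 hy)
    have h2 : ∀ x ∈ U.powerset, ∑ y ∈ (insert i U).powerset, gg S a b (insert i x, y) =
        (if i ∈ S then 0 else a i) * ∑ y ∈ U.powerset, gg S a b (x, y) := by
      intro x hx
      rw [Finset.sum_powerset_insert hi, Finset.mul_sum]
      have e : ∑ y ∈ U.powerset, gg S a b (insert i x, insert i y) = 0 :=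
        Finset.sum_eq_zero fun y _ => gg_both S a b x y i
      rw [e, add_zero]
      exact Finset.sum_congr rfl fun y hy =>
        gg_left S a b hi (Finset.mem_powerset.1 hx) (Finset.mem_powerset.1 hy)
    rw [Finset.sum_congr rfl h1, Finset.sum_congr rfl h2, ← Finset.mul_sum, ← Finset.mul_sum]
    by_cases hS : i ∈ S
    · rw [if_pos hS, if_pos hS, if_pos hS]
      ring
    · rw [if_neg hS, if_neg hS, if_neg hS]
      ring

private theorem gg_abs (S : Finset ι) (a b : ι → ℝ) (x : Finset ι × Finset ι) :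
    |gg S a b x| = gg S (fun i => |a i|) (fun i => |b i|) x := by
  unfold gg pd
  split_ifs
  · rw [abs_mul, Finset.abs_prod, Finset.abs_prod]
  · exact abs_zero

private theorem gg_nonneg (S : Finset ι) (a b : ι → ℝ) (x : Finset ι × Finset ι) :
    0 ≤ gg S (fun i => |a i|) (fun i => |b i|) x := by
  rw [← gg_abs]
  exact abs_nonneg _

private theorem gg_summable (S : Finset ι) (a b w : ι → ℝ) (hw : Summable w) (hw0 : ∀ i, 0 ≤ w i)
    (hab : ∀ i, |a i| + |b i| ≤ w i) : Summable (gg S a b) := by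
  refine Summable.of_abs (summable_of_sum_le (c := Real.exp (∑' i, w i)) (fun x => abs_nonneg _) fun T => ?_)
  set U : Finset ι := T.biUnion fun x => x.1 ∪ x.2 with hU
  have hsub : T ⊆ U.powerset ×ˢ U.powerset := by
    intro x hx
    rw [Finset.mem_product, Finset.mem_powerset, Finset.mem_powerset]
    constructor
    · intro i hi
      exact Finset.mem_biUnion.2 ⟨x, hx, Finset.mem_union_left _ hi⟩
    · intro i hi
      exact Finset.mem_biUnion.2 ⟨x, hx, Finset.mem_union_right _ hi⟩
  calc ∑ x ∈ T, |gg S a b x| ≤ ∑ x ∈ U.powerset ×ˢ U.powerset, |gg S a b x| :=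
        Finset.sum_le_sum_of_subset_of_nonneg hsub fun x _ _ => abs_nonneg _
    _ = ∏ i ∈ U, (if i ∈ S then 1 else 1 + |a i| + |b i|) := by
        rw [← gg_sum]
        exact Finset.sum_congr rfl fun x _ => gg_abs S a b x
    _ ≤ ∏ i ∈ U, Real.exp (w i) := by
        refine Finset.prod_le_prod (fun i _ => ?_) fun i _ => ?_
        · split_ifs
          · exact zero_le_one
          · have := abs_nonneg (a i)
            have := abs_nonneg (b i)
            linarith
        · have h1 := Real.add_one_le_exp (w i)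
          have h2 := hab i
          have h3 := hw0 i
          split_ifs
          · linarith
          · linarith
    _ = Real.exp (∑ i ∈ U, w i) := (Real.exp_sum _ _).symm
    _ ≤ Real.exp (∑' i, w i) := Real.exp_le_exp.2 (hw.sum_le_tsum _ fun i _ => hw0 i)

private theorem gg_pos (S : Finset ι) (a b w : ι → ℝ) (hw : Summable w) (hw0 : ∀ i, 0 ≤ w i)
    (hab : ∀ i, |a i| + |b i| ≤ w i) (v : ι → ℝ) (hv : Summable v) (hv0 : ∀ i, 0 ≤ v i)
    (hlow : ∀ i, Real.exp (-v i) ≤ 1 + a i + b i) : 0 < ∑' x, gg S a b x := by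
  have hs := (gg_summable S a b w hw hw0 hab).hasSum
  have ht : Tendsto (fun U : Finset ι => U.powerset ×ˢ U.powerset) atTop atTop := by
    refine tendsto_atTop_finset_of_monotone ?_ ?_
    · intro U V h
      exact Finset.product_subset_product (Finset.powerset_mono.2 h) (Finset.powerset_mono.2 h)
    · intro x
      refine ⟨x.1 ∪ x.2, ?_⟩
      rw [Finset.mem_product, Finset.mem_powerset, Finset.mem_powerset]
      exact ⟨Finset.subset_union_left, Finset.subset_union_right⟩
  have h1 : Tendsto (fun U : Finset ι => ∑ x ∈ U.powerset ×ˢ U.powerset, gg S a b x) atTop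
      (𝓝 (∑' x, gg S a b x)) := by
    have hs' : Tendsto (fun s : Finset (Finset ι × Finset ι) => ∑ x ∈ s, gg S a b x) atTop
        (𝓝 (∑' x, gg S a b x)) := by
      simpa [HasSum] using hs
    exact hs'.comp ht
  refine lt_of_lt_of_le (Real.exp_pos (-∑' i, v i)) (ge_of_tendsto' h1 fun U => ?_)
  rw [gg_sum]
  calc Real.exp (-∑' i, v i) ≤ Real.exp (-∑ i ∈ U, v i) :=
        Real.exp_le_exp.2 (neg_le_neg (hv.sum_le_tsum _ fun i _ => hv0 i))
    _ = ∏ i ∈ U, Real.exp (-v i) := by
        rw [← Finset.sum_neg_distrib, Real.exp_sum]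
    _ ≤ ∏ i ∈ U, (if i ∈ S then 1 else 1 + a i + b i) := by
        refine Finset.prod_le_prod (fun i _ => (Real.exp_pos _).le) fun i _ => ?_
        split_ifs
        · exact Real.exp_le_one_iff.2 (by have := hv0 i; linarith)
        · exact hlow i

private theorem gg_term (p : Pr ι) (m : ι → ℝ) (x : Finset ι × Finset ι) :
    bb m x / nx p x = pd (fun i => m i / p.N i) x.1 * pd (fun i => -(1 + m i) / (p.N i : ℝ) ^ 2) x.2 := by
  unfold bb nx pd Pr.nn
  rw [Finset.prod_div_distrib, Finset.prod_div_distrib, Finset.prod_pow, div_mul_div_comm]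

private theorem av_tendsto (p : Pr ι) (S : Finset ι) (m w : ι → ℝ) (hw : Summable w) (hw0 : ∀ i, 0 ≤ w i)
    (hab : ∀ i, |m i / p.N i| + |-(1 + m i) / (p.N i : ℝ) ^ 2| ≤ w i) :
    Tendsto (fun V : ℝ => AV p S m V) atTop
      (𝓝 (∑' x, gg S (fun i => m i / p.N i) (fun i => -(1 + m i) / (p.N i : ℝ) ^ 2) x)) := by
  have hs := (gg_summable S (fun i => m i / p.N i) (fun i => -(1 + m i) / (p.N i : ℝ) ^ 2) w hw hw0 hab).hasSum
  have hmem : ∀ (V : ℝ) (x : Finset ι × Finset ι),
      x ∈ (p.SF V ×ˢ p.SF V).filter (fun x => nx p x ≤ V) ↔ nx p x ≤ V := by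
    intro V x
    rw [Finset.mem_filter, Finset.mem_product, p.mem_SF, p.mem_SF]
    refine ⟨fun h => h.2, fun h => ⟨⟨?_, ?_⟩, h⟩⟩
    · have h1 := p.one_le_nn x.1
      have h2 := p.one_le_nn x.2
      unfold nx at h
      nlinarith [one_le_pow₀ (n := 2) h2]
    · have h1 := p.one_le_nn x.1
      have h2 := p.one_le_nn x.2
      unfold nx at h
      nlinarith [mul_nonneg (sub_nonneg.2 h1) (sq_nonneg (p.nn x.2))]
  have ht : Tendsto (fun V : ℝ => (p.SF V ×ˢ p.SF V).filter (fun x => nx p x ≤ V)) atTop atTop := by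
    refine tendsto_atTop_finset_of_monotone ?_ ?_
    · intro V W h x hx
      rw [hmem] at hx ⊢
      exact hx.trans h
    · intro x
      exact ⟨nx p x, (hmem _ x).2 le_rfl⟩
  have hs' : Tendsto (fun s : Finset (Finset ι × Finset ι) =>
      ∑ x ∈ s, gg S (fun i => m i / p.N i) (fun i => -(1 + m i) / (p.N i : ℝ) ^ 2) x) atTop
      (𝓝 (∑' x, gg S (fun i => m i / p.N i) (fun i => -(1 + m i) / (p.N i : ℝ) ^ 2) x)) := by
    simpa [HasSum] using hs
  refine (hs'.comp ht).congr fun V => ?_
  simp only [Function.comp_apply]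
  symm
  unfold AV
  have e : XP p S V = ((p.SF V ×ˢ p.SF V).filter (fun x => nx p x ≤ V)).filter
      (fun x => Disjoint x.1 x.2 ∧ Disjoint x.1 S ∧ Disjoint x.2 S) := by
    unfold XP
    rw [Finset.filter_filter]
    refine Finset.filter_congr fun x _ => ?_
    tauto
  rw [e, Finset.sum_filter]
  refine Finset.sum_congr rfl fun x _ => ?_
  unfold gg
  rw [gg_term]

end abs

theorem vfb (K : Type) [Field K] [NumberField K] (S : Finset (Pl K)) (m : Pl K → ℝ) (C : ℝ)
    (hm : ∀ l, |m l| ≤ C / nm l) (hm1 : ∀ l, -1 ≤ m l) :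
    ∃ a₀ : ℝ, 0 < a₀ ∧ Tendsto (fun V : ℝ => AV (prK K) S m V) atTop (𝓝 a₀) := by
  have hN2 : ∀ l : Pl K, (2 : ℝ) ≤ (prK K).N l := fun l => (prK K).two_le l
  have hm' : ∀ l : Pl K, |m l| ≤ |C| / (prK K).N l := by
    intro l
    have h1 := hm l
    have h2 := hN2 l
    rw [prK_N] at h2 ⊢
    refine h1.trans ?_
    gcongr
    exact le_abs_self C
  have hC := abs_nonneg C
  set D : ℝ := 2 * |C| + 1 with hD
  have hsum : Summable fun l : Pl K => 1 / ((prK K).N l : ℝ) ^ 2 := by
    refine (pz_summable K (s := 2) (by norm_num)).congr fun l => ?_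
    rw [prK_N, Real.rpow_neg (Nat.cast_nonneg _), one_div]
    norm_cast
  set w : Pl K → ℝ := fun l => D * (1 / ((prK K).N l : ℝ) ^ 2) with hw
  have hws : Summable w := hsum.mul_left D
  have hw0 : ∀ l, 0 ≤ w l := fun l => by
    have h2 := hN2 l
    rw [hw]
    positivity
  have hml : ∀ l : Pl K, |m l| ≤ |C| := by
    intro l
    have h2 := hN2 l
    refine (hm' l).trans ?_
    rw [div_le_iff₀ (by linarith)]
    nlinarith
  have hab : ∀ l, |m l / (prK K).N l| + |-(1 + m l) / ((prK K).N l : ℝ) ^ 2| ≤ w l := by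
    intro l
    have h2 := hN2 l
    have h0 : (0 : ℝ) < (prK K).N l := by linarith
    have e1 : |m l / (prK K).N l| ≤ |C| / ((prK K).N l : ℝ) ^ 2 := by
      rw [abs_div, abs_of_pos h0, pow_two, ← div_div]
      gcongr
      exact hm' l
    have e2 : |-(1 + m l) / ((prK K).N l : ℝ) ^ 2| ≤ (1 + |C|) / ((prK K).N l : ℝ) ^ 2 := by
      rw [abs_div, abs_neg, abs_of_pos (pow_pos h0 2)]
      gcongr
      refine (abs_add_le _ _).trans ?_
      rw [abs_one]
      linarith [hml l]
    calc |m l / (prK K).N l| + |-(1 + m l) / ((prK K).N l : ℝ) ^ 2|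
        ≤ |C| / ((prK K).N l : ℝ) ^ 2 + (1 + |C|) / ((prK K).N l : ℝ) ^ 2 := add_le_add e1 e2
      _ = w l := by
          rw [hw, hD]
          ring
  have hlow : ∀ l, Real.exp (-(2 * w l)) ≤ 1 + m l / (prK K).N l + -(1 + m l) / ((prK K).N l : ℝ) ^ 2 := by
    intro l
    have h2 := hN2 l
    have h0 : (0 : ℝ) < (prK K).N l := by linarith
    have h3 := hab l
    have hA := hw0 l
    by_cases hx : w l ≤ 1 / 2
    · have h4 : 1 - w l ≤ 1 + m l / (prK K).N l + -(1 + m l) / ((prK K).N l : ℝ) ^ 2 := by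
        have h5 := neg_abs_le (m l / (prK K).N l)
        have h6 := neg_abs_le (-(1 + m l) / ((prK K).N l : ℝ) ^ 2)
        linarith
      refine le_trans ?_ h4
      have h7 : Real.exp (-(2 * w l)) * (1 + 2 * w l) ≤ 1 := by
        have h8 := Real.add_one_le_exp (2 * w l)
        have h9 := Real.exp_pos (-(2 * w l))
        have h10 : Real.exp (-(2 * w l)) * Real.exp (2 * w l) = 1 := by
          rw [← Real.exp_add]
          simp
        nlinarith
      have h11 : 1 ≤ (1 - w l) * (1 + 2 * w l) := by nlinarith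
      have h12 : 0 < 1 + 2 * w l := by linarith
      by_contra hcon
      push Not at hcon
      nlinarith
    · push Not at hx
      have h4 : 1 + m l / (prK K).N l + -(1 + m l) / ((prK K).N l : ℝ) ^ 2 =
          (1 - 1 / (prK K).N l) * (1 + (1 + m l) / (prK K).N l) := by
        field_simp
        ring
      have h5 : 1 / ((prK K).N l : ℝ) ≤ 1 / 2 := one_div_le_one_div_of_le (by norm_num) h2
      have h6 : 0 ≤ (1 + m l) / (prK K).N l := div_nonneg (by linarith [hm1 l]) h0.le
      have h7 : (1 : ℝ) / 2 ≤ (1 - 1 / (prK K).N l) * (1 + (1 + m l) / (prK K).N l) := by nlinarith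
      rw [h4]
      refine le_trans ?_ h7
      have h8 : Real.exp (-(2 * w l)) ≤ Real.exp (-1) := Real.exp_le_exp.2 (by linarith)
      have h9 : Real.exp (-1) ≤ 1 / 2 := by
        have h10 := Real.add_one_le_exp (1 : ℝ)
        have h11 : Real.exp (-1) * Real.exp 1 = 1 := by
          rw [← Real.exp_add]
          simp
        have h12 := Real.exp_pos (-1 : ℝ)
        nlinarith
      exact h8.trans h9
  exact ⟨_, gg_pos S _ _ w hws hw0 hab (fun l => 2 * w l) (hws.mul_left 2) (fun l => by have := hw0 l; linarith) hlow,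
    av_tendsto (prK K) S m w hws hw0 hab⟩

end H57.SL
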