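import Pool.Agent.H57.SL.Vfa
import Pool.Agent.H57.SL.Vfb
import Pool.Agent.H57.SL.Wsm
import Pool.Agent.H57.SL.Cbl
import Pool.Agent.H57.SL.Bdn

/-!
# [H57 SL VFC] LS5 (120-160 lines)

`cu_fin`: `|disc c.F| ≤ C c.D` (`ddt`) and there are finitely many number fields of bounded discriminant in `QBar` (Mathlib `NumberField.finite_of_discr_bdd`, with `A = QBar` and
`IntermediateField.restrictScalars`; `c ↦ c.F` is injective).

`vfc`: let `c₀` be given, `κ, m, C, A, δ` from `MStat`, `a₀` from `vfb`, `a := κ * kS S * a₀ > 0` (`kS_spec`), `T_R = {c | LEq S Q c₀ c ∧ c.D ≤ R}` (finite), `C', A'` from `vfa`, `η₀ := min 1 (δ / (2 (A' + 1)))`, `V = R ^ η₀`.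
(1) `∑_{T_R} kS AV c.mu V = κ kS R AV m V + O(C' V ^ A' R^(1-δ)) = a R + o(R)` (`V ^ A' R^(1-δ) ≤ R^(1-δ/2)`; `vfb`).
(2) `#T_R ≤ C R` (`MStat` with `q = ∅`: `κ R + C R^(1-δ)`).
(3) `|∑_{T_R} (Am c - kS AV c.mu V)| ≤ #T_R / log R + ∑_{exceptions} (|Am c| + kS |AV c.mu V|)`; by `APX` the number of the exceptions is at most `R^(1/2)`; `|Am c| ≤ C (1 + log R)^3` (LS3, `c.D ≤ R`), `|AV c.mu V| ≤ C (1 + log V)^k`
(`xab`, `|c.mu| ≤ 2`). So it is `≤ C R / log R + R^(1/2) C (1 + log R)^k = o(R)`.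
Hence `(∑_{T_R} Am c) / R → a`.
-/

set_option autoImplicit false

open scoped NumberField Classical
open IsDedekindDomain H63.MA NumberField H36.QA H57.LI H57.LC H67.SX H38.ML Filter Topology

noncomputable section

namespace H57.SL

theorem cu_fin (K : IntermediateField ℚ QBar) [NumberField K] (R : ℝ) :
    {c : Cu K | c.D ≤ R}.Finite := by
  obtain ⟨C, hC, hCd⟩ := ddt K
  obtain ⟨N, hN⟩ := exists_nat_ge (C * R)
  have hfd : ∀ c : Cu K, FiniteDimensional ℚ (c.F.restrictScalars ℚ) := by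
    intro c
    have h1 : FiniteDimensional ℚ c.F := Module.Finite.trans (R := ℚ) K c.F
    exact h1
  have h := NumberField.finite_of_discr_bdd QBar N
  refine Set.Finite.of_finite_image (f := fun c : Cu K =>
    (⟨c.F.restrictScalars ℚ, hfd c⟩ : {F : IntermediateField ℚ QBar // FiniteDimensional ℚ F})) ?_ ?_
  · refine h.subset ?_
    rintro _ ⟨c, hc, rfl⟩
    have hnf : NumberField (c.F.restrictScalars ℚ) := @NumberField.mk _ _ inferInstance (hfd c)
    show |NumberField.discr (c.F.restrictScalars ℚ)| ≤ N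
    have hc' : c.D ≤ R := hc
    let e : c.F ≃+* (c.F.restrictScalars ℚ) :=
      { toFun := fun x => ⟨x.1, x.2⟩
        invFun := fun x => ⟨x.1, x.2⟩
        left_inv := fun _ => rfl
        right_inv := fun _ => rfl
        map_mul' := fun _ _ => rfl
        map_add' := fun _ _ => rfl }
    have h2 : NumberField.discr c.F = NumberField.discr (c.F.restrictScalars ℚ) :=
      NumberField.discr_eq_discr_of_ringEquiv c.F e
    rw [← h2]
    have h4 : |(NumberField.discr c.F : ℝ)| ≤ N :=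
      ((hCd c).trans (mul_le_mul_of_nonneg_left hc' (by linarith))).trans hN
    exact_mod_cast h4
  · intro c _ c' _ hcc
    have h1 : c.F.restrictScalars ℚ = c'.F.restrictScalars ℚ := congrArg Subtype.val hcc
    have h2 : c.F = c'.F := IntermediateField.restrictScalars_injective ℚ h1
    obtain ⟨F, h3, h4⟩ := c
    obtain ⟨F', h5, h6⟩ := c'
    dsimp only at h2
    subst h2
    rfl

private theorem vfc_log (n : ℕ) :
    Tendsto (fun R : ℝ => (1 + Real.log R) ^ n / R ^ (1 / 2 : ℝ)) atTop (𝓝 0) := by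
  have h1 := (isLittleO_log_rpow_rpow_atTop (n : ℝ) (show (0 : ℝ) < 1 / 2 by norm_num)).tendsto_div_nhds_zero
  have h2 : Tendsto (fun R : ℝ => (2 : ℝ) ^ n * (Real.log R ^ (n : ℝ) / R ^ (1 / 2 : ℝ))) atTop (𝓝 0) := by
    simpa using h1.const_mul ((2 : ℝ) ^ n)
  refine squeeze_zero' ?_ ?_ h2
  · filter_upwards [eventually_ge_atTop 1] with R hR
    have := Real.log_nonneg hR
    positivity
  · filter_upwards [eventually_ge_atTop (Real.exp 1)] with R hR
    have hR0 : 0 < R := (Real.exp_pos 1).trans_le hR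
    have h3 : 1 ≤ Real.log R := (Real.le_log_iff_exp_le hR0).2 hR
    rw [Real.rpow_natCast, ← mul_div_assoc, ← mul_pow]
    refine div_le_div_of_nonneg_right ?_ (by positivity)
    exact pow_le_pow_left₀ (by linarith) (by linarith) n

private theorem vfc_av {K : IntermediateField ℚ QBar} [NumberField K] (S : Finset (Pl K)) (μ : Pl K → ℝ) (V B : ℝ)
    (h : ∑ x ∈ XP (prK K) S V, |bb μ x| / nx (prK K) x ≤ B) : |AV (prK K) S μ V| ≤ B := by
  refine le_trans ?_ h
  unfold AV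
  refine (Finset.abs_sum_le_sum_abs _ _).trans (le_of_eq (Finset.sum_congr rfl fun x _ => ?_))
  rw [abs_div]
  congr 1
  apply abs_of_pos
  unfold nx
  have h1 := (prK K).nn_pos x.1
  have h2 := (prK K).nn_pos x.2
  positivity

theorem vfc (K : IntermediateField ℚ QBar) [NumberField K] (S : Finset (Pl K))
    (Q : DP K QBar) (Am : Cu K → ℝ) (h3 : LS3 K S Am) (hA : APX K S Am)
    (hM : MStat K S Q) : LS5 K S Q Am := by
  obtain ⟨C₃, A₃, δ₃, hC₃, -, -, hAm⟩ := h3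
  obtain ⟨C₄, k₄, hC₄, hxab⟩ := xab (prK K)
  have hk := (kS_spec K S).1
  obtain ⟨k, hkd⟩ : ∃ k, k = kS S := ⟨_, rfl⟩
  rw [← hkd] at hk
  intro c₀
  obtain ⟨κ, m, C, A, δ, hκ, hC, hδ, hδ1, hm, hm1, hM⟩ := hM c₀
  obtain ⟨a₀, ha₀, hlim⟩ := vfb K S m C hm hm1
  have hfin : ∀ R : ℝ, {c : Cu K | LEq S Q c₀ c ∧ c.D ≤ R}.Finite := fun R =>
    (cu_fin K R).subset (fun c hc => hc.2)
  obtain ⟨C', A', hC', hvfa⟩ := vfa S Q c₀ κ m C A δ hC hfin hM
  obtain ⟨η, hη⟩ : ∃ η, η = min 1 (δ / (2 * ((A' : ℝ) + 1))) := ⟨_, rfl⟩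
  have hη0 : 0 < η := by
    rw [hη]
    exact lt_min one_pos (by positivity)
  have hη1 : η ≤ 1 := by
    rw [hη]
    exact min_le_left _ _
  have hηA : η * A' ≤ δ / 2 := by
    have h1 : η ≤ δ / (2 * ((A' : ℝ) + 1)) := by
      rw [hη]
      exact min_le_right _ _
    rw [le_div_iff₀ (by positivity)] at h1
    linarith
  obtain ⟨R₀, hR₀, hapx⟩ := hA η hη0 hη1
  rw [← hkd] at hapx
  have hC0 : 0 < C := by linarith
  have hC₃0 : 0 < C₃ := by linarith
  have hC₄0 : 0 < C₄ := by linarith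
  have hC'0 : 0 < C' := by linarith
  refine ⟨κ * k * a₀, by positivity, ?_⟩
  obtain ⟨F, hF⟩ : ∃ F : ℝ → ℝ, ∀ R, F R = (κ + C) * (Real.log R)⁻¹ +
      (C₃ * ((1 + Real.log R) ^ 3 / R ^ (1 / 2 : ℝ)) + k * C₄ * ((1 + Real.log R) ^ k₄ / R ^ (1 / 2 : ℝ))) +
      k * C' * R ^ (-(δ / 2)) + κ * k * |AV (prK K) S m (R ^ η) - a₀| := ⟨fun R => _, fun R => rfl⟩
  have hF0 : Tendsto F atTop (𝓝 0) := by
    have e : F = fun R => (κ + C) * (Real.log R)⁻¹ +
      (C₃ * ((1 + Real.log R) ^ 3 / R ^ (1 / 2 : ℝ)) + k * C₄ * ((1 + Real.log R) ^ k₄ / R ^ (1 / 2 : ℝ))) +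
      k * C' * R ^ (-(δ / 2)) + κ * k * |AV (prK K) S m (R ^ η) - a₀| := funext hF
    rw [e]
    have t1 : Tendsto (fun R : ℝ => (κ + C) * (Real.log R)⁻¹) atTop (𝓝 0) := by
      simpa using (tendsto_inv_atTop_zero.comp Real.tendsto_log_atTop).const_mul (κ + C)
    have t2 : Tendsto (fun R : ℝ => C₃ * ((1 + Real.log R) ^ 3 / R ^ (1 / 2 : ℝ))) atTop (𝓝 0) := by
      simpa using (vfc_log 3).const_mul C₃
    have t3 : Tendsto (fun R : ℝ => k * C₄ * ((1 + Real.log R) ^ k₄ / R ^ (1 / 2 : ℝ))) atTop (𝓝 0) := by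
      simpa using (vfc_log k₄).const_mul (k * C₄)
    have t4 : Tendsto (fun R : ℝ => k * C' * R ^ (-(δ / 2))) atTop (𝓝 0) := by
      simpa using (tendsto_rpow_neg_atTop (show 0 < δ / 2 by positivity)).const_mul (k * C')
    have t5 : Tendsto (fun R : ℝ => κ * k * |AV (prK K) S m (R ^ η) - a₀|) atTop (𝓝 0) := by
      have h1 : Tendsto (fun R : ℝ => AV (prK K) S m (R ^ η)) atTop (𝓝 a₀) :=
        hlim.comp (tendsto_rpow_atTop hη0)
      have h2 := (h1.sub_const a₀).abs.const_mul (κ * k)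
      simpa using h2
    simpa using ((t1.add (t2.add t3)).add t4).add t5
  rw [tendsto_iff_norm_sub_tendsto_zero]
  refine squeeze_zero' (Eventually.of_forall fun _ => norm_nonneg _) ?_ hF0
  filter_upwards [eventually_ge_atTop R₀] with R hR
  have hR3 : 3 ≤ R := hR₀.trans hR
  have hR1 : 1 ≤ R := by linarith
  have hR0 : 0 < R := by linarith
  have hlog0 : 0 < Real.log R := Real.log_pos (by linarith)
  rw [Real.norm_eq_abs]
  obtain ⟨T, hT⟩ : ∃ T, T = (hfin R).toFinset := ⟨_, rfl⟩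
  have hTm : ∀ c ∈ T, LEq S Q c₀ c ∧ c.D ≤ R := fun c hc => by
    rw [hT, Set.Finite.mem_toFinset] at hc
    exact hc
  obtain ⟨V, hV⟩ : ∃ V, V = R ^ η := ⟨_, rfl⟩
  have hV1 : 1 ≤ V := by
    rw [hV]
    exact Real.one_le_rpow hR1 hη0.le
  have hlV : Real.log V ≤ Real.log R := by
    rw [hV, Real.log_rpow hR0]
    have := mul_le_mul_of_nonneg_right hη1 hlog0.le
    linarith
  have hcard : (T.card : ℝ) ≤ (κ + C) * R := by
    have h1 := hM ∅ (by simp) R hR1
    rw [finsum_mem_eq_finite_toFinset_sum _ (hfin R), ← hT] at h1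
    simp only [Finset.prod_empty, Finset.sum_const, nsmul_eq_mul, mul_one, nr, one_pow] at h1
    have h2 : R ^ (1 - δ) ≤ R := by
      have := Real.rpow_le_rpow_of_exponent_le hR1 (show 1 - δ ≤ 1 by linarith)
      rwa [Real.rpow_one] at this
    have h3 := (abs_le.1 h1).2
    have h4 : C * R ^ (1 - δ) ≤ C * R := mul_le_mul_of_nonneg_left h2 hC0.le
    linarith
  have hAV : ∀ c : Cu K, |AV (prK K) S c.mu V| ≤ C₄ * (1 + Real.log R) ^ k₄ := by
    intro c
    refine vfc_av S c.mu V _ ((hxab c.mu (fun l => (cbl_mu c l).1) S V hV1).trans ?_)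
    refine mul_le_mul_of_nonneg_left (pow_le_pow_left₀ ?_ (by linarith) _) hC₄0.le
    have := Real.log_nonneg hV1
    linarith
  have hAmb : ∀ c ∈ T, |Am c| ≤ C₃ * (1 + Real.log R) ^ 3 := by
    intro c hc
    obtain ⟨h1, h2, -⟩ := hAm c
    rw [abs_of_nonneg h1]
    refine h2.trans (mul_le_mul_of_nonneg_left (pow_le_pow_left₀ ?_ ?_ _) hC₃0.le)
    · have := Real.log_nonneg (one_le_D c)
      linarith
    · have := Real.log_le_log (lt_of_lt_of_le one_pos (one_le_D c)) (hTm c hc).2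
      linarith
  obtain ⟨B, hB⟩ : ∃ B, B = C₃ * (1 + Real.log R) ^ 3 + k * (C₄ * (1 + Real.log R) ^ k₄) := ⟨_, rfl⟩
  have hB0 : 0 ≤ B := by
    rw [hB]
    positivity
  obtain ⟨hXf, hXc⟩ := hapx R hR
  rw [← hV] at hXf hXc
  obtain ⟨X, hX⟩ : ∃ X, X = {c : Cu K | c.D ≤ R ∧ 1 / Real.log R < |k * AV (prK K) S c.mu V - Am c|} := ⟨_, rfl⟩
  rw [← hX] at hXf hXc
  have hone : ∀ c ∈ T, |Am c - k * AV (prK K) S c.mu V| ≤ 1 / Real.log R + if c ∈ X then B else 0 := by
    intro c hc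
    by_cases hcX : c ∈ X
    · rw [if_pos hcX]
      have h1 := abs_sub (Am c) (k * AV (prK K) S c.mu V)
      rw [abs_mul, abs_of_pos hk] at h1
      have h2 := hAmb c hc
      have h3 := mul_le_mul_of_nonneg_left (hAV c) hk.le
      have h4 : 0 ≤ 1 / Real.log R := by positivity
      rw [hB]
      linarith
    · rw [if_neg hcX, add_zero]
      by_contra hcon
      push Not at hcon
      apply hcX
      rw [hX]
      refine ⟨(hTm c hc).2, ?_⟩
      rw [abs_sub_comm]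
      exact hcon
  have hs1 : |∑ c ∈ T, Am c - k * ∑ c ∈ T, AV (prK K) S c.mu V| ≤
      (κ + C) * R * (1 / Real.log R) + R ^ (1 / 2 : ℝ) * B := by
    rw [Finset.mul_sum, ← Finset.sum_sub_distrib]
    refine (Finset.abs_sum_le_sum_abs _ _).trans ((Finset.sum_le_sum hone).trans ?_)
    rw [Finset.sum_add_distrib, Finset.sum_const, nsmul_eq_mul, ← Finset.sum_filter, Finset.sum_const,
      nsmul_eq_mul]
    refine add_le_add (mul_le_mul_of_nonneg_right hcard (by positivity)) (mul_le_mul_of_nonneg_right ?_ hB0)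
    refine le_trans ?_ hXc
    have h1 : ((T.filter fun c => c ∈ X).card : ℝ) ≤ (X.ncard : ℝ) := by
      have h2 := Set.ncard_le_ncard (s := ((T.filter fun c => c ∈ X : Finset (Cu K)) : Set (Cu K))) (t := X)
        (fun c hc => (Finset.mem_filter.1 (Finset.mem_coe.1 hc)).2) hXf
      rw [Set.ncard_coe_finset] at h2
      exact_mod_cast h2
    exact h1
  have hs2 : |∑ c ∈ T, AV (prK K) S c.mu V - κ * R * AV (prK K) S m V| ≤ C' * (R * R ^ (-(δ / 2))) := by
    have h1 := hvfa V R hV1 hR1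
    rw [finsum_mem_eq_finite_toFinset_sum _ (hfin R), ← hT] at h1
    refine h1.trans ?_
    rw [mul_assoc]
    refine mul_le_mul_of_nonneg_left ?_ hC'0.le
    have h2 : V ^ A' = R ^ (η * A') := by
      rw [hV, Real.rpow_mul hR0.le, Real.rpow_natCast]
    have h3 : R * R ^ (-(δ / 2)) = R ^ (1 + -(δ / 2)) := by
      rw [Real.rpow_add hR0, Real.rpow_one]
    rw [h2, h3, ← Real.rpow_add hR0]
    exact Real.rpow_le_rpow_of_exponent_le hR1 (by linarith)
  have hs3 : |κ * R * AV (prK K) S m V - κ * R * a₀| = κ * R * |AV (prK K) S m V - a₀| := by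
    rw [← mul_sub, abs_mul, abs_of_pos (by positivity)]
  have hfs : (∑ᶠ c ∈ {c : Cu K | LEq S Q c₀ c ∧ c.D ≤ R}, Am c) = ∑ c ∈ T, Am c := by
    rw [finsum_mem_eq_finite_toFinset_sum _ (hfin R), ← hT]
  show |(∑ᶠ c ∈ {c : Cu K | LEq S Q c₀ c ∧ c.D ≤ R}, Am c) / R - κ * k * a₀| ≤ F R
  rw [hfs]
  have hmain : |∑ c ∈ T, Am c - κ * k * a₀ * R| ≤ F R * R := by
    have e1 : ∑ c ∈ T, Am c - κ * k * a₀ * R = (∑ c ∈ T, Am c - k * ∑ c ∈ T, AV (prK K) S c.mu V) +
        k * ((∑ c ∈ T, AV (prK K) S c.mu V - κ * R * AV (prK K) S m V) +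
          (κ * R * AV (prK K) S m V - κ * R * a₀)) := by ring
    have h1 : |∑ c ∈ T, Am c - κ * k * a₀ * R| ≤ ((κ + C) * R * (1 / Real.log R) + R ^ (1 / 2 : ℝ) * B) +
        k * (C' * (R * R ^ (-(δ / 2))) + κ * R * |AV (prK K) S m V - a₀|) := by
      rw [e1]
      refine (abs_add_le _ _).trans (add_le_add hs1 ?_)
      rw [abs_mul, abs_of_pos hk]
      refine mul_le_mul_of_nonneg_left ?_ hk.le
      refine (abs_add_le _ _).trans (add_le_add hs2 ?_)
      rw [hs3]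
    refine h1.trans (le_of_eq ?_)
    have h2 : R ^ (1 / 2 : ℝ) * R ^ (1 / 2 : ℝ) = R := by
      rw [← Real.rpow_add hR0]
      norm_num
    have h3 : 0 < R ^ (1 / 2 : ℝ) := by positivity
    have h4 : ∀ y : ℝ, y / R ^ (1 / 2 : ℝ) * R = y * R ^ (1 / 2 : ℝ) := by
      intro y
      rw [div_mul_eq_mul_div, div_eq_iff h3.ne', mul_assoc, h2]
    have e2 := h4 ((1 + Real.log R) ^ 3)
    have e3 := h4 ((1 + Real.log R) ^ k₄)
    rw [hF, hB, hV, one_div (Real.log R)]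
    linear_combination (-C₃) * e2 + (-(k * C₄)) * e3
  have h5 : (∑ c ∈ T, Am c) / R - κ * k * a₀ = (∑ c ∈ T, Am c - κ * k * a₀ * R) / R := by
    field_simp
  rw [h5, abs_div, abs_of_pos hR0, div_le_iff₀ hR0]
  exact hmain

end H57.SL
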