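import Pool.Agent.H57.SL.Int
import Pool.Agent.H57.LI.Sfk

/-!
# [H57 SL VFA] averaging the truncated sum over the fields of one type (100-140 lines)

For disjoint `d`, `f`: `bb μ (d, f) = pd μ d * ∏_{l ∈ f} (-(1 + μ l)) = (-1) ^ #f ∑_{g ⊆ f} pd μ (d ∪ g)` (`Finset.prod_one_add` or `Finset.prod_add`), for `μ = c.mu` and for `μ = m`. So for a pair `x ∈ XP (prK K) S V`:
`|∑_c bb c.mu x - κ R bb m x| ≤ ∑_{g ⊆ x.2} |∑_c pd c.mu (x.1 ∪ g) - κ R pd m (x.1 ∪ g)| ≤ 2 ^ #x.2 C (nr (x.1 ∪ x.2)) ^ A R^(1-δ) ≤ C V ^ (A + 1) R^(1-δ)`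
(`x.1 ∪ g` is disjoint from `S`; `nr (x.1 ∪ g) ≤ nx x ≤ V`, `2 ^ #x.2 ≤ nn x.2 ≤ V`). The sum over `c` is a finite sum over the finite set `hfin R` (`finsum_mem_eq_finite_toFinset_sum`), exchange it with the sum over
`x`. `nx ≥ 1`. The number of pairs in `XP (prK K) S V` is at most `(#SF V) ^ 2 ≤ C V ^ 4` (`#SF V ≤ C V ^ 2`: `Pr.sfk_card` with `k = 1`, `log^n ≤ C V`, or the number of ideals).
-/

set_option autoImplicit false

open scoped NumberField Classical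
open IsDedekindDomain H63.MA NumberField H36.QA H57.LI H57.LC H67.SX H38.ML

noncomputable section

namespace H57.SL

/-- the coefficient of a pair is a sum of products -/
private theorem vfa_bb {ι : Type} (μ : ι → ℝ) (x : Finset ι × Finset ι)
    (hx : Disjoint x.1 x.2) :
    bb μ x = (-1) ^ x.2.card * ∑ g ∈ x.2.powerset, pd μ (x.1 ∪ g) := by
  unfold bb
  have h1 : pd (fun i => -(1 + μ i)) x.2 = (-1) ^ x.2.card * ∑ g ∈ x.2.powerset, pd μ g := by
    unfold pd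
    rw [← Finset.prod_one_add, ← Finset.prod_const, ← Finset.prod_mul_distrib]
    refine Finset.prod_congr rfl fun i _ => ?_
    ring
  rw [h1, mul_left_comm, Finset.mul_sum]
  congr 1
  refine Finset.sum_congr rfl fun g hg => ?_
  unfold pd
  rw [Finset.prod_union (Finset.disjoint_of_subset_right (Finset.mem_powerset.1 hg) hx)]

private theorem vfa_nn {ι : Type} (p : Pr ι) {s t : Finset ι} (h : s ⊆ t) : p.nn s ≤ p.nn t := by
  unfold Pr.nn
  exact Finset.prod_le_prod_of_subset_of_one_le h (fun i _ => zero_le_one.trans (p.one_le i))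
    (fun i _ _ => p.one_le i)

/-- the number of the squarefree products -/
private theorem vfa_card {ι : Type} (p : Pr ι) (V : ℝ) (hV : 1 ≤ V) :
    ((p.SF V).card : ℝ) ≤ p.C * 2 ^ (p.n + 1) * V ^ (p.n + 1) := by
  have hC := p.C1
  have h1 := p.sfk_card 1 (V + 1) (by linarith)
  have h2 : ((p.SF V).card : ℝ) ≤ ((p.SF (V + 1)).card : ℝ) := by
    have h3 : p.SF V ⊆ p.SF (V + 1) := by
      intro s hs
      rw [p.mem_SF] at hs ⊢
      linarith
    exact_mod_cast Finset.card_le_card h3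
  have h3 : ∑ s ∈ p.SF (V + 1), ((1 : ℕ) : ℝ) ^ s.card = ((p.SF (V + 1)).card : ℝ) := by
    simp
  rw [h3, pow_one] at h1
  have h4 : Real.log (V + 1) ≤ V + 1 := by
    have := Real.log_le_sub_one_of_pos (show (0 : ℝ) < V + 1 by linarith)
    linarith
  have h5 : 0 ≤ Real.log (V + 1) := Real.log_nonneg (by linarith)
  have h6 : V + 1 ≤ 2 * V := by linarith
  calc ((p.SF V).card : ℝ) ≤ (V + 1) * (p.C * Real.log (V + 1) ^ p.n) := h2.trans h1
    _ ≤ (2 * V) * (p.C * (2 * V) ^ p.n) := by gcongr; linarith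
    _ = p.C * 2 ^ (p.n + 1) * V ^ (p.n + 1) := by ring

theorem vfa {K : IntermediateField ℚ QBar} [NumberField K] (S : Finset (Pl K))
    (Q : DP K QBar) (c₀ : Cu K) (κ : ℝ) (m : Pl K → ℝ) (C : ℝ) (A : ℕ) (δ : ℝ) (hC : 1 ≤ C)
    (hfin : ∀ R : ℝ, {c : Cu K | LEq S Q c₀ c ∧ c.D ≤ R}.Finite)
    (h : ∀ q : Finset (Pl K), (∀ l ∈ q, l ∉ S) → ∀ R : ℝ, 1 ≤ R →
      |(∑ᶠ c ∈ {c : Cu K | LEq S Q c₀ c ∧ c.D ≤ R}, ∏ l ∈ q, c.mu l) -
        κ * R * ∏ l ∈ q, m l| ≤ C * nr q ^ A * R ^ (1 - δ)) :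
    ∃ (C' : ℝ) (A' : ℕ), 1 ≤ C' ∧ ∀ V R : ℝ, 1 ≤ V → 1 ≤ R →
      |(∑ᶠ c ∈ {c : Cu K | LEq S Q c₀ c ∧ c.D ≤ R}, AV (prK K) S c.mu V) -
        κ * R * AV (prK K) S m V| ≤ C' * V ^ A' * R ^ (1 - δ) := by
  have hpC := (prK K).C1
  obtain ⟨p, hp⟩ : ∃ p : Pr (Pl K), p = prK K := ⟨_, rfl⟩
  rw [← hp] at hpC
  have hnr : ∀ s : Finset (Pl K), p.nn s = nr s := by
    intro s
    rw [hp]
    unfold Pr.nn nr
    refine Finset.prod_congr rfl fun l _ => ?_
    rw [prK_N]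
  refine ⟨C * (p.C * 2 ^ (p.n + 1)) ^ 2, A + 1 + 2 * (p.n + 1), ?_, ?_⟩
  · refine one_le_mul_of_one_le_of_one_le hC (one_le_pow₀ ?_)
    exact one_le_mul_of_one_le_of_one_le hpC (one_le_pow₀ one_le_two)
  intro V R hV hR
  rw [← hp]
  have hV0 : 0 < V := by linarith
  have hR0 : 0 < R := by linarith
  -- finite sums
  rw [finsum_mem_eq_finite_toFinset_sum _ (hfin R)]
  obtain ⟨Fs, hFs⟩ : ∃ Fs : Finset (Cu K), Fs = (hfin R).toFinset := ⟨_, rfl⟩
  rw [← hFs]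
  have hq : ∀ q : Finset (Pl K), (∀ l ∈ q, l ∉ S) →
      |∑ c ∈ Fs, pd c.mu q - κ * R * pd m q| ≤ C * nr q ^ A * R ^ (1 - δ) := by
    intro q hq
    have h1 := h q hq R hR
    rw [finsum_mem_eq_finite_toFinset_sum _ (hfin R), ← hFs] at h1
    exact h1
  have e1 : ∑ c ∈ Fs, AV p S c.mu V - κ * R * AV p S m V =
      ∑ x ∈ XP p S V, (∑ c ∈ Fs, bb c.mu x - κ * R * bb m x) / nx p x := by
    unfold AV
    rw [Finset.sum_comm, Finset.mul_sum, ← Finset.sum_sub_distrib]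
    refine Finset.sum_congr rfl fun x _ => ?_
    rw [← Finset.sum_div, sub_div, mul_div_assoc]
  have e2 : ∀ x ∈ XP p S V, |(∑ c ∈ Fs, bb c.mu x - κ * R * bb m x) / nx p x| ≤
      V * (C * V ^ A * R ^ (1 - δ)) := by
    intro x hx
    unfold XP at hx
    rw [Finset.mem_filter] at hx
    obtain ⟨-, hd, hd1, hd2, hxV⟩ := hx
    have hn1 := p.one_le_nn x.1
    have hn2 := p.one_le_nn x.2
    have hnx1 : 1 ≤ nx p x := by
      unfold nx
      exact one_le_mul_of_one_le_of_one_le hn1 (one_le_pow₀ hn2)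
    have h12 : p.nn x.1 * p.nn x.2 ≤ V := by
      refine le_trans ?_ hxV
      unfold nx
      have h3 : p.nn x.2 ≤ p.nn x.2 ^ 2 := by nlinarith
      exact mul_le_mul_of_nonneg_left h3 (by linarith)
    have h2 : p.nn x.2 ≤ V := by nlinarith
    rw [abs_div, abs_of_pos (show 0 < nx p x by linarith)]
    refine (div_le_self (abs_nonneg _) hnx1).trans ?_
    have e3 : ∑ c ∈ Fs, bb c.mu x - κ * R * bb m x = (-1) ^ x.2.card *
        ∑ g ∈ x.2.powerset, (∑ c ∈ Fs, pd c.mu (x.1 ∪ g) - κ * R * pd m (x.1 ∪ g)) := by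
      rw [vfa_bb m x hd]
      have h3 : ∑ c ∈ Fs, bb c.mu x = (-1) ^ x.2.card * ∑ g ∈ x.2.powerset,
          ∑ c ∈ Fs, pd c.mu (x.1 ∪ g) := by
        rw [Finset.sum_comm, Finset.mul_sum]
        exact Finset.sum_congr rfl fun c _ => vfa_bb c.mu x hd
      rw [h3, Finset.sum_sub_distrib, mul_sub, ← Finset.mul_sum]
      ring
    rw [e3, abs_mul, abs_pow, abs_neg, abs_one, one_pow, one_mul]
    refine (Finset.abs_sum_le_sum_abs _ _).trans ?_
    have e4 : ∀ g ∈ x.2.powerset, |∑ c ∈ Fs, pd c.mu (x.1 ∪ g) - κ * R * pd m (x.1 ∪ g)| ≤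
        C * V ^ A * R ^ (1 - δ) := by
      intro g hg
      have hg' := Finset.mem_powerset.1 hg
      refine (hq _ ?_).trans ?_
      · intro l hl hlS
        rw [Finset.mem_union] at hl
        rcases hl with hl | hl
        · exact Finset.disjoint_left.1 hd1 hl hlS
        · exact Finset.disjoint_left.1 hd2 (hg' hl) hlS
      · have h3 : nr (x.1 ∪ g) ≤ V := by
          rw [← hnr]
          have h4 : p.nn (x.1 ∪ g) = p.nn x.1 * p.nn g := by
            unfold Pr.nn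
            exact Finset.prod_union (Finset.disjoint_of_subset_right hg' hd)
          have h5 : p.nn g ≤ p.nn x.2 := vfa_nn p hg'
          rw [h4]
          exact (mul_le_mul_of_nonneg_left h5 (by linarith)).trans h12
        have h4 : 0 ≤ nr (x.1 ∪ g) := by
          rw [← hnr]
          exact (p.nn_pos _).le
        gcongr
    refine (Finset.sum_le_sum e4).trans ?_
    rw [Finset.sum_const, Finset.card_powerset, nsmul_eq_mul]
    have h3 : (((2 ^ x.2.card : ℕ)) : ℝ) ≤ V := by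
      refine le_trans ?_ h2
      push_cast
      rw [← Finset.prod_const]
      unfold Pr.nn
      exact Finset.prod_le_prod (fun _ _ => by norm_num) fun i _ => p.two_le i
    exact mul_le_mul_of_nonneg_right h3 (by positivity)
  rw [e1]
  refine (Finset.abs_sum_le_sum_abs _ _).trans ((Finset.sum_le_sum e2).trans ?_)
  rw [Finset.sum_const, nsmul_eq_mul]
  have e5 : ((XP p S V).card : ℝ) ≤ (p.C * 2 ^ (p.n + 1) * V ^ (p.n + 1)) ^ 2 := by
    have h1 : (XP p S V).card ≤ (p.SF V).card * (p.SF V).card := by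
      unfold XP
      exact (Finset.card_filter_le _ _).trans (Finset.card_product _ _).le
    have h2 := vfa_card p V hV
    calc ((XP p S V).card : ℝ) ≤ ((p.SF V).card : ℝ) * ((p.SF V).card : ℝ) := by exact_mod_cast h1
      _ = ((p.SF V).card : ℝ) ^ 2 := by ring
      _ ≤ (p.C * 2 ^ (p.n + 1) * V ^ (p.n + 1)) ^ 2 := by gcongr
  calc ((XP p S V).card : ℝ) * (V * (C * V ^ A * R ^ (1 - δ)))
      ≤ (p.C * 2 ^ (p.n + 1) * V ^ (p.n + 1)) ^ 2 * (V * (C * V ^ A * R ^ (1 - δ))) :=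
        mul_le_mul_of_nonneg_right e5 (by positivity)
    _ = C * (p.C * 2 ^ (p.n + 1)) ^ 2 * V ^ (A + 1 + 2 * (p.n + 1)) * R ^ (1 - δ) := by ring

end H57.SL
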